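import Pool.Agent.H533HB.Stmts

/-!
# Task A1: the infinite graph is sparse, and finite character of the closure
-/

set_option autoImplicit false

namespace Pool.Agent.H533HB

open Finset
open scoped Classical

namespace AOne

/-! ## finite character -/

section Fin

variable {V W : Type}

/-- the part of `G` inside `U` -/
def restr (G : SimpleGraph W) (U : Finset W) : SimpleGraph W :=
  SimpleGraph.fromRel fun x y => x ∈ U ∧ y ∈ U ∧ G.Adj x y

theorem restr_adj {G : SimpleGraph W} {U : Finset W} {x y : W} :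
    (restr G U).Adj x y ↔ x ∈ U ∧ y ∈ U ∧ G.Adj x y := by
  unfold restr
  rw [SimpleGraph.fromRel_adj]
  constructor
  · rintro ⟨_, h | h⟩
    · exact h
    · exact ⟨h.2.1, h.1, h.2.2.symm⟩
  · intro h
    exact ⟨h.2.2.ne, Or.inl h⟩

theorem restr_mono (G : SimpleGraph W) {U U' : Finset W} (h : U ⊆ U') :
    restr G U ≤ restr G U' := by
  intro x y hxy
  rw [restr_adj] at *
  exact ⟨h hxy.1, h hxy.2.1, hxy.2.2⟩

/-- edges of the hull that come from a finite part of `G` -/
def finHull (H : SimpleGraph V) (G : SimpleGraph W) : SimpleGraph W where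
  Adj x y := ∃ U : Finset W, (hull H (restr G U)).Adj x y
  symm := ⟨fun _ _ ⟨U, hU⟩ => ⟨U, hU.symm⟩⟩
  loopless := ⟨fun _ ⟨_, hU⟩ => hU.ne rfl⟩

theorem hull_restr_mono (H : SimpleGraph V) (G : SimpleGraph W) {U U' : Finset W} (h : U ⊆ U')
    {x y : W} (hxy : (hull H (restr G U)).Adj x y) : (hull H (restr G U')).Adj x y :=
  hull_mono (restr_mono G h) hxy

theorem le_finHull (H : SimpleGraph V) (G : SimpleGraph W) : G ≤ finHull H G := by
  intro x y hxy
  refine ⟨{x, y}, le_hull ?_⟩
  rw [restr_adj]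
  exact ⟨by simp, by simp, hxy⟩

theorem closed_finHull [Finite V] (H : SimpleGraph V) (G : SimpleGraph W) :
    HClosed H (finHull H G) := by
  have := Fintype.ofFinite V
  intro f hf a b hab h
  have h' : ∀ c d, ∃ U : Finset W, H.Adj c d → s(c, d) ≠ s(a, b) →
      (hull H (restr G U)).Adj (f c) (f d) := by
    intro c d
    by_cases hc : H.Adj c d ∧ s(c, d) ≠ s(a, b)
    · obtain ⟨U, hU⟩ := h c d hc.1 hc.2
      exact ⟨U, fun _ _ => hU⟩
    · exact ⟨∅, fun h1 h2 => absurd ⟨h1, h2⟩ hc⟩
  choose U hU using h'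
  refine ⟨(univ : Finset (V × V)).biUnion fun p => U p.1 p.2, ?_⟩
  refine hull_closed f hf a b hab fun c d hcd hne => ?_
  refine hull_restr_mono H G ?_ (hU c d hcd hne)
  exact subset_biUnion_of_mem (fun p : V × V => U p.1 p.2) (mem_univ (c, d))

end Fin

end AOne

theorem A_finite : S_A_finite := by
  intro V W _ H G K hK
  have h1 : hull H G ≤ AOne.finHull H G :=
    hull_le (AOne.le_finHull H G) (AOne.closed_finHull H G)
  have h2 : ∀ x y : W, ∃ U : Finset W, x ∈ K → y ∈ K → x ≠ y →
      (hull H (AOne.restr G U)).Adj x y := by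
    intro x y
    by_cases h : x ∈ K ∧ y ∈ K ∧ x ≠ y
    · obtain ⟨U, hU⟩ := h1 (hK x h.1 y h.2.1 h.2.2)
      exact ⟨U, fun _ _ _ => hU⟩
    · exact ⟨∅, fun a b c => absurd ⟨a, b, c⟩ h⟩
  choose U hU using h2
  refine ⟨K ∪ (K ×ˢ K).biUnion fun p => U p.1 p.2, subset_union_left, ?_⟩
  intro x hx y hy hxy
  refine AOne.hull_restr_mono H G ?_ (hU x y hx hy hxy)
  refine Subset.trans ?_ subset_union_right
  exact subset_biUnion_of_mem (fun p : W × W => U p.1 p.2)
    (show (x, y) ∈ K ×ˢ K from mem_product.2 ⟨hx, hy⟩)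

namespace AOne

/-! ## sparseness -/

section Sparse

variable {T I V : Type} (X : Data T I V) (hub : T) (e0 : Sym2 V)

theorem ee_self_singleton {W : Type} (G : SimpleGraph W) (a : W) : ee G {a} {a} = 0 := by
  unfold ee
  simp

theorem ee_insert_le {W : Type} [inst : DecidableEq W] (G : SimpleGraph W) {a : W}
    {s : Finset W} (ha : a ∉ s) (d : ℕ)
    (h : #{b ∈ s | G.Adj a b} ≤ d) : ee G (insert a s) (insert a s) ≤ ee G s s + 2 * d := by
  have h0 : (insert a s : Finset W) = {a} ∪ s := insert_eq a s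
  have h1 := ee_union G (disjoint_singleton_left.2 ha)
  rw [ee_self_singleton, ee_singleton_left] at h1
  have h2 : ((#{b ∈ s | G.Adj a b} : ℕ) : ℤ) ≤ d := by exact_mod_cast h
  have h3 : ee G (insert a s) (insert a s) = 0 + 2 * (#{b ∈ s | G.Adj a b} : ℤ) + ee G s s := by
    rw [← h1]
    congr 1 <;> · ext y; simp
  linarith

variable [Fintype V]

/-- a tree vertex -/
theorem tree_deg (hX : CoreOK X) (x : List (T × ℕ)) (s : Finset (HV X ⊕ List (T × ℕ)))
    (hs : ∀ y, .inr y ∈ s → y.length ≤ x.length) :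
    #{b ∈ s | (AA X hub e0).Adj (.inr x) b} ≤ 16 := by
  have hsub : ({b ∈ s | (AA X hub e0).Adj (.inr x) b} : Finset (HV X ⊕ List (T × ℕ))) ⊆
      (X.L (tt hub x)).image (fun l => (.inl (.inl l) : HV X ⊕ List (T × ℕ))) ∪
        {.inr x.tail} := by
    intro b hb
    rw [mem_filter] at hb
    obtain ⟨hbs, hb⟩ := hb
    rw [mem_union, mem_image, mem_singleton]
    rcases b with (l | b) | y
    · exact Or.inl ⟨l, hb, rfl⟩
    · exact hb.elim
    · right
      obtain ⟨t, i, h | h⟩ := hb
      · have := hs y hbs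
        rw [h.2, List.length_cons] at this
        omega
      · rw [h.2, List.tail_cons]
  refine (card_le_card hsub).trans ((card_union_le _ _).trans ?_)
  have h1 : #((X.L (tt hub x)).image (fun l => (.inl (.inl l) : HV X ⊕ List (T × ℕ)))) ≤ 15 :=
    card_image_le.trans (hX.Lcard _).le
  rw [card_singleton]
  omega

/-- the core part -/
theorem core_part (hX : CoreOK X) (a0 b0 : V) (hab : X.C.Adj a0 b0) (F : Finset V)
    (hF : F.Nonempty) :
    (∑ a ∈ F, ∑ b ∈ F, if (AA X hub s(a0, b0)).Adj (.inl (.inl a)) (.inl (.inl b))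
      then (1 : ℤ) else 0) < 32 * #F := by
  have hadj : ∀ a b : V, (AA X hub s(a0, b0)).Adj (.inl (.inl a)) (.inl (.inl b)) →
      X.C.Adj a b ∧ s(a, b) ≠ s(a0, b0) := fun a b h => ⟨h.1, h.2 a b rfl⟩
  have hle : (∑ a ∈ F, ∑ b ∈ F, if (AA X hub s(a0, b0)).Adj (.inl (.inl a)) (.inl (.inl b))
      then (1 : ℤ) else 0) ≤ ee X.C F F := by
    unfold ee
    refine sum_le_sum fun a _ => sum_le_sum fun b _ => ?_
    by_cases h : (AA X hub s(a0, b0)).Adj (.inl (.inl a)) (.inl (.inl b))
    · rw [if_pos h, if_pos (hadj a b h).1]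
    · rw [if_neg h]; split_ifs <;> norm_num
  by_cases hu : F = univ
  · have hlt : (∑ a ∈ F, ∑ b ∈ F, if (AA X hub s(a0, b0)).Adj (.inl (.inl a)) (.inl (.inl b))
        then (1 : ℤ) else 0) < ee X.C F F := by
      unfold ee
      refine sum_lt_sum (fun a _ => sum_le_sum fun b _ => ?_) ⟨a0, hu ▸ mem_univ _,
        sum_lt_sum (fun b _ => ?_) ⟨b0, hu ▸ mem_univ _, ?_⟩⟩
      · by_cases h : (AA X hub s(a0, b0)).Adj (.inl (.inl a)) (.inl (.inl b))
        · rw [if_pos h, if_pos (hadj a b h).1]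
        · rw [if_neg h]; split_ifs <;> norm_num
      · by_cases h : (AA X hub s(a0, b0)).Adj (.inl (.inl a0)) (.inl (.inl b))
        · rw [if_pos h, if_pos (hadj a0 b h).1]
        · rw [if_neg h]; split_ifs <;> norm_num
      · rw [if_neg fun h => (hadj a0 b0 h).2 rfl, if_pos hab]
        norm_num
    refine hlt.trans_le ?_
    rw [hu, hX.edges, card_univ]
  · have := hX.c1 F hF hu
    linarith

/-- the remaining vertices of `H`: degree count -/
theorem rest_deg (hX : CoreOK X) (hc : CycOK X) (b : Unit ⊕ (Σ i : I, Fin (X.len i)))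
    (A : Finset V) (B : Finset (Unit ⊕ (Σ i : I, Fin (X.len i)))) :
    2 * #{a ∈ A | (HG X).Adj (.inr b) (.inl a)} + #{c ∈ B | (HG X).Adj (.inr b) (.inr c)} ≤ 32 ∧
      #{c ∈ B | (HG X).Adj (.inr b) (.inr c)} ≤ 2 := by
  rcases b with u | ⟨i, j⟩
  · have h1 : ({a ∈ A | (HG X).Adj (.inr (.inl u)) (.inl a)} : Finset V) ⊆ X.D := by
      intro a ha
      exact (mem_filter.1 ha).2
    have h2 : ({c ∈ B | (HG X).Adj (.inr (.inl u)) (.inr c)} :
        Finset (Unit ⊕ (Σ i : I, Fin (X.len i)))) = ∅ := by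
      rw [filter_eq_empty_iff]
      intro c _ h
      exact h
    have h3 := card_le_card h1
    rw [hX.Dcard] at h3
    rw [h2, card_empty]
    omega
  · have h1 : ({a ∈ A | (HG X).Adj (.inr (.inr ⟨i, j⟩)) (.inl a)} : Finset V) ⊆
        X.L (X.ty i j) := by
      intro a ha
      exact (mem_filter.1 ha).2
    have h3 := card_le_card h1
    rw [hX.Lcard] at h3
    have hlen := hc.len3 i
    have hpos : 0 < X.len i := by omega
    have h2 : ({c ∈ B | (HG X).Adj (.inr (.inr ⟨i, j⟩)) (.inr c)} :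
        Finset (Unit ⊕ (Σ i : I, Fin (X.len i)))) ⊆
        {.inr ⟨i, ⟨(j + 1) % X.len i, Nat.mod_lt _ hpos⟩⟩,
          .inr ⟨i, ⟨(j + X.len i - 1) % X.len i, Nat.mod_lt _ hpos⟩⟩} := by
      intro c hcc
      have hcc' := (mem_filter.1 hcc).2
      rcases c with c | ⟨i', j'⟩
      · exact hcc'.elim
      · obtain ⟨_, h4, h5⟩ := hcc'
        simp only at h4
        subst h4
        rw [mem_insert, mem_singleton]
        rcases h5 with h5 | h5
        · left
          simp only at h5
          have : j' = ⟨(j + 1) % X.len i, Nat.mod_lt _ hpos⟩ := Fin.ext h5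
          rw [this]
        · right
          simp only at h5
          have : j' = ⟨(j + X.len i - 1) % X.len i, Nat.mod_lt _ hpos⟩ := by
            apply Fin.ext
            simp only
            have hj' := j'.2
            rw [h5]
            by_cases hlast : (j' : ℕ) + 1 = X.len i
            · rw [hlast, Nat.mod_self, Nat.zero_add, Nat.mod_eq_of_lt (by omega)]
              omega
            · rw [Nat.mod_eq_of_lt (a := (j' : ℕ) + 1) (by omega)]
              have : (j' : ℕ) + 1 + X.len i - 1 = j' + X.len i := by omega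
              rw [this, Nat.add_mod_right, Nat.mod_eq_of_lt hj']
          rw [this]
    have h4 := (card_le_card h2).trans card_le_two
    omega

/-- the part without tree vertices -/
theorem base_part (hX : CoreOK X) (hc : CycOK X) (a0 b0 : V) (hab : X.C.Adj a0 b0)
    (F : Finset (HV X)) (hF : F.Nonempty) :
    (∑ x ∈ F, ∑ y ∈ F, if (AA X hub s(a0, b0)).Adj (.inl x) (.inl y)
      then (1 : ℤ) else 0) < 32 * #F := by
  obtain ⟨A, B, rfl⟩ : ∃ (A : Finset V) (B : Finset (Unit ⊕ (Σ i : I, Fin (X.len i)))),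
      F = A.disjSum B := ⟨_, _, toLeft_disjSum_toRight.symm⟩
  simp only [sum_disjSum, sum_add_distrib, card_disjSum]
  have hcomm : (∑ a ∈ A, ∑ b ∈ B, if (AA X hub s(a0, b0)).Adj (.inl (.inl a)) (.inl (.inr b))
      then (1 : ℤ) else 0) =
      ∑ b ∈ B, ∑ a ∈ A, if (AA X hub s(a0, b0)).Adj (.inl (.inr b)) (.inl (.inl a))
      then (1 : ℤ) else 0 := by
    rw [sum_comm]
    refine sum_congr rfl fun b _ => sum_congr rfl fun a _ => ?_
    simp only [SimpleGraph.adj_comm]
  have h1 : ∀ b ∈ B, (∑ a ∈ A, if (AA X hub s(a0, b0)).Adj (.inl (.inr b)) (.inl (.inl a))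
      then (1 : ℤ) else 0) ≤ #{a ∈ A | (HG X).Adj (.inr b) (.inl a)} := by
    intro b _
    rw [card_filter]
    push_cast
    refine sum_le_sum fun a _ => ?_
    by_cases h : (AA X hub s(a0, b0)).Adj (.inl (.inr b)) (.inl (.inl a))
    · rw [if_pos h, if_pos h.1]
    · rw [if_neg h]; split_ifs <;> norm_num
  have h2 : ∀ b ∈ B, (∑ c ∈ B, if (AA X hub s(a0, b0)).Adj (.inl (.inr b)) (.inl (.inr c))
      then (1 : ℤ) else 0) ≤ #{c ∈ B | (HG X).Adj (.inr b) (.inr c)} := by
    intro b _
    rw [card_filter]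
    push_cast
    refine sum_le_sum fun a _ => ?_
    by_cases h : (AA X hub s(a0, b0)).Adj (.inl (.inr b)) (.inl (.inr a))
    · rw [if_pos h, if_pos h.1]
    · rw [if_neg h]; split_ifs <;> norm_num
  have h3 := sum_le_sum h1
  have h4 := sum_le_sum h2
  have h5 : ∑ b ∈ B, (2 * (#{a ∈ A | (HG X).Adj (.inr b) (.inl a)} : ℤ) +
      (#{c ∈ B | (HG X).Adj (.inr b) (.inr c)} : ℤ)) ≤ ∑ _b ∈ B, (32 : ℤ) :=
    sum_le_sum fun b _ => by exact_mod_cast (rest_deg X hX hc b A B).1
  rw [sum_add_distrib, ← mul_sum, sum_const, nsmul_eq_mul] at h5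
  have h6 : ∑ b ∈ B, (#{c ∈ B | (HG X).Adj (.inr b) (.inr c)} : ℤ) ≤ ∑ _b ∈ B, (2 : ℤ) :=
    sum_le_sum fun b _ => by exact_mod_cast (rest_deg X hX hc b A B).2
  rw [sum_const, nsmul_eq_mul] at h6
  rcases A.eq_empty_or_nonempty with hA | hA
  · subst hA
    have hB : 0 < #B := by
      rw [card_pos]
      obtain ⟨x, hx⟩ := hF
      rw [mem_disjSum] at hx
      rcases hx with ⟨a, ha, _⟩ | ⟨b, hb, _⟩
      · simp at ha
      · exact ⟨b, hb⟩
    have hB' : (0 : ℤ) < #B := by exact_mod_cast hB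
    simp only [sum_empty, sum_const_zero, card_empty, zero_add]
    linarith
  · have h7 := core_part X hub hX a0 b0 hab A hA
    rw [hcomm]
    push_cast
    linarith

end Sparse

end AOne

theorem A_sparse : S_A_sparse := by
  intro T I V _ X hX hc hub a0 b0 hab F
  refine Finset.induction_on_max_value
    (fun x : HV X ⊕ List (T × ℕ) => Sum.elim (fun _ => 0) (fun l => l.length + 1) x) F ?_ ?_
  · intro h
    exact absurd h (by simp)
  · intro x s hx hmax ih _
    rcases x with x | x
    · have hs : ∀ y ∈ s, ∃ z, y = .inl z := by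
        intro y hy
        rcases y with z | l
        · exact ⟨z, rfl⟩
        · have := hmax _ hy
          simp at this
      obtain ⟨A, hA⟩ : ∃ A : Finset (HV X), insert (.inl x) s = A.disjSum ∅ := by
        refine ⟨(insert (.inl x) s).toLeft, ?_⟩
        rw [eq_comm, disjSum_eq_iff]
        refine ⟨rfl, ?_⟩
        rw [eq_comm, eq_empty_iff_forall_notMem]
        intro y hy
        rw [mem_toRight, mem_insert] at hy
        rcases hy with h | h
        · simp at h
        · obtain ⟨z, hz⟩ := hs _ h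
          simp at hz
      rw [hA]
      unfold ee
      simp only [sum_disjSum, sum_empty, add_zero, card_disjSum, card_empty]
      refine AOne.base_part X hub hX hc a0 b0 hab A ?_
      have : (.inl x : HV X ⊕ List (T × ℕ)) ∈ A.disjSum ∅ := hA ▸ mem_insert_self _ _
      rw [inl_mem_disjSum] at this
      exact ⟨x, this⟩
    · have hd := AOne.tree_deg X hub s(a0, b0) hX x s fun y hy => by
        have := hmax _ hy
        simpa using this
      have h1 := AOne.ee_insert_le (AA X hub s(a0, b0)) hx 16 hd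
      rw [card_insert_of_notMem hx]
      rcases s.eq_empty_or_nonempty with hs | hs
      · subst hs
        rw [show (insert (.inr x) ∅ : Finset (HV X ⊕ List (T × ℕ))) = {.inr x} from rfl,
          AOne.ee_self_singleton]
        norm_num
      · have h2 := ih hs
        push_cast at h1 ⊢
        linarith

end Pool.Agent.H533HB
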