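import Pool.Agent.H533HB.Stmts

/-!
# Task A2: the group action, children of the root of different types `b` are joined
-/

set_option autoImplicit false

namespace Pool.Agent.H533HB.Multi

open Finset
open scoped Classical

section General

variable {T I V : Type} (X : Data T I V) (hub : T) (a0 b0 : V)

/-- the closure of the infinite graph -/
abbrev Ah : SimpleGraph (HV X ⊕ List (T × ℕ)) := hull (HG X) (AA X hub s(a0, b0))

theorem core_edge {a b : V} (h : X.C.Adj a b) :
    (Ah X hub a0 b0).Adj (.inl (.inl a)) (.inl (.inl b)) := by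
  have key : ∀ a b c d : V, s((Sum.inl a : HV X), (Sum.inl b : HV X)) = s(.inl c, .inl d) →
      s(a, b) = s(c, d) := by
    intro a b c d h
    rw [Sym2.eq_iff] at h ⊢
    simpa using h
  by_cases he : s(a, b) = s(a0, b0)
  · refine hull_closed (H := HG X) (f := Sum.inl) Sum.inl_injective (.inl a) (.inl b) h ?_
    intro c d hcd hne
    refine le_hull ⟨hcd, fun c' d' h1 h2 => hne ?_⟩
    rw [h1]
    rw [← h2, Sym2.eq_iff] at he
    rw [Sym2.eq_iff]
    rcases he with ⟨rfl, rfl⟩ | ⟨rfl, rfl⟩
    · exact Or.inl ⟨rfl, rfl⟩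
    · exact Or.inr ⟨rfl, rfl⟩
  · refine le_hull ⟨h, fun c' d' h1 h2 => he ?_⟩
    rw [key _ _ _ _ h1, h2]

/-- the embedding of `H` which moves the cycle `c` to the vertices `x` -/
noncomputable def emb (c : I) (x : ℕ → List (T × ℕ)) : HV X → HV X ⊕ List (T × ℕ)
  | .inl a => .inl (.inl a)
  | .inr (.inl u) => .inl (.inr (.inl u))
  | .inr (.inr k) => if k.1 = c then .inr (x k.2) else .inl (.inr (.inr k))

theorem emb_inj (c : I) (x : ℕ → List (T × ℕ))
    (hx : ∀ j < X.len c, ∀ k < X.len c, x j = x k → j = k) :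
    Function.Injective (emb X c x) := by
  rintro (a | u | ⟨i, k⟩) (b | u' | ⟨i', k'⟩) h
  · simp only [emb, Sum.inl.injEq] at h; rw [h]
  · simp [emb] at h
  · simp only [emb] at h; split_ifs at h
    simp at h
  · simp [emb] at h
  · rfl
  · simp only [emb] at h; split_ifs at h
    simp at h
  · simp only [emb] at h; split_ifs at h
    simp at h
  · simp only [emb] at h; split_ifs at h
    simp at h
  · simp only [emb] at h
    by_cases h1 : i = c
    · by_cases h2 : i' = c
      · subst h1; subst h2
        simp only [if_true, Sum.inr.injEq] at h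
        have := hx k k.2 k' k'.2 h
        rw [Fin.ext this]
      · rw [if_pos h1, if_neg h2] at h
        simp at h
    · by_cases h2 : i' = c
      · rw [if_neg h1, if_pos h2] at h
        simp at h
      · rw [if_neg h1, if_neg h2] at h
        simpa using h

/-- rule (*) -/
theorem star (c : I) (hlen : 3 ≤ X.len c) (x : ℕ → List (T × ℕ))
    (hxl : x (X.len c) = x 0)
    (hx : ∀ j < X.len c, ∀ k < X.len c, x j = x k → j = k)
    (hty : ∀ j < X.len c, tt hub (x j) = X.ty c j) (j0 : ℕ) (hj0 : j0 < X.len c)
    (h : ∀ j < X.len c, j ≠ j0 → (Ah X hub a0 b0).Adj (.inr (x j)) (.inr (x (j + 1)))) :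
    (Ah X hub a0 b0).Adj (.inr (x j0)) (.inr (x (j0 + 1))) := by
  have hmod : ∀ j < X.len c, x ((j + 1) % X.len c) = x (j + 1) := by
    intro j hj
    rcases Nat.lt_or_ge (j + 1) (X.len c) with h1 | h1
    · rw [Nat.mod_eq_of_lt h1]
    · have h2 : j + 1 = X.len c := by omega
      rw [h2, Nat.mod_self, hxl]
  have hj1 : (j0 + 1) % X.len c < X.len c := Nat.mod_lt _ (by omega)
  have hne : j0 ≠ (j0 + 1) % X.len c := by
    intro h1
    rcases Nat.lt_or_ge (j0 + 1) (X.len c) with h2 | h2
    · rw [Nat.mod_eq_of_lt h2] at h1; omega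
    · have h3 : j0 + 1 = X.len c := by omega
      rw [h3, Nat.mod_self] at h1; omega
  have hcl := hull_closed (H := HG X) (G := AA X hub s(a0, b0)) (emb X c x) (emb_inj X c x hx)
    (.inr (.inr ⟨c, ⟨j0, hj0⟩⟩)) (.inr (.inr ⟨c, ⟨(j0 + 1) % X.len c, hj1⟩⟩)) (by
      refine ⟨?_, rfl, Or.inl rfl⟩
      intro h1
      simp only [Sigma.mk.injEq, heq_eq_eq, Fin.mk.injEq, true_and] at h1
      exact hne h1) (by
      rintro (a | u | ⟨i, k⟩) (b | u' | ⟨i', k'⟩) hab hs
      · exact core_edge X hub a0 b0 hab
      · exact le_hull ⟨hab, fun c' d' h1 => by simp at h1⟩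
      · simp only [emb]
        by_cases hi : i' = c
        · subst hi
          rw [if_pos rfl]
          refine le_hull ?_
          change a ∈ X.L (tt hub (x k'))
          rw [hty _ k'.2]
          exact hab
        · rw [if_neg hi]
          exact le_hull ⟨hab, fun c' d' h1 => by simp at h1⟩
      · exact le_hull ⟨hab, fun c' d' h1 => by simp at h1⟩
      · exact absurd hab (by intro h; exact h)
      · exact absurd hab (by intro h; exact h)
      · simp only [emb]
        by_cases hi : i = c
        · subst hi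
          rw [if_pos rfl]
          refine le_hull ?_
          change b ∈ X.L (tt hub (x k))
          rw [hty _ k.2]
          exact hab
        · rw [if_neg hi]
          exact le_hull ⟨hab, fun c' d' h1 => by simp at h1⟩
      · exact absurd hab (by intro h; exact h)
      · obtain ⟨h1, h2, h3⟩ := hab
        simp only at h2
        subst h2
        simp only [emb]
        by_cases hi : i = c
        · subst hi
          rw [if_pos rfl, if_pos rfl]
          simp only at h3
          rcases h3 with h3 | h3
          · have hk : (k : ℕ) ≠ j0 := by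
              intro hk
              apply hs
              have e1 : k = ⟨j0, hj0⟩ := Fin.ext hk
              have e2 : k' = ⟨(j0 + 1) % X.len i, hj1⟩ := by
                apply Fin.ext
                rw [h3, hk]
              rw [e1, e2]
            have := h k k.2 hk
            rw [h3, hmod _ k.2]
            exact this
          · have hk : (k' : ℕ) ≠ j0 := by
              intro hk
              apply hs
              have e1 : k' = ⟨j0, hj0⟩ := Fin.ext hk
              have e2 : k = ⟨(j0 + 1) % X.len i, hj1⟩ := by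
                apply Fin.ext
                rw [h3, hk]
              rw [e1, e2]
              exact Sym2.eq_swap
            have := h k' k'.2 hk
            rw [h3, hmod _ k'.2]
            exact this.symm
        · rw [if_neg hi, if_neg hi]
          exact le_hull ⟨⟨h1, rfl, h3⟩, fun c' d' h1 => by simp at h1⟩)
  simp only [emb, if_true] at hcl
  rw [hmod _ hj0] at hcl
  exact hcl

theorem tree_edge (x : List (T × ℕ)) (t : T) (i : ℕ) (h : X.TA.Adj t (tt hub x)) :
    (Ah X hub a0 b0).Adj (.inr x) (.inr ((t, i) :: x)) :=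
  le_hull ⟨t, i, Or.inl ⟨h, rfl⟩⟩

end General

section Concrete

variable {s0 : ℕ} {R : Finset (FreeGroup (Fin s0))} {w : List (Fin s0 × Bool)}
  {a0 b0 : VC (Fintype.card (Ty s0))}

abbrev Vx (s0 : ℕ) : Type := List (Ty s0 × ℕ)

/-- adjacency of tree vertices in the closure -/
def A (R : Finset (FreeGroup (Fin s0))) (w : List (Fin s0 × Bool))
    (a0 b0 : VC (Fintype.card (Ty s0))) (x y : Vx s0) : Prop :=
  (Ah (dat s0 R w) .hub a0 b0).Adj (.inr x) (.inr y)

theorem A.symm {x y : Vx s0} (h : A R w a0 b0 x y) : A R w a0 b0 y x := SimpleGraph.Adj.symm h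

theorem A_tree (x : Vx s0) (t : Ty s0) (i : ℕ) (h : tadj t (tt .hub x)) :
    A R w a0 b0 x ((t, i) :: x) := tree_edge (dat s0 R w) .hub a0 b0 x t i h

theorem tadj_symm {s t : Ty s0} (h : tadj s t) : tadj t s :=
  SimpleGraph.Adj.symm (G := TAg s0) h

theorem tadj_ne {s t : Ty s0} (h : tadj s t) : s ≠ t := (TAg s0).ne_of_adj h

/-- rule (*) for lists of types -/
theorem star' (c : Idx s0 R) (hlen : 3 ≤ (cyc w c).length) (x : ℕ → Vx s0)
    (hxl : x (cyc w c).length = x 0)
    (hx : ∀ j < (cyc w c).length, ∀ k < (cyc w c).length, x j = x k → j = k)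
    (hty : ∀ j < (cyc w c).length, tt .hub (x j) = (cyc w c).getD j .hub) (j0 : ℕ)
    (hj0 : j0 < (cyc w c).length)
    (h : ∀ j < (cyc w c).length, j ≠ j0 → A R w a0 b0 (x j) (x (j + 1))) :
    A R w a0 b0 (x j0) (x (j0 + 1)) :=
  star (dat s0 R w) .hub a0 b0 c hlen x hxl hx hty j0 hj0 h

/-- rule (R0) -/
theorem rule0 {x x' y z : Vx s0} (ht : tt .hub x = tt .hub x')
    (h1 : tadj (tt .hub x) (tt .hub y)) (h2 : tadj (tt .hub x) (tt .hub z)) (hx : x ≠ x')
    (hy : y ≠ z) (a1 : A R w a0 b0 x y) (a2 : A R w a0 b0 x' y) (a3 : A R w a0 b0 x' z) :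
    A R w a0 b0 x z := by
  have hxy : x ≠ y := by rintro rfl; exact tadj_ne h1 rfl
  have hxz : x ≠ z := by rintro rfl; exact tadj_ne h2 rfl
  have hx'y : x' ≠ y := by rintro rfl; exact tadj_ne h1 ht
  have hx'z : x' ≠ z := by rintro rfl; exact tadj_ne h2 ht
  let f : ℕ → Vx s0 := fun j => match j with
    | 0 => x
    | 1 => y
    | 2 => x'
    | 3 => z
    | _ => x
  have := star' (R := R) (w := w) (a0 := a0) (b0 := b0)
    (.inl ⟨(tt .hub x, tt .hub y, tt .hub z), h1, h2⟩) (by simp [cyc]) f rfl (by
      intro j hj k hk h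
      have hj' : j < 4 := hj
      have hk' : k < 4 := hk
      interval_cases j <;> interval_cases k <;> simp only [f] at h <;>
        first
          | rfl
          | exact absurd h hxy
          | exact absurd h hxz
          | exact absurd h hx
          | exact absurd h hy
          | exact absurd h hx'y
          | exact absurd h hx'z
          | exact absurd h.symm hxy
          | exact absurd h.symm hxz
          | exact absurd h.symm hx
          | exact absurd h.symm hy
          | exact absurd h.symm hx'y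
          | exact absurd h.symm hx'z) (by
      intro j hj
      have hj' : j < 4 := hj
      interval_cases j
      · rfl
      · rfl
      · exact ht.symm
      · rfl) 3 (by simp [cyc]) (by
      intro j hj hne
      have hj' : j < 4 := hj
      interval_cases j
      · exact a1
      · exact a2.symm
      · exact a3
      · exact absurd rfl hne)
  exact A.symm this

/-- `x` and `x'` have the same type and the same neighbours -/
def Tw (R : Finset (FreeGroup (Fin s0))) (w : List (Fin s0 × Bool))
    (a0 b0 : VC (Fintype.card (Ty s0))) (x x' : Vx s0) : Prop :=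
  tt .hub x = tt .hub x' ∧ ∀ z, tadj (tt .hub x) (tt .hub z) →
    (A R w a0 b0 x z ↔ A R w a0 b0 x' z)

theorem Tw.refl (x : Vx s0) : Tw R w a0 b0 x x := ⟨rfl, fun _ _ => Iff.rfl⟩

theorem Tw.symm {x x' : Vx s0} (h : Tw R w a0 b0 x x') : Tw R w a0 b0 x' x :=
  ⟨h.1.symm, fun z hz => (h.2 z (by rw [h.1]; exact hz)).symm⟩

theorem Tw.trans {x x' x'' : Vx s0} (h : Tw R w a0 b0 x x') (h' : Tw R w a0 b0 x' x'') :
    Tw R w a0 b0 x x'' :=
  ⟨h.1.trans h'.1, fun z hz => (h.2 z hz).trans (h'.2 z (by rw [← h.1]; exact hz))⟩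

theorem tw_common {x x' y : Vx s0} (ht : tt .hub x = tt .hub x')
    (h1 : tadj (tt .hub x) (tt .hub y)) (a1 : A R w a0 b0 x y) (a2 : A R w a0 b0 x' y) :
    Tw R w a0 b0 x x' := by
  refine ⟨ht, fun z hz => ?_⟩
  by_cases hx : x = x'
  · rw [hx]
  by_cases hy : y = z
  · rw [← hy]; exact ⟨fun _ => a2, fun _ => a1⟩
  constructor
  · intro a3
    exact rule0 ht.symm (by rw [← ht]; exact h1) (by rw [← ht]; exact hz) (Ne.symm hx) hy a2 a1 a3
  · intro a3
    exact rule0 ht h1 hz hx hy a1 a2 a3

/-- second and third type of the loop of a letter -/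
def t2 (e : Fin 51 × Fin 51) : Fin s0 × Bool → Ty s0
  | (s, true) => .p e s
  | (s, false) => .q e s

def t3 (e : Fin 51 × Fin 51) : Fin s0 × Bool → Ty s0
  | (s, true) => .q e s
  | (s, false) => .p e s

theorem loop_eq (e : Fin 51 × Fin 51) (l : Fin s0 × Bool) : loop e l = [.hub, t2 e l, t3 e l] := by
  rcases l with ⟨s, b⟩
  cases b <;> rfl

theorem t_hub2 (e : Fin 51 × Fin 51) (l : Fin s0 × Bool) : tadj .hub (t2 e l) := by
  rcases l with ⟨s, b⟩
  cases b <;> exact trivial

theorem t_23 (e : Fin 51 × Fin 51) (l : Fin s0 × Bool) : tadj (t2 e l) (t3 e l) := by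
  rcases l with ⟨s, b⟩
  cases b <;> exact ⟨rfl, rfl⟩

theorem t_3hub (e : Fin 51 × Fin 51) (l : Fin s0 × Bool) : tadj (t3 e l) .hub := by
  rcases l with ⟨s, b⟩
  cases b <;> exact trivial

/-- a step along a letter -/
def Stp (R : Finset (FreeGroup (Fin s0))) (w : List (Fin s0 × Bool))
    (a0 b0 : VC (Fintype.card (Ty s0))) (e : Fin 51 × Fin 51) (l : Fin s0 × Bool)
    (x x' : Vx s0) : Prop :=
  ∃ p q : Vx s0, tt .hub p = t2 e l ∧ tt .hub q = t3 e l ∧ A R w a0 b0 x p ∧ A R w a0 b0 p q ∧
    A R w a0 b0 q x'

theorem Stp.symm {e : Fin 51 × Fin 51} {s : Fin s0} {b : Bool} {x x' : Vx s0}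
    (h : Stp R w a0 b0 e (s, b) x x') : Stp R w a0 b0 e (s, !b) x' x := by
  obtain ⟨p, q, h1, h2, h3, h4, h5⟩ := h
  refine ⟨q, p, ?_, ?_, h5.symm, h4.symm, h3.symm⟩
  · rw [h2]; cases b <;> rfl
  · rw [h1]; cases b <;> rfl

theorem step_tw {e : Fin 51 × Fin 51} {l : Fin s0 × Bool} {x y x' y' : Vx s0}
    (hx : tt .hub x = .hub) (hx' : tt .hub x' = .hub)
    (hy' : tt .hub y' = .hub) (h : Tw R w a0 b0 x y) (h1 : Stp R w a0 b0 e l x x')
    (h2 : Stp R w a0 b0 e l y y') : Tw R w a0 b0 x' y' := by
  obtain ⟨p, q, p1, p2, p3, p4, p5⟩ := h1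
  obtain ⟨p', q', q1, q2, q3, q4, q5⟩ := h2
  have hyhub : tt .hub y = .hub := h.1.symm.trans hx
  have e1 : A R w a0 b0 y p := (h.2 p (by rw [hx, p1]; exact t_hub2 e l)).1 p3
  have e2 : Tw R w a0 b0 p p' := tw_common (y := y) (p1.trans q1.symm)
    (by rw [p1, hyhub]; exact tadj_symm (t_hub2 e l)) e1.symm q3.symm
  have e3 : A R w a0 b0 p' q := (e2.2 q (by rw [p1, p2]; exact t_23 e l)).1 p4
  have e4 : Tw R w a0 b0 q q' := tw_common (y := p') (p2.trans q2.symm)
    (by rw [p2, q1]; exact tadj_symm (t_23 e l)) e3.symm q4.symm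
  have e5 : A R w a0 b0 q' x' := (e4.2 x' (by rw [p2, hx']; exact t_3hub e l)).1 p5
  exact tw_common (y := q') (hx'.trans hy'.symm)
    (by rw [hx', q2]; exact tadj_symm (t_3hub e l)) e5.symm q5.symm

/-- vertices of type `hub` -/
abbrev Hub (s0 : ℕ) : Type := {x : Vx s0 // tt (T := Ty s0) .hub x = .hub}

/-- the canonical step -/
def stp (e : Fin 51 × Fin 51) (l : Fin s0 × Bool) (x : Hub s0) : Hub s0 :=
  ⟨(.hub, 0) :: (t3 e l, 0) :: (t2 e l, 0) :: x.1, rfl⟩

theorem Stp_stp (e : Fin 51 × Fin 51) (l : Fin s0 × Bool) (x : Hub s0) :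
    Stp R w a0 b0 e l x.1 (stp e l x).1 := by
  refine ⟨(t2 e l, 0) :: x.1, (t3 e l, 0) :: (t2 e l, 0) :: x.1, rfl, rfl, ?_, ?_, ?_⟩
  · exact A_tree _ _ _ (by rw [x.2]; exact tadj_symm (t_hub2 e l))
  · exact A_tree _ _ _ (tadj_symm (t_23 e l))
  · exact A_tree _ _ _ (tadj_symm (t_3hub e l))

/-- twins -/
def twS (R : Finset (FreeGroup (Fin s0))) (w : List (Fin s0 × Bool))
    (a0 b0 : VC (Fintype.card (Ty s0))) : Setoid (Hub s0) where
  r x y := Tw R w a0 b0 x.1 y.1
  iseqv := ⟨fun x => Tw.refl x.1, fun h => h.symm, fun h h' => h.trans h'⟩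

/-- the step as a permutation of the classes -/
def perm (R : Finset (FreeGroup (Fin s0))) (w : List (Fin s0 × Bool))
    (a0 b0 : VC (Fintype.card (Ty s0))) (e : Fin 51 × Fin 51) (s : Fin s0) :
    Equiv.Perm (Quotient (twS R w a0 b0)) where
  toFun := Quotient.map (stp e (s, true)) fun x y h =>
    step_tw x.2 (stp e _ x).2 (stp e _ y).2 h (Stp_stp e _ x) (Stp_stp e _ y)
  invFun := Quotient.map (stp e (s, false)) fun x y h =>
    step_tw x.2 (stp e _ x).2 (stp e _ y).2 h (Stp_stp e _ x) (Stp_stp e _ y)
  left_inv := by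
    intro x
    induction x using Quotient.inductionOn with
    | h x =>
      refine Quotient.sound (s := twS R w a0 b0) ?_
      exact step_tw (stp e (s, true) x).2 (stp e (s, false) (stp e (s, true) x)).2 x.2
        (Tw.refl (stp e (s, true) x).1) (Stp_stp e (s, false) (stp e (s, true) x))
        (Stp_stp e (s, true) x).symm
  right_inv := by
    intro x
    induction x using Quotient.inductionOn with
    | h x =>
      refine Quotient.sound (s := twS R w a0 b0) ?_
      exact step_tw (stp e (s, false) x).2 (stp e (s, true) (stp e (s, false) x)).2 x.2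
        (Tw.refl (stp e (s, false) x).1) (Stp_stp e (s, true) (stp e (s, false) x))
        (Stp_stp e (s, false) x).symm

/-- the action of the free group -/
def act (R : Finset (FreeGroup (Fin s0))) (w : List (Fin s0 × Bool))
    (a0 b0 : VC (Fintype.card (Ty s0))) (e : Fin 51 × Fin 51) :
    FreeGroup (Fin s0) →* Equiv.Perm (Quotient (twS R w a0 b0)) :=
  FreeGroup.lift fun s => (perm R w a0 b0 e s)⁻¹

/-- the canonical path -/
def cp (e : Fin 51 × Fin 51) : List (Fin s0 × Bool) → Hub s0 → Hub s0
  | [], x => x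
  | l :: u, x => cp e u (stp e l x)

theorem act_path (e : Fin 51 × Fin 51) (u : List (Fin s0 × Bool)) : ∀ x : Hub s0,
    (act R w a0 b0 e (FreeGroup.mk u))⁻¹ (Quotient.mk (twS R w a0 b0) x) =
      Quotient.mk (twS R w a0 b0) (cp e u x) := by
  induction u with
  | nil =>
    intro x
    have : (FreeGroup.mk [] : FreeGroup (Fin s0)) = 1 := rfl
    rw [this, map_one, inv_one]
    rfl
  | cons l u ih =>
    intro x
    have h1 : (FreeGroup.mk (l :: u) : FreeGroup (Fin s0)) = FreeGroup.mk [l] * FreeGroup.mk u := by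
      rw [FreeGroup.mul_mk]; rfl
    rw [h1, map_mul, mul_inv_rev, Equiv.Perm.mul_apply]
    have h2 : (act R w a0 b0 e (FreeGroup.mk [l]))⁻¹ (Quotient.mk (twS R w a0 b0) x) =
        Quotient.mk (twS R w a0 b0) (stp e l x) := by
      rcases l with ⟨s, b⟩
      cases b
      · have : (FreeGroup.mk [(s, false)] : FreeGroup (Fin s0)) = (FreeGroup.of s)⁻¹ := rfl
        rw [this, map_inv, inv_inv]
        unfold act
        rw [FreeGroup.lift_apply_of]
        rfl
      · have : (FreeGroup.mk [(s, true)] : FreeGroup (Fin s0)) = FreeGroup.of s := rfl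
        rw [this]
        unfold act
        rw [FreeGroup.lift_apply_of, inv_inv]
        rfl
    rw [h2, ih]
    rfl

/-! ### paths in the tree -/

/-- descend from `x` along the types `l` -/
def ds (l : List (Ty s0)) (x : Vx s0) : Vx s0 := (l.map fun t => (t, 0)).reverse ++ x

theorem ds_length (l : List (Ty s0)) (x : Vx s0) : (ds l x).length = l.length + x.length := by
  simp [ds]

theorem ds_succ (l : List (Ty s0)) (x : Vx s0) (m : ℕ) (h : m < l.length) :
    ds (l.take (m + 1)) x = (l[m], 0) :: ds (l.take m) x := by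
  unfold ds
  rw [← List.take_append_getElem h, List.map_append, List.reverse_append]
  rfl

/-- the types after the first one, along the loops of a word -/
def ts (e : Fin 51 × Fin 51) : List (Fin s0 × Bool) → List (Ty s0)
  | [] => []
  | l :: u => t2 e l :: t3 e l :: .hub :: ts e u

theorem ts_length (e : Fin 51 × Fin 51) (u : List (Fin s0 × Bool)) :
    (ts e u).length = 3 * u.length := by
  induction u with
  | nil => rfl
  | cons l u ih => simp only [ts, List.length_cons, ih]; ring

theorem loops_hub (e : Fin 51 × Fin 51) (u : List (Fin s0 × Bool)) :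
    loops e u ++ [.hub] = .hub :: ts e u := by
  induction u with
  | nil => rfl
  | cons l u ih =>
    have : loops e (l :: u) = loop e l ++ loops e u := by simp [loops]
    rw [this, loop_eq, List.append_assoc, ih]
    rfl

theorem loops_length (e : Fin 51 × Fin 51) (u : List (Fin s0 × Bool)) :
    (loops e u).length = 3 * u.length := by
  have := congrArg List.length (loops_hub e u)
  simp only [List.length_append, List.length_cons, List.length_nil, ts_length] at this
  omega

theorem ts_chain (e : Fin 51 × Fin 51) (u : List (Fin s0 × Bool)) :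
    ∀ m (h : m < (ts e u).length), tadj ((ts e u)[m]) ((.hub :: ts e u)[m]'(by
      simp only [List.length_cons]; omega)) := by
  induction u with
  | nil => intro m h; simp [ts] at h
  | cons l u ih =>
    intro m h
    rcases m with _ | _ | _ | m
    · exact tadj_symm (t_hub2 e l)
    · exact tadj_symm (t_23 e l)
    · exact tadj_symm (t_3hub e l)
    · exact ih m (by simp only [ts, List.length_cons] at h; omega)

/-- the vertices on the path -/
def Zp (e : Fin 51 × Fin 51) (u : List (Fin s0 × Bool)) (x : Vx s0) (m : ℕ) : Vx s0 :=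
  ds ((ts e u).take m) x

theorem Zp_length (e : Fin 51 × Fin 51) (u : List (Fin s0 × Bool)) (x : Vx s0) (m : ℕ)
    (h : m ≤ 3 * u.length) : (Zp e u x m).length = m + x.length := by
  unfold Zp
  rw [ds_length, List.length_take, ts_length, min_eq_left h]

theorem Zp_zero (e : Fin 51 × Fin 51) (u : List (Fin s0 × Bool)) (x : Vx s0) :
    Zp e u x 0 = x := by simp [Zp, ds]

theorem Zp_type (e : Fin 51 × Fin 51) (u : List (Fin s0 × Bool)) (x : Vx s0)
    (hx : tt .hub x = .hub) (m : ℕ) (h : m ≤ 3 * u.length) :
    tt .hub (Zp e u x m) = (.hub :: ts e u)[m]'(by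
      simp only [List.length_cons, ts_length]; omega) := by
  rcases m with _ | m
  · rw [Zp_zero, hx]; rfl
  · have hm : m < (ts e u).length := by rw [ts_length]; omega
    unfold Zp
    rw [ds_succ _ _ _ hm]
    rfl

theorem Zp_adj (e : Fin 51 × Fin 51) (u : List (Fin s0 × Bool)) (x : Vx s0)
    (hx : tt .hub x = .hub) (m : ℕ) (h : m < 3 * u.length) :
    A R w a0 b0 (Zp e u x m) (Zp e u x (m + 1)) := by
  have hm : m < (ts e u).length := by rw [ts_length]; omega
  have h1 : Zp e u x (m + 1) = ((ts e u)[m], 0) :: Zp e u x m := ds_succ _ _ _ hm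
  rw [h1]
  refine A_tree _ _ _ ?_
  rw [Zp_type e u x hx m h.le]
  exact ts_chain e u m hm

theorem cp_val (e : Fin 51 × Fin 51) (u : List (Fin s0 × Bool)) : ∀ x : Hub s0,
    (cp e u x).1 = ds (ts e u) x.1 := by
  induction u with
  | nil => intro x; simp [cp, ds, ts]
  | cons l u ih =>
    intro x
    rw [cp, ih]
    simp [ds, ts, stp]

theorem cp_Zp (e : Fin 51 × Fin 51) (u : List (Fin s0 × Bool)) (x : Hub s0) :
    (cp e u x).1 = Zp e u x.1 (3 * u.length) := by
  rw [cp_val, Zp, ← ts_length e u, List.take_length]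

theorem getD_loops (e : Fin 51 × Fin 51) (u : List (Fin s0 × Bool)) (j : ℕ)
    (h : j < 3 * u.length) : (loops e u).getD j .hub = (.hub :: ts e u)[j]'(by
      simp only [List.length_cons, ts_length]; omega) := by
  have h1 : j < (loops e u).length := by rw [loops_length]; exact h
  rw [List.getD_eq_getElem _ _ h1]
  have : ∀ (l l' : List (Ty s0)) (hl : l = l') (h2 : j < l.length) (h3 : j < l'.length),
      l[j] = l'[j] := by
    rintro l _ rfl _ _; rfl
  rw [← this _ _ (loops_hub e u) (by simp only [List.length_append]; omega),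
    List.getElem_append_left h1]

/-- the relators act trivially -/
theorem act_rel (e : Fin 51 × Fin 51) (r : FreeGroup (Fin s0)) (hr : r ∈ R) :
    act R w a0 b0 e r = 1 := by
  by_cases hne : r = 1
  · rw [hne, map_one]
  rw [← inv_eq_one]
  ext q
  induction q using Quotient.inductionOn with
  | h x =>
    have h1 := act_path (R := R) (w := w) (a0 := a0) (b0 := b0) e r.toWord x
    rw [FreeGroup.mk_toWord] at h1
    have h1' : (act R w a0 b0 e r)⁻¹ (Quotient.mk (twS R w a0 b0) x) =
        Quotient.mk (twS R w a0 b0) (cp e r.toWord x) := h1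
    rw [Equiv.Perm.one_apply]
    refine h1'.trans ?_
    refine Quotient.sound (s := twS R w a0 b0) ?_
    change Tw R w a0 b0 (cp e r.toWord x).1 x.1
    have hpos : 1 ≤ r.toWord.length := by
      rcases h2 : r.toWord with _ | ⟨a, l⟩
      · exact absurd (FreeGroup.toWord_eq_nil_iff.1 h2) hne
      · simp
    have hlast : 3 * r.toWord.length - 1 + 1 = 3 * r.toWord.length := by omega
    have hlen : (cyc w (R := R) (.inr (.inl (e, ⟨r, hr, hne⟩)))).length = 3 * r.toWord.length :=
      loops_length e r.toWord
    let f : ℕ → Vx s0 := fun j => if j < 3 * r.toWord.length then Zp e r.toWord x.1 j else x.1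
    have key := star' (R := R) (w := w) (a0 := a0) (b0 := b0) (.inr (.inl (e, ⟨r, hr, hne⟩)))
      (by rw [hlen]; omega) f (by
        rw [hlen]
        simp only [f]
        rw [if_neg (lt_irrefl _), if_pos (by omega), Zp_zero]) (by
        rw [hlen]
        intro j hj k hk h
        simp only [f] at h
        rw [if_pos hj, if_pos hk] at h
        have := congrArg List.length h
        rw [Zp_length _ _ _ _ hj.le, Zp_length _ _ _ _ hk.le] at this
        omega) (by
        rw [hlen]
        intro j hj
        simp only [f]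
        rw [if_pos hj, Zp_type e _ _ x.2 _ hj.le]
        exact (getD_loops e r.toWord j hj).symm) (3 * r.toWord.length - 1) (by omega) (by
        rw [hlen]
        intro j hj hjn
        simp only [f]
        rw [if_pos hj, if_pos (by omega)]
        exact Zp_adj e _ _ x.2 j hj)
    simp only [f] at key
    rw [hlast, if_pos (by omega), if_neg (lt_irrefl _)] at key
    have k2 := Zp_adj (R := R) (w := w) (a0 := a0) (b0 := b0) e r.toWord x.1 x.2
      (3 * r.toWord.length - 1) (by omega)
    rw [hlast, ← cp_Zp] at k2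
    refine tw_common (y := Zp e r.toWord x.1 (3 * r.toWord.length - 1))
      ((cp e r.toWord x).2.trans x.2.symm) ?_ k2.symm key.symm
    rw [(cp e r.toWord x).2, Zp_type e _ _ x.2 _ (by omega)]
    have h3 := ts_chain e r.toWord (3 * r.toWord.length - 1) (by rw [ts_length]; omega)
    have h4 : tt .hub (cp e r.toWord x).1 = (ts e r.toWord)[3 * r.toWord.length - 1]'(by
        rw [ts_length]; omega) := by
      rw [cp_Zp, Zp_type e _ _ x.2 _ le_rfl]
      have : ∀ (a b : ℕ) (hab : a = b) (h2 : a < (.hub :: ts e r.toWord).length)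
          (h3 : b < (.hub :: ts e r.toWord).length),
          (.hub :: ts e r.toWord)[a] = (.hub :: ts e r.toWord)[b] := by
        rintro a _ rfl _ _; rfl
      rw [this _ _ hlast.symm _ (by simp only [List.length_cons, ts_length]; omega)]
      rfl
    rw [(cp e r.toWord x).2] at h4
    rw [← h4] at h3
    exact h3

/-- words which are trivial in the group act trivially -/
theorem act_word (e : Fin 51 × Fin 51) (u : List (Fin s0 × Bool))
    (hu : FreeGroup.mk u ∈ Subgroup.normalClosure (R : Set (FreeGroup (Fin s0))))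
    (x : Hub s0) : Tw R w a0 b0 (cp e u x).1 x.1 := by
  have h1 : Subgroup.normalClosure (R : Set (FreeGroup (Fin s0))) ≤ (act R w a0 b0 e).ker :=
    Subgroup.normalClosure_le_normal fun r hr => (MonoidHom.mem_ker).2 (act_rel e r hr)
  have h2 := (MonoidHom.mem_ker).1 (h1 hu)
  have h3 := act_path (R := R) (w := w) (a0 := a0) (b0 := b0) e u x
  rw [h2, inv_one, Equiv.Perm.one_apply] at h3
  exact (Quotient.exact h3.symm)

theorem loops_invRev (e : Fin 51 × Fin 51) (u : List (Fin s0 × Bool)) :
    loops e (FreeGroup.invRev u) = (ts e u).reverse := by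
  induction u with
  | nil => rfl
  | cons l u ih =>
    have h1 : FreeGroup.invRev (l :: u) = FreeGroup.invRev u ++ [(l.1, !l.2)] := by
      simp [FreeGroup.invRev]
    have h2 : loops e (FreeGroup.invRev u ++ [(l.1, !l.2)]) =
        loops e (FreeGroup.invRev u) ++ loop e (l.1, !l.2) := by simp [loops]
    rw [h1, h2, ih, loop_eq]
    rcases l with ⟨s, b⟩
    cases b <;> simp [ts, t2, t3]

/-- no type `b` on the paths -/
theorem ts_ne_b (e : Fin 51 × Fin 51) (u : List (Fin s0 × Bool)) (γ : Fin 51) :
    ∀ t ∈ (.hub :: ts e u), t ≠ .b γ := by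
  induction u with
  | nil =>
    intro t ht
    simp only [ts, List.mem_singleton] at ht
    rw [ht]; simp
  | cons l u ih =>
    intro t ht
    simp only [ts, List.mem_cons] at ht
    rcases ht with rfl | rfl | rfl | rfl | ht
    · simp
    · rcases l with ⟨s, b⟩
      cases b <;> simp [t2]
    · rcases l with ⟨s, b⟩
      cases b <;> simp [t3]
    · simp
    · exact ih t (List.mem_cons_of_mem _ ht)

theorem multi_lt
    (hw : FreeGroup.mk w ∈ Subgroup.normalClosure (R : Set (FreeGroup (Fin s0))))
    {α β : Fin 51} (h : α < β) (i j : ℕ) :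
    A R w a0 b0 [(.b α, i)] [(.b β, j)] := by
  have hroot : tt (T := Ty s0) .hub ([] : Vx s0) = .hub := rfl
  have hlenL : (loops (α, β) (FreeGroup.invRev w)).length = 3 * w.length := by
    rw [loops_length, FreeGroup.invRev_length]
  have hlen : (cyc w (R := R) (.inr (.inr ⟨(α, β), h⟩))).length = 3 * w.length + 3 := by
    change ([Ty.hub, .b α, .b β] ++ loops (α, β) (FreeGroup.invRev w)).length = _
    rw [List.length_append, hlenL]
    simp only [List.length_cons, List.length_nil]
    omega
  let f : ℕ → Vx s0 := fun k => match k with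
    | 0 => []
    | 1 => [(.b α, i)]
    | 2 => [(.b β, j)]
    | k + 3 => Zp (α, β) w [] (3 * w.length - k)
  have f0 : f 0 = [] := rfl
  have f1 : f 1 = [(.b α, i)] := rfl
  have f2 : f 2 = [(.b β, j)] := rfl
  have f3 : ∀ k, f (k + 3) = Zp (α, β) w [] (3 * w.length - k) := fun k => rfl
  have hnb : ∀ k ≤ 3 * w.length, ∀ γ : Fin 51, tt .hub (Zp (α, β) w [] k) ≠ .b γ := by
    intro k hk γ
    rw [Zp_type _ _ _ hroot k hk]
    exact ts_ne_b (α, β) w γ _ (List.getElem_mem _)
  have hb1 : A R w a0 b0 [] [(.b α, i)] := A_tree _ _ _ trivial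
  have hb2 : A R w a0 b0 [] [(.b β, j)] := A_tree _ _ _ trivial
  have key := star' (R := R) (w := w) (a0 := a0) (b0 := b0) (.inr (.inr ⟨(α, β), h⟩))
    (by rw [hlen]; omega) f (by
      rw [hlen, f3, Nat.sub_self, Zp_zero]) (by
      rw [hlen]
      intro k hk k' hk' hkk
      rcases k with _ | _ | _ | k <;> rcases k' with _ | _ | _ | k'
      · rfl
      · rw [f0] at hkk; simp [f] at hkk
      · rw [f0] at hkk; simp [f] at hkk
      · rw [f0, f3] at hkk
        have := congrArg List.length hkk
        rw [Zp_length _ _ _ _ (by omega)] at this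
        simp only [List.length_nil] at this
        omega
      · simp [f] at hkk
      · rfl
      · simp only [f, List.cons.injEq, Prod.mk.injEq, Ty.b.injEq, and_true] at hkk
        exact absurd hkk.1 h.ne
      · have h1 : f 1 = f (k' + 3) := hkk
        rw [f1, f3] at h1
        exact absurd (congrArg (tt .hub) h1).symm (hnb _ (by omega) α)
      · simp [f] at hkk
      · simp only [f, List.cons.injEq, Prod.mk.injEq, Ty.b.injEq, and_true] at hkk
        exact absurd hkk.1 h.ne'
      · rfl
      · have h1 : f 2 = f (k' + 3) := hkk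
        rw [f2, f3] at h1
        exact absurd (congrArg (tt .hub) h1).symm (hnb _ (by omega) β)
      · rw [f3] at hkk
        have := congrArg List.length hkk
        rw [Zp_length _ _ _ _ (by omega)] at this
        simp only [f, List.length_nil] at this
        omega
      · have h1 : f (k + 3) = f 1 := hkk
        rw [f1, f3] at h1
        exact absurd (congrArg (tt .hub) h1) (hnb _ (by omega) α)
      · have h1 : f (k + 3) = f 2 := hkk
        rw [f2, f3] at h1
        exact absurd (congrArg (tt .hub) h1) (hnb _ (by omega) β)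
      · rw [f3, f3] at hkk
        have := congrArg List.length hkk
        rw [Zp_length _ _ _ _ (by omega), Zp_length _ _ _ _ (by omega)] at this
        omega) (by
      rw [hlen]
      intro k hk
      rcases k with _ | _ | _ | k
      · rfl
      · rfl
      · rfl
      · rw [f3, Zp_type _ _ _ hroot _ (by omega)]
        change _ = ([Ty.hub, .b α, .b β] ++ loops (α, β) (FreeGroup.invRev w)).getD (k + 3) .hub
        have hk' : k < 3 * w.length := by omega
        have e1 : ([Ty.hub, .b α, .b β] ++ loops (α, β) (FreeGroup.invRev w)).getD (k + 3) .hub =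
            (loops (α, β) (FreeGroup.invRev w)).getD k .hub := rfl
        rw [e1, loops_invRev, List.getD_eq_getElem _ _ (by
          rw [List.length_reverse, ts_length]; exact hk'), List.getElem_reverse]
        have e2 : ∀ (a b : ℕ) (hab : a = b + 1) (h2 : a < (Ty.hub :: ts (α, β) w).length)
            (h3 : b < (ts (α, β) w).length),
            (Ty.hub :: ts (α, β) w)[a] = (ts (α, β) w)[b] := by
          rintro _ b rfl _ _; rfl
        refine e2 _ _ ?_ _ _
        rw [ts_length]; omega) 1 (by rw [hlen]; omega) (by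
      rw [hlen]
      intro k hk hk1
      rcases k with _ | _ | _ | k
      · exact hb1
      · exact absurd rfl hk1
      · change A R w a0 b0 (f 2) (f (0 + 3))
        rw [f2, f3, Nat.sub_zero]
        have h1 := act_word (R := R) (w := w) (a0 := a0) (b0 := b0) (α, β) w hw ⟨[], hroot⟩
        rw [cp_Zp] at h1
        exact ((h1.2 [(.b β, j)] (by rw [h1.1]; exact trivial)).2 hb2).symm
      · change A R w a0 b0 (f (k + 3)) (f (k + 1 + 3))
        rw [f3, f3]
        have h1 : 3 * w.length - k = 3 * w.length - (k + 1) + 1 := by omega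
        rw [h1]
        exact (Zp_adj _ _ _ hroot _ (by omega)).symm)
  exact key

end Concrete

end Pool.Agent.H533HB.Multi

namespace Pool.Agent.H533HB

theorem multi : S_multi := by
  intro s0 R w hw a0 b0 _ α β hne i j
  rcases lt_or_gt_of_ne hne with h | h
  · exact Multi.multi_lt hw h i j
  · exact (Multi.multi_lt hw h j i).symm

end Pool.Agent.H533HB
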