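import Pool.Agent.H533HB.Stmts

/-!
# Task A3: one class of children of the root is a clique
-/

set_option autoImplicit false

namespace Pool.Agent.H533HB

open Finset
open scoped Classical

namespace AClq

variable {T I V : Type}

/-- the colour of a vertex of a cycle -/
noncomputable def cc (X : Data T I V) (i0 : I) (x : Σ i : I, Fin (X.len i)) : Fin 51 :=
  if (x.2 : ℕ) + 1 = X.len x.1 then 48 else if x.1 = i0 ∧ (x.2 : ℕ) = 0 then 48 else
    if (x.2 : ℕ) % 2 = 0 then 49 else 50

theorem cc_ge (X : Data T I V) (i0 : I) (x : Σ i : I, Fin (X.len i)) :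
    48 ≤ (cc X i0 x).val := by
  unfold cc
  split_ifs <;> decide

/-- directed version of the colouring property -/
theorem cc_ne (X : Data T I V) (hX : CycOK X) (i0 : I) (x y : Σ i : I, Fin (X.len i))
    (h1 : x.1 = y.1) (h2 : (y.2 : ℕ) = (x.2 + 1) % X.len x.1)
    (h3 : ¬ (x.1 = i0 ∧ (x.2 : ℕ) + 1 = X.len x.1)) : cc X i0 x ≠ cc X i0 y := by
  obtain ⟨i, a⟩ := x
  obtain ⟨i', b⟩ := y
  simp only at h1
  subst h1
  simp only at h2 h3
  have hl := hX.len3 i
  have ha := a.2
  by_cases hlast : (a : ℕ) + 1 = X.len i
  · rw [hlast, Nat.mod_self] at h2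
    have hi : i ≠ i0 := fun h => h3 ⟨h, hlast⟩
    have hb : ¬ ((b : ℕ) + 1 = X.len i) := by omega
    unfold cc
    simp only
    rw [if_pos hlast, if_neg hb, if_neg (fun h => hi h.1), if_pos (by omega)]
    decide
  · rw [Nat.mod_eq_of_lt (by omega)] at h2
    unfold cc
    simp only
    rw [if_neg hlast]
    by_cases hb : (b : ℕ) + 1 = X.len i
    · rw [if_pos hb, if_neg (by omega)]
      split_ifs <;> decide
    · rw [if_neg hb, if_neg (show ¬ (i = i0 ∧ (b : ℕ) = 0) by omega)]
      by_cases ha0 : i = i0 ∧ (a : ℕ) = 0
      · rw [if_pos ha0]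
        split_ifs <;> decide
      · rw [if_neg ha0]
        by_cases hp : (a : ℕ) % 2 = 0
        · rw [if_pos hp, if_neg (by omega)]; decide
        · rw [if_neg hp, if_pos (by omega)]; decide

/-- the colour of a vertex of `H` -/
noncomputable def co (X : Data T I V) (i0 : I) (c : V → Fin 48) : HV X → Fin 51
  | .inl a => ⟨(c a).val, by have := (c a).2; omega⟩
  | .inr (.inl _) => 48
  | .inr (.inr x) => cc X i0 x

end AClq

open AClq in
theorem A_clique : S_A_clique := by
  intro T I V _ _ _ X hX hC hub b hb e0 hmulti i j hij
  obtain ⟨c, hc⟩ := hX.col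
  obtain ⟨i0⟩ := ‹Nonempty I›
  have hl := hC.len3 i0
  let v0 : HV X := .inr (.inr ⟨i0, ⟨0, by omega⟩⟩)
  let v1 : HV X := .inr (.inr ⟨i0, ⟨X.len i0 - 1, by omega⟩⟩)
  have hv01 : v0 ≠ v1 := by
    intro h
    simp only [v0, v1, Sum.inr.injEq, Sigma.mk.injEq, heq_eq_eq, Fin.mk.injEq, true_and] at h
    omega
  let idx : HV X → ℕ := fun v => if v = v0 then i else if v = v1 then j else
    i + j + 1 + (Fintype.equivFin (HV X) v : ℕ)
  have hidx : Function.Injective idx := by
    intro x y hxy
    simp only [idx] at hxy
    by_cases hx0 : x = v0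
    · by_cases hy0 : y = v0
      · rw [hx0, hy0]
      · rw [if_pos hx0, if_neg hy0] at hxy
        split_ifs at hxy <;> omega
    · rw [if_neg hx0] at hxy
      by_cases hx1 : x = v1
      · rw [if_pos hx1] at hxy
        by_cases hy0 : y = v0
        · rw [if_pos hy0] at hxy; omega
        · rw [if_neg hy0] at hxy
          by_cases hy1 : y = v1
          · rw [hx1, hy1]
          · rw [if_neg hy1] at hxy; omega
      · rw [if_neg hx1] at hxy
        by_cases hy0 : y = v0
        · rw [if_pos hy0] at hxy; omega
        · rw [if_neg hy0] at hxy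
          by_cases hy1 : y = v1
          · rw [if_pos hy1] at hxy; omega
          · rw [if_neg hy1] at hxy
            apply (Fintype.equivFin (HV X)).injective
            apply Fin.ext
            omega
  let f : HV X → HV X ⊕ List (T × ℕ) := fun v => .inr [(b (co X i0 c v), idx v)]
  have hf : Function.Injective f := by
    intro x y hxy
    simp only [f, Sum.inr.injEq, List.cons.injEq, Prod.mk.injEq, and_true] at hxy
    exact hidx hxy.2
  have hadj : (HG X).Adj v0 v1 := by
    refine ⟨?_, rfl, Or.inr ?_⟩
    · intro h
      simp only [Sigma.mk.injEq, heq_eq_eq, Fin.mk.injEq, true_and] at h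
      omega
    · simp only
      rw [Nat.sub_add_cancel (by omega), Nat.mod_self]
  have hcol : ∀ x y : HV X, (HG X).Adj x y → s(x, y) ≠ s(v0, v1) →
      co X i0 c x ≠ co X i0 c y := by
    intro x y hxy hne
    rcases x with x | x | x <;> rcases y with y | y | y
    · intro h
      simp only [co, Fin.mk.injEq] at h
      exact hc x y hxy (Fin.ext h)
    · intro h
      have := congrArg Fin.val h
      simp only [co] at this
      have h1 := (c x).2
      have h2 : ((48 : Fin 51) : ℕ) = 48 := rfl
      omega
    · intro h
      have := congrArg Fin.val h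
      simp only [co] at this
      have h1 := (c x).2
      have h2 := cc_ge X i0 y
      omega
    · intro h
      have := congrArg Fin.val h
      simp only [co] at this
      have h1 := (c y).2
      have h2 : ((48 : Fin 51) : ℕ) = 48 := rfl
      omega
    · exact absurd hxy (by change ¬ False; simp)
    · exact absurd hxy (by change ¬ False; simp)
    · intro h
      have := congrArg Fin.val h
      simp only [co] at this
      have h1 := (c y).2
      have h2 := cc_ge X i0 x
      omega
    · exact absurd hxy (by change ¬ False; simp)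
    · obtain ⟨h0, h1, h2⟩ := hxy
      change cc X i0 x ≠ cc X i0 y
      rcases h2 with h2 | h2
      · apply cc_ne X hC i0 x y h1 h2
        rintro ⟨hi, hx⟩
        apply hne
        obtain ⟨i', a⟩ := x
        obtain ⟨i'', a'⟩ := y
        simp only at h1 hi
        subst h1
        subst hi
        simp only at h2 hx
        rw [hx, Nat.mod_self] at h2
        have ea : a = ⟨X.len i' - 1, by omega⟩ := Fin.ext (by simp only; omega)
        have ea' : a' = ⟨0, by omega⟩ := Fin.ext h2
        rw [ea, ea']
        exact Sym2.eq_swap
      · have hlen : X.len x.1 = X.len y.1 := by rw [h1]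
        refine (cc_ne X hC i0 y x h1.symm (by rw [h2, hlen]) ?_).symm
        rintro ⟨hi, hx⟩
        apply hne
        obtain ⟨i', a⟩ := x
        obtain ⟨i'', a'⟩ := y
        simp only at h1 hi
        subst h1
        subst hi
        simp only at h2 hx
        rw [hx, Nat.mod_self] at h2
        have ea : a' = ⟨X.len i' - 1, by omega⟩ := Fin.ext (by simp only; omega)
        have ea' : a = ⟨0, by omega⟩ := Fin.ext h2
        rw [ea, ea']
  have key := hull_closed (H := HG X) (G := AA X hub e0) f hf v0 v1 hadj ?_
  · have e0 : f v0 = .inr [(b 48, i)] := by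
      have h1 : co X i0 c v0 = 48 := by
        change cc X i0 _ = 48
        unfold cc
        simp only
        rw [if_neg (by omega)]
        simp
      have h2 : idx v0 = i := by simp only [idx, if_true]
      simp only [f, h1, h2]
    have e1 : f v1 = .inr [(b 48, j)] := by
      have h1 : co X i0 c v1 = 48 := by
        change cc X i0 _ = 48
        unfold cc
        simp only
        rw [if_pos (by omega)]
      have h2 : idx v1 = j := by
        simp only [idx]
        rw [if_neg (Ne.symm hv01)]
        simp
      simp only [f, h1, h2]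
    rw [e0, e1] at key
    exact key
  · intro x y hxy hne
    exact hmulti _ _ (hcol x y hxy hne) _ _

end Pool.Agent.H533HB
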