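import Pool.Agent.H533HB.Stmts

/-!
# Task A4: growth of a clique
-/

set_option autoImplicit false

namespace Pool.Agent.H533HB

open Finset
open scoped Classical

namespace AGrow

theorem update_inj {A B : Type} {f : A → B} (a : A) (v : B) (hf : Function.Injective f)
    (h : ∀ b, b ≠ a → f b ≠ v) : Function.Injective (Function.update f a v) := by
  intro x y hxy
  by_cases hx : x = a
  · by_cases hy : y = a
    · rw [hx, hy]
    · subst hx
      rw [Function.update_self, Function.update_of_ne hy] at hxy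
      exact absurd hxy.symm (h y hy)
  · by_cases hy : y = a
    · subst hy
      rw [Function.update_self, Function.update_of_ne hx] at hxy
      exact absurd hxy (h x hx)
    · rw [Function.update_of_ne hx, Function.update_of_ne hy] at hxy
      exact hf hxy

/-- an injection of a finite type into `Q` which takes prescribed values at four points -/
theorem exists_inj {A B : Type} [Fintype A] (Q : Finset B) (hQ : Fintype.card A + 3 ≤ #Q)
    (y d1 d2 d3 : A) (hy1 : y ≠ d1) (hy2 : y ≠ d2) (hy3 : y ≠ d3) (h12 : d1 ≠ d2)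
    (h13 : d1 ≠ d3) (h23 : d2 ≠ d3) (x c1 c2 c3 : B) (hx : x ∉ Q) (hc1 : c1 ∈ Q) (hc2 : c2 ∈ Q)
    (hc3 : c3 ∈ Q) (k12 : c1 ≠ c2) (k13 : c1 ≠ c3) (k23 : c2 ≠ c3) :
    ∃ f : A → B, Function.Injective f ∧ f y = x ∧ f d1 = c1 ∧ f d2 = c2 ∧ f d3 = c3 ∧
      ∀ a, a ≠ y → f a ∈ Q := by
  have hcard : Fintype.card A ≤ #(Q \ {c1, c2, c3}) := by
    have h1 := Finset.le_card_sdiff {c1, c2, c3} Q
    have h2 : #({c1, c2, c3} : Finset B) ≤ 3 := Finset.card_le_three
    omega
  obtain ⟨g⟩ : Nonempty (A ↪ (Q \ {c1, c2, c3} : Finset B)) := by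
    apply Function.Embedding.nonempty_of_card_le
    rw [Fintype.card_coe]
    exact hcard
  have hg : ∀ a, (g a : B) ∈ Q ∧ (g a : B) ≠ c1 ∧ (g a : B) ≠ c2 ∧ (g a : B) ≠ c3 := by
    intro a
    have := (g a).2
    simp only [mem_sdiff, mem_insert, mem_singleton, not_or] at this
    exact ⟨this.1, this.2.1, this.2.2.1, this.2.2.2⟩
  have i0 : Function.Injective (fun a => (g a : B)) := fun a b h => g.injective (Subtype.ext h)
  have xc1 : x ≠ c1 := fun h => hx (h ▸ hc1)
  have xc2 : x ≠ c2 := fun h => hx (h ▸ hc2)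
  have xc3 : x ≠ c3 := fun h => hx (h ▸ hc3)
  let f1 := Function.update (fun a => (g a : B)) y x
  have i1 : Function.Injective f1 := by
    apply update_inj _ _ i0
    intro b _ h
    exact hx (h ▸ (hg b).1)
  have e1 : ∀ b, b ≠ y → f1 b = (g b : B) := fun b hb => Function.update_of_ne hb _ _
  have e1' : f1 y = x := Function.update_self _ _ _
  let f2 := Function.update f1 d1 c1
  have i2 : Function.Injective f2 := by
    apply update_inj _ _ i1
    intro b _ h
    by_cases hb : b = y
    · rw [hb, e1'] at h; exact xc1 h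
    · rw [e1 b hb] at h; exact (hg b).2.1 h
  have e2 : ∀ b, b ≠ d1 → f2 b = f1 b := fun b hb => Function.update_of_ne hb _ _
  have e2' : f2 d1 = c1 := Function.update_self _ _ _
  let f3 := Function.update f2 d2 c2
  have i3 : Function.Injective f3 := by
    apply update_inj _ _ i2
    intro b _ h
    by_cases hb : b = d1
    · rw [hb, e2'] at h; exact k12 h
    · rw [e2 b hb] at h
      by_cases hb : b = y
      · rw [hb, e1'] at h; exact xc2 h
      · rw [e1 b hb] at h; exact (hg b).2.2.1 h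
  have e3 : ∀ b, b ≠ d2 → f3 b = f2 b := fun b hb => Function.update_of_ne hb _ _
  have e3' : f3 d2 = c2 := Function.update_self _ _ _
  let f4 := Function.update f3 d3 c3
  have i4 : Function.Injective f4 := by
    apply update_inj _ _ i3
    intro b _ h
    by_cases hb : b = d2
    · rw [hb, e3'] at h; exact k23 h
    · rw [e3 b hb] at h
      by_cases hb : b = d1
      · rw [hb, e2'] at h; exact k13 h
      · rw [e2 b hb] at h
        by_cases hb : b = y
        · rw [hb, e1'] at h; exact xc3 h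
        · rw [e1 b hb] at h; exact (hg b).2.2.2 h
  have e4 : ∀ b, b ≠ d3 → f4 b = f3 b := fun b hb => Function.update_of_ne hb _ _
  have e4' : f4 d3 = c3 := Function.update_self _ _ _
  refine ⟨f4, i4, ?_, ?_, ?_, e4', ?_⟩
  · rw [e4 y hy3, e3 y hy2, e2 y hy1, e1']
  · rw [e4 d1 h13, e3 d1 h12, e2']
  · rw [e4 d2 h23, e3']
  · intro a ha
    by_cases h3 : a = d3
    · rw [h3, e4']; exact hc3
    by_cases h2 : a = d2
    · rw [h2, e4 d2 h23, e3']; exact hc2
    by_cases h1 : a = d1
    · rw [h1, e4 d1 h13, e3 d1 h12, e2']; exact hc1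
    rw [e4 a h3, e3 a h2, e2 a h1, e1 a ha]
    exact (hg a).1

/-- the growth step -/
theorem grow {T I V : Type} [Fintype I] [Fintype V] (X : Data T I V) (hX : CoreOK X)
    {n : ℕ} (G' : SimpleGraph (Fin n)) (hcl : HClosed (HG X) G') (Q : Finset (Fin n))
    (hQ : Fintype.card (HV X) + 3 ≤ #Q) (hclq : ∀ x ∈ Q, ∀ y ∈ Q, x ≠ y → G'.Adj x y)
    (x c1 c2 : Fin n) (hx : x ∉ Q) (hc1 : c1 ∈ Q) (hc2 : c2 ∈ Q) (k12 : c1 ≠ c2)
    (h1 : G'.Adj x c1) (h2 : G'.Adj x c2) : ∀ c3 ∈ Q, G'.Adj x c3 := by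
  intro c3 hc3
  by_cases k13 : c1 = c3
  · rw [← k13]; exact h1
  by_cases k23 : c2 = c3
  · rw [← k23]; exact h2
  obtain ⟨d1, d2, d3, hd12, hd13, hd23, hD⟩ := Finset.card_eq_three.1 hX.Dcard
  obtain ⟨f, hf, fy, f1, f2, f3, fQ⟩ := exists_inj (A := HV X) Q hQ (.inr (.inl ())) (.inl d1)
    (.inl d2) (.inl d3) (by simp) (by simp) (by simp) (by simpa using hd12)
    (by simpa using hd13) (by simpa using hd23) x c1 c2 c3 hx hc1 hc2 hc3 k12 k13 k23
  have hd3D : d3 ∈ X.D := by rw [hD]; simp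
  have key := hcl f hf (.inr (.inl ())) (.inl d3) (show (HG X).Adj _ _ from hd3D) ?_
  · rw [fy, f3] at key
    exact key
  · have hyd : ∀ d : HV X, (HG X).Adj (.inr (.inl ())) d → d ≠ .inl d3 →
        G'.Adj (f (.inr (.inl ()))) (f d) := by
      intro d hd hne
      rcases d with d | d | d
      · have hd' : d ∈ X.D := hd
        rw [hD] at hd'
        simp only [mem_insert, mem_singleton] at hd'
        rcases hd' with rfl | rfl | rfl
        · rw [fy, f1]; exact h1
        · rw [fy, f2]; exact h2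
        · exact absurd rfl hne
      · exact absurd hd (by change ¬ False; simp)
      · exact absurd hd (by change ¬ False; simp)
    intro c d hcd hne
    by_cases hc : c = .inr (.inl ())
    · subst hc
      apply hyd d hcd
      rintro rfl
      exact hne rfl
    · by_cases hd : d = .inr (.inl ())
      · subst hd
        refine (hyd c hcd.symm ?_).symm
        rintro rfl
        exact hne Sym2.eq_swap
      · exact hclq _ (fQ c hc) _ (fQ d hd) fun h => hcd.ne (hf h)

end AGrow

theorem A_grow : S_A_grow := by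
  intro T I V _ _ X hX n G G' hGG' hcl hCN Q0 hQ0 hclq0
  -- a maximal clique containing `Q0`
  obtain ⟨Q, hQmem, hQmax⟩ := Finset.exists_max_image
    (univ.filter fun Q : Finset (Fin n) => Q0 ⊆ Q ∧ ∀ x ∈ Q, ∀ y ∈ Q, x ≠ y → G'.Adj x y)
    Finset.card ⟨Q0, by simp only [mem_filter, mem_univ, true_and]; exact ⟨Subset.rfl, hclq0⟩⟩
  simp only [mem_filter, mem_univ, true_and] at hQmem hQmax
  obtain ⟨hQ0Q, hclq⟩ := hQmem
  have hQ : Fintype.card (HV X) + 3 ≤ #Q := hQ0.trans (card_le_card hQ0Q)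
  have hout : ∀ x, x ∉ Q → ∀ c1 ∈ Q, ∀ c2 ∈ Q, c1 ≠ c2 → G'.Adj x c1 → G'.Adj x c2 →
      False := by
    intro x hx c1 hc1 c2 hc2 k12 h1 h2
    have hall := AGrow.grow X hX G' hcl Q hQ hclq x c1 c2 hx hc1 hc2 k12 h1 h2
    have := hQmax (insert x Q) ⟨hQ0Q.trans (subset_insert _ _), ?_⟩
    · rw [card_insert_of_notMem hx] at this
      omega
    · intro a ha b hb hab
      rw [mem_insert] at ha hb
      rcases ha with rfl | ha
      · rcases hb with rfl | hb
        · exact absurd rfl hab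
        · exact hall b hb
      · rcases hb with rfl | hb
        · exact (hall a ha).symm
        · exact hclq a ha b hb hab
  obtain ⟨c1, hc1, c2, hc2, k12⟩ := Finset.one_lt_card.1 (show 1 < #Q by omega)
  have hall : ∀ z, z ∈ Q := by
    intro z
    by_contra hz
    have hz1 : c1 ≠ z := fun h => hz (h ▸ hc1)
    have hz2 : c2 ≠ z := fun h => hz (h ▸ hc2)
    obtain ⟨x, y, hxy, h1x, h2x, hzx, h1y, h2y, hzy⟩ := hCN c1 c2 z k12 hz1 hz2
    have hxQ : x ∈ Q := by
      by_contra hx
      exact hout x hx c1 hc1 c2 hc2 k12 (hGG' h1x).symm (hGG' h2x).symm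
    have hyQ : y ∈ Q := by
      by_contra hy
      exact hout y hy c1 hc1 c2 hc2 k12 (hGG' h1y).symm (hGG' h2y).symm
    exact hout z hz x hxQ y hyQ hxy (hGG' hzx) (hGG' hzy)
  ext a b
  simp only [SimpleGraph.top_adj]
  exact ⟨fun h => h.ne, fun h => hclq a (hall a) b (hall b) h⟩

end Pool.Agent.H533HB
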