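import Pool.Agent.H533HB.Stmts

/-!
# Task CLO: the process and the closed graphs
-/

set_option autoImplicit false

namespace Pool.Agent.H533HB

open Finset
open scoped Classical

namespace Clo

theorem le_step {V W : Type} (H : SimpleGraph V) (G : SimpleGraph W) : G ≤ step H G :=
  fun _ _ h => Or.inl h

theorem step_le {V W : Type} {H : SimpleGraph V} {G G' : SimpleGraph W} (h : G ≤ G')
    (hcl : HClosed H G') : step H G ≤ G' := by
  intro u v huv
  rcases huv with huv | ⟨hne, f, hf, h1, a, b, hab, h2⟩
  · exact h huv
  · have key : G'.Adj (f a) (f b) := by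
      apply hcl f hf a b hab
      intro c d hcd hne'
      rcases h1 c d hcd with h3 | h3
      · exact h h3
      · exfalso
        apply hne'
        rw [← h2] at h3
        rw [← Sym2.map_mk, ← Sym2.map_mk] at h3
        exact Sym2.map.injective hf h3
    have : s(u, v) ∈ G'.edgeSet := by
      rw [← h2]; exact key
    exact this

theorem iter_le {V W : Type} {H : SimpleGraph V} {G G' : SimpleGraph W} (h : G ≤ G')
    (hcl : HClosed H G') (t : ℕ) : (step H)^[t] G ≤ G' := by
  induction t with
  | zero => exact h
  | succ t ih =>
    rw [Function.iterate_succ_apply']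
    exact step_le ih hcl

theorem closed_of_step {V W : Type} {H : SimpleGraph V} {G : SimpleGraph W}
    (h : step H G = G) : HClosed H G := by
  intro f hf a b hab h1
  rw [← h]
  refine Or.inr ⟨fun h => hab.ne (hf h), f, hf, ?_, a, b, hab, rfl⟩
  intro c d hcd
  by_cases hne : s(c, d) = s(a, b)
  · right
    rw [← Sym2.map_mk, ← Sym2.map_mk, hne]
  · exact Or.inl (h1 c d hcd hne)

theorem iter_mono {V W : Type} (H : SimpleGraph V) (G : SimpleGraph W) :
    Monotone fun t => (step H)^[t] G := by
  apply monotone_nat_of_le_succ
  intro t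
  simp only [Function.iterate_succ_apply']
  exact le_step H _

theorem exists_stable {V W : Type} [Finite W] (H : SimpleGraph V) (G : SimpleGraph W) :
    ∃ t, step H ((step H)^[t] G) = (step H)^[t] G := by
  by_contra hcon
  push Not at hcon
  have hinj : Function.Injective fun t => (step H)^[t] G := by
    apply StrictMono.injective
    apply strictMono_nat_of_lt_succ
    intro t
    refine lt_of_le_of_ne (iter_mono H G (Nat.le_succ t)) ?_
    intro h
    apply hcon t
    have h' : (step H)^[t] G = (step H)^[t + 1] G := h
    rw [Function.iterate_succ_apply'] at h'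
    exact h'.symm
  exact not_injective_infinite_finite _ hinj

end Clo

open Clo in
theorem perc_iff : S_perc_iff := by
  intro V W _ _ H G
  constructor
  · rintro ⟨t, ht⟩ G' hGG' hcl
    exact top_le_iff.1 (ht ▸ iter_le hGG' hcl t)
  · intro h
    obtain ⟨t, ht⟩ := exists_stable H G
    exact ⟨t, h _ (iter_mono H G (Nat.zero_le t)) (closed_of_step ht)⟩

theorem perc_iso : S_perc_iso := by
  intro V V' W H H' e G
  have hstep : ∀ (V V' : Type) (H : SimpleGraph V) (H' : SimpleGraph V'), (H ≃g H') →
      ∀ G : SimpleGraph W, step H G ≤ step H' G := by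
    intro V V' H H' e G u v huv
    rcases huv with huv | ⟨hne, f, hf, h1, a, b, hab, h2⟩
    · exact Or.inl huv
    · refine Or.inr ⟨hne, f ∘ e.symm, hf.comp e.symm.injective, ?_, e a, e b, ?_, ?_⟩
      · intro c d hcd
        exact h1 (e.symm c) (e.symm d) (e.symm.map_adj_iff.2 hcd)
      · exact e.map_adj_iff.2 hab
      · simpa using h2
  have : step H (W := W) = step H' := by
    funext G
    exact le_antisymm (hstep V V' H H' e G) (hstep V' V H' H e.symm G)
  unfold Percolates
  rw [this]

end Pool.Agent.H533HB
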