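import Pool.Agent.H533HB.A1
import Pool.Agent.H533HB.A3
import Pool.Agent.H533HB.A4
import Pool.Agent.H533HB.CLO

/-!
# Task A5: part (A)
-/

set_option autoImplicit false

namespace Pool.Agent.H533HB

open Finset
open scoped Classical

namespace AFive

variable {T I V : Type} [Fintype V] (X : Data T I V)

/-- core vertices have at least two neighbours in the core -/
theorem core_deg (hX : CoreOK X) (t : T) (a : V) : 1 < #{b : V | X.C.Adj a b} := by
  have h15 : 15 ≤ Fintype.card V := by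
    rw [← hX.Lcard t]; exact card_le_univ _
  have hne : (univ \ {a} : Finset V).Nonempty := by
    rw [← card_pos, card_sdiff_of_subset (subset_univ _), card_singleton, card_univ]
    omega
  have hne' : (univ \ {a} : Finset V) ≠ univ := by
    intro h
    have h' := mem_univ a
    rw [← h] at h'
    simp at h'
  have h1 := hX.c1 _ hne hne'
  have h2 := ee_union X.C (disjoint_sdiff : Disjoint ({a} : Finset V) (univ \ {a}))
  rw [AOne.ee_self_singleton, union_sdiff_of_subset (subset_univ _), hX.edges,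
    ee_singleton_left] at h2
  have h3 : #(univ \ {a} : Finset V) + 1 = Fintype.card V := by
    rw [card_sdiff_of_subset (subset_univ _), card_singleton, card_univ]
    omega
  have h4 : (#(univ \ {a} : Finset V) : ℤ) + 1 = Fintype.card V := by exact_mod_cast h3
  have h5 : #{b ∈ (univ \ {a} : Finset V) | X.C.Adj a b} ≤ #{b : V | X.C.Adj a b} :=
    card_le_card (filter_subset_filter _ (subset_univ _))
  have h6 : (2 : ℤ) * #{b ∈ (univ \ {a} : Finset V) | X.C.Adj a b} ≥ 61 := by linarith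
  omega

/-- every vertex of `H` has two neighbours -/
theorem two_nbrs (hX : CoreOK X) (t : T) (x : HV X) :
    ∃ y z, y ≠ z ∧ (HG X).Adj x y ∧ (HG X).Adj x z := by
  rcases x with a | u | ⟨i, j⟩
  · obtain ⟨b, hb, c, hc, hbc⟩ := one_lt_card.1 (core_deg X hX t a)
    rw [mem_filter] at hb hc
    exact ⟨.inl b, .inl c, fun h => hbc (Sum.inl.inj h), hb.2, hc.2⟩
  · obtain ⟨b, hb, c, hc, hbc⟩ := one_lt_card.1 (show 1 < #X.D by rw [hX.Dcard]; norm_num)
    exact ⟨.inl b, .inl c, fun h => hbc (Sum.inl.inj h), hb, hc⟩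
  · obtain ⟨b, hb, c, hc, hbc⟩ := one_lt_card.1
      (show 1 < #(X.L (X.ty i j)) by rw [hX.Lcard]; norm_num)
    exact ⟨.inl b, .inl c, fun h => hbc (Sum.inl.inj h), hb, hc⟩

theorem other_nbr (hX : CoreOK X) (t : T) (x : HV X) (e : Sym2 (HV X)) :
    ∃ y, (HG X).Adj x y ∧ s(x, y) ≠ e := by
  obtain ⟨y, z, hyz, hy, hz⟩ := two_nbrs X hX t x
  by_cases h : s(x, y) = e
  · refine ⟨z, hz, fun h' => hyz ?_⟩
    have := h.trans h'.symm
    rw [Sym2.eq_iff] at this
    rcases this with h | h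
    · exact h.2
    · exact h.2.trans h.1
  · exact ⟨y, hy, h⟩

/-- the graph with the edges `ι i, ι j` for which `f i, f j` are adjacent -/
def push {α β W : Type} (ι : α → W) (hι : Function.Injective ι) (f : α → β)
    (G' : SimpleGraph β) : SimpleGraph W where
  Adj x y := ∃ i j, G'.Adj (f i) (f j) ∧ ι i = x ∧ ι j = y
  symm := ⟨fun _ _ ⟨i, j, h, hi, hj⟩ => ⟨j, i, h.symm, hj, hi⟩⟩
  loopless := ⟨fun _ ⟨i, j, h, hi, hj⟩ => h.ne (by rw [hι (hi.trans hj.symm)])⟩

/-- transport of a closed graph along injections -/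
theorem transport (hX : CoreOK X) (t : T) {a n : ℕ} {W : Type} (ι : Fin a → W)
    (hι : Function.Injective ι) (f : Fin a → Fin n) (hf : Function.Injective f)
    (G' : SimpleGraph (Fin n)) (hG' : HClosed (HG X) G') :
    HClosed (HG X) (push ι hι f G') := by
  intro φ hφ c d hcd h
  have hr : ∀ x : HV X, ∃ i, ι i = φ x := by
    intro x
    obtain ⟨y, hy, hne⟩ := other_nbr X hX t x s(c, d)
    obtain ⟨i, j, _, hi, _⟩ := h x y hy hne
    exact ⟨i, hi⟩
  choose κ hκ using hr
  have hκi : Function.Injective κ := by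
    intro x y hxy
    apply hφ
    rw [← hκ x, ← hκ y, hxy]
  refine ⟨κ c, κ d, ?_, hκ c, hκ d⟩
  refine hG' (fun x => f (κ x)) (hf.comp hκi) c d hcd fun x y hxy hne => ?_
  obtain ⟨i, j, hij, hi, hj⟩ := h x y hxy hne
  have e1 : i = κ x := hι (by rw [hκ]; exact hi)
  have e2 : j = κ y := hι (by rw [hκ]; exact hj)
  rw [← e1, ← e2]
  exact hij

end AFive

theorem partA_of (h1 : S_A_sparse) (h2 : S_A_finite) (h3 : S_A_clique) (h4 : S_A_grow)
    (h5 : S_perc_iff) : S_partA := by
  intro T I V _ _ _ _ X hX hc hub b hb a0 b0 hab hmul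
  have hcl := h3 X hX hc hub b hb s(a0, b0) hmul
  set N := Fintype.card (HV X) + 3 with hN
  let κ : ℕ → HV X ⊕ List (T × ℕ) := fun i => .inr [(b 48, i)]
  have hκ : Function.Injective κ := by
    intro i j hij
    simpa [κ] using hij
  set K : Finset (HV X ⊕ List (T × ℕ)) := (range N).map ⟨κ, hκ⟩ with hK
  have hKc : #K = N := by rw [hK, card_map, card_range]
  obtain ⟨U, hKU, hU⟩ := h2 (HG X) (AA X hub s(a0, b0)) K (by
    intro x hx y hy hxy
    rw [hK, mem_map] at hx hy
    obtain ⟨i, _, rfl⟩ := hx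
    obtain ⟨j, _, rfl⟩ := hy
    exact hcl i j fun h => hxy (by rw [h]))
  -- the finite graph
  set e : Fin #U ≃ U := U.equivFin.symm with he
  let ι : Fin #U → HV X ⊕ List (T × ℕ) := fun i => (e i : HV X ⊕ List (T × ℕ))
  have hι : Function.Injective ι := fun i j hij => e.injective (Subtype.ext hij)
  have hιU : ∀ x ∈ U, ∃ i, ι i = x := fun x hx => ⟨e.symm ⟨x, hx⟩, by simp [ι]⟩
  refine ⟨#U, (AA X hub s(a0, b0)).comap ι, ?_, ?_⟩
  · intro F hF
    have hs := h1 X hX hc hub a0 b0 hab (F.map ⟨ι, hι⟩) (hF.map)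
    rw [card_map] at hs
    refine lt_of_eq_of_lt ?_ hs
    unfold ee
    rw [sum_map]
    refine sum_congr rfl fun x _ => ?_
    rw [sum_map]
    rfl
  · intro n G hcon hcn
    obtain ⟨f, hf, hfG⟩ := hcon
    rw [h5]
    intro G' hGG' hG'
    set G2 := AFive.push ι hι f G' with hG2
    have hcl2 : HClosed (HG X) G2 := AFive.transport X hX hub ι hι f hf G' hG'
    have hle : (SimpleGraph.fromRel fun x y => x ∈ U ∧ y ∈ U ∧
        (AA X hub s(a0, b0)).Adj x y) ≤ G2 := by
      intro x y hxy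
      have hxy' : x ∈ U ∧ y ∈ U ∧ (AA X hub s(a0, b0)).Adj x y := AOne.restr_adj.1 hxy
      obtain ⟨i, rfl⟩ := hιU x hxy'.1
      obtain ⟨j, rfl⟩ := hιU y hxy'.2.1
      exact ⟨i, j, hGG' (hfG i j hxy'.2.2), rfl, rfl⟩
    have hhull := hull_le hle hcl2
    set J : Finset (Fin #U) := {i | ι i ∈ K} with hJ
    have hJc : #J = N := by
      rw [← hKc, ← card_map ⟨ι, hι⟩]
      congr 1
      ext x
      rw [mem_map]
      constructor
      · rintro ⟨i, hi, rfl⟩
        exact (mem_filter.1 hi).2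
      · intro hx
        obtain ⟨i, rfl⟩ := hιU x (hKU hx)
        exact ⟨i, mem_filter.2 ⟨mem_univ _, hx⟩, rfl⟩
    refine h4 X hX n G G' hGG' hG' hcn (J.map ⟨f, hf⟩) (by rw [card_map, hJc]) ?_
    intro x hx y hy hxy
    rw [mem_map] at hx hy
    obtain ⟨i, hi, rfl⟩ := hx
    obtain ⟨j, hj, rfl⟩ := hy
    have hij : i ≠ j := fun h => hxy (by rw [h])
    have hadj := hhull (hU (ι i) (mem_filter.1 hi).2 (ι j) (mem_filter.1 hj).2
      fun h => hij (hι h))
    obtain ⟨i', j', h', hi', hj'⟩ := hadj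
    have e1 : i' = i := hι hi'
    have e2 : j' = j := hι hj'
    rw [e1, e2] at h'
    exact h'

theorem partA : S_partA := partA_of A_sparse A_finite A_clique A_grow perc_iff

end Pool.Agent.H533HB
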