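import Pool.Agent.H533HB.Stmts

/-!
# Task B1: facts about nuclei and typed vertices
-/

set_option autoImplicit false

namespace Pool.Agent.H533HB

open Finset
open scoped Classical

namespace B1aux

variable {T I V W : Type} [Fintype V]

theorem card_Z {φ : V → W} (h : Function.Injective φ) : #(Z φ) = Fintype.card V := by
  rw [Z, card_image_of_injective _ h, card_univ]

theorem mem_Z {φ : V → W} {x : W} : x ∈ Z φ ↔ ∃ a, φ a = x := by
  simp [Z]

/-- number of ordered pairs forming a given unordered pair -/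
theorem sum_sym2_le (f0 : Sym2 V) :
    (∑ a : V, ∑ b : V, if s(a, b) = f0 then (1 : ℤ) else 0) ≤ 2 := by
  induction f0 using Sym2.ind with
  | _ p q =>
    have h : ∀ a b : V, (if s(a, b) = s(p, q) then (1 : ℤ) else 0) ≤
        (if a = p ∧ b = q then 1 else 0) + (if a = q ∧ b = p then 1 else 0) := by
      intro a b
      by_cases h : s(a, b) = s(p, q)
      · rw [if_pos h]
        rw [Sym2.eq_iff] at h
        rcases h with h | h
        · rw [if_pos h]
          split_ifs <;> norm_num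
        · rw [if_pos h]
          split_ifs <;> norm_num
      · rw [if_neg h]
        split_ifs <;> norm_num
    refine (sum_le_sum fun a _ => sum_le_sum fun b _ => h a b).trans ?_
    simp only [sum_add_distrib]
    have h1 : (∑ a : V, ∑ b : V, if a = p ∧ b = q then (1 : ℤ) else 0) = 1 := by
      rw [sum_eq_single p, sum_eq_single q]
      · simp
      · intro b _ hb; simp [hb]
      · simp
      · intro a _ ha; simp [ha]
      · simp
    have h2 : (∑ a : V, ∑ b : V, if a = q ∧ b = p then (1 : ℤ) else 0) = 1 := by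
      rw [sum_eq_single q, sum_eq_single p]
      · simp
      · intro b _ hb; simp [hb]
      · simp
      · intro a _ ha; simp [ha]
      · simp
    rw [h1, h2]
    norm_num

theorem two_le_sum_sym2 {p q : V} (h : p ≠ q) :
    2 ≤ (∑ a : V, ∑ b : V, if s(a, b) = s(p, q) then (1 : ℤ) else 0) := by
  have h0 : ∀ a b : V, (if a = p ∧ b = q then 1 else 0) + (if a = q ∧ b = p then 1 else 0) ≤
      (if s(a, b) = s(p, q) then (1 : ℤ) else 0) := by
    intro a b
    by_cases h1 : a = p ∧ b = q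
    · have h2 : ¬ (a = q ∧ b = p) := by
        rintro ⟨h3, _⟩
        exact h (h1.1.symm.trans h3)
      rw [if_pos h1, if_neg h2, if_pos (by rw [h1.1, h1.2])]
      norm_num
    · rw [if_neg h1]
      by_cases h2 : a = q ∧ b = p
      · rw [if_pos h2, if_pos (by rw [h2.1, h2.2]; exact Sym2.eq_swap)]
        norm_num
      · rw [if_neg h2]
        split_ifs <;> norm_num
  have h1 : (∑ a : V, ∑ b : V, if a = p ∧ b = q then (1 : ℤ) else 0) = 1 := by
    rw [sum_eq_single p, sum_eq_single q]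
    · simp
    · intro b _ hb; simp [hb]
    · simp
    · intro a _ ha; simp [ha]
    · simp
  have h2 : (∑ a : V, ∑ b : V, if a = q ∧ b = p then (1 : ℤ) else 0) = 1 := by
    rw [sum_eq_single q, sum_eq_single p]
    · simp
    · intro b _ hb; simp [hb]
    · simp
    · intro a _ ha; simp [ha]
    · simp
  refine le_trans ?_ (sum_le_sum fun a _ => sum_le_sum fun b _ => h0 a b)
  simp only [sum_add_distrib]
  rw [h1, h2]
  norm_num

theorem ee_Z (G : SimpleGraph W) {φ : V → W} (h : Function.Injective φ) :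
    ee G (Z φ) (Z φ) = ∑ a : V, ∑ b : V, if G.Adj (φ a) (φ b) then 1 else 0 := by
  unfold Z
  exact ee_map G φ h univ univ

theorem sp_le {B K : ℕ} {G : SimpleGraph W} (hs : Sp B K G) (F : Finset W) (h : F.Nonempty)
    (hK : #F ≤ K) : ee G F F + 2 ≤ 32 * #F := (hs F h hK).1

/-- lower bound for the number of edges in a nucleus, with a bonus for an extra edge -/
theorem ee_Z_ge {X : Data T I V} {G : SimpleGraph W}
    (hc : CoreOK X) {φ : V → W} (hi : Function.Injective φ) (f0 : Sym2 V)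
    (hf : ∀ a b, X.C.Adj a b → s(a, b) ≠ f0 → G.Adj (φ a) (φ b)) :
    32 * (Fintype.card V : ℤ) ≤ ee G (Z φ) (Z φ) + 2 := by
  rw [ee_Z G hi, ← hc.edges]
  have h1 : ee X.C univ univ ≤ (∑ a : V, ∑ b : V, if G.Adj (φ a) (φ b) then (1 : ℤ) else 0) +
      (∑ a : V, ∑ b : V, if s(a, b) = f0 then (1 : ℤ) else 0) := by
    unfold ee
    rw [← sum_add_distrib]
    refine sum_le_sum fun a _ => ?_
    rw [← sum_add_distrib]
    refine sum_le_sum fun b _ => ?_
    by_cases hab : X.C.Adj a b
    · rw [if_pos hab]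
      by_cases he : s(a, b) = f0
      · rw [if_pos he]
        split_ifs <;> norm_num
      · rw [if_pos (hf a b hab he)]
        split_ifs <;> norm_num
    · rw [if_neg hab]
      split_ifs <;> norm_num
  have h2 := sum_sym2_le f0
  linarith

theorem ee_Z_ge' {X : Data T I V} {G : SimpleGraph W}
    (hc : CoreOK X) {φ : V → W} (hi : Function.Injective φ) (f0 : Sym2 V)
    (hf : ∀ a b, X.C.Adj a b → s(a, b) ≠ f0 → G.Adj (φ a) (φ b)) {p q : V}
    (hG : G.Adj (φ p) (φ q)) (hC : ¬ X.C.Adj p q) :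
    32 * (Fintype.card V : ℤ) ≤ ee G (Z φ) (Z φ) := by
  rw [ee_Z G hi, ← hc.edges]
  have hpq : p ≠ q := by
    rintro rfl
    exact G.loopless.irrefl _ hG
  have h1 : ee X.C univ univ + (∑ a : V, ∑ b : V, if s(a, b) = s(p, q) then (1 : ℤ) else 0) ≤
      (∑ a : V, ∑ b : V, if G.Adj (φ a) (φ b) then (1 : ℤ) else 0) +
      (∑ a : V, ∑ b : V, if s(a, b) = f0 then (1 : ℤ) else 0) := by
    unfold ee
    rw [← sum_add_distrib, ← sum_add_distrib]
    refine sum_le_sum fun a _ => ?_
    rw [← sum_add_distrib, ← sum_add_distrib]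
    refine sum_le_sum fun b _ => ?_
    by_cases hab : X.C.Adj a b
    · have hne : s(a, b) ≠ s(p, q) := by
        intro h
        rw [Sym2.eq_iff] at h
        rcases h with ⟨rfl, rfl⟩ | ⟨rfl, rfl⟩
        · exact hC hab
        · exact hC hab.symm
      rw [if_pos hab, if_neg hne]
      by_cases he : s(a, b) = f0
      · rw [if_pos he]
        split_ifs <;> norm_num
      · rw [if_pos (hf a b hab he)]
        split_ifs <;> norm_num
    · rw [if_neg hab]
      by_cases he : s(a, b) = s(p, q)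
      · have hG' : G.Adj (φ a) (φ b) := by
          rw [Sym2.eq_iff] at he
          rcases he with ⟨rfl, rfl⟩ | ⟨rfl, rfl⟩
          · exact hG
          · exact hG.symm
        rw [if_pos he, if_pos hG']
        split_ifs <;> norm_num
      · rw [if_neg he]
        split_ifs <;> norm_num
  have h2 := sum_sym2_le f0
  have h3 := two_le_sum_sym2 hpq
  linarith

theorem Z_nonempty {X : Data T I V} (hc : CoreOK X) (φ : V → W) : (Z φ).Nonempty := by
  have h : X.D.Nonempty := by
    rw [← card_pos, hc.Dcard]; norm_num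
  obtain ⟨d, _⟩ := h
  exact ⟨φ d, mem_Z.2 ⟨d, rfl⟩⟩

theorem fact_w {X : Data T I V} {G : SimpleGraph W} {B K : ℕ} (hc : CoreOK X)
    (hK : 3 * Fintype.card V + 1 ≤ K) (hs : Sp B K G) {φ : V → W} (hφ : IsNuc X G φ) :
    ee G (Z φ) (Z φ) + 2 = 32 * Fintype.card V := by
  obtain ⟨hi, f0, hf⟩ := hφ
  have h1 := ee_Z_ge hc hi f0 hf
  have h2 := sp_le hs (Z φ) (Z_nonempty hc φ) (by rw [card_Z hi]; omega)
  rw [card_Z hi] at h2
  linarith

theorem fact_ind {X : Data T I V} {G : SimpleGraph W} {B K : ℕ} (hc : CoreOK X)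
    (hK : 3 * Fintype.card V + 1 ≤ K) (hs : Sp B K G) {φ : V → W} (hφ : IsNuc X G φ) (a b : V)
    (hab : G.Adj (φ a) (φ b)) : X.C.Adj a b := by
  by_contra hne
  have h0 := fact_w hc hK hs hφ
  obtain ⟨hi, f0, hf⟩ := hφ
  have h1 := ee_Z_ge' hc hi f0 hf hab hne
  linarith

theorem fact_n1 {X : Data T I V} {G : SimpleGraph W} {B K : ℕ} (hc : CoreOK X)
    (hK : 3 * Fintype.card V + 1 ≤ K) (hs : Sp B K G) {φ φ' : V → W} (hφ : IsNuc X G φ)
    (hφ' : IsNuc X G φ') (x : W) (hx : x ∈ Z φ) (hx' : x ∈ Z φ') : φ = φ' := by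
  by_cases hZ : Z φ = Z φ'
  · -- same range
    have hex : ∀ a, ∃ b, φ' b = φ a := by
      intro a
      have : φ a ∈ Z φ' := by rw [← hZ]; exact mem_Z.2 ⟨a, rfl⟩
      exact mem_Z.1 this
    choose ψ hψ using hex
    have hinj : Function.Injective ψ := by
      intro a b hab
      apply hφ.1
      rw [← hψ a, ← hψ b, hab]
    obtain ⟨hi, f0, hf⟩ := hφ
    have hid : ψ = id := by
      apply hc.rigid ψ hinj f0
      intro a b hab hne
      apply fact_ind hc hK hs hφ'
      rw [hψ, hψ]
      exact hf a b hab hne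
    funext a
    rw [← hψ a, hid]
    rfl
  · exfalso
    have hw := fact_w hc hK hs hφ
    have hw' := fact_w hc hK hs hφ'
    have hcard := card_Z hφ.1
    have hcard' := card_Z hφ'.1
    set F : Finset V := univ.filter (fun a => φ a ∈ Z φ') with hF
    have hFim : F.image φ = Z φ ∩ Z φ' := by
      ext y
      simp only [mem_image, mem_inter, hF, mem_filter, mem_univ, true_and]
      constructor
      · rintro ⟨a, ha, rfl⟩
        exact ⟨mem_Z.2 ⟨a, rfl⟩, ha⟩
      · rintro ⟨h1, h2⟩
        obtain ⟨a, rfl⟩ := mem_Z.1 h1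
        exact ⟨a, h2, rfl⟩
    have hFc : #F = #(Z φ ∩ Z φ') := by
      rw [← hFim, card_image_of_injective _ hφ.1]
    have hFne : F.Nonempty := by
      obtain ⟨a, rfl⟩ := mem_Z.1 hx
      exact ⟨a, by rw [hF, mem_filter]; exact ⟨mem_univ _, hx'⟩⟩
    have hFnu : F ≠ univ := by
      intro h
      apply hZ
      apply eq_of_subset_of_card_le
      · intro y hy
        obtain ⟨a, rfl⟩ := mem_Z.1 hy
        have : a ∈ F := by rw [h]; exact mem_univ _
        rw [hF, mem_filter] at this
        exact this.2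
      · rw [hcard, hcard']
    have hc1 := hc.c1 F hFne hFnu
    have heF : ee G (Z φ ∩ Z φ') (Z φ ∩ Z φ') ≤ ee X.C F F := by
      rw [← hFim, ee_map G φ hφ.1]
      unfold ee
      refine sum_le_sum fun a _ => sum_le_sum fun b _ => ?_
      by_cases hab : G.Adj (φ a) (φ b)
      · rw [if_pos hab, if_pos (fact_ind hc hK hs hφ a b hab)]
      · rw [if_neg hab]
        split_ifs <;> norm_num
    have hui := ee_union_inter G (Z φ) (Z φ')
    have hcu := card_union_add_card_inter (Z φ) (Z φ')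
    rw [hcard, hcard'] at hcu
    have hnn := ee_nonneg G (Z φ \ Z φ') (Z φ' \ Z φ)
    have hsp := sp_le hs (Z φ ∪ Z φ') ((Z_nonempty hc φ).mono subset_union_left) (by omega)
    have hcu' : (#(Z φ ∪ Z φ') : ℤ) + #F = Fintype.card V + Fintype.card V := by
      rw [hFc]; exact_mod_cast hcu
    linarith

theorem disj_Z {X : Data T I V} {G : SimpleGraph W} {B K : ℕ} (hc : CoreOK X)
    (hK : 3 * Fintype.card V + 1 ≤ K) (hs : Sp B K G) {φ φ' : V → W} (hφ : IsNuc X G φ)
    (hφ' : IsNuc X G φ') (hne : φ ≠ φ') : Disjoint (Z φ) (Z φ') := by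
  rw [disjoint_left]
  intro x hx hx'
  exact hne (fact_n1 hc hK hs hφ hφ' x hx hx')

theorem fact_n2 {X : Data T I V} {G : SimpleGraph W} {B K : ℕ} (hc : CoreOK X)
    (hK : 3 * Fintype.card V + 1 ≤ K) (hs : Sp B K G) {φ φ' : V → W} (hφ : IsNuc X G φ)
    (hφ' : IsNuc X G φ') (hne : φ ≠ φ') : ee G (Z φ) (Z φ') ≤ 1 := by
  have hd := disj_Z hc hK hs hφ hφ' hne
  have hw := fact_w hc hK hs hφ
  have hw' := fact_w hc hK hs hφ'
  have hcard := card_Z hφ.1
  have hcard' := card_Z hφ'.1
  have hcu := card_union_of_disjoint hd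
  rw [hcard, hcard'] at hcu
  have hsp := sp_le hs (Z φ ∪ Z φ') ((Z_nonempty hc φ).mono subset_union_left) (by omega)
  rw [ee_union G hd, hcu] at hsp
  push_cast at hsp
  linarith

/-- the label edges are counted by `ee` -/
theorem lab_le {X : Data T I V} {G : SimpleGraph W} {φ : V → W} (hi : Function.Injective φ)
    (x : W) (s : T) : (lab X G φ x s : ℤ) ≤ ee G {x} (Z φ) := by
  rw [ee_singleton_left]
  have : lab X G φ x s ≤ #{b ∈ Z φ | G.Adj x b} := by
    unfold lab
    rw [← card_image_of_injective _ hi]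
    apply card_le_card
    intro y hy
    rw [mem_image] at hy
    obtain ⟨l, hl, rfl⟩ := hy
    rw [mem_filter] at hl ⊢
    exact ⟨mem_Z.2 ⟨l, rfl⟩, hl.2⟩
  exact_mod_cast this

theorem lab_le2 {X : Data T I V} {G : SimpleGraph W} (hc : CoreOK X) {φ : V → W}
    (hi : Function.Injective φ) (x : W) {s s' : T} (hss : s ≠ s') :
    (lab X G φ x s : ℤ) + lab X G φ x s' ≤ ee G {x} (Z φ) := by
  rw [ee_singleton_left]
  have : lab X G φ x s + lab X G φ x s' ≤ #{b ∈ Z φ | G.Adj x b} := by
    unfold lab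
    rw [← card_union_of_disjoint (disjoint_filter_filter (hc.Ldisj s s' hss)),
      ← card_image_of_injective _ hi]
    apply card_le_card
    intro y hy
    rw [mem_image] at hy
    obtain ⟨l, hl, rfl⟩ := hy
    rw [mem_filter]
    refine ⟨mem_Z.2 ⟨l, rfl⟩, ?_⟩
    rw [mem_union, mem_filter, mem_filter] at hl
    rcases hl with hl | hl
    · exact hl.2
    · exact hl.2
  exact_mod_cast this

theorem fact_t1 {X : Data T I V} {G : SimpleGraph W} {B K : ℕ} (hc : CoreOK X)
    (hK : 3 * Fintype.card V + 1 ≤ K) (hs : Sp B K G) {φ φ' : V → W} (hφ : IsNuc X G φ)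
    (hφ' : IsNuc X G φ') (x : W) (s : T) (hx : Typed X G φ x s) : x ∉ Z φ' := by
  intro hx'
  have hne : φ ≠ φ' := by
    rintro rfl
    exact hx.1 hx'
  have h1 := fact_n2 hc hK hs hφ' hφ hne.symm
  have h2 := lab_le (X := X) (G := G) hφ.1 x s
  have h3 : ee G {x} (Z φ) ≤ ee G (Z φ') (Z φ) :=
    ee_mono G (singleton_subset_iff.2 hx') (Subset.refl _)
  have h4 : (14 : ℤ) ≤ lab X G φ x s := by exact_mod_cast hx.2
  linarith

theorem fact_t2 {X : Data T I V} {G : SimpleGraph W} {B K : ℕ} (hc : CoreOK X)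
    (hK : 3 * Fintype.card V + 1 ≤ K) (hs : Sp B K G) {φ φ' : V → W} (hφ : IsNuc X G φ)
    (hφ' : IsNuc X G φ') (x : W) (s s' : T) (hx : Typed X G φ x s) (hx' : Typed X G φ' x s') :
    φ = φ' ∧ s = s' := by
  have hφφ : φ = φ' := by
    by_contra hne
    have hd := disj_Z hc hK hs hφ hφ' hne
    have hw := fact_w hc hK hs hφ
    have hw' := fact_w hc hK hs hφ'
    have hcard := card_Z hφ.1
    have hcard' := card_Z hφ'.1
    have hcu := card_union_of_disjoint hd
    rw [hcard, hcard'] at hcu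
    have hxd : Disjoint (Z φ ∪ Z φ') ({x} : Finset W) := by
      rw [disjoint_singleton_right, mem_union]
      rintro (h | h)
      · exact hx.1 h
      · exact hx'.1 h
    have hcx := card_union_of_disjoint hxd
    rw [hcu, card_singleton] at hcx
    have hsp := sp_le hs (Z φ ∪ Z φ' ∪ {x})
      (((Z_nonempty hc φ).mono subset_union_left).mono subset_union_left) (by omega)
    rw [ee_union G hxd, ee_union G hd, ee_union_left G hd, hcx, ee_comm G (Z φ) {x},
      ee_comm G (Z φ') {x}] at hsp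
    push_cast at hsp
    have h1 := lab_le (X := X) (G := G) hφ.1 x s
    have h2 := lab_le (X := X) (G := G) hφ'.1 x s'
    have h3 : (14 : ℤ) ≤ lab X G φ x s := by exact_mod_cast hx.2
    have h4 : (14 : ℤ) ≤ lab X G φ' x s' := by exact_mod_cast hx'.2
    have h5 := ee_nonneg G (Z φ) (Z φ')
    have h6 := ee_nonneg G {x} {x}
    linarith
  refine ⟨hφφ, ?_⟩
  by_contra hne
  rw [← hφφ] at hx'
  have hw := fact_w hc hK hs hφ
  have hcard := card_Z hφ.1
  have hxd : Disjoint (Z φ) ({x} : Finset W) := by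
    rw [disjoint_singleton_right]
    exact hx.1
  have hcx := card_union_of_disjoint hxd
  rw [hcard, card_singleton] at hcx
  have hsp := sp_le hs (Z φ ∪ {x}) ((Z_nonempty hc φ).mono subset_union_left) (by omega)
  rw [ee_union G hxd, hcx, ee_comm G (Z φ) {x}] at hsp
  push_cast at hsp
  have h1 := lab_le2 (X := X) (G := G) hc hφ.1 x hne
  have h3 : (14 : ℤ) ≤ lab X G φ x s := by exact_mod_cast hx.2
  have h4 : (14 : ℤ) ≤ lab X G φ x s' := by exact_mod_cast hx'.2
  have h6 := ee_nonneg G {x} {x}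
  linarith

end B1aux

theorem B1 : S_B1 := by
  intro T I V W _ _ X G B K hc hK hs
  exact ⟨fun φ hφ => B1aux.fact_w hc hK hs hφ,
    fun φ hφ a b hab => B1aux.fact_ind hc hK hs hφ a b hab,
    fun φ φ' hφ hφ' x hx hx' => B1aux.fact_n1 hc hK hs hφ hφ' x hx hx',
    fun φ φ' hφ hφ' hne => B1aux.fact_n2 hc hK hs hφ hφ' hne,
    fun φ φ' x s hφ hφ' hx => B1aux.fact_t1 hc hK hs hφ hφ' x s hx,
    fun φ φ' x s s' hφ hφ' hx hx' => B1aux.fact_t2 hc hK hs hφ hφ' x s s' hx hx'⟩

end Pool.Agent.H533HB
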