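import Pool.Agent.H533HB.Stmts

/-!
# Task B2: clusters
-/

set_option autoImplicit false
set_option linter.unusedSectionVars false

namespace Pool.Agent.H533HB

namespace TaskB2

open Finset
open scoped Classical

variable {T I V W GG : Type}

/-- the graph of the typed edges -/
def tg (X : Data T I V) (G : SimpleGraph W) (t : W → T) : SimpleGraph W where
  Adj x y := G.Adj x y ∧ X.TA.Adj (t x) (t y)
  symm := ⟨fun _ _ h => ⟨h.1.symm, h.2.symm⟩⟩
  loopless := ⟨fun x h => G.loopless.irrefl x h.1⟩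

/-- the graph of the other edges -/
def ntg (X : Data T I V) (G : SimpleGraph W) (t : W → T) : SimpleGraph W where
  Adj x y := G.Adj x y ∧ ¬ X.TA.Adj (t x) (t y)
  symm := ⟨fun _ _ h => ⟨h.1.symm, fun h' => h.2 h'.symm⟩⟩
  loopless := ⟨fun x h => G.loopless.irrefl x h.1⟩

theorem ee_congr {G G' : SimpleGraph W} {A B : Finset W}
    (h : ∀ x ∈ A, ∀ y ∈ B, (G.Adj x y ↔ G'.Adj x y)) : ee G A B = ee G' A B := by
  unfold ee
  refine sum_congr rfl fun x hx => sum_congr rfl fun y hy => ?_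
  rw [if_congr (h x hx y hy) rfl rfl]

theorem ee_split (X : Data T I V) (G : SimpleGraph W) (t : W → T) (A B : Finset W) :
    ee G A B = ee (tg X G t) A B + ee (ntg X G t) A B := by
  unfold ee
  rw [← sum_add_distrib]
  refine sum_congr rfl fun x _ => ?_
  rw [← sum_add_distrib]
  refine sum_congr rfl fun y _ => ?_
  by_cases h1 : G.Adj x y <;> by_cases h2 : X.TA.Adj (t x) (t y) <;>
    simp [tg, ntg, h1, h2]

theorem et_eq (X : Data T I V) (G : SimpleGraph W) (c : Cl T V W GG) :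
    et X G c = ee (tg X G c.t) c.S c.S := by
  unfold et ee
  refine sum_congr rfl fun x _ => sum_congr rfl fun y _ => ?_
  by_cases h : G.Adj x y ∧ X.TA.Adj (c.t x) (c.t y)
  · rw [if_pos h, if_pos (show (tg X G c.t).Adj x y from h)]
  · rw [if_neg h, if_neg (show ¬ (tg X G c.t).Adj x y from h)]

variable [Fintype V]

theorem card_Z {φ : V → W} (h : Function.Injective φ) : #(Z φ) = Fintype.card V := by
  rw [Z, card_image_of_injective _ h, card_univ]

/-- number of the edges from `x` to the nucleus which are not label edges -/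
noncomputable def extra (X : Data T I V) (G : SimpleGraph W) (φ : V → W) (x : W) (s : T) : ℕ :=
  #{a : V | G.Adj x (φ a) ∧ a ∉ X.L s}

theorem card_nbrs (X : Data T I V) (G : SimpleGraph W) {φ : V → W}
    (hφ : Function.Injective φ) (x : W) (s : T) :
    #{b ∈ Z φ | G.Adj x b} = lab X G φ x s + extra X G φ x s := by
  have h1 : ({b ∈ Z φ | G.Adj x b} : Finset W) = ({a : V | G.Adj x (φ a)} : Finset V).image φ := by
    ext b
    simp only [Z, mem_filter, mem_image, mem_univ, true_and]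
    constructor
    · rintro ⟨⟨a, rfl⟩, h⟩
      exact ⟨a, h, rfl⟩
    · rintro ⟨a, h, rfl⟩
      exact ⟨⟨a, rfl⟩, h⟩
  rw [h1, card_image_of_injective _ hφ, lab, extra, ← card_union_of_disjoint]
  · congr 1
    ext a
    simp only [mem_filter, mem_univ, true_and, mem_union]
    tauto
  · rw [Finset.disjoint_left]
    intro a h2 h3
    simp only [mem_filter, mem_univ, true_and] at h2 h3
    exact h3.2 h2.1

theorem ee_S_Z (X : Data T I V) (G : SimpleGraph W) {φ : V → W}
    (hφ : Function.Injective φ) (S : Finset W) (t : W → T) :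
    ee G S (Z φ) = ∑ x ∈ S, (lab X G φ x (t x) : ℤ) + ∑ x ∈ S, (extra X G φ x (t x) : ℤ) := by
  rw [ee_eq_sum_card, ← sum_add_distrib]
  refine sum_congr rfl fun x _ => ?_
  rw [card_nbrs X G hφ x (t x)]
  push_cast
  rfl

theorem sum_lab {X : Data T I V} (hX : CoreOK X) (G : SimpleGraph W) (c : Cl T V W GG)
    (ht : ∀ x ∈ c.S, Typed X G c.φ x (c.t x)) :
    ∑ x ∈ c.S, (lab X G c.φ x (c.t x) : ℤ) + semi X G c = 15 * #c.S := by
  unfold semi
  rw [card_filter]
  push_cast
  rw [← sum_add_distrib]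
  have h1 : ∀ x ∈ c.S, ((lab X G c.φ x (c.t x) : ℤ) +
      if lab X G c.φ x (c.t x) ≤ 14 then 1 else 0) = 15 := by
    intro x hx
    have h14 := (ht x hx).2
    have h15 : lab X G c.φ x (c.t x) ≤ 15 := by
      rw [← hX.Lcard (c.t x)]
      exact card_filter_le _ _
    split_ifs with h
    · omega
    · omega
  rw [sum_congr rfl h1, sum_const]
  simp
  ring

/-- `rel` in ordered counts -/
theorem rel_eq {X : Data T I V} (hX : CoreOK X) (G : SimpleGraph W) (c : Cl T V W GG)
    (hφ : Function.Injective c.φ) (ht : ∀ x ∈ c.S, Typed X G c.φ x (c.t x)) :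
    32 * (#c.S : ℤ) - ee G c.S c.S - 2 * ee G c.S (Z c.φ) =
      2 * #c.S + 2 * semi X G c - et X G c - ee (ntg X G c.t) c.S c.S -
        2 * ∑ x ∈ c.S, (extra X G c.φ x (c.t x) : ℤ) := by
  rw [ee_S_Z X G hφ c.S c.t, ee_split X G c.t c.S c.S, et_eq]
  have := sum_lab hX G c ht
  linarith

/-- sparseness of a nucleus with typed vertices -/
theorem rel_sp {X : Data T I V} (hX : CoreOK X) {G : SimpleGraph W} (hN : NucFacts X G)
    {B K : ℕ} (hSp : Sp B K G) {φ : V → W} (hφ : IsNuc X G φ) {S : Finset W}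
    (hd : Disjoint S (Z φ)) (hK : Fintype.card V + #S ≤ K) :
    0 ≤ 32 * (#S : ℤ) - ee G S S - 2 * ee G S (Z φ) ∧
      (32 * (#S : ℤ) - ee G S S - 2 * ee G S (Z φ) ≤ 2 → #S ≤ B) := by
  have hne : (S ∪ Z φ).Nonempty := by
    have h3 : X.D.Nonempty := by
      rw [← card_pos, hX.Dcard]; norm_num
    obtain ⟨a, _⟩ := h3
    exact ⟨φ a, mem_union_right _ (mem_image_of_mem _ (mem_univ _))⟩
  have hc : #(S ∪ Z φ) = #S + Fintype.card V := by
    rw [card_union_of_disjoint hd, card_Z hφ.1]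
  have h1 := hSp (S ∪ Z φ) hne (by omega)
  have h2 := hN.w φ hφ
  rw [ee_union G hd, hc] at h1
  push_cast at h1
  obtain ⟨h3, h4⟩ := h1
  refine ⟨by linarith, fun h5 => ?_⟩
  have := h4 (by linarith)
  omega

theorem disj_Z {X : Data T I V} {G : SimpleGraph W} {φ : V → W} {S : Finset W} {t : W → T}
    (ht : ∀ x ∈ S, Typed X G φ x (t x)) : Disjoint S (Z φ) := by
  rw [Finset.disjoint_left]
  exact fun x hx => (ht x hx).1

end TaskB2

open Finset
open scoped Classical

open TaskB2 in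
theorem B2c : S_B2c := by
  intro T I V W GG _ _ _ X G v B K hX hN hK hSp c hc
  have hrel := rel_eq hX G c hc.nuc.1 hc.typed
  obtain ⟨h0, _⟩ := rel_sp hX hN hSp hc.nuc (disj_Z hc.typed)
    (by have := hc.small; omega)
  have hbal := hc.bal
  have hrk : 0 ≤ rk c.u := by unfold rk; split_ifs <;> norm_num
  have hnt : 0 ≤ ee (ntg X G c.t) c.S c.S := ee_nonneg _ _ _
  have hex : 0 ≤ ∑ x ∈ c.S, (extra X G c.φ x (c.t x) : ℤ) :=
    sum_nonneg fun _ _ => by positivity
  refine ⟨by linarith, by linarith, ?_, ?_⟩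
  · have h2 : ee (ntg X G c.t) c.S c.S ≤ 2 := by linarith
    rw [ee_eq_card] at h2
    by_cases hE : ∃ p ∈ c.S, ∃ q ∈ c.S, (ntg X G c.t).Adj p q
    · obtain ⟨p, hp, q, hq, hpq⟩ := hE
      refine ⟨s(p, q), fun x hx y hy hxy hne => ?_⟩
      by_contra hcon
      have h3 : ({(p, q), (q, p), (x, y)} : Finset (W × W)) ⊆
          {x ∈ c.S ×ˢ c.S | (ntg X G c.t).Adj x.1 x.2} := by
        intro z hz
        simp only [mem_insert, mem_singleton] at hz
        rcases hz with rfl | rfl | rfl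
        · simp [hp, hq, hpq]
        · simp [hp, hq, hpq.symm]
        · simp only [mem_filter, mem_product]
          exact ⟨⟨hx, hy⟩, hxy, hcon⟩
      have h4 := card_le_card h3
      have h5 : #({(p, q), (q, p), (x, y)} : Finset (W × W)) = 3 := by
        rw [card_eq_three]
        refine ⟨(p, q), (q, p), (x, y), ?_, ?_, ?_, rfl⟩
        · intro h
          have h6 : p = q := congrArg Prod.fst h
          exact hpq.ne h6
        · intro h
          have h6 : p = x := congrArg Prod.fst h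
          have h7 : q = y := congrArg Prod.snd h
          exact hne (by rw [h6, h7])
        · intro h
          have h6 : q = x := congrArg Prod.fst h
          have h7 : p = y := congrArg Prod.snd h
          exact hne (by rw [← h6, ← h7]; exact Sym2.eq_swap)
      rw [h5] at h4
      have h6 : (#{x ∈ c.S ×ˢ c.S | (ntg X G c.t).Adj x.1 x.2} : ℤ) ≤ 2 := h2
      omega
    · obtain ⟨x0, _⟩ := hc.ne
      refine ⟨s(x0, x0), fun x hx y hy hxy _ => ?_⟩
      by_contra hcon
      exact hE ⟨x, hx, y, hy, hxy, hcon⟩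
  · intro x hx
    have h1 : (extra X G c.φ x (c.t x) : ℤ) ≤ ∑ x ∈ c.S, (extra X G c.φ x (c.t x) : ℤ) :=
      single_le_sum (f := fun x => (extra X G c.φ x (c.t x) : ℤ))
        (fun _ _ => by positivity) hx
    have h2 : (extra X G c.φ x (c.t x) : ℤ) ≤ 1 := by linarith
    have h3 : extra X G c.φ x (c.t x) ≤ 1 := by exact_mod_cast h2
    exact h3

namespace TaskB2

variable {T I V W GG : Type} [Group GG]

/-! ### Cyclic subgroups -/

theorem rk_nonneg (u : GG) : 0 ≤ rk u := by unfold rk; split_ifs <;> norm_num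

theorem rk_one : rk (1 : GG) = 0 := by simp [rk]

theorem rk_of_ne {u : GG} (h : u ≠ 1) : rk u = 1 := by simp [rk, h]

theorem rk_conj (k u : GG) : rk (k * u * k⁻¹) = rk u := by
  unfold rk
  rw [if_congr (conj_eq_one_iff) rfl rfl]

theorem rk_le_one (u : GG) : rk u ≤ 1 := by unfold rk; split_ifs <;> norm_num

theorem exists_u {P : Type} (u1 u2 : GG) (D : Finset P) (val : P → GG) (p : P) (hp : p ∈ D)
    (hv : val p = 1) (h : rk u1 + rk u2 + #D ≤ 2) :
    ∃ u : GG, u1 ∈ Subgroup.zpowers u ∧ u2 ∈ Subgroup.zpowers u ∧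
      (∀ d ∈ D, val d ∈ Subgroup.zpowers u) ∧ rk u ≤ rk u1 + rk u2 + #D - 1 := by
  have hD : 1 ≤ #D := card_pos.2 ⟨p, hp⟩
  have honly : #D ≤ 1 → ∀ d ∈ D, val d = 1 := by
    intro h1 d hd
    rw [card_le_one.1 h1 d hd p hp, hv]
  by_cases h1 : u1 = 1
  · by_cases h2 : u2 = 1
    · by_cases h3 : #D ≤ 1
      · refine ⟨1, by rw [h1]; exact one_mem _, by rw [h2]; exact one_mem _, fun d hd => ?_, ?_⟩
        · rw [honly h3 d hd]; exact one_mem _
        · rw [rk_one]
          have := rk_nonneg u1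
          have := rk_nonneg u2
          have : (1 : ℤ) ≤ #D := by exact_mod_cast hD
          linarith
      · have h4 : 1 < #D := not_le.1 h3
        obtain ⟨q, hq, hqp⟩ := exists_mem_ne h4 p
        have h5 : #D = 2 := by
          have := rk_nonneg u1
          have := rk_nonneg u2
          have : (#D : ℤ) ≤ 2 := by linarith
          omega
        refine ⟨val q, by rw [h1]; exact one_mem _, by rw [h2]; exact one_mem _,
          fun d hd => ?_, ?_⟩
        · by_cases hdp : d = p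
          · rw [hdp, hv]; exact one_mem _
          · have hdq : d = q := by
              by_contra hdq
              have h6 : ({d, p, q} : Finset P) ⊆ D := by
                intro z hz
                simp only [mem_insert, mem_singleton] at hz
                rcases hz with rfl | rfl | rfl <;> assumption
              have h7 := card_le_card h6
              rw [card_eq_three.2 ⟨d, p, q, hdp, hdq, hqp.symm, rfl⟩] at h7
              omega
            rw [hdq]
            exact Subgroup.mem_zpowers _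
        · rw [h1, h2, rk_one, h5]
          have := rk_le_one (val q)
          push_cast
          linarith
    · have h3 := rk_of_ne h2
      have h4 := rk_nonneg u1
      have h5 : #D ≤ 1 := by
        have : (#D : ℤ) ≤ 1 := by linarith
        omega
      refine ⟨u2, by rw [h1]; exact one_mem _, Subgroup.mem_zpowers _, fun d hd => ?_, ?_⟩
      · rw [honly h5 d hd]; exact one_mem _
      · have : (1 : ℤ) ≤ #D := by exact_mod_cast hD
        linarith
  · have h3 := rk_of_ne h1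
    have h4 := rk_nonneg u2
    have h5 : #D ≤ 1 := by
      have : (#D : ℤ) ≤ 1 := by linarith
      omega
    have h2 : u2 = 1 := by
      by_contra h2
      have h6 := rk_of_ne h2
      have : (1 : ℤ) ≤ #D := by exact_mod_cast hD
      linarith
    refine ⟨u1, Subgroup.mem_zpowers _, by rw [h2]; exact one_mem _, fun d hd => ?_, ?_⟩
    · rw [honly h5 d hd]; exact one_mem _
    · have : (1 : ℤ) ≤ #D := by exact_mod_cast hD
      linarith

/-! ### Merging two clusters -/

/-- the typed edges between two clusters -/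
noncomputable def DD (X : Data T I V) (G : SimpleGraph W) (c c' : Cl T V W GG) :
    Finset (W × W) :=
  {z ∈ c.S ×ˢ c'.S | G.Adj z.1 z.2 ∧ X.TA.Adj (c.t z.1) (c'.t z.2)}

/-- the merged cluster -/
noncomputable def mg (c c' : Cl T V W GG) (k u : GG) : Cl T V W GG where
  φ := c.φ
  S := c.S ∪ c'.S
  t x := if x ∈ c.S then c.t x else c'.t x
  g x := if x ∈ c.S then c.g x else k * c'.g x
  u := u

section Merge

variable {X : Data T I V} {G : SimpleGraph W} {c c' : Cl T V W GG} {k u : GG}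

theorem mg_t1 {x : W} (hx : x ∈ c.S) : (mg c c' k u).t x = c.t x := if_pos hx

theorem mg_g1 {x : W} (hx : x ∈ c.S) : (mg c c' k u).g x = c.g x := if_pos hx

theorem mg_t2 (hd : Disjoint c.S c'.S) {x : W} (hx : x ∈ c'.S) :
    (mg c c' k u).t x = c'.t x := if_neg fun h => Finset.disjoint_left.1 hd h hx

theorem mg_g2 (hd : Disjoint c.S c'.S) {x : W} (hx : x ∈ c'.S) :
    (mg c c' k u).g x = k * c'.g x := if_neg fun h => Finset.disjoint_left.1 hd h hx

theorem mg_card (hd : Disjoint c.S c'.S) : #(mg c c' k u).S = #c.S + #c'.S :=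
  card_union_of_disjoint hd

variable [Fintype V]

theorem mg_semi (hφ : c'.φ = c.φ) (hd : Disjoint c.S c'.S) :
    semi X G (mg c c' k u) = semi X G c + semi X G c' := by
  unfold semi
  change #{x ∈ c.S ∪ c'.S | lab X G c.φ x ((mg c c' k u).t x) ≤ 14} = _
  rw [filter_union, card_union_of_disjoint (disjoint_filter_filter hd)]
  congr 1
  · congr 1
    refine filter_congr fun x hx => ?_
    rw [mg_t1 hx]
  · congr 1
    refine filter_congr fun x hx => ?_
    rw [mg_t2 hd hx, hφ]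

theorem mg_et (hd : Disjoint c.S c'.S) :
    et X G (mg c c' k u) = et X G c + et X G c' + 2 * #(DD X G c c') := by
  rw [et_eq, et_eq, et_eq]
  change ee (tg X G (mg c c' k u).t) (c.S ∪ c'.S) (c.S ∪ c'.S) = _
  rw [ee_union _ hd]
  have h1 : ee (tg X G (mg c c' k u).t) c.S c.S = ee (tg X G c.t) c.S c.S :=
    ee_congr fun x hx y hy => by simp only [tg, mg_t1 hx, mg_t1 hy]
  have h2 : ee (tg X G (mg c c' k u).t) c'.S c'.S = ee (tg X G c'.t) c'.S c'.S :=
    ee_congr fun x hx y hy => by simp only [tg, mg_t2 hd hx, mg_t2 hd hy]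
  have h3 : ee (tg X G (mg c c' k u).t) c.S c'.S = #(DD X G c c') := by
    rw [ee_eq_card, DD]
    congr 2
    refine filter_congr fun z hz => ?_
    rw [mem_product] at hz
    simp only [tg, mg_t1 hz.1, mg_t2 hd hz.2]
  rw [h1, h2, h3]
  ring

theorem mg_typed (hφ : c'.φ = c.φ) (hd : Disjoint c.S c'.S)
    (h1 : ∀ x ∈ c.S, Typed X G c.φ x (c.t x)) (h2 : ∀ x ∈ c'.S, Typed X G c'.φ x (c'.t x)) :
    ∀ x ∈ (mg c c' k u).S, Typed X G (mg c c' k u).φ x ((mg c c' k u).t x) := by
  intro x hx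
  rcases mem_union.1 hx with hx | hx
  · rw [mg_t1 hx]; exact h1 x hx
  · rw [mg_t2 hd hx]
    have := h2 x hx
    rw [hφ] at this
    exact this

theorem mg_rel {v : T → T → GG} (hv : ∀ s t, X.TA.Adj s t → v t s = (v s t)⁻¹)
    (hd : Disjoint c.S c'.S)
    (h1 : ∀ x ∈ c.S, ∀ y ∈ c.S, G.Adj x y → X.TA.Adj (c.t x) (c.t y) →
      c.g x * v (c.t x) (c.t y) * (c.g y)⁻¹ ∈ Subgroup.zpowers c.u)
    (h2 : ∀ x ∈ c'.S, ∀ y ∈ c'.S, G.Adj x y → X.TA.Adj (c'.t x) (c'.t y) →
      c'.g x * v (c'.t x) (c'.t y) * (c'.g y)⁻¹ ∈ Subgroup.zpowers c'.u)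
    (hu1 : c.u ∈ Subgroup.zpowers u) (hu2 : k * c'.u * k⁻¹ ∈ Subgroup.zpowers u)
    (hD : ∀ z ∈ DD X G c c', c.g z.1 * v (c.t z.1) (c'.t z.2) * (k * c'.g z.2)⁻¹ ∈
      Subgroup.zpowers u) :
    ∀ x ∈ (mg c c' k u).S, ∀ y ∈ (mg c c' k u).S, G.Adj x y →
      X.TA.Adj ((mg c c' k u).t x) ((mg c c' k u).t y) →
      (mg c c' k u).g x * v ((mg c c' k u).t x) ((mg c c' k u).t y) * ((mg c c' k u).g y)⁻¹ ∈
        Subgroup.zpowers (mg c c' k u).u := by
  intro x hx y hy hxy ht
  change _ ∈ Subgroup.zpowers u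
  rcases mem_union.1 hx with hx | hx <;> rcases mem_union.1 hy with hy | hy
  · rw [mg_t1 hx, mg_t1 hy] at ht ⊢
    rw [mg_g1 hx, mg_g1 hy]
    exact (Subgroup.zpowers_le.2 hu1) (h1 x hx y hy hxy ht)
  · rw [mg_t1 hx, mg_t2 hd hy] at ht ⊢
    rw [mg_g1 hx, mg_g2 hd hy]
    exact hD (x, y) (mem_filter.2 ⟨mem_product.2 ⟨hx, hy⟩, hxy, ht⟩)
  · rw [mg_t2 hd hx, mg_t1 hy] at ht ⊢
    rw [mg_g2 hd hx, mg_g1 hy]
    have h3 := hD (y, x) (mem_filter.2 ⟨mem_product.2 ⟨hy, hx⟩, hxy.symm, ht.symm⟩)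
    have h4 := inv_mem h3
    have h5 : (c.g y * v (c.t y) (c'.t x) * (k * c'.g x)⁻¹)⁻¹ =
        k * c'.g x * v (c'.t x) (c.t y) * (c.g y)⁻¹ := by
      rw [hv (c.t y) (c'.t x) ht.symm]
      group
    rw [← h5]
    exact h4
  · rw [mg_t2 hd hx, mg_t2 hd hy] at ht ⊢
    rw [mg_g2 hd hx, mg_g2 hd hy]
    have h3 := h2 x hx y hy hxy ht
    obtain ⟨n, hn⟩ := Subgroup.mem_zpowers_iff.1 h3
    have h5 : k * c'.g x * v (c'.t x) (c'.t y) * (k * c'.g y)⁻¹ = (k * c'.u * k⁻¹) ^ n := by
      rw [conj_zpow, hn]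
      group
    rw [h5]
    exact Subgroup.zpow_mem _ hu2 n

/-- merging -/
theorem merge {v : T → T → GG} {B K : ℕ} (hX : CoreOK X)
    (hv : ∀ s t, X.TA.Adj s t → v t s = (v s t)⁻¹) (hN : NucFacts X G) (hSp : Sp B K G)
    (hφ : c'.φ = c.φ) (hd : Disjoint c.S c'.S) (hnuc : IsNuc X G c.φ)
    (hne : c.S.Nonempty)
    (hK : Fintype.card V + (#c.S + #c'.S) ≤ K)
    (ht1 : ∀ x ∈ c.S, Typed X G c.φ x (c.t x)) (ht2 : ∀ x ∈ c'.S, Typed X G c'.φ x (c'.t x))
    (h1 : ∀ x ∈ c.S, ∀ y ∈ c.S, G.Adj x y → X.TA.Adj (c.t x) (c.t y) →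
      c.g x * v (c.t x) (c.t y) * (c.g y)⁻¹ ∈ Subgroup.zpowers c.u)
    (h2 : ∀ x ∈ c'.S, ∀ y ∈ c'.S, G.Adj x y → X.TA.Adj (c'.t x) (c'.t y) →
      c'.g x * v (c'.t x) (c'.t y) * (c'.g y)⁻¹ ∈ Subgroup.zpowers c'.u)
    (b : ℤ) (hb : b = 2 * #c.S + 2 * semi X G c - et X G c + (2 * #c'.S + 2 * semi X G c' -
      et X G c') - 2 * #(DD X G c c')) :
    0 ≤ b ∧ (b ≤ 2 → ∀ k u : GG, c.u ∈ Subgroup.zpowers u → k * c'.u * k⁻¹ ∈ Subgroup.zpowers u →
      (∀ z ∈ DD X G c c', c.g z.1 * v (c.t z.1) (c'.t z.2) * (k * c'.g z.2)⁻¹ ∈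
        Subgroup.zpowers u) → b + 2 * rk u ≤ 2 → ClOK X G v B (mg c c' k u)) := by
  have htm := fun (k u : GG) => mg_typed (k := k) (u := u) hφ hd ht1 ht2
  have hrel := rel_eq hX G (mg c c' 1 1) hnuc.1 (htm 1 1)
  obtain ⟨h3, h4⟩ := rel_sp hX hN hSp (φ := (mg c c' (1 : GG) 1).φ) hnuc
    (disj_Z (htm 1 1)) (by rw [mg_card hd]; exact hK)
  rw [hrel] at h3 h4
  rw [mg_card hd, mg_semi hφ hd, mg_et hd] at h3 h4
  have hnt : 0 ≤ ee (ntg X G (mg c c' (1 : GG) 1).t) (mg c c' (1 : GG) 1).S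
    (mg c c' (1 : GG) 1).S := ee_nonneg _ _ _
  have hex : 0 ≤ ∑ x ∈ (mg c c' (1 : GG) 1).S,
      (extra X G (mg c c' (1 : GG) 1).φ x ((mg c c' (1 : GG) 1).t x) : ℤ) :=
    sum_nonneg fun _ _ => by positivity
  push_cast at h3 h4
  refine ⟨by linarith, fun hb2 k u hu1 hu2 hD hbu => ?_⟩
  refine ⟨hnuc, hne.mono subset_union_left, htm k u, mg_rel hv hd h1 h2 hu1 hu2 hD, ?_, ?_⟩
  · rw [mg_card hd, mg_semi hφ hd, mg_et hd]
    push_cast
    change _ + _ + 2 * rk u ≤ _
    linarith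
  · rw [mg_card hd]
    exact h4 (by linarith)

end Merge

/-! ### Families -/

section Fam

variable [Fintype V] [Fintype W] {X : Data T I V} {G : SimpleGraph W} {v : T → T → GG} {B : ℕ}

/-- a family of disjoint clusters -/
def Fam (X : Data T I V) (G : SimpleGraph W) (v : T → T → GG) (B : ℕ)
    (FF : Finset (Cl T V W GG)) : Prop :=
  (∀ c ∈ FF, ClOK X G v B c) ∧ ∀ c ∈ FF, ∀ c' ∈ FF, c ≠ c' → Disjoint c.S c'.S

/-- the quantity which is maximised -/
noncomputable def mz (FF : Finset (Cl T V W GG)) : ℤ :=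
  (Fintype.card W + 1) * ∑ c ∈ FF, (#c.S : ℤ) - #FF

theorem exists_opt : ∃ FF : Finset (Cl T V W GG), Fam X G v B FF ∧
    ∀ FF' : Finset (Cl T V W GG), Fam X G v B FF' → mz FF' ≤ mz FF := by
  have hb : ∀ FF : Finset (Cl T V W GG), Fam X G v B FF →
      mz FF ≤ (Fintype.card W + 1) * Fintype.card W := by
    intro FF hF
    have h1 : ∑ c ∈ FF, #c.S ≤ Fintype.card W := by
      rw [← card_biUnion (fun c hc c' hc' h => hF.2 c hc c' hc' h)]
      exact card_le_univ _
    have h2 : ∑ c ∈ FF, (#c.S : ℤ) ≤ Fintype.card W := by exact_mod_cast h1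
    have h3 : ((Fintype.card W : ℤ) + 1) * ∑ c ∈ FF, (#c.S : ℤ) ≤
        (Fintype.card W + 1) * Fintype.card W := mul_le_mul_of_nonneg_left h2 (by positivity)
    unfold mz
    have h4 : (0 : ℤ) ≤ #FF := by positivity
    linarith
  obtain ⟨z, ⟨FF, hF, hz⟩, hmax⟩ := Int.exists_greatest_of_bdd
    (P := fun z => ∃ FF : Finset (Cl T V W GG), Fam X G v B FF ∧ mz FF = z)
    ⟨_, fun z ⟨FF, hF, hz⟩ => hz ▸ hb FF hF⟩ ⟨_, ∅, ⟨by simp, by simp⟩, rfl⟩
  exact ⟨FF, hF, fun FF' hF' => hz ▸ hmax _ ⟨FF', hF', rfl⟩⟩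

theorem exchange {FF : Finset (Cl T V W GG)} (hF : Fam X G v B FF)
    (hopt : ∀ FF' : Finset (Cl T V W GG), Fam X G v B FF' → mz FF' ≤ mz FF)
    (A : Finset (Cl T V W GG)) (hA : A ⊆ FF) (cn : Cl T V W GG) (hcn : ClOK X G v B cn)
    (hd : ∀ c ∈ FF, c ∉ A → Disjoint cn.S c.S) :
    ((Fintype.card W : ℤ) + 1) * (Finset.card cn.S) + #A ≤
      (Fintype.card W + 1) * ∑ c ∈ A, (#c.S : ℤ) + 1 := by
  have hn : cn ∉ FF \ A := by
    intro h
    rw [mem_sdiff] at h
    have h1 := hd cn h.1 h.2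
    rw [disjoint_self] at h1
    exact hcn.ne.ne_empty h1
  have h1 : Fam X G v B (insert cn (FF \ A)) := by
    refine ⟨fun c hc => ?_, fun c hc c' hc' hne => ?_⟩
    · rcases mem_insert.1 hc with rfl | hc
      · exact hcn
      · exact hF.1 c (mem_sdiff.1 hc).1
    · rcases mem_insert.1 hc with h | h <;> rcases mem_insert.1 hc' with h' | h'
      · exact absurd (h.trans h'.symm) hne
      · rw [h]
        exact hd c' (mem_sdiff.1 h').1 (mem_sdiff.1 h').2
      · rw [h']
        exact (hd c (mem_sdiff.1 h).1 (mem_sdiff.1 h).2).symm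
      · exact hF.2 c (mem_sdiff.1 h).1 c' (mem_sdiff.1 h').1 hne
  have h2 := hopt _ h1
  unfold mz at h2
  rw [sum_insert hn, card_insert_of_notMem hn] at h2
  have h3 : ∑ c ∈ FF \ A, (#c.S : ℤ) + ∑ c ∈ A, (#c.S : ℤ) = ∑ c ∈ FF, (#c.S : ℤ) :=
    sum_sdiff hA
  have h4 : #(FF \ A) + #A = #FF := card_sdiff_add_card_eq_card hA
  rw [← h3, ← h4] at h2
  push_cast at h2
  linarith

/-- a cluster containing a vertex which is typed for `φ` is a cluster of `φ` -/
theorem phi_of_mem (hN : NucFacts X G) {c : Cl T V W GG} (hc : ClOK X G v B c) {φ : V → W}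
    (hφ : IsNuc X G φ) {x : W} {s : T} (ht : Typed X G φ x s) (hx : x ∈ c.S) :
    c.φ = φ ∧ c.t x = s :=
  hN.t2 c.φ φ x (c.t x) s hc.nuc hφ (hc.typed x hx) ht

end Fam

end TaskB2

open TaskB2 in
theorem B2 : S_B2 := by
  intro T I V W GG _ _ _ X G v B K hX hv hN hB hK hSp
  obtain ⟨FF, hF, hopt⟩ := exists_opt (X := X) (G := G) (v := v) (B := B)
  have hF1 : ∀ φ, IsNuc X G φ → ∀ x s, x ∉ Z φ → 15 ≤ lab X G φ x s →
      ∃ c ∈ FF, c.φ = φ ∧ x ∈ c.S := by
    intro φ hφ x s hx hl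
    by_contra hcon
    push Not at hcon
    have hty : Typed X G φ x s := ⟨hx, by omega⟩
    obtain ⟨cn, hcn⟩ : ∃ cn : Cl T V W GG, cn = ⟨φ, {x}, fun _ => s, fun _ => 1, 1⟩ := ⟨_, rfl⟩
    have hok : ClOK X G v B cn := by
      subst hcn
      refine ⟨hφ, singleton_nonempty x, ?_, ?_, ?_, ?_⟩
      · intro y hy
        rw [mem_singleton.1 hy]
        exact hty
      · intro y hy z hz hyz
        rw [mem_singleton.1 hy, mem_singleton.1 hz] at hyz
        exact absurd hyz (G.loopless.irrefl x)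
      · have h1 : semi X G (⟨φ, {x}, fun _ => s, fun _ => 1, 1⟩ : Cl T V W GG) = 0 := by
          unfold semi
          rw [card_eq_zero, filter_eq_empty_iff]
          intro y hy
          rw [mem_singleton.1 hy]
          change ¬ lab X G φ x s ≤ 14
          omega
        have h2 : 0 ≤ et X G (⟨φ, {x}, fun _ => s, fun _ => 1, 1⟩ : Cl T V W GG) := by
          rw [et_eq]
          exact ee_nonneg _ _ _
        rw [h1]
        change 2 * ((#({x} : Finset W) : ℕ) : ℤ) + 2 * ((0 : ℕ) : ℤ) + 2 * rk (1 : GG) ≤ _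
        rw [rk_one, card_singleton]
        push_cast
        linarith
      · change #({x} : Finset W) ≤ B
        rw [card_singleton]
        exact hB
    have h1 := exchange hF hopt ∅ (by simp) cn hok (by
      intro c hc _
      subst hcn
      change Disjoint {x} c.S
      rw [disjoint_singleton_left]
      intro hxc
      exact hcon c hc (phi_of_mem hN (hF.1 c hc) hφ hty hxc).1 hxc)
    have h2 : (Finset.card cn.S) = 1 := by
      subst hcn
      exact card_singleton x
    rw [h2] at h1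
    have h3 : 0 < Fintype.card W := Fintype.card_pos_iff.2 ⟨x⟩
    simp only [card_empty, sum_empty] at h1
    push_cast at h1
    have h4 : (0 : ℤ) < Fintype.card W := by exact_mod_cast h3
    linarith
  refine ⟨FF, hF.1, fun c hc c' hc' hne _ => hF.2 c hc c' hc' hne, hF1, ?_, ?_⟩
  · intro c hc c' hc' hne hφ p hp q hq hpq ht
    have hok := hF.1 c hc
    have hok' := hF.1 c' hc'
    have hd := hF.2 c hc c' hc' hne
    have hD : (p, q) ∈ DD X G c c' := mem_filter.2 ⟨mem_product.2 ⟨hp, hq⟩, hpq, ht⟩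
    have hD1 : 1 ≤ #(DD X G c c') := card_pos.2 ⟨_, hD⟩
    have hs1 := hok.small
    have hs2 := hok'.small
    have hb1 := hok.bal
    have hb2 := hok'.bal
    have hr1 := rk_nonneg c.u
    have hr2 := rk_nonneg c'.u
    have hD1' : (1 : ℤ) ≤ #(DD X G c c') := by exact_mod_cast hD1
    obtain ⟨h0, hmk⟩ := merge hX hv hN hSp hφ.symm hd hok.nuc hok.ne (by omega) hok.typed
      hok'.typed hok.rel hok'.rel _ rfl
    obtain ⟨k, hk⟩ : ∃ k : GG, k = c.g p * v (c.t p) (c'.t q) * (c'.g q)⁻¹ := ⟨_, rfl⟩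
    obtain ⟨u, hu1, hu2, hu3, hu4⟩ := exists_u c.u (k * c'.u * k⁻¹) (DD X G c c')
      (fun z => c.g z.1 * v (c.t z.1) (c'.t z.2) * (k * c'.g z.2)⁻¹) (p, q) hD
      (by rw [hk]; group) (by rw [rk_conj]; linarith)
    rw [rk_conj] at hu4
    have hcn := hmk (by linarith) k u hu1 hu2 hu3 (by linarith)
    have h1 := exchange hF hopt {c, c'} (by
      intro z hz
      rcases mem_insert.1 hz with rfl | hz
      · exact hc
      · rw [mem_singleton.1 hz]; exact hc') _ hcn (by
      intro z hz hzA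
      rw [mem_insert, mem_singleton, not_or] at hzA
      change Disjoint (c.S ∪ c'.S) z.S
      rw [disjoint_union_left]
      exact ⟨hF.2 c hc z hz (Ne.symm hzA.1), hF.2 c' hc' z hz (Ne.symm hzA.2)⟩)
    rw [mg_card hd, sum_pair hne, card_pair hne] at h1
    push_cast at h1
    linarith
  · intro c hc x s hty hx y1 hy1 y2 hy2 hyne ha1 ha2 ht1 ht2 hmem
    have hok := hF.1 c hc
    have hxc : x ∉ c.S := hx c hc rfl
    obtain ⟨c', hc'⟩ : ∃ c' : Cl T V W GG, c' = ⟨c.φ, {x}, fun _ => s, fun _ => 1, 1⟩ :=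
      ⟨_, rfl⟩
    have hS : c'.S = {x} := by rw [hc']
    have ht' : ∀ y, c'.t y = s := fun y => by rw [hc']
    have hg' : ∀ y, c'.g y = 1 := fun y => by rw [hc']
    have hu' : c'.u = 1 := by rw [hc']
    have hφ' : c'.φ = c.φ := by rw [hc']
    have hd : Disjoint c.S c'.S := by rw [hS, disjoint_singleton_right]; exact hxc
    have hD1 : (y1, x) ∈ DD X G c c' := by
      refine mem_filter.2 ⟨mem_product.2 ⟨hy1, by rw [hS]; exact mem_singleton_self x⟩,
        ha1.symm, ?_⟩
      rw [ht']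
      exact ht1.symm
    have hD2 : (y2, x) ∈ DD X G c c' := by
      refine mem_filter.2 ⟨mem_product.2 ⟨hy2, by rw [hS]; exact mem_singleton_self x⟩,
        ha2.symm, ?_⟩
      rw [ht']
      exact ht2.symm
    have hcard : #((DD X G c c').erase (y2, x)) + 1 = #(DD X G c c') :=
      card_erase_add_one hD2
    have hE1 : (y1, x) ∈ (DD X G c c').erase (y2, x) :=
      mem_erase.2 ⟨fun h => hyne (congrArg Prod.fst h), hD1⟩
    have hE2 : 1 ≤ #((DD X G c c').erase (y2, x)) := card_pos.2 ⟨_, hE1⟩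
    have hs1 := hok.small
    have hb1 := hok.bal
    have hr1 := rk_nonneg c.u
    have hsemi : semi X G c' ≤ 1 := by
      unfold semi
      refine (card_filter_le _ _).trans ?_
      rw [hS, card_singleton]
    have het : 0 ≤ et X G c' := by rw [et_eq]; exact ee_nonneg _ _ _
    obtain ⟨h0, hmk⟩ := merge (v := v) hX hv hN hSp hφ' hd hok.nuc hok.ne
      (by rw [hS, card_singleton]; omega) hok.typed
      (by
        intro y hy
        rw [hS] at hy
        rw [mem_singleton.1 hy, hφ', ht']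
        exact hty) hok.rel
      (by
        intro y hy z hz hyz
        rw [hS] at hy hz
        rw [mem_singleton.1 hy, mem_singleton.1 hz] at hyz
        exact absurd hyz (G.loopless.irrefl x)) _ rfl
    rw [hS, card_singleton] at h0 hmk
    have hcard' : (#(DD X G c c') : ℤ) = #((DD X G c c').erase (y2, x)) + 1 := by
      rw [← hcard]; push_cast; ring
    have hE2' : (1 : ℤ) ≤ #((DD X G c c').erase (y2, x)) := by exact_mod_cast hE2
    have hsemi' : (semi X G c' : ℤ) ≤ 1 := by exact_mod_cast hsemi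
    push_cast at h0 hmk
    obtain ⟨k, hk⟩ : ∃ k : GG, k = c.g y1 * v (c.t y1) s := ⟨_, rfl⟩
    obtain ⟨u, hu1, hu2, hu3, hu4⟩ := exists_u c.u (1 : GG) ((DD X G c c').erase (y2, x))
      (fun z => c.g z.1 * v (c.t z.1) (c'.t z.2) * (k * c'.g z.2)⁻¹) (y1, x) hE1
      (by rw [hk]; simp only [ht', hg']; group) (by rw [rk_one]; linarith)
    rw [rk_one] at hu4
    have hcn := hmk (by linarith) k u hu1 (by rw [hu']; simp) (by
      intro z hz
      by_cases hz2 : z = (y2, x)
      · rw [hz2]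
        simp only [ht', hg']
        have h5 := inv_mem (Subgroup.zpowers_le.2 hu1 hmem)
        have h6 : (c.g y1 * v (c.t y1) s * v s (c.t y2) * (c.g y2)⁻¹)⁻¹ =
            c.g y2 * v (c.t y2) s * (k * 1)⁻¹ := by
          rw [hk, hv s (c.t y2) ht2]
          group
        rw [← h6]
        exact h5
      · exact hu3 z (mem_erase.2 ⟨hz2, hz⟩)) (by linarith)
    have h1 := exchange hF hopt {c} (by
      intro z hz
      rw [mem_singleton.1 hz]; exact hc) _ hcn (by
      intro z hz hzA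
      rw [mem_singleton] at hzA
      change Disjoint (c.S ∪ c'.S) z.S
      rw [disjoint_union_left]
      refine ⟨hF.2 c hc z hz (Ne.symm hzA), ?_⟩
      rw [hS, disjoint_singleton_left]
      intro hxz
      exact hx z hz (phi_of_mem hN (hF.1 z hz) hok.nuc hty hxz).1 hxz)
    rw [mg_card hd, sum_singleton, card_singleton, hS, card_singleton] at h1
    push_cast at h1
    have h4 : (0 : ℤ) ≤ Fintype.card W := by positivity
    linarith

end Pool.Agent.H533HB
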