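import Pool.Agent.H533HB.Stmts

/-!
# Lemma CORE: the weight count
-/

set_option autoImplicit false
set_option linter.unusedSectionVars false

namespace Pool.Agent.H533HB

open Finset
open scoped Classical

namespace BThree

/-- number of ordered pairs with a relation -/
noncomputable def pn {A : Type} (r : A → A → Prop) (s t : Finset A) : ℤ :=
  ∑ a ∈ s, ∑ b ∈ t, if r a b then 1 else 0

section pn

variable {A : Type}

theorem pn_nonneg (r : A → A → Prop) (s t : Finset A) : 0 ≤ pn r s t :=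
  sum_nonneg fun a _ => sum_nonneg fun b _ => by split_ifs <;> norm_num

theorem pn_mono {r r' : A → A → Prop} {s t : Finset A}
    (h : ∀ a ∈ s, ∀ b ∈ t, r a b → r' a b) : pn r s t ≤ pn r' s t := by
  refine sum_le_sum fun a ha => sum_le_sum fun b hb => ?_
  by_cases hr : r a b
  · rw [if_pos hr, if_pos (h a ha b hb hr)]
  · rw [if_neg hr]; split_ifs <;> norm_num

theorem pn_split (r q : A → A → Prop) (s t : Finset A) :
    pn r s t = pn (fun a b => r a b ∧ q a b) s t + pn (fun a b => r a b ∧ ¬ q a b) s t := by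
  unfold pn
  rw [← sum_add_distrib]
  refine sum_congr rfl fun a _ => ?_
  rw [← sum_add_distrib]
  refine sum_congr rfl fun b _ => ?_
  by_cases h1 : r a b <;> by_cases h2 : q a b <;> simp [h1, h2]

theorem pn_or_le (r q : A → A → Prop) (s t : Finset A) :
    pn (fun a b => r a b ∨ q a b) s t ≤ pn r s t + pn q s t := by
  unfold pn
  rw [← sum_add_distrib]
  refine sum_le_sum fun a _ => ?_
  rw [← sum_add_distrib]
  refine sum_le_sum fun b _ => ?_
  by_cases h1 : r a b <;> by_cases h2 : q a b <;> simp [h1, h2]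

theorem pn_swap (r : A → A → Prop) (s t : Finset A) :
    pn (fun a b => r b a) s t = pn r t s := by
  unfold pn
  exact sum_comm

theorem pn_sum_comm {ι : Type} (I : Finset ι) (r : ι → A → A → Prop) (s t : Finset A) :
    ∑ i ∈ I, pn (r i) s t = ∑ a ∈ s, ∑ b ∈ t, ∑ i ∈ I, if r i a b then (1 : ℤ) else 0 := by
  unfold pn
  rw [sum_comm]
  exact sum_congr rfl fun a _ => sum_comm

theorem pn_exists_le {ι : Type} (I : Finset ι) (r : ι → A → A → Prop) (s t : Finset A) :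
    pn (fun a b => ∃ i ∈ I, r i a b) s t ≤ ∑ i ∈ I, pn (r i) s t := by
  rw [pn_sum_comm]
  refine sum_le_sum fun a _ => sum_le_sum fun b _ => ?_
  by_cases h : ∃ i ∈ I, r i a b
  · rw [if_pos h]
    obtain ⟨i, hi, hr⟩ := h
    have := single_le_sum (f := fun i => if r i a b then (1 : ℤ) else 0)
      (fun j _ => by split_ifs <;> norm_num) hi
    simp only [if_pos hr] at this
    exact this
  · rw [if_neg h]
    exact sum_nonneg fun j _ => by split_ifs <;> norm_num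

theorem pn_exists_eq {ι : Type} (I : Finset ι) (r : ι → A → A → Prop) (s t : Finset A)
    (hu : ∀ a b, ∀ i ∈ I, ∀ j ∈ I, r i a b → r j a b → i = j) :
    pn (fun a b => ∃ i ∈ I, r i a b) s t = ∑ i ∈ I, pn (r i) s t := by
  rw [pn_sum_comm]
  refine sum_congr rfl fun a _ => sum_congr rfl fun b _ => ?_
  by_cases h : ∃ i ∈ I, r i a b
  · rw [if_pos h]
    obtain ⟨i, hi, hr⟩ := h
    rw [sum_eq_single_of_mem i hi, if_pos hr]
    intro j hj hne
    exact if_neg fun hr' => hne (hu a b j hj i hi hr' hr)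
  · rw [if_neg h]
    symm
    exact sum_eq_zero fun j hj => if_neg fun hr => h ⟨j, hj, hr⟩

theorem pn_block (r : A → A → Prop) {s t P Q : Finset A} (hP : P ⊆ s) (hQ : Q ⊆ t) :
    pn (fun a b => r a b ∧ (a ∈ P ∧ b ∈ Q)) s t = pn r P Q := by
  unfold pn
  rw [← sum_subset hP]
  · refine sum_congr rfl fun a ha => ?_
    rw [← sum_subset hQ]
    · refine sum_congr rfl fun b hb => ?_
      simp only [ha, hb, and_self, and_true]
    · intro b _ hb
      exact if_neg fun h => hb h.2.2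
  · intro a _ ha
    exact sum_eq_zero fun b _ => if_neg fun h => ha h.2.1

theorem pn_image {V : Type} [Fintype V] (ψ : V → A) (hψ : Function.Injective ψ)
    (r : A → A → Prop) (U : Finset A) (hU : ∀ a, ψ a ∈ U) :
    pn (fun a b => r (ψ a) (ψ b)) univ univ ≤ pn r U U := by
  have h1 : pn (fun a b => r (ψ a) (ψ b)) univ univ =
      pn r (univ.image ψ) (univ.image ψ) := by
    unfold pn
    rw [sum_image fun a _ b _ h => hψ h]
    refine sum_congr rfl fun a _ => ?_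
    rw [sum_image fun a _ b _ h => hψ h]
  rw [h1]
  have hs : univ.image ψ ⊆ U := by
    intro x hx
    rw [mem_image] at hx
    obtain ⟨a, _, rfl⟩ := hx
    exact hU a
  unfold pn
  refine (sum_le_sum fun a _ => sum_le_sum_of_subset_of_nonneg hs ?_).trans
    (sum_le_sum_of_subset_of_nonneg hs ?_)
  · intro b _ _; split_ifs <;> norm_num
  · intro a _ _; exact sum_nonneg fun b _ => by split_ifs <;> norm_num

end pn

section main

variable {T I V W GG : Type} [Fintype V] [Group GG]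
  {X : Data T I V} {G : SimpleGraph W} {v : T → T → GG} {B : ℕ} {FF : Finset (Cl T V W GG)}

theorem mem_Z {φ : V → W} {x : W} : x ∈ Z φ ↔ ∃ a, φ a = x := by
  unfold Z; simp

theorem card_Z {φ : V → W} (h : Function.Injective φ) : #(Z φ) = Fintype.card V := by
  unfold Z; rw [card_image_of_injective _ h, card_univ]

/-- clusters of the family are pairwise disjoint -/
theorem cl_disj (hN : NucFacts X G) (hF : GoodFam X G v B FF) {c c' : Cl T V W GG}
    (hc : c ∈ FF) (hc' : c' ∈ FF) {x : W} (hx : x ∈ c.S) (hx' : x ∈ c'.S) : c = c' := by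
  by_contra hne
  have h1 := (hF.ok c hc)
  have h2 := (hF.ok c' hc')
  have h3 := hN.t2 c.φ c'.φ x _ _ h1.nuc h2.nuc (h1.typed x hx) (h2.typed x hx')
  exact Finset.disjoint_left.1 (hF.disj c hc c' hc' hne h3.1) hx hx'

theorem cl_nuc_disj (hN : NucFacts X G) (hF : GoodFam X G v B FF) {c : Cl T V W GG}
    (hc : c ∈ FF) {x : W} (hx : x ∈ c.S) {φ : V → W} (hφ : IsNuc X G φ) : x ∉ Z φ :=
  hN.t1 c.φ φ x _ (hF.ok c hc).nuc hφ ((hF.ok c hc).typed x hx)

/-- inside a nucleus the hat graph is the core -/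
theorem gh_in_nuc (hN : NucFacts X G) (hF : GoodFam X G v B FF) {φ : V → W}
    (hφ : IsNuc X G φ) {a b : V} (h : (Gh X G v FF).Adj (φ a) (φ b)) : X.C.Adj a b := by
  have key : ∀ a b : V, Der X G v FF (φ a) (φ b) → X.C.Adj a b := by
    intro a b h
    generalize hx : φ a = x at h
    generalize hy : φ b = y at h
    rcases h with ⟨φ', a', b', hφ', hab⟩ | ⟨c, x, l, hc, hxS, hl⟩ | ⟨c, x, y, hc, hxS, hyS, ht, h⟩ |
      ⟨φ', x, d, hφ', hd, hxS, h⟩
    · have h1 := hN.n1 φ φ' hφ hφ' (φ a) (mem_Z.2 ⟨a, rfl⟩) (mem_Z.2 ⟨a', hx.symm⟩)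
      subst h1
      rw [hφ.1 hx, hφ.1 hy]; exact hab
    · exact absurd (mem_Z.2 ⟨a, hx⟩) (cl_nuc_disj hN hF hc hxS hφ)
    · exact absurd (mem_Z.2 ⟨a, hx⟩) (cl_nuc_disj hN hF hc hxS hφ)
    · have h1 := hN.n1 φ φ' hφ hφ' (φ b) (mem_Z.2 ⟨b, rfl⟩) (mem_Z.2 ⟨d, hy.symm⟩)
      subst h1
      exact absurd (mem_Z.2 ⟨a, hx⟩) hxS
  obtain ⟨_, h | h | h⟩ := h
  · exact hN.ind φ hφ a b h
  · exact key a b h
  · exact (key b a h).symm

/-- first side of a block -/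
noncomputable def bP : ((V → W) ⊕ (Cl T V W GG × Fin 3)) → Finset W
  | .inl φ => Z φ
  | .inr (c, 0) => c.S
  | .inr (c, 1) => c.S
  | .inr (c, 2) => Z c.φ

/-- second side of a block -/
noncomputable def bQ : ((V → W) ⊕ (Cl T V W GG × Fin 3)) → Finset W
  | .inl φ => Z φ
  | .inr (c, 0) => c.S
  | .inr (c, 1) => Z c.φ
  | .inr (c, 2) => c.S

/-- the blocks -/
noncomputable def Blks (J : Finset (V → W)) (CC : Finset (Cl T V W GG)) :
    Finset ((V → W) ⊕ (Cl T V W GG × Fin 3)) :=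
  J.disjSum (CC ×ˢ univ)

/-- internal pairs -/
def Int (J : Finset (V → W)) (CC : Finset (Cl T V W GG)) (x y : W) : Prop :=
  ∃ i ∈ Blks J CC, x ∈ bP i ∧ y ∈ bQ i

theorem int_nuc {J : Finset (V → W)} {CC : Finset (Cl T V W GG)} {φ : V → W} (hφ : φ ∈ J)
    {x y : W} (hx : x ∈ Z φ) (hy : y ∈ Z φ) : Int J CC x y :=
  ⟨.inl φ, by simp [Blks, hφ], hx, hy⟩

theorem int_ss {J : Finset (V → W)} {CC : Finset (Cl T V W GG)} {c : Cl T V W GG} (hc : c ∈ CC)
    {x y : W} (hx : x ∈ c.S) (hy : y ∈ c.S) : Int J CC x y :=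
  ⟨.inr (c, 0), by simp [Blks, hc], hx, hy⟩

theorem int_sz {J : Finset (V → W)} {CC : Finset (Cl T V W GG)} {c : Cl T V W GG} (hc : c ∈ CC)
    {x y : W} (hx : x ∈ c.S) (hy : y ∈ Z c.φ) : Int J CC x y :=
  ⟨.inr (c, 1), by simp [Blks, hc], hx, hy⟩

theorem int_zs {J : Finset (V → W)} {CC : Finset (Cl T V W GG)} {c : Cl T V W GG} (hc : c ∈ CC)
    {x y : W} (hx : x ∈ Z c.φ) (hy : y ∈ c.S) : Int J CC x y :=
  ⟨.inr (c, 2), by simp [Blks, hc], hx, hy⟩

theorem int_cases {J : Finset (V → W)} {CC : Finset (Cl T V W GG)} {x y : W}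
    (h : Int J CC x y) : (∃ φ ∈ J, x ∈ Z φ ∧ y ∈ Z φ) ∨
      ∃ c ∈ CC, (x ∈ c.S ∧ y ∈ c.S) ∨ (x ∈ c.S ∧ y ∈ Z c.φ) ∨ (x ∈ Z c.φ ∧ y ∈ c.S) := by
  obtain ⟨i, hi, hx, hy⟩ := h
  rcases i with φ | ⟨c, k⟩
  · exact Or.inl ⟨φ, by simpa [Blks] using hi, hx, hy⟩
  · have hc : c ∈ CC := by simpa [Blks] using hi
    right
    refine ⟨c, hc, ?_⟩
    fin_cases k
    · exact Or.inl ⟨hx, hy⟩
    · exact Or.inr (Or.inl ⟨hx, hy⟩)
    · exact Or.inr (Or.inr ⟨hx, hy⟩)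

theorem int_symm {J : Finset (V → W)} {CC : Finset (Cl T V W GG)} {x y : W}
    (h : Int J CC x y) : Int J CC y x := by
  rcases int_cases h with ⟨φ, hφ, hx, hy⟩ | ⟨c, hc, ⟨hx, hy⟩ | ⟨hx, hy⟩ | ⟨hx, hy⟩⟩
  · exact int_nuc hφ hy hx
  · exact int_ss hc hy hx
  · exact int_zs hc hy hx
  · exact int_sz hc hy hx

theorem blk_unique (hN : NucFacts X G) (hF : GoodFam X G v B FF)
    {J : Finset (V → W)} {CC : Finset (Cl T V W GG)} (hJ : ∀ φ ∈ J, IsNuc X G φ)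
    (hCC : CC ⊆ FF) (x y : W) (i : (V → W) ⊕ (Cl T V W GG × Fin 3)) (hi : i ∈ Blks J CC)
    (j : (V → W) ⊕ (Cl T V W GG × Fin 3)) (hj : j ∈ Blks J CC)
    (h1 : x ∈ bP i ∧ y ∈ bQ i) (h2 : x ∈ bP j ∧ y ∈ bQ j) : i = j := by
  have hd : ∀ c ∈ CC, ∀ c' ∈ CC, ∀ z, z ∈ c.S → z ∈ c'.S → c = c' := fun c hc c' hc' z h h' =>
    cl_disj hN hF (hCC hc) (hCC hc') h h'
  have hn : ∀ c ∈ CC, ∀ φ ∈ J, ∀ z, z ∈ c.S → z ∈ Z φ → False := fun c hc φ hφ z h h' =>
    cl_nuc_disj hN hF (hCC hc) h (hJ φ hφ) h'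
  have hn' : ∀ c ∈ CC, ∀ c' ∈ CC, ∀ z, z ∈ c.S → z ∈ Z c'.φ → False :=
    fun c hc c' hc' z h h' => cl_nuc_disj hN hF (hCC hc) h (hF.ok c' (hCC hc')).nuc h'
  rcases i with φ | ⟨c, k⟩ <;> rcases j with φ' | ⟨c', k'⟩
  · have hφ : φ ∈ J := by simpa [Blks] using hi
    have hφ' : φ' ∈ J := by simpa [Blks] using hj
    rw [hN.n1 φ φ' (hJ φ hφ) (hJ φ' hφ') x h1.1 h2.1]
  · have hφ : φ ∈ J := by simpa [Blks] using hi
    have hc' : c' ∈ CC := by simpa [Blks] using hj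
    exfalso
    fin_cases k'
    · exact hn c' hc' φ hφ x h2.1 h1.1
    · exact hn c' hc' φ hφ x h2.1 h1.1
    · exact hn c' hc' φ hφ y h2.2 h1.2
  · have hφ : φ' ∈ J := by simpa [Blks] using hj
    have hc' : c ∈ CC := by simpa [Blks] using hi
    exfalso
    fin_cases k
    · exact hn c hc' φ' hφ x h1.1 h2.1
    · exact hn c hc' φ' hφ x h1.1 h2.1
    · exact hn c hc' φ' hφ y h1.2 h2.2
  · have hc : c ∈ CC := by simpa [Blks] using hi
    have hc' : c' ∈ CC := by simpa [Blks] using hj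
    fin_cases k <;> fin_cases k'
    · rw [hd c hc c' hc' x h1.1 h2.1]
    · exact (hn' c hc c' hc' y h1.2 h2.2).elim
    · exact (hn' c hc c' hc' x h1.1 h2.1).elim
    · exact (hn' c' hc' c hc y h2.2 h1.2).elim
    · rw [hd c hc c' hc' x h1.1 h2.1]
    · exact (hn' c hc c' hc' x h1.1 h2.1).elim
    · exact (hn' c' hc' c hc x h2.1 h1.1).elim
    · exact (hn' c' hc' c hc x h2.1 h1.1).elim
    · rw [hd c hc c' hc' y h1.2 h2.2]

theorem sum_blks {J : Finset (V → W)} {CC : Finset (Cl T V W GG)}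
    (f : ((V → W) ⊕ (Cl T V W GG × Fin 3)) → ℤ) :
    ∑ i ∈ Blks J CC, f i = ∑ φ ∈ J, f (.inl φ) +
      ∑ c ∈ CC, (f (.inr (c, 0)) + f (.inr (c, 1)) + f (.inr (c, 2))) := by
  unfold Blks
  rw [sum_disjSum, sum_product]
  congr 1
  exact sum_congr rfl fun c _ => Fin.sum_univ_three _

/-- edges of `U`: internal ones are counted block by block -/
theorem count_G (hN : NucFacts X G) (hF : GoodFam X G v B FF)
    {J : Finset (V → W)} {CC : Finset (Cl T V W GG)} (hJ : ∀ φ ∈ J, IsNuc X G φ)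
    (hCC : CC ⊆ FF) (U : Finset W) (hU1 : ∀ φ ∈ J, Z φ ⊆ U)
    (hU2 : ∀ c ∈ CC, c.S ⊆ U) (hU3 : ∀ c ∈ CC, Z c.φ ⊆ U) :
    ee G U U = ∑ φ ∈ J, ee G (Z φ) (Z φ) +
      ∑ c ∈ CC, (ee G c.S c.S + 2 * ee G c.S (Z c.φ)) +
      pn (fun x y => G.Adj x y ∧ ¬ Int J CC x y) U U := by
  have h1 : ee G U U = pn G.Adj U U := rfl
  rw [h1, pn_split G.Adj (Int J CC)]
  congr 1
  have h2 : pn (fun x y => G.Adj x y ∧ Int J CC x y) U U =
      pn (fun x y => ∃ i ∈ Blks J CC, (G.Adj x y ∧ (x ∈ bP i ∧ y ∈ bQ i))) U U := by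
    congr 1
    funext x y
    apply propext
    unfold Int
    constructor
    · rintro ⟨h, i, hi, h'⟩
      exact ⟨i, hi, h, h'⟩
    · rintro ⟨i, hi, h, h'⟩
      exact ⟨h, i, hi, h'⟩
  rw [h2, pn_exists_eq]
  · have h3 : ∀ i ∈ Blks J CC, pn (fun x y => G.Adj x y ∧ (x ∈ bP i ∧ y ∈ bQ i)) U U =
        ee G (bP i) (bQ i) := by
      intro i hi
      have hP : bP i ⊆ U ∧ bQ i ⊆ U := by
        rcases i with φ | ⟨c, k⟩
        · have hφ : φ ∈ J := by simpa [Blks] using hi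
          exact ⟨hU1 φ hφ, hU1 φ hφ⟩
        · have hc : c ∈ CC := by simpa [Blks] using hi
          fin_cases k
          · exact ⟨hU2 c hc, hU2 c hc⟩
          · exact ⟨hU2 c hc, hU3 c hc⟩
          · exact ⟨hU3 c hc, hU2 c hc⟩
      exact pn_block _ hP.1 hP.2
    rw [sum_congr rfl h3, sum_blks]
    congr 1
    refine sum_congr rfl fun c _ => ?_
    change ee G c.S c.S + ee G c.S (Z c.φ) + ee G (Z c.φ) c.S = _
    rw [ee_comm G (Z c.φ) c.S]; ring
  · intro x y i hi j hj h1 h2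
    exact blk_unique hN hF hJ hCC x y i hi j hj h1.2 h2.2

/-- edges of the core -/
theorem count_C (J : Finset (V → W)) (CC : Finset (Cl T V W GG)) (ψ : V → W)
    (f0 : Sym2 V) :
    ee X.C univ univ ≤ 2 + ∑ φ ∈ J, ee X.C {a | ψ a ∈ Z φ} {a | ψ a ∈ Z φ} +
      ∑ c ∈ CC, (ee X.C {a | ψ a ∈ c.S} {a | ψ a ∈ c.S} +
        2 * ee X.C {a | ψ a ∈ c.S} {a | ψ a ∈ Z c.φ}) +
      pn (fun a b => (X.C.Adj a b ∧ s(a, b) ≠ f0) ∧ ¬ Int J CC (ψ a) (ψ b)) univ univ := by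
  have h1 : ee X.C univ univ = pn X.C.Adj univ univ := rfl
  have h2 : pn X.C.Adj univ univ ≤
      pn (fun a b => (X.C.Adj a b ∧ Int J CC (ψ a) (ψ b)) ∨
        (s(a, b) = f0 ∨ ((X.C.Adj a b ∧ s(a, b) ≠ f0) ∧ ¬ Int J CC (ψ a) (ψ b))))
        univ univ := by
    refine pn_mono fun a _ b _ h => ?_
    by_cases hI : Int J CC (ψ a) (ψ b)
    · exact Or.inl ⟨h, hI⟩
    · by_cases hf : s(a, b) = f0
      · exact Or.inr (Or.inl hf)
      · exact Or.inr (Or.inr ⟨⟨h, hf⟩, hI⟩)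
  have h3 : pn (fun a b : V => s(a, b) = f0) univ univ ≤ 2 := by
    induction f0 with
    | _ p q =>
    have h4 : pn (fun a b : V => s(a, b) = s(p, q)) univ univ ≤
        pn (fun a b : V => (a = p ∧ b = q) ∨ (a = q ∧ b = p)) univ univ := by
      refine pn_mono fun a _ b _ h => ?_
      exact Sym2.eq_iff.1 h
    have h5 : ∀ p q : V, pn (fun a b : V => a = p ∧ b = q) univ univ = 1 := by
      intro p q
      unfold pn
      rw [sum_eq_single_of_mem p (mem_univ _)]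
      · rw [sum_eq_single_of_mem q (mem_univ _)]
        · simp
        · intro b _ hb
          exact if_neg fun h => hb h.2
      · intro a _ ha
        exact sum_eq_zero fun b _ => if_neg fun h => ha h.1
    refine h4.trans ((pn_or_le _ _ _ _).trans ?_)
    rw [h5, h5]; norm_num
  have h4 : pn (fun a b => X.C.Adj a b ∧ Int J CC (ψ a) (ψ b)) univ univ ≤
      ∑ φ ∈ J, ee X.C {a | ψ a ∈ Z φ} {a | ψ a ∈ Z φ} +
      ∑ c ∈ CC, (ee X.C {a | ψ a ∈ c.S} {a | ψ a ∈ c.S} +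
        2 * ee X.C {a | ψ a ∈ c.S} {a | ψ a ∈ Z c.φ}) := by
    have h5 : pn (fun a b => X.C.Adj a b ∧ Int J CC (ψ a) (ψ b)) univ univ ≤
        pn (fun a b => ∃ i ∈ Blks J CC, (X.C.Adj a b ∧
          (a ∈ (univ.filter fun a => ψ a ∈ bP i) ∧ b ∈ (univ.filter fun b => ψ b ∈ bQ i))))
          univ univ := by
      refine pn_mono fun a _ b _ h => ?_
      obtain ⟨h1, i, hi, h2, h3⟩ := h
      exact ⟨i, hi, h1, by simpa using h2, by simpa using h3⟩
    refine h5.trans ((pn_exists_le _ _ _ _).trans ?_)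
    have h6 : ∀ i ∈ Blks J CC, pn (fun a b => X.C.Adj a b ∧
          (a ∈ (univ.filter fun a => ψ a ∈ bP i) ∧ b ∈ (univ.filter fun b => ψ b ∈ bQ i)))
          univ univ = ee X.C (univ.filter fun a => ψ a ∈ bP i)
            (univ.filter fun b => ψ b ∈ bQ i) := by
      intro i _
      exact pn_block _ (subset_univ _) (subset_univ _)
    rw [sum_congr rfl h6, sum_blks]
    refine le_of_eq ?_
    congr 1
    refine sum_congr rfl fun c _ => ?_
    change ee X.C (univ.filter fun a => ψ a ∈ c.S) (univ.filter fun b => ψ b ∈ c.S) +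
      ee X.C (univ.filter fun a => ψ a ∈ c.S) (univ.filter fun b => ψ b ∈ Z c.φ) +
      ee X.C (univ.filter fun a => ψ a ∈ Z c.φ) (univ.filter fun b => ψ b ∈ c.S) = _
    rw [ee_comm X.C (univ.filter fun a => ψ a ∈ Z c.φ) (univ.filter fun b => ψ b ∈ c.S)]; ring
  rw [h1]
  refine h2.trans ((pn_or_le _ _ _ _).trans ?_)
  have h5 := pn_or_le (fun a b : V => s(a, b) = f0)
    (fun a b => (X.C.Adj a b ∧ s(a, b) ≠ f0) ∧ ¬ Int J CC (ψ a) (ψ b)) univ univ
  linarith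

/-- `x` is attached to the nucleus `φ` -/
def att (X : Data T I V) (G : SimpleGraph W) (x : W) (φ : V → W) : Prop :=
  x ∉ Z φ ∧ 2 ≤ #{d' ∈ X.D | G.Adj x (φ d')}

/-- attached pairs -/
def AP (X : Data T I V) (G : SimpleGraph W) (J : Finset (V → W)) (x y : W) : Prop :=
  ∃ φ ∈ J, att X G x φ ∧ ∃ d ∈ X.D, φ d = y

theorem ee_ge_two {A : Type} (G : SimpleGraph A) (P Q : Finset A) (x : A) (hx : x ∈ P)
    (h : 2 ≤ #{y ∈ Q | G.Adj x y}) : 2 ≤ ee G P Q := by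
  have h1 : ee G {x} Q ≤ ee G P Q := ee_mono G (by simpa using hx) (subset_refl _)
  rw [ee_singleton_left] at h1
  have h2 : (2 : ℤ) ≤ #{y ∈ Q | G.Adj x y} := by exact_mod_cast h
  linarith

theorem att_card {φ : V → W} (hφ : Function.Injective φ) {x : W}
    (h : 2 ≤ #{d' ∈ X.D | G.Adj x (φ d')}) : 2 ≤ #{y ∈ Z φ | G.Adj x y} := by
  refine h.trans ?_
  rw [← card_image_of_injective _ hφ]
  refine card_le_card ?_
  intro y hy
  rw [mem_image] at hy
  obtain ⟨d, hd, rfl⟩ := hy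
  rw [mem_filter] at hd ⊢
  exact ⟨mem_Z.2 ⟨d, rfl⟩, hd.2⟩

theorem ap_asymm (hN : NucFacts X G) {J : Finset (V → W)} (hJ : ∀ φ ∈ J, IsNuc X G φ)
    {x y : W} (h : AP X G J x y) : ¬ AP X G J y x := by
  rintro ⟨φ', hφ', ⟨h1, h2⟩, d', hd', rfl⟩
  obtain ⟨φ, hφ, ⟨h3, h4⟩, d, hd, rfl⟩ := h
  have hne : φ ≠ φ' := by
    rintro rfl
    exact h1 (mem_Z.2 ⟨d, rfl⟩)
  have h5 := hN.n2 φ φ' (hJ φ hφ) (hJ φ' hφ') hne
  have h6 := ee_ge_two G (Z φ) (Z φ') (φ d) (mem_Z.2 ⟨d, rfl⟩) (att_card (hJ φ' hφ').1 h2)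
  linarith

theorem ap_not_int (hC : CoreOK X) (hN : NucFacts X G) (hF : GoodFam X G v B FF)
    (hcf : ∀ c ∈ FF, ClFacts X G c)
    {J : Finset (V → W)} {CC : Finset (Cl T V W GG)} (hJ : ∀ φ ∈ J, IsNuc X G φ)
    (hCC : CC ⊆ FF) {x y : W} (h : AP X G J x y) : ¬ Int J CC x y := by
  intro hI
  obtain ⟨φ, hφ, ⟨h3, h4⟩, d, hd, rfl⟩ := h
  have hdz : φ d ∈ Z φ := mem_Z.2 ⟨d, rfl⟩
  rcases int_cases hI with ⟨φ', hφ', hx, hy⟩ | ⟨c, hc, ⟨hx, hy⟩ | ⟨hx, hy⟩ | ⟨hx, hy⟩⟩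
  · have := hN.n1 φ φ' (hJ φ hφ) (hJ φ' hφ') (φ d) hdz hy
    subst this
    exact h3 hx
  · exact cl_nuc_disj hN hF (hCC hc) hy (hJ φ hφ) hdz
  · have h5 := hN.n1 φ c.φ (hJ φ hφ) (hF.ok c (hCC hc)).nuc (φ d) hdz hy
    have h6 := (hcf c (hCC hc)).nl x hx
    have h7 : #{d' ∈ X.D | G.Adj x (φ d')} ≤
        #{a : V | G.Adj x (c.φ a) ∧ a ∉ X.L (c.t x)} := by
      refine card_le_card ?_
      intro a ha
      rw [mem_filter] at ha ⊢
      refine ⟨mem_univ _, h5 ▸ ha.2, ?_⟩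
      exact Finset.disjoint_left.1 (hC.DL _) ha.1
    omega
  · exact cl_nuc_disj hN hF (hCC hc) hy (hJ φ hφ) hdz

theorem classify (ψ : V → W) (f0 : Sym2 V)
    (hψ : ∀ a b, X.C.Adj a b → s(a, b) ≠ f0 → (Gh X G v FF).Adj (ψ a) (ψ b))
    {J : Finset (V → W)} {CC : Finset (Cl T V W GG)}
    (hJ2 : ∀ φ, IsNuc X G φ → (∃ a, ψ a ∈ Z φ) → φ ∈ J)
    (hCC2 : ∀ c ∈ FF, (∃ a, ψ a ∈ c.S) → c ∈ CC) (a b : V)
    (hab : X.C.Adj a b) (hf : s(a, b) ≠ f0) (hI : ¬ Int J CC (ψ a) (ψ b)) :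
    G.Adj (ψ a) (ψ b) ∨ AP X G J (ψ a) (ψ b) ∨ AP X G J (ψ b) (ψ a) := by
  have key : ∀ a b : V, ¬ Int J CC (ψ a) (ψ b) → Der X G v FF (ψ a) (ψ b) →
      AP X G J (ψ a) (ψ b) := by
    intro a b hI h
    generalize hx : ψ a = x at h hI
    generalize hy : ψ b = y at h hI
    rcases h with ⟨φ, a', b', hφ, hab⟩ | ⟨c, x, l, hc, hxS, hl⟩ | ⟨c, x, y, hc, hxS, hyS, ht, h⟩ |
      ⟨φ, x, d, hφ, hd, hxS, h⟩
    · have : φ ∈ J := hJ2 φ hφ ⟨a, mem_Z.2 ⟨a', hx.symm⟩⟩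
      exact absurd (int_nuc this (mem_Z.2 ⟨a', rfl⟩) (mem_Z.2 ⟨b', rfl⟩)) hI
    · exact absurd (int_sz (hCC2 c hc ⟨a, hx ▸ hxS⟩) hxS (mem_Z.2 ⟨l, rfl⟩)) hI
    · exact absurd (int_ss (hCC2 c hc ⟨a, hx ▸ hxS⟩) hxS hyS) hI
    · exact ⟨φ, hJ2 φ hφ ⟨b, mem_Z.2 ⟨d, hy.symm⟩⟩, ⟨hxS, h⟩, d, hd, rfl⟩
  obtain ⟨_, h | h | h⟩ := hψ a b hab hf
  · exact Or.inl h
  · exact Or.inr (Or.inl (key a b hI h))
  · exact Or.inr (Or.inr (key b a (fun h' => hI (int_symm h')) h))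

/-- vertices outside `φ` adjacent in the core to all of `φ(D)` -/
noncomputable def MM (X : Data T I V) (ψ : V → W) (φ : V → W) : Finset V :=
  {a | ψ a ∉ Z φ ∧ ∀ d ∈ X.D, ∃ b, ψ b = φ d ∧ X.C.Adj a b}

/-- core neighbours inside `φ(D)` -/
theorem side_C (hC : CoreOK X) (ψ : V → W) (hinj : Function.Injective ψ) (φ : V → W)
    (hφ : Function.Injective φ) (a : V) (ha : ψ a ∉ Z φ) :
    (#{b : V | X.C.Adj a b ∧ ∃ d ∈ X.D, φ d = ψ b} : ℤ) ≤ 2 + if a ∈ MM X ψ φ then 1 else 0 := by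
  have h1 : #{b : V | X.C.Adj a b ∧ ∃ d ∈ X.D, φ d = ψ b} ≤
      #{d ∈ X.D | ∃ b, ψ b = φ d ∧ X.C.Adj a b} := by
    refine card_le_card_of_injOn (fun b => if h : ∃ d ∈ X.D, φ d = ψ b then h.choose else b) ?_ ?_
    · intro b hb
      rw [mem_coe, mem_filter] at hb
      have hb2 := hb.2.2
      simp only [dif_pos hb2]
      rw [mem_coe, mem_filter]
      exact ⟨hb2.choose_spec.1, b, hb2.choose_spec.2.symm, hb.2.1⟩
    · intro b hb b' hb' heq
      rw [mem_coe, mem_filter] at hb hb'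
      have hb2 := hb.2.2
      have hb2' := hb'.2.2
      simp only [dif_pos hb2, dif_pos hb2'] at heq
      apply hinj
      rw [← hb2.choose_spec.2, ← hb2'.choose_spec.2, heq]
  have h2 : #{d ∈ X.D | ∃ b, ψ b = φ d ∧ X.C.Adj a b} ≤ 3 := by
    rw [← hC.Dcard]; exact card_filter_le _ _
  by_cases hm : a ∈ MM X ψ φ
  · rw [if_pos hm]
    have : (#{b : V | X.C.Adj a b ∧ ∃ d ∈ X.D, φ d = ψ b} : ℤ) ≤ 3 := by
      exact_mod_cast h1.trans h2
    linarith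
  · rw [if_neg hm]
    have h3 : #{d ∈ X.D | ∃ b, ψ b = φ d ∧ X.C.Adj a b} ≤ 2 := by
      by_contra h4
      have h5 : #{d ∈ X.D | ∃ b, ψ b = φ d ∧ X.C.Adj a b} = #X.D := by
        rw [hC.Dcard]; omega
      apply hm
      unfold MM
      rw [mem_filter]
      refine ⟨mem_univ _, ha, ?_⟩
      exact (Finset.card_filter_eq_iff.1 h5)
    have : (#{b : V | X.C.Adj a b ∧ ∃ d ∈ X.D, φ d = ψ b} : ℤ) ≤ 2 := by
      exact_mod_cast h1.trans h3
    linarith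

/-- step 5 -/
theorem step5 (hC : CoreOK X) (hN : NucFacts X G) (ψ : V → W) (hinj : Function.Injective ψ)
    {J : Finset (V → W)} (hJ : ∀ φ ∈ J, IsNuc X G φ) (U : Finset W) (hU0 : ∀ a, ψ a ∈ U)
    (hU1 : ∀ φ ∈ J, Z φ ⊆ U) :
    pn (fun a b => X.C.Adj a b ∧ AP X G J (ψ a) (ψ b)) univ univ ≤
      pn (fun x y => G.Adj x y ∧ AP X G J x y) U U + ∑ φ ∈ J, (#(MM X ψ φ) : ℤ) := by
  have hL : pn (fun a b => X.C.Adj a b ∧ AP X G J (ψ a) (ψ b)) univ univ ≤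
      ∑ a : V, ∑ φ ∈ J with att X G (ψ a) φ, (2 + if a ∈ MM X ψ φ then (1 : ℤ) else 0) := by
    unfold pn
    refine sum_le_sum fun a _ => ?_
    have h1 : (∑ b : V, if X.C.Adj a b ∧ AP X G J (ψ a) (ψ b) then (1 : ℤ) else 0) ≤
        ∑ b : V, ∑ φ ∈ J with att X G (ψ a) φ,
          if X.C.Adj a b ∧ ∃ d ∈ X.D, φ d = ψ b then (1 : ℤ) else 0 := by
      refine sum_le_sum fun b _ => ?_
      by_cases h : X.C.Adj a b ∧ AP X G J (ψ a) (ψ b)
      · rw [if_pos h]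
        obtain ⟨hab, φ, hφ, hatt, hd⟩ := h
        have hm : φ ∈ ({φ ∈ J | att X G (ψ a) φ} : Finset (V → W)) :=
          mem_filter.2 ⟨hφ, hatt⟩
        have := single_le_sum (f := fun φ => if X.C.Adj a b ∧ ∃ d ∈ X.D, φ d = ψ b then (1 : ℤ)
          else 0) (fun j _ => by split_ifs <;> norm_num) hm
        simp only [if_pos (And.intro hab hd)] at this
        exact this
      · rw [if_neg h]
        exact sum_nonneg fun j _ => by split_ifs <;> norm_num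
    refine (le_of_eq (sum_congr rfl fun b _ => ?_)).trans (h1.trans ?_)
    · beta_reduce
      congr
    rw [sum_comm]
    refine sum_le_sum fun φ hφ => ?_
    rw [mem_filter] at hφ
    have h2 := side_C hC ψ hinj φ (hJ φ hφ.1).1 a hφ.2.1
    rw [card_filter] at h2
    push_cast at h2
    exact h2
  have hR : (∑ a : V, ∑ φ ∈ J with att X G (ψ a) φ, (2 : ℤ)) ≤
      pn (fun x y => G.Adj x y ∧ AP X G J x y) U U := by
    have h1 : pn (fun x y => G.Adj x y ∧ AP X G J x y) (univ.image ψ) U ≤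
        pn (fun x y => G.Adj x y ∧ AP X G J x y) U U := by
      unfold pn
      refine sum_le_sum_of_subset_of_nonneg ?_ ?_
      · intro x hx
        rw [mem_image] at hx
        obtain ⟨a, _, rfl⟩ := hx
        exact hU0 a
      · intro a _ _
        exact sum_nonneg fun b _ => by split_ifs <;> norm_num
    refine le_trans ?_ h1
    unfold pn
    rw [sum_image fun a _ b _ h => hinj h]
    refine sum_le_sum fun a _ => ?_
    have h2 : (∑ y ∈ U, if G.Adj (ψ a) y ∧ AP X G J (ψ a) y then (1 : ℤ) else 0) =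
        #{y ∈ U | G.Adj (ψ a) y ∧ AP X G J (ψ a) y} := by
      rw [card_filter]; push_cast; rfl
    refine le_trans (le_trans ?_ (le_of_eq h2.symm)) (le_of_eq (sum_congr rfl fun b _ => ?_))
    swap
    · beta_reduce
      congr
    have h3 : (({φ ∈ J | att X G (ψ a) φ} : Finset (V → W)).biUnion
        (fun φ => ({d ∈ X.D | G.Adj (ψ a) (φ d)} : Finset V).image φ)) ⊆
        ({y ∈ U | G.Adj (ψ a) y ∧ AP X G J (ψ a) y} : Finset W) := by
      intro y hy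
      rw [mem_biUnion] at hy
      obtain ⟨φ, hφ, hy⟩ := hy
      rw [mem_filter] at hφ
      rw [mem_image] at hy
      obtain ⟨d, hd, rfl⟩ := hy
      rw [mem_filter] at hd ⊢
      exact ⟨hU1 φ hφ.1 (mem_Z.2 ⟨d, rfl⟩), hd.2, φ, hφ.1, hφ.2, d, hd.1, rfl⟩
    have h4 := card_le_card h3
    rw [card_biUnion] at h4
    · have h5 : ∑ φ ∈ J with att X G (ψ a) φ, 2 ≤
          ∑ φ ∈ J with att X G (ψ a) φ, #(({d ∈ X.D | G.Adj (ψ a) (φ d)} : Finset V).image φ) := by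
        refine sum_le_sum fun φ hφ => ?_
        rw [mem_filter] at hφ
        rw [card_image_of_injective _ (hJ φ hφ.1).1]
        exact hφ.2.2
      have h6 := h5.trans h4
      have h7 : ((∑ φ ∈ J with att X G (ψ a) φ, 2 : ℕ) : ℤ) ≤
          (#{y ∈ U | G.Adj (ψ a) y ∧ AP X G J (ψ a) y} : ℤ) := by exact_mod_cast h6
      push_cast at h7
      exact h7
    · intro φ hφ φ' hφ' hne
      rw [mem_coe, mem_filter] at hφ hφ'
      change Disjoint (({d ∈ X.D | G.Adj (ψ a) (φ d)} : Finset V).image φ)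
        (({d ∈ X.D | G.Adj (ψ a) (φ' d)} : Finset V).image φ')
      rw [Finset.disjoint_left]
      intro y hy hy'
      rw [mem_image] at hy hy'
      obtain ⟨d, hd, rfl⟩ := hy
      obtain ⟨d', hd', he⟩ := hy'
      exact hne (hN.n1 φ φ' (hJ φ hφ.1) (hJ φ' hφ'.1) (φ d) (mem_Z.2 ⟨d, rfl⟩)
        (mem_Z.2 ⟨d', he⟩))
  have hM : (∑ a : V, ∑ φ ∈ J with att X G (ψ a) φ, if a ∈ MM X ψ φ then (1 : ℤ) else 0) ≤
      ∑ φ ∈ J, (#(MM X ψ φ) : ℤ) := by
    have h1 : (∑ a : V, ∑ φ ∈ J with att X G (ψ a) φ, if a ∈ MM X ψ φ then (1 : ℤ) else 0) ≤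
        ∑ a : V, ∑ φ ∈ J, if a ∈ MM X ψ φ then (1 : ℤ) else 0 := by
      refine sum_le_sum fun a _ => sum_le_sum_of_subset_of_nonneg (filter_subset _ _) ?_
      intro φ _ _; split_ifs <;> norm_num
    refine h1.trans ?_
    rw [sum_comm]
    refine sum_le_sum fun φ _ => ?_
    rw [← sum_filter, sum_const, nsmul_eq_mul, mul_one]
    refine le_of_eq ?_
    congr 2
    ext a; simp
  simp only [sum_add_distrib] at hL
  linarith

/-- the external edges: `|Eout| - R <= sum m` in ordered counts -/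
theorem ext_le (hC : CoreOK X) (hN : NucFacts X G) (hF : GoodFam X G v B FF)
    (hcf : ∀ c ∈ FF, ClFacts X G c) (ψ : V → W) (hinj : Function.Injective ψ) (f0 : Sym2 V)
    (hψ : ∀ a b, X.C.Adj a b → s(a, b) ≠ f0 → (Gh X G v FF).Adj (ψ a) (ψ b))
    {J : Finset (V → W)} {CC : Finset (Cl T V W GG)} (hJ : ∀ φ ∈ J, IsNuc X G φ)
    (hJ2 : ∀ φ, IsNuc X G φ → (∃ a, ψ a ∈ Z φ) → φ ∈ J) (hCC : CC ⊆ FF)
    (hCC2 : ∀ c ∈ FF, (∃ a, ψ a ∈ c.S) → c ∈ CC) (U : Finset W) (hU0 : ∀ a, ψ a ∈ U)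
    (hU1 : ∀ φ ∈ J, Z φ ⊆ U) :
    pn (fun a b => (X.C.Adj a b ∧ s(a, b) ≠ f0) ∧ ¬ Int J CC (ψ a) (ψ b)) univ univ ≤
      pn (fun x y => G.Adj x y ∧ ¬ Int J CC x y) U U + 2 * ∑ φ ∈ J, (#(MM X ψ φ) : ℤ) := by
  have h5 := step5 hC hN ψ hinj hJ U hU0 hU1
  -- left side
  have hL : pn (fun a b => (X.C.Adj a b ∧ s(a, b) ≠ f0) ∧ ¬ Int J CC (ψ a) (ψ b)) univ univ ≤
      pn (fun a b => X.C.Adj a b ∧ AP X G J (ψ a) (ψ b)) univ univ +
      (pn (fun a b => X.C.Adj a b ∧ AP X G J (ψ b) (ψ a)) univ univ +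
      pn (fun a b => (G.Adj (ψ a) (ψ b) ∧ ¬ Int J CC (ψ a) (ψ b)) ∧
        ¬ AP X G J (ψ a) (ψ b) ∧ ¬ AP X G J (ψ b) (ψ a)) univ univ) := by
    refine le_trans ?_ (add_le_add le_rfl (pn_or_le _ _ _ _))
    refine le_trans ?_ (pn_or_le _ _ _ _)
    refine pn_mono fun a _ b _ h => ?_
    by_cases h1 : AP X G J (ψ a) (ψ b)
    · exact Or.inl ⟨h.1.1, h1⟩
    · by_cases h2 : AP X G J (ψ b) (ψ a)
      · exact Or.inr (Or.inl ⟨h.1.1, h2⟩)
      · refine Or.inr (Or.inr ⟨⟨?_, h.2⟩, h1, h2⟩)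
        rcases classify ψ f0 hψ hJ2 hCC2 a b h.1.1 h.1.2 h.2 with h3 | h3 | h3
        · exact h3
        · exact absurd h3 h1
        · exact absurd h3 h2
  have hsw : pn (fun a b => X.C.Adj a b ∧ AP X G J (ψ b) (ψ a)) univ univ =
      pn (fun a b => X.C.Adj a b ∧ AP X G J (ψ a) (ψ b)) univ univ := by
    rw [← pn_swap (fun a b => X.C.Adj a b ∧ AP X G J (ψ a) (ψ b))]
    congr 1
    funext a b
    rw [SimpleGraph.adj_comm]
  have h3 := pn_image ψ hinj (fun x y => (G.Adj x y ∧ ¬ Int J CC x y) ∧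
        ¬ AP X G J x y ∧ ¬ AP X G J y x) U hU0
  -- right side
  have hR : pn (fun x y => G.Adj x y ∧ ¬ Int J CC x y) U U =
      pn (fun x y => G.Adj x y ∧ AP X G J x y) U U +
      (pn (fun x y => G.Adj x y ∧ AP X G J y x) U U +
      pn (fun x y => (G.Adj x y ∧ ¬ Int J CC x y) ∧
        ¬ AP X G J x y ∧ ¬ AP X G J y x) U U) := by
    rw [pn_split (fun x y => G.Adj x y ∧ ¬ Int J CC x y) (fun x y => AP X G J x y)]
    rw [pn_split (fun x y => (G.Adj x y ∧ ¬ Int J CC x y) ∧ ¬ AP X G J x y)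
      (fun x y => AP X G J y x)]
    congr 1
    · congr 1
      funext x y
      apply propext
      constructor
      · rintro ⟨⟨h1, h2⟩, h3⟩; exact ⟨h1, h3⟩
      · rintro ⟨h1, h3⟩; exact ⟨⟨h1, ap_not_int hC hN hF hcf hJ hCC h3⟩, h3⟩
    · congr 1
      · congr 1
        funext x y
        apply propext
        constructor
        · rintro ⟨⟨⟨h1, h2⟩, h3⟩, h4⟩; exact ⟨h1, h4⟩
        · rintro ⟨h1, h3⟩
          refine ⟨⟨⟨h1, fun h4 => ap_not_int hC hN hF hcf hJ hCC h3 (int_symm h4)⟩, ?_⟩, h3⟩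
          intro h4
          exact ap_asymm hN hJ h4 h3
      · congr 1
        funext x y
        apply propext
        constructor
        · rintro ⟨⟨h1, h2⟩, h3⟩; exact ⟨h1, h2, h3⟩
        · rintro ⟨h1, h2, h3⟩; exact ⟨⟨h1, h2⟩, h3⟩
  have hsw2 : pn (fun x y => G.Adj x y ∧ AP X G J y x) U U =
      pn (fun x y => G.Adj x y ∧ AP X G J x y) U U := by
    rw [← pn_swap (fun x y => G.Adj x y ∧ AP X G J x y)]
    congr 1
    funext a b
    rw [SimpleGraph.adj_comm]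
  rw [hsw] at hL
  rw [hR, hsw2]
  linarith

/-- the contribution of a nucleus met by the copy -/
theorem nuc_term (hC : CoreOK X) (ψ : V → W) (hinj : Function.Injective ψ) (φ : V → W)
    (hφ : Function.Injective φ)
    (hne : (univ.filter fun a => ψ a ∈ Z φ) ≠ univ)
    (hne2 : (univ.filter fun a => ψ a ∈ Z φ).Nonempty) :
    ee X.C (univ.filter fun a => ψ a ∈ Z φ) (univ.filter fun a => ψ a ∈ Z φ) + 4 +
      2 * #(MM X ψ φ) ≤ 32 * #(univ.filter fun a => ψ a ∈ Z φ) := by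
  set F : Finset V := univ.filter fun a => ψ a ∈ Z φ with hF
  by_cases hE : ∀ d ∈ X.D, ∃ b, ψ b = φ d
  · choose! β hβ using hE
    have hEc : #(X.D.image β) = 3 := by
      rw [card_image_of_injOn, hC.Dcard]
      intro d hd d' hd' h
      apply hφ
      rw [← hβ d hd, ← hβ d' hd', h]
    have hEF : X.D.image β ⊆ F := by
      intro b hb
      rw [mem_image] at hb
      obtain ⟨d, hd, rfl⟩ := hb
      rw [hF, mem_filter]
      exact ⟨mem_univ _, mem_Z.2 ⟨d, (hβ d hd).symm⟩⟩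
    have h1 := hC.c1' F hne (X.D.image β) hEF hEc
    have h2 : #(MM X ψ φ) ≤ #{y : V | y ∉ F ∧ ∀ d ∈ X.D.image β, X.C.Adj y d} := by
      refine card_le_card ?_
      intro a ha
      unfold MM at ha
      rw [mem_filter] at ha ⊢
      refine ⟨mem_univ _, ?_, ?_⟩
      · rw [hF, mem_filter]
        exact fun h => ha.2.1 h.2
      · intro b hb
        rw [mem_image] at hb
        obtain ⟨d, hd, rfl⟩ := hb
        obtain ⟨b', hb', hadj⟩ := ha.2.2 d hd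
        have : b' = β d := hinj (by rw [hb', hβ d hd])
        exact this ▸ hadj
    have h3 : (#(MM X ψ φ) : ℤ) ≤ #{y : V | y ∉ F ∧ ∀ d ∈ X.D.image β, X.C.Adj y d} := by
      exact_mod_cast h2
    linarith
  · have h1 : MM X ψ φ = ∅ := by
      rw [eq_empty_iff_forall_notMem]
      intro a ha
      unfold MM at ha
      rw [mem_filter] at ha
      apply hE
      intro d hd
      obtain ⟨b, hb, _⟩ := ha.2.2 d hd
      exact ⟨b, hb⟩
    have h2 := hC.c1 F hne2 hne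
    rw [h1, card_empty]
    push_cast
    linarith

theorem count_main (hC : CoreOK X) (hN : NucFacts X G) (hF : GoodFam X G v B FF)
    (hcf : ∀ c ∈ FF, ClFacts X G c) (ψ : V → W) (hinj : Function.Injective ψ) (f0 : Sym2 V)
    (hψ : ∀ a b, X.C.Adj a b → s(a, b) ≠ f0 → (Gh X G v FF).Adj (ψ a) (ψ b))
    (hT : ∀ c ∈ FF, ee X.C (univ.filter fun a => ψ a ∈ c.S) (univ.filter fun a => ψ a ∈ c.S) +
      2 * ee X.C (univ.filter fun a => ψ a ∈ c.S) (univ.filter fun a => ψ a ∈ Z c.φ) ≤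
        22 * #(univ.filter fun a => ψ a ∈ c.S))
    (K : ℕ) (hK : 10 * (Fintype.card V + 1) * (Fintype.card V + B + 1) ≤ K) (hSp : Sp B K G)
    {J : Finset (V → W)} {CC : Finset (Cl T V W GG)} (hJ : ∀ φ ∈ J, IsNuc X G φ)
    (hJ2 : ∀ φ, IsNuc X G φ → (∃ a, ψ a ∈ Z φ) → φ ∈ J) (hJ3 : ∀ c ∈ CC, c.φ ∈ J)
    (hJ4 : ∀ φ ∈ J, (∃ a, ψ a ∈ Z φ) ∨ ∃ c ∈ CC, c.φ = φ)
    (hJne : J.Nonempty) (hJp : ∀ φ ∈ J, (univ.filter fun a => ψ a ∈ Z φ) ≠ univ)
    (hCC : CC ⊆ FF) (hCC2 : ∀ c ∈ FF, (∃ a, ψ a ∈ c.S) → c ∈ CC)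
    (hCC3 : ∀ c ∈ CC, ∃ a, ψ a ∈ c.S) : False := by
  set Fn : (V → W) → Finset V := fun φ => univ.filter fun a => ψ a ∈ Z φ with hFn
  set Fc : Cl T V W GG → Finset V := fun c => univ.filter fun a => ψ a ∈ c.S with hFc
  set P : Finset W := J.biUnion Z ∪ CC.biUnion (fun c => c.S) with hP
  set U : Finset W := (univ.filter fun a => ψ a ∉ P).image ψ ∪ P with hU
  have hU0 : ∀ a, ψ a ∈ U := by
    intro a
    rw [hU, mem_union]
    by_cases h : ψ a ∈ P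
    · exact Or.inr h
    · exact Or.inl (mem_image.2 ⟨a, by simp [h], rfl⟩)
  have hU1 : ∀ φ ∈ J, Z φ ⊆ U := by
    intro φ hφ x hx
    rw [hU, mem_union, hP, mem_union, mem_biUnion]
    exact Or.inr (Or.inl ⟨φ, hφ, hx⟩)
  have hU2 : ∀ c ∈ CC, c.S ⊆ U := by
    intro c hc x hx
    rw [hU, mem_union, hP, mem_union, mem_biUnion, mem_biUnion]
    exact Or.inr (Or.inr ⟨c, hc, hx⟩)
  have hU3 : ∀ c ∈ CC, Z c.φ ⊆ U := fun c hc => hU1 _ (hJ3 c hc)
  have hcG := count_G hN hF hJ hCC U hU1 hU2 hU3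
  have hcC := count_C (X := X) J CC ψ f0
  have hext := ext_le hC hN hF hcf ψ hinj f0 hψ hJ hJ2 hCC hCC2 U hU0 hU1
  -- cardinalities
  have hPc : #P ≤ #J * Fintype.card V + ∑ c ∈ CC, #c.S := by
    refine (card_union_le _ _).trans (add_le_add ?_ card_biUnion_le)
    refine card_biUnion_le.trans ?_
    rw [sum_congr rfl fun φ hφ => card_Z (hJ φ hφ).1, sum_const, smul_eq_mul]
  have hFP : #(univ.filter fun a => ψ a ∈ P) = ∑ φ ∈ J, #(Fn φ) + ∑ c ∈ CC, #(Fc c) := by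
    have h1 : (univ.filter fun a => ψ a ∈ P) = J.biUnion Fn ∪ CC.biUnion Fc := by
      ext a
      rw [hP, mem_filter, mem_union, mem_union, mem_biUnion, mem_biUnion, mem_biUnion, mem_biUnion]
      simp only [hFn, hFc, mem_filter, mem_univ, true_and]
    rw [h1, card_union_of_disjoint, card_biUnion, card_biUnion]
    · intro c hc c' hc' hne
      change Disjoint (Fc c) (Fc c')
      rw [Finset.disjoint_left]
      intro a ha ha'
      rw [hFc] at ha ha'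
      rw [mem_filter] at ha ha'
      exact hne (cl_disj hN hF (hCC hc) (hCC hc') ha.2 ha'.2)
    · intro φ hφ φ' hφ' hne
      change Disjoint (Fn φ) (Fn φ')
      rw [Finset.disjoint_left]
      intro a ha ha'
      rw [hFn] at ha ha'
      rw [mem_filter] at ha ha'
      exact hne (hN.n1 φ φ' (hJ φ hφ) (hJ φ' hφ') _ ha.2 ha'.2)
    · rw [Finset.disjoint_left]
      intro a ha ha'
      rw [mem_biUnion] at ha ha'
      obtain ⟨φ, hφ, ha⟩ := ha
      obtain ⟨c, hc, ha'⟩ := ha'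
      rw [hFn] at ha
      rw [hFc] at ha'
      rw [mem_filter] at ha ha'
      exact cl_nuc_disj hN hF (hCC hc) ha'.2 (hJ φ hφ) ha.2
  have hsplit : #(univ.filter fun a => ψ a ∈ P) + #(univ.filter fun a => ψ a ∉ P) =
      Fintype.card V := by
    rw [← card_univ]
    exact card_filter_add_card_filter_not (s := (univ : Finset V)) (fun a => ψ a ∈ P)
  have hUc : #U ≤ #(univ.filter fun a => ψ a ∉ P) + #P := by
    refine (card_union_le _ _).trans (add_le_add card_image_le le_rfl)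
  -- sums over `CC`
  have hCCc : #CC ≤ ∑ c ∈ CC, #(Fc c) := by
    rw [card_eq_sum_ones]
    refine sum_le_sum fun c hc => ?_
    obtain ⟨a, ha⟩ := hCC3 c hc
    exact card_pos.2 ⟨a, by simp [hFc, ha]⟩
  have hSc : ∑ c ∈ CC, #c.S ≤ #CC * B := by
    rw [← smul_eq_mul]
    exact sum_le_card_nsmul _ _ _ fun c hc => (hF.ok c (hCC hc)).small
  -- sums over `J`
  set J0 := J.filter fun φ => Fn φ = ∅ with hJ0
  have hJ0c : #J0 ≤ #CC := by
    have h1 : J0 ⊆ CC.image (fun c => c.φ) := by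
      intro φ hφ
      rw [hJ0, mem_filter] at hφ
      rcases hJ4 φ hφ.1 with ⟨a, ha⟩ | ⟨c, hc, hcφ⟩
      · exfalso
        have : a ∈ Fn φ := by simp [hFn, ha]
        rw [hφ.2] at this
        simp at this
      · exact mem_image.2 ⟨c, hc, hcφ⟩
    exact (card_le_card h1).trans card_image_le
  have hJ1c : #(J.filter fun φ => ¬ Fn φ = ∅) ≤ ∑ φ ∈ J, #(Fn φ) := by
    rw [card_eq_sum_ones]
    refine (sum_le_sum fun φ hφ => ?_).trans (sum_le_sum_of_subset (filter_subset _ _))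
    rw [mem_filter] at hφ
    exact card_pos.2 (nonempty_iff_ne_empty.2 hφ.2)
  have hJsplit : #J0 + #(J.filter fun φ => ¬ Fn φ = ∅) = #J :=
    card_filter_add_card_filter_not (s := J) (fun φ => Fn φ = ∅)
  have hJpos : 0 < #J := card_pos.2 hJne
  -- `#U ≤ K`
  have hUK : #U ≤ K := by
    refine le_trans ?_ hK
    have h1 : #CC ≤ Fintype.card V := by omega
    have h2 : #J ≤ 2 * Fintype.card V := by omega
    have h3 : #J * Fintype.card V ≤ 2 * Fintype.card V * Fintype.card V :=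
      Nat.mul_le_mul_right _ h2
    have h4 : #CC * B ≤ Fintype.card V * B := Nat.mul_le_mul_right _ h1
    nlinarith
  have hUne : U.Nonempty := by
    obtain ⟨φ, hφ⟩ := hJne
    have h3 : 0 < #X.D := by rw [hC.Dcard]; norm_num
    obtain ⟨d, hd⟩ := card_pos.1 h3
    exact ⟨φ d, hU1 φ hφ (mem_Z.2 ⟨d, rfl⟩)⟩
  have hw := (hSp U hUne hUK).1
  -- the nuclei
  have hA : ∑ φ ∈ J, ee X.C (Fn φ) (Fn φ) + 2 * ∑ φ ∈ J, (#(MM X ψ φ) : ℤ) + 2 * #J ≤
      32 * ∑ φ ∈ J, (#(Fn φ) : ℤ) + ∑ φ ∈ J, (if Fn φ = ∅ then (2 : ℤ) else -2) := by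
    have h1 : ∀ φ ∈ J, ee X.C (Fn φ) (Fn φ) + 2 * (#(MM X ψ φ) : ℤ) + 2 ≤
        32 * (#(Fn φ) : ℤ) + (if Fn φ = ∅ then (2 : ℤ) else -2) := by
      intro φ hφ
      by_cases h : Fn φ = ∅
      · rw [if_pos h]
        have h2 : MM X ψ φ = ∅ := by
          rw [eq_empty_iff_forall_notMem]
          intro a ha
          unfold MM at ha
          rw [mem_filter] at ha
          have h3 : 0 < #X.D := by rw [hC.Dcard]; norm_num
          obtain ⟨d, hd⟩ := card_pos.1 h3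
          obtain ⟨b, hb, _⟩ := ha.2.2 d hd
          have : b ∈ Fn φ := by
            rw [hFn, mem_filter]
            exact ⟨mem_univ _, mem_Z.2 ⟨d, hb.symm⟩⟩
          rw [h] at this
          simp at this
        have h3 : ee X.C (∅ : Finset V) ∅ = 0 := by simp [ee]
        rw [h, h2, h3]
        simp
      · rw [if_neg h]
        have := nuc_term hC ψ hinj φ (hJ φ hφ).1 (hJp φ hφ) (nonempty_iff_ne_empty.2 h)
        linarith
    have h2 := sum_le_sum h1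
    simp only [sum_add_distrib, ← mul_sum, sum_const, nsmul_eq_mul] at h2
    linarith
  have hδ : ∑ φ ∈ J, (if Fn φ = ∅ then (2 : ℤ) else -2) = 2 * #J0 -
      2 * #(J.filter fun φ => ¬ Fn φ = ∅) := by
    rw [sum_ite, sum_const, sum_const, nsmul_eq_mul, nsmul_eq_mul]
    ring
  -- the clusters
  have hB1 : ∑ c ∈ CC, (ee X.C (Fc c) (Fc c) + 2 * ee X.C (Fc c) (Fn c.φ)) ≤
      22 * ∑ c ∈ CC, (#(Fc c) : ℤ) := by
    rw [mul_sum]
    exact sum_le_sum fun c hc => hT c (hCC hc)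
  have hB2 : 32 * ∑ c ∈ CC, (#c.S : ℤ) ≤
      ∑ c ∈ CC, (ee G c.S c.S + 2 * ee G c.S (Z c.φ)) + 2 * #CC := by
    have h1 : ∀ c ∈ CC, 32 * (#c.S : ℤ) ≤ (ee G c.S c.S + 2 * ee G c.S (Z c.φ)) + 2 :=
      fun c hc => (hcf c (hCC hc)).r1
    have h2 := sum_le_sum h1
    rw [sum_add_distrib, ← mul_sum, sum_const, nsmul_eq_mul] at h2
    linarith
  have hZZ : ∑ φ ∈ J, ee G (Z φ) (Z φ) = #J * (32 * Fintype.card V - 2) := by
    rw [sum_congr rfl fun φ hφ => show ee G (Z φ) (Z φ) = 32 * Fintype.card V - 2 by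
      linarith [hN.w φ (hJ φ hφ)], sum_const, nsmul_eq_mul]
  rw [hC.edges] at hcC
  -- cast the cardinalities
  have c1 : (#U : ℤ) ≤ #(univ.filter fun a => ψ a ∉ P) + (#J * Fintype.card V +
      ∑ c ∈ CC, (#c.S : ℤ)) := by
    have := hUc.trans (add_le_add le_rfl hPc)
    exact_mod_cast this
  have c2 : (∑ φ ∈ J, (#(Fn φ) : ℤ) + ∑ c ∈ CC, (#(Fc c) : ℤ)) +
      #(univ.filter fun a => ψ a ∉ P) = Fintype.card V := by
    rw [hFP] at hsplit
    exact_mod_cast hsplit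
  have c3 : (#CC : ℤ) ≤ ∑ c ∈ CC, (#(Fc c) : ℤ) := by exact_mod_cast hCCc
  have c4 : (#J0 : ℤ) ≤ #CC := by exact_mod_cast hJ0c
  have c5 : (#J0 : ℤ) + #(J.filter fun φ => ¬ Fn φ = ∅) = #J := by exact_mod_cast hJsplit
  have c6 : (0 : ℤ) < #J := by exact_mod_cast hJpos
  have c7 : (0 : ℤ) ≤ #J0 := by positivity
  rw [hZZ] at hcG
  rw [hδ] at hA
  have e1 : (#J : ℤ) * (32 * Fintype.card V - 2) = 32 * (#J * Fintype.card V) - 2 * #J := by ring
  rw [e1] at hcG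
  linarith

end main

end BThree

open BThree in
theorem B3 (hT : S_B3T) : S_B3 := by
  intro T I V W GG _ _ _ X G v B K FF hC hV hN hF hcf hK hSp ψ hinj f0 hψ
  set CC : Finset (Cl T V W GG) := FF.filter fun c => ∃ a, ψ a ∈ c.S with hCCdef
  set J : Finset (V → W) := univ.filter fun φ => IsNuc X G φ ∧
    ((∃ a, ψ a ∈ Z φ) ∨ ∃ c ∈ CC, c.φ = φ) with hJdef
  have hJ : ∀ φ ∈ J, IsNuc X G φ := fun φ hφ => by
    rw [hJdef, mem_filter] at hφ; exact hφ.2.1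
  have hJ2 : ∀ φ, IsNuc X G φ → (∃ a, ψ a ∈ Z φ) → φ ∈ J := fun φ h1 h2 => by
    rw [hJdef, mem_filter]; exact ⟨mem_univ _, h1, Or.inl h2⟩
  have hCC : CC ⊆ FF := filter_subset _ _
  have hCC2 : ∀ c ∈ FF, (∃ a, ψ a ∈ c.S) → c ∈ CC := fun c h1 h2 => by
    rw [hCCdef, mem_filter]; exact ⟨h1, h2⟩
  have hCC3 : ∀ c ∈ CC, ∃ a, ψ a ∈ c.S := fun c hc => by
    rw [hCCdef, mem_filter] at hc; exact hc.2
  have hJ3 : ∀ c ∈ CC, c.φ ∈ J := fun c hc => by
    rw [hJdef, mem_filter]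
    exact ⟨mem_univ _, (hF.ok c (hCC hc)).nuc, Or.inr ⟨c, hc, rfl⟩⟩
  have hJ4 : ∀ φ ∈ J, (∃ a, ψ a ∈ Z φ) ∨ ∃ c ∈ CC, c.φ = φ := fun φ hφ => by
    rw [hJdef, mem_filter] at hφ; exact hφ.2.2
  rcases J.eq_empty_or_nonempty with hJe | hJne
  · -- no nucleus: all edges are in `G`
    refine ⟨hinj, f0, fun a b hab hf => ?_⟩
    have hI : ¬ Int J CC (ψ a) (ψ b) := by
      intro h
      rcases int_cases h with ⟨φ, hφ, _⟩ | ⟨c, hc, _⟩
      · rw [hJe] at hφ; simp at hφ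
      · have := hJ3 c hc
        rw [hJe] at this; simp at this
    rcases classify ψ f0 hψ hJ2 hCC2 a b hab hf hI with h | ⟨φ, hφ, _⟩ | ⟨φ, hφ, _⟩
    · exact h
    · rw [hJe] at hφ; simp at hφ
    · rw [hJe] at hφ; simp at hφ
  · by_cases hp : ∀ φ ∈ J, (univ.filter fun a => ψ a ∈ Z φ) ≠ univ
    · exfalso
      exact count_main hC hN hF hcf ψ hinj f0 hψ
        (hT X G v B FF hC hV hN hF hcf ψ hinj f0 hψ) K hK hSp hJ hJ2 hJ3 hJ4 hJne hp hCC hCC2 hCC3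
    · push Not at hp
      obtain ⟨φ, hφ, hall⟩ := hp
      have hφn := hJ φ hφ
      have h1 : ∀ a, ∃ b, φ b = ψ a := by
        intro a
        have : a ∈ (univ.filter fun a => ψ a ∈ Z φ) := by rw [hall]; exact mem_univ _
        rw [mem_filter] at this
        exact mem_Z.1 this.2
      choose σ hσ using h1
      have hσi : Function.Injective σ := by
        intro a b h
        apply hinj
        rw [← hσ a, ← hσ b, h]
      have h2 : σ = id := by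
        refine hC.rigid σ hσi f0 fun a b hab hf => ?_
        have h3 := hψ a b hab hf
        rw [← hσ a, ← hσ b] at h3
        exact gh_in_nuc hN hF hφn h3
      have h3 : ψ = φ := by
        funext a
        rw [← hσ a, h2]; rfl
      rw [h3]; exact hφn

end Pool.Agent.H533HB
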