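import Pool.Agent.H533HB.Stmts

/-!
# Task B3T: the (T)-part of Lemma CORE
-/

set_option autoImplicit false

namespace Pool.Agent.H533HB.B3Tt

open Finset
open scoped Classical

section

variable {T I V W GG : Type} [Fintype V] [Group GG]
  {X : Data T I V} {G : SimpleGraph W} {v : T → T → GG} {B : ℕ} {FF : Finset (Cl T V W GG)}

theorem mem_Z {φ : V → W} (a : V) : φ a ∈ Z φ := mem_image_of_mem _ (mem_univ a)

theorem not_nuc (hN : NucFacts X G) (hF : GoodFam X G v B FF) {c : Cl T V W GG} (hc : c ∈ FF)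
    {x : W} (hx : x ∈ c.S) {φ' : V → W} (h' : IsNuc X G φ') : x ∉ Z φ' :=
  hN.t1 c.φ φ' x (c.t x) (hF.ok c hc).nuc h' ((hF.ok c hc).typed x hx)

theorem same (hN : NucFacts X G) (hF : GoodFam X G v B FF) {c c' : Cl T V W GG} (hc : c ∈ FF)
    (hc' : c' ∈ FF) {x : W} (hx : x ∈ c.S) (hx' : x ∈ c'.S) : c' = c := by
  by_contra hne
  have h := hN.t2 c.φ c'.φ x _ _ (hF.ok c hc).nuc (hF.ok c' hc').nuc
    ((hF.ok c hc).typed x hx) ((hF.ok c' hc').typed x hx')
  exact Finset.disjoint_left.1 (hF.disj c hc c' hc' (fun e => hne e.symm) h.1) hx hx'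

/-- derived edges inside a cluster -/
theorem der_in (hN : NucFacts X G) (hF : GoodFam X G v B FF) {c : Cl T V W GG} (hc : c ∈ FF)
    {x y : W} (hx : x ∈ c.S) (hy : y ∈ c.S) (h : Der X G v FF x y) :
    X.TA.Adj (c.t x) (c.t y) ∧ c.g x * v (c.t x) (c.t y) * (c.g y)⁻¹ ∈ Subgroup.zpowers c.u := by
  cases h with
  | d1 φ a b hφ hab => exact absurd (mem_Z a) (not_nuc hN hF hc hx hφ)
  | d2 c' x l hc' hx' hl => exact absurd (mem_Z l) (not_nuc hN hF hc hy (hF.ok c' hc').nuc)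
  | d3 c' x y hc' hx' hy' ht h =>
    have := same hN hF hc hc' hx hx'
    subst this
    exact ⟨ht, h⟩
  | d4 φ x d hφ hd hx h => exact absurd (mem_Z d) (not_nuc hN hF hc hy hφ)

/-- edges of the hat graph inside a cluster -/
theorem Gh_in (hv : Volt X v) (hN : NucFacts X G) (hF : GoodFam X G v B FF)
    {c : Cl T V W GG} (hc : c ∈ FF) {f1 : Sym2 W}
    (hf1 : ∀ x ∈ c.S, ∀ y ∈ c.S, G.Adj x y → s(x, y) ≠ f1 → X.TA.Adj (c.t x) (c.t y))
    {x y : W} (hx : x ∈ c.S) (hy : y ∈ c.S) (h : (Gh X G v FF).Adj x y) (hne : s(x, y) ≠ f1) :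
    X.TA.Adj (c.t x) (c.t y) ∧ c.g x * v (c.t x) (c.t y) * (c.g y)⁻¹ ∈ Subgroup.zpowers c.u := by
  obtain ⟨_, h | h | h⟩ := h
  · have ht := hf1 x hx y hy h hne
    exact ⟨ht, (hF.ok c hc).rel x hx y hy h ht⟩
  · exact der_in hN hF hc hx hy h
  · obtain ⟨ht, h2⟩ := der_in hN hF hc hy hx h
    refine ⟨ht.symm, ?_⟩
    have h3 := Subgroup.inv_mem _ h2
    rw [hv.inv _ _ ht]
    simpa [mul_assoc] using h3

/-- no six pairwise adjacent vertices of the core are mapped into a cluster -/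
theorem noK6 (hv : Volt X v) (hN : NucFacts X G) (hF : GoodFam X G v B FF)
    {c : Cl T V W GG} (hc : c ∈ FF) (hcf : ClFacts X G c) {ψ : V → W}
    (hψ : Function.Injective ψ) {f0 : Sym2 V}
    (h : ∀ a b, X.C.Adj a b → s(a, b) ≠ f0 → (Gh X G v FF).Adj (ψ a) (ψ b))
    (K : Finset V) (hK : ∀ a ∈ K, ψ a ∈ c.S) (h6 : #K = 6) : ¬ X.C.IsClique (K : Set V) := by
  intro hcl
  obtain ⟨f1, hf1⟩ := hcf.nt
  obtain ⟨p, q, rfl⟩ : ∃ p q, f0 = s(p, q) := by
    induction f0 using Sym2.ind with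
    | _ p q => exact ⟨p, q, rfl⟩
  obtain ⟨x, y, rfl⟩ : ∃ x y, f1 = s(x, y) := by
    induction f1 using Sym2.ind with
    | _ x y => exact ⟨x, y, rfl⟩
  set K' : Finset V := (K.erase p).filter fun a => ψ a ≠ x with hK'
  have hcard : 4 ≤ #K' := by
    have h1 : 5 ≤ #(K.erase p) := by
      have := Finset.pred_card_le_card_erase (s := K) (a := p)
      omega
    have h2 : #((K.erase p).filter fun a => ¬ ψ a ≠ x) ≤ 1 := by
      rw [Finset.card_le_one]
      intro a ha b hb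
      simp only [ne_eq, not_not, Finset.mem_filter] at ha hb
      exact hψ (ha.2.trans hb.2.symm)
    have h3 : #K' + #((K.erase p).filter fun a => ¬ ψ a ≠ x) = #(K.erase p) :=
      Finset.card_filter_add_card_filter_not (s := K.erase p) (fun a => ψ a ≠ x)
    omega
  obtain ⟨K4, hK4, hc4⟩ := Finset.exists_subset_card_eq hcard
  let e : Fin 4 ≃ K4 := (Finset.equivFinOfCardEq hc4).symm
  have hmem : ∀ i, (e i : V) ∈ K' := fun i => hK4 (e i).2
  have hS : ∀ i, ψ (e i) ∈ c.S := fun i => hK _ (by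
    have := hmem i
    rw [hK', Finset.mem_filter, Finset.mem_erase] at this
    exact this.1.2)
  have key : ∀ i j, i ≠ j → X.TA.Adj (c.t (ψ (e i))) (c.t (ψ (e j))) ∧
      c.g (ψ (e i)) * v (c.t (ψ (e i))) (c.t (ψ (e j))) * (c.g (ψ (e j)))⁻¹ ∈
        Subgroup.zpowers c.u := by
    intro i j hij
    have hne : (e i : V) ≠ e j := fun h => hij (e.injective (Subtype.ext h))
    have hi := hmem i
    have hj := hmem j
    rw [hK', Finset.mem_filter, Finset.mem_erase] at hi hj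
    refine Gh_in hv hN hF hc hf1 (hS i) (hS j) (h _ _ (hcl hi.1.2 hj.1.2 hne) ?_) ?_
    · intro h1
      rw [Sym2.eq_iff] at h1
      rcases h1 with h1 | h1
      · exact hi.1.1 h1.1
      · exact hj.1.1 h1.2
    · intro h1
      rw [Sym2.eq_iff] at h1
      rcases h1 with h1 | h1
      · exact hi.2 h1.1
      · exact hj.2 h1.2
  exact hv.nok4 c.u (fun i => c.t (ψ (e i))) (fun i => c.g (ψ (e i)))
    (fun i j hij => (key i j hij).1) (fun i j hij => (key i j hij).2)

/-- edges of the hat graph inside a nucleus -/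
theorem Gh_nuc (hN : NucFacts X G) (hF : GoodFam X G v B FF) {φ : V → W} (hφ : IsNuc X G φ)
    {l l' : V} (h : (Gh X G v FF).Adj (φ l) (φ l')) : X.C.Adj l l' := by
  have key : ∀ x y : W, Der X G v FF x y → ∀ l l' : V, x = φ l → y = φ l' → X.C.Adj l l' := by
    intro x y h l l' hx hy
    cases h with
    | d1 φ' a b hφ' hab =>
      have h1 := hN.n1 φ' φ hφ' hφ (φ' a) (mem_Z a) (by rw [hx]; exact mem_Z l)
      subst h1
      rw [← hφ.1 hx, ← hφ.1 hy]
      exact hab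
    | d2 c' x l2 hc' hx' hl =>
      exact absurd (mem_Z (φ := φ) l) (by rw [← hx]; exact not_nuc hN hF hc' hx' hφ)
    | d3 c' x y hc' hx' hy' ht h =>
      exact absurd (mem_Z (φ := φ) l) (by rw [← hx]; exact not_nuc hN hF hc' hx' hφ)
    | d4 φ' x d hφ' hd hx' h =>
      have h1 := hN.n1 φ' φ hφ' hφ (φ' d) (mem_Z d) (by rw [hy]; exact mem_Z l')
      subst h1
      exact absurd (mem_Z (φ := φ') l) (by rw [← hx]; exact hx')
  obtain ⟨_, h | h | h⟩ := h
  · exact hN.ind φ hφ l l' h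
  · exact key _ _ h l l' rfl rfl
  · exact (key _ _ h l' l rfl rfl).symm

/-- edges of the hat graph from a cluster to its nucleus -/
theorem Gh_lab (hC : CoreOK X) (hN : NucFacts X G) (hF : GoodFam X G v B FF)
    {c : Cl T V W GG} (hc : c ∈ FF) (hcf : ClFacts X G c) {x : W} (hx : x ∈ c.S) {l : V}
    (h : (Gh X G v FF).Adj x (c.φ l)) (hl : l ∉ X.L (c.t x)) : G.Adj x (c.φ l) := by
  have hnuc := (hF.ok c hc).nuc
  obtain ⟨_, h | h | h⟩ := h
  · exact h
  · exfalso
    revert h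
    generalize hy : c.φ l = y
    intro h
    cases h with
    | d1 φ a b hφ hab => exact absurd (mem_Z a) (not_nuc hN hF hc hx hφ)
    | d2 c' x l' hc' hx' hl' =>
      have := same hN hF hc hc' hx hx'
      subst this
      rw [hnuc.1 hy] at hl
      exact hl hl'
    | d3 c' x y hc' hx' hy' ht h =>
      exact absurd (mem_Z (φ := c.φ) l) (by rw [hy]; exact not_nuc hN hF hc' hy' hnuc)
    | d4 φ x d hφ hd hx' h =>
      have h1 := hN.n1 φ c.φ hφ hnuc (φ d) (mem_Z d) (by rw [← hy]; exact mem_Z l)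
      subst h1
      have h2 := hcf.nl x hx
      have h3 : #{d' ∈ X.D | G.Adj x (c.φ d')} ≤
          #{a : V | G.Adj x (c.φ a) ∧ a ∉ X.L (c.t x)} := by
        refine Finset.card_le_card ?_
        intro d' hd'
        simp only [Finset.mem_filter] at hd'
        simp only [Finset.mem_filter, Finset.mem_univ, true_and]
        exact ⟨hd'.2, Finset.disjoint_left.1 (hC.DL (c.t x)) hd'.1⟩
      omega
  · exfalso
    revert h
    generalize hy : c.φ l = y
    intro h
    cases h with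
    | d1 φ a b hφ hab => exact absurd (mem_Z b) (not_nuc hN hF hc hx hφ)
    | d2 c' x' l' hc' hx' hl' =>
      exact absurd (mem_Z (φ := c.φ) l) (by rw [hy]; exact not_nuc hN hF hc' hx' hnuc)
    | d3 c' x' y hc' hx' hy' ht h =>
      exact absurd (mem_Z (φ := c.φ) l) (by rw [hy]; exact not_nuc hN hF hc' hx' hnuc)
    | d4 φ x' d hφ hd hx' h => exact absurd (mem_Z d) (not_nuc hN hF hc hx hφ)

theorem ee_le_two {U : Type} (G : SimpleGraph U) (F : Finset U) (f0 : Sym2 U)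
    (h : ∀ a ∈ F, ∀ b ∈ F, G.Adj a b → s(a, b) = f0) : ee G F F ≤ 2 := by
  obtain ⟨p, q, rfl⟩ : ∃ p q, f0 = s(p, q) := by
    induction f0 using Sym2.ind with
    | _ p q => exact ⟨p, q, rfl⟩
  rw [ee_eq_card]
  have h1 : ({x ∈ F ×ˢ F | G.Adj x.1 x.2} : Finset (U × U)) ⊆ {(p, q), (q, p)} := by
    rintro ⟨a, b⟩ hab
    simp only [Finset.mem_filter, Finset.mem_product] at hab
    have := h a hab.1.1 b hab.1.2 hab.2
    rw [Sym2.eq_iff] at this
    simp only [Finset.mem_insert, Finset.mem_singleton, Prod.mk.injEq]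
    exact this
  have h2 := (Finset.card_le_card h1).trans Finset.card_le_two
  exact_mod_cast h2

/-- a vertex mapped into a cluster has at most six neighbours mapped into the nucleus -/
theorem six (hC : CoreOK X) (hN : NucFacts X G) (hF : GoodFam X G v B FF)
    {c : Cl T V W GG} (hc : c ∈ FF) (hcf : ClFacts X G c) {ψ : V → W}
    (hψ : Function.Injective ψ) {f0 : Sym2 V}
    (h : ∀ a b, X.C.Adj a b → s(a, b) ≠ f0 → (Gh X G v FF).Adj (ψ a) (ψ b))
    {a : V} (ha : ψ a ∈ c.S) :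
    #{b ∈ ({b : V | ψ b ∈ Z c.φ} : Finset V) | X.C.Adj a b} ≤ 6 := by
  have hnuc := (hF.ok c hc).nuc
  set J0 : Finset V := {b ∈ ({b : V | ψ b ∈ Z c.φ} : Finset V) | X.C.Adj a b} with hJ0
  set J1 : Finset V := J0.filter fun b => ∃ l ∈ X.L (c.t (ψ a)), ψ b = c.φ l with hJ1
  set A1 : Finset V := J0.filter fun b => s(a, b) = f0 with hA1
  set A2 : Finset V := J0.filter fun b => ∃ l, l ∉ X.L (c.t (ψ a)) ∧ G.Adj (ψ a) (c.φ l) ∧
    ψ b = c.φ l with hA2
  have hsub : J0 ⊆ A1 ∪ A2 ∪ J1 := by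
    intro b hb
    have hb' := hb
    rw [hJ0] at hb'
    simp only [Finset.mem_filter, Finset.mem_univ, true_and] at hb'
    obtain ⟨hbZ, hab⟩ := hb'
    obtain ⟨l, -, hl⟩ := Finset.mem_image.1 hbZ
    rw [Finset.mem_union, Finset.mem_union]
    by_cases h1 : s(a, b) = f0
    · exact Or.inl (Or.inl (Finset.mem_filter.2 ⟨hb, h1⟩))
    by_cases h2 : l ∈ X.L (c.t (ψ a))
    · exact Or.inr (Finset.mem_filter.2 ⟨hb, l, h2, hl.symm⟩)
    · refine Or.inl (Or.inr (Finset.mem_filter.2 ⟨hb, l, h2, ?_, hl.symm⟩))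
      have h3 := h a b hab h1
      rw [← hl] at h3
      exact Gh_lab hC hN hF hc hcf ha h3 h2
  have c1 : #A1 ≤ 1 := by
    rw [Finset.card_le_one]
    intro b hb b' hb'
    have h1 := (Finset.mem_filter.1 hb).2
    have h2 := (Finset.mem_filter.1 hb').2
    rw [← h2] at h1
    exact Sym2.congr_right.1 h1
  have c2 : #A2 ≤ 1 := by
    rw [Finset.card_le_one]
    intro b hb b' hb'
    obtain ⟨l, h1, h2, h3⟩ := (Finset.mem_filter.1 hb).2
    obtain ⟨l', h1', h2', h3'⟩ := (Finset.mem_filter.1 hb').2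
    have h4 := Finset.card_le_one.1 (hcf.nl (ψ a) ha) l (by
      simp only [Finset.mem_filter, Finset.mem_univ, true_and]; exact ⟨h2, h1⟩) l' (by
      simp only [Finset.mem_filter, Finset.mem_univ, true_and]; exact ⟨h2', h1'⟩)
    apply hψ
    rw [h3, h3', h4]
  have c3 : #J1 ≤ 4 := by
    refine hC.c3 a J1 (fun b hb => ?_) (ee_le_two _ _ f0 fun b hb b' hb' hbb => ?_)
    · have := (Finset.mem_filter.1 hb).1
      rw [hJ0, Finset.mem_filter] at this
      exact this.2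
    · by_contra hne
      obtain ⟨l, hl, e1⟩ := (Finset.mem_filter.1 hb).2
      obtain ⟨l', hl', e2⟩ := (Finset.mem_filter.1 hb').2
      have h1 := h b b' hbb hne
      rw [e1, e2] at h1
      exact hC.Lindep _ l hl l' hl' (Gh_nuc hN hF hnuc h1)
  have := Finset.card_le_card hsub
  have h5 := Finset.card_union_le (A1 ∪ A2) J1
  have h6 := Finset.card_union_le A1 A2
  omega

end

end Pool.Agent.H533HB.B3Tt

namespace Pool.Agent.H533HB

open Finset
open scoped Classical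

theorem B3T : S_B3T := by
  intro T I V W GG _ _ _ X G v B FF hC hv hN hF hcf ψ hψ f0 h c hc
  have h1 : ee X.C {a | ψ a ∈ c.S} {a | ψ a ∈ c.S} ≤ 10 * #{a | ψ a ∈ c.S} := by
    refine hC.c2 _ fun K hK h6 => ?_
    refine B3Tt.noK6 hv hN hF hc (hcf c hc) hψ h K (fun a ha => ?_) h6
    have := hK ha
    simpa using this
  have h2 : ee X.C {a | ψ a ∈ c.S} {a | ψ a ∈ Z c.φ} ≤ 6 * #{a | ψ a ∈ c.S} := by
    rw [ee_eq_sum_card]
    have : ∀ a ∈ ({a | ψ a ∈ c.S} : Finset V),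
        (#{b ∈ ({a | ψ a ∈ Z c.φ} : Finset V) | X.C.Adj a b} : ℤ) ≤ 6 := by
      intro a ha
      have ha' : ψ a ∈ c.S := by simpa using ha
      exact_mod_cast B3Tt.six hC hN hF hc (hcf c hc) hψ h ha'
    have h3 := Finset.sum_le_sum this
    rw [Finset.sum_const, nsmul_eq_mul] at h3
    linarith
  linarith

end Pool.Agent.H533HB
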