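import Pool.Agent.H533HB.Stmts

/-!
# Task B4: the hat graph is closed under the `H`-rule
-/

set_option autoImplicit false

namespace Pool.Agent.H533HB

open Finset
open scoped Classical

namespace B4aux

section Groups

variable {GG : Type} [Group GG]

/-- if all consecutive quotients of a closed walk but one lie in a subgroup, so does the last -/
theorem cyc_rel (S : Subgroup GG) (n : ℕ) (v g : ℕ → GG)
    (hv : ((List.range n).map v).prod = 1) (hg : g n = g 0) (j0 : ℕ) (hj0 : j0 < n)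
    (h : ∀ j < n, j ≠ j0 → g j * v j * (g (j + 1))⁻¹ ∈ S) :
    g j0 * v j0 * (g (j0 + 1))⁻¹ ∈ S := by
  have key : ∀ m ≤ n, (m ≤ j0 → g 0 * ((List.range m).map v).prod * (g m)⁻¹ ∈ S) ∧
      (j0 < m → ∃ A ∈ S, ∃ Q ∈ S, g 0 * ((List.range m).map v).prod * (g m)⁻¹ =
        A * (g j0 * v j0 * (g (j0 + 1))⁻¹) * Q) := by
    intro m
    induction m with
    | zero =>
      intro _
      refine ⟨fun _ => ?_, fun h => by omega⟩
      simp [S.one_mem]
    | succ m ih =>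
      intro hm
      obtain ⟨ih1, ih2⟩ := ih (by omega)
      have e : g 0 * ((List.range (m + 1)).map v).prod * (g (m + 1))⁻¹ =
          (g 0 * ((List.range m).map v).prod * (g m)⁻¹) * (g m * v m * (g (m + 1))⁻¹) := by
        rw [List.range_succ, List.map_append, List.prod_append, List.map_singleton,
          List.prod_singleton]
        group
      refine ⟨fun h1 => ?_, fun h1 => ?_⟩
      · rw [e]
        exact S.mul_mem (ih1 (by omega)) (h m (by omega) (by omega))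
      · rcases Nat.lt_or_ge j0 m with h2 | h2
        · obtain ⟨A, hA, Q, hQ, hE⟩ := ih2 h2
          refine ⟨A, hA, Q * (g m * v m * (g (m + 1))⁻¹),
            S.mul_mem hQ (h m (by omega) (by omega)), ?_⟩
          rw [e, hE]; group
        · have h3 : m = j0 := by omega
          subst h3
          refine ⟨_, ih1 le_rfl, 1, S.one_mem, ?_⟩
          rw [e]; group
  obtain ⟨A, hA, Q, hQ, hE⟩ := (key n le_rfl).2 hj0
  rw [hv, hg] at hE
  have h1 : A * (g j0 * v j0 * (g (j0 + 1))⁻¹) * Q = 1 := by rw [← hE]; group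
  have h2 : g j0 * v j0 * (g (j0 + 1))⁻¹ = A⁻¹ * Q⁻¹ := by
    have h3 : A * (g j0 * v j0 * (g (j0 + 1))⁻¹) = Q⁻¹ := eq_inv_of_mul_eq_one_left h1
    rw [← h3]; group
  rw [h2]
  exact S.mul_mem (S.inv_mem hA) (S.inv_mem hQ)

end Groups

theorem cyc_eq {α : Type} (n : ℕ) (c : ℕ → α) (hc : c n = c 0) (j0 : ℕ) (hj0 : j0 < n)
    (h : ∀ j < n, j ≠ j0 → c j = c (j + 1)) : ∀ j ≤ n, c j = c 0 := by
  have h1 : ∀ j ≤ j0, c j = c 0 := by
    intro j
    induction j with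
    | zero => intro _; rfl
    | succ j ih =>
      intro hj
      rw [← h j (by omega) (by omega)]
      exact ih (by omega)
  have h2 : ∀ d ≤ n - (j0 + 1), c (n - d) = c 0 := by
    intro d
    induction d with
    | zero => intro _; simpa using hc
    | succ d ih =>
      intro hd
      have h3 := h (n - (d + 1)) (by omega) (by omega)
      rw [h3, show n - (d + 1) + 1 = n - d by omega]
      exact ih (by omega)
  intro j hj
  rcases Nat.lt_or_ge j0 j with h3 | h3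
  · have h4 := h2 (n - j) (by omega)
    rwa [show n - (n - j) = j by omega] at h4
  · exact h1 j h3

variable {T I V W GG : Type} [Fintype V] [Group GG]
variable {X : Data T I V} {G : SimpleGraph W} {v : T → T → GG} {B : ℕ}
variable {FF : Finset (Cl T V W GG)}

theorem mem_Z {φ : V → W} {x : W} : x ∈ Z φ ↔ ∃ a, φ a = x := by
  simp [Z]

theorem der_inv {x z : W} (h : Der X G v FF x z) :
    (∃ φ, IsNuc X G φ ∧ ∃ a b, X.C.Adj a b ∧ x = φ a ∧ z = φ b) ∨
    (∃ c ∈ FF, x ∈ c.S ∧ ∃ l ∈ X.L (c.t x), z = c.φ l) ∨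
    (∃ c ∈ FF, x ∈ c.S ∧ z ∈ c.S ∧ X.TA.Adj (c.t x) (c.t z) ∧
      c.g x * v (c.t x) (c.t z) * (c.g z)⁻¹ ∈ Subgroup.zpowers c.u) ∨
    (∃ φ, IsNuc X G φ ∧ x ∉ Z φ ∧ ∃ d ∈ X.D, z = φ d ∧ 2 ≤ #{d' ∈ X.D | G.Adj x (φ d')}) := by
  cases h with
  | d1 φ a b hφ hab => exact Or.inl ⟨φ, hφ, a, b, hab, rfl, rfl⟩
  | d2 c x l hc hx hl => exact Or.inr (Or.inl ⟨c, hc, hx, l, hl, rfl⟩)
  | d3 c x y hc hx hy ht h => exact Or.inr (Or.inr (Or.inl ⟨c, hc, hx, hy, ht, h⟩))
  | d4 φ x d hφ hd hx h => exact Or.inr (Or.inr (Or.inr ⟨φ, hφ, hx, d, hd, rfl, h⟩))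

theorem not_Z (hN : NucFacts X G) (hF : GoodFam X G v B FF) {c : Cl T V W GG} (hc : c ∈ FF)
    {x : W} (hx : x ∈ c.S) {φ : V → W} (hφ : IsNuc X G φ) : x ∉ Z φ :=
  hN.t1 c.φ φ x (c.t x) (hF.ok c hc).nuc hφ ((hF.ok c hc).typed x hx)

theorem no_d4 (hN : NucFacts X G) {φ φ' : V → W} (hφ : IsNuc X G φ) (hφ' : IsNuc X G φ')
    {l : V} (hl : φ l ∉ Z φ') (h : 2 ≤ #{d' ∈ X.D | G.Adj (φ l) (φ' d')}) : False := by
  have hne : φ ≠ φ' := by
    rintro rfl
    exact hl (mem_Z.2 ⟨l, rfl⟩)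
  have h1 := hN.n2 φ φ' hφ hφ' hne
  have h2 : ee G {φ l} (Z φ') ≤ ee G (Z φ) (Z φ') :=
    ee_mono G (singleton_subset_iff.2 (mem_Z.2 ⟨l, rfl⟩)) (Subset.refl _)
  rw [ee_singleton_left] at h2
  have h3 : #{d' ∈ X.D | G.Adj (φ l) (φ' d')} ≤ #{b ∈ Z φ' | G.Adj (φ l) b} := by
    rw [← card_image_of_injective _ hφ'.1]
    apply card_le_card
    intro y hy
    rw [mem_image] at hy
    obtain ⟨d, hd, rfl⟩ := hy
    rw [mem_filter] at hd ⊢
    exact ⟨mem_Z.2 ⟨d, rfl⟩, hd.2⟩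
  have h4 : (2 : ℤ) ≤ #{b ∈ Z φ' | G.Adj (φ l) b} := by exact_mod_cast h.trans h3
  linarith

theorem cl_unique (hF : GoodFam X G v B FF) {c c' : Cl T V W GG} (hc : c ∈ FF) (hc' : c' ∈ FF)
    (hφ : c.φ = c'.φ) {x : W} (hx : x ∈ c.S) (hx' : x ∈ c'.S) : c = c' := by
  by_contra hne
  exact (disjoint_left.1 (hF.disj c hc c' hc' hne hφ)) hx hx'

/-- (L1) -/
theorem L1 (hC : CoreOK X) (hN : NucFacts X G) (hF : GoodFam X G v B FF) {φ : V → W}
    (hφ : IsNuc X G φ) {x : W} (hx : x ∉ Z φ) {s : T} {l : V} (hl : l ∈ X.L s)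
    (h : (Gh X G v FF).Adj x (φ l)) :
    G.Adj x (φ l) ∨ ∃ c ∈ FF, c.φ = φ ∧ x ∈ c.S ∧ c.t x = s := by
  have hlZ : φ l ∈ Z φ := mem_Z.2 ⟨l, rfl⟩
  obtain ⟨_, h | h | h⟩ := h
  · exact Or.inl h
  · rcases der_inv h with ⟨φ', hφ', a, b, _, hxa, hzb⟩ | ⟨c, hc, hxc, l', hl', hz⟩ |
      ⟨c, hc, _, hzc, _⟩ | ⟨φ', hφ', _, d, hd, hz, _⟩
    · exfalso
      have : φ = φ' := hN.n1 φ φ' hφ hφ' (φ l) hlZ (mem_Z.2 ⟨b, hzb.symm⟩)
      subst this
      exact hx (mem_Z.2 ⟨a, hxa.symm⟩)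
    · right
      have h1 : c.φ = φ := hN.n1 c.φ φ (hF.ok c hc).nuc hφ (φ l) (mem_Z.2 ⟨l', hz.symm⟩) hlZ
      refine ⟨c, hc, h1, hxc, ?_⟩
      rw [h1] at hz
      have h2 : l = l' := hφ.1 hz
      subst h2
      by_contra hne
      exact (disjoint_left.1 (hC.Ldisj _ _ hne)) hl' hl
    · exact absurd hlZ (not_Z hN hF hc hzc hφ)
    · exfalso
      have h1 : φ' = φ := hN.n1 φ' φ hφ' hφ (φ l) (mem_Z.2 ⟨d, hz.symm⟩) hlZ
      subst h1
      have h2 : l = d := hφ.1 hz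
      subst h2
      exact (disjoint_left.1 (hC.DL s)) hd hl
  · exfalso
    rcases der_inv h with ⟨φ', hφ', a, b, _, hxa, hzb⟩ | ⟨c, hc, hxc, _⟩ |
      ⟨c, hc, hxc, _⟩ | ⟨φ', hφ', hxZ, d, hd, hz, h2⟩
    · have : φ = φ' := hN.n1 φ φ' hφ hφ' (φ l) hlZ (mem_Z.2 ⟨a, hxa.symm⟩)
      subst this
      exact hx (mem_Z.2 ⟨b, hzb.symm⟩)
    · exact not_Z hN hF hc hxc hφ hlZ
    · exact not_Z hN hF hc hxc hφ hlZ
    · exact no_d4 hN hφ hφ' hxZ h2

/-- the analogue of (L1) for the set `D` -/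
theorem Ld (hC : CoreOK X) (hN : NucFacts X G) (hF : GoodFam X G v B FF) {φ : V → W}
    (hφ : IsNuc X G φ) {x : W} (hx : x ∉ Z φ) {l : V} (hl : l ∈ X.D)
    (h : (Gh X G v FF).Adj x (φ l)) :
    G.Adj x (φ l) ∨ 2 ≤ #{d' ∈ X.D | G.Adj x (φ d')} := by
  have hlZ : φ l ∈ Z φ := mem_Z.2 ⟨l, rfl⟩
  obtain ⟨_, h | h | h⟩ := h
  · exact Or.inl h
  · rcases der_inv h with ⟨φ', hφ', a, b, _, hxa, hzb⟩ | ⟨c, hc, hxc, l', hl', hz⟩ |
      ⟨c, hc, _, hzc, _⟩ | ⟨φ', hφ', _, d, hd, hz, h2⟩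
    · exfalso
      have : φ = φ' := hN.n1 φ φ' hφ hφ' (φ l) hlZ (mem_Z.2 ⟨b, hzb.symm⟩)
      subst this
      exact hx (mem_Z.2 ⟨a, hxa.symm⟩)
    · exfalso
      have h1 : c.φ = φ := hN.n1 c.φ φ (hF.ok c hc).nuc hφ (φ l) (mem_Z.2 ⟨l', hz.symm⟩) hlZ
      rw [h1] at hz
      have h2 : l = l' := hφ.1 hz
      subst h2
      exact (disjoint_left.1 (hC.DL _)) hl hl'
    · exact absurd hlZ (not_Z hN hF hc hzc hφ)
    · right
      have h1 : φ' = φ := hN.n1 φ' φ hφ' hφ (φ l) (mem_Z.2 ⟨d, hz.symm⟩) hlZ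
      subst h1
      exact h2
  · exfalso
    rcases der_inv h with ⟨φ', hφ', a, b, _, hxa, hzb⟩ | ⟨c, hc, hxc, _⟩ |
      ⟨c, hc, hxc, _⟩ | ⟨φ', hφ', hxZ, d, hd, hz, h2⟩
    · have : φ = φ' := hN.n1 φ φ' hφ hφ' (φ l) hlZ (mem_Z.2 ⟨a, hxa.symm⟩)
      subst this
      exact hx (mem_Z.2 ⟨b, hzb.symm⟩)
    · exact not_Z hN hF hc hxc hφ hlZ
    · exact not_Z hN hF hc hxc hφ hlZ
    · exact no_d4 hN hφ hφ' hxZ h2

/-- (L2) -/
theorem L2 (hV : ∀ s t, X.TA.Adj s t → v t s = (v s t)⁻¹) (hN : NucFacts X G)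
    (hF : GoodFam X G v B FF) {c c' : Cl T V W GG}
    (hc : c ∈ FF) (hc' : c' ∈ FF) (hcc : c.φ = c'.φ) {x y : W} (hx : x ∈ c.S) (hy : y ∈ c'.S)
    (ht : X.TA.Adj (c.t x) (c'.t y)) (h : (Gh X G v FF).Adj x y) :
    c = c' ∧ c.g x * v (c.t x) (c.t y) * (c.g y)⁻¹ ∈ Subgroup.zpowers c.u := by
  have hnx : ∀ φ, IsNuc X G φ → x ∉ Z φ := fun φ hφ => not_Z hN hF hc hx hφ
  have hny : ∀ φ, IsNuc X G φ → y ∉ Z φ := fun φ hφ => not_Z hN hF hc' hy hφ
  -- clusters containing both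
  have hcom : ∀ c'' ∈ FF, x ∈ c''.S → y ∈ c''.S → c = c'' ∧ c' = c'' := by
    intro c'' hc'' hx'' hy''
    have h1 : c.φ = c''.φ := (hN.t2 c.φ c''.φ x (c.t x) (c''.t x) (hF.ok c hc).nuc
      (hF.ok c'' hc'').nuc ((hF.ok c hc).typed x hx) ((hF.ok c'' hc'').typed x hx'')).1
    exact ⟨cl_unique hF hc hc'' h1 hx hx'', cl_unique hF hc' hc'' (hcc.symm.trans h1) hy hy''⟩
  obtain ⟨_, h | h | h⟩ := h
  · have h1 : c = c' := by
      by_contra hne
      exact hF.f2 c hc c' hc' hne hcc x hx y hy h ht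
    subst h1
    exact ⟨rfl, (hF.ok c hc).rel x hx y hy h ht⟩
  · rcases der_inv h with ⟨φ', hφ', a, b, _, hxa, hzb⟩ | ⟨c1, hc1, _, l, _, hz⟩ |
      ⟨c1, hc1, hxc, hzc, _, hrel⟩ | ⟨φ', hφ', _, d, _, hz, _⟩
    · exact absurd (mem_Z.2 ⟨a, hxa.symm⟩) (hnx φ' hφ')
    · exact absurd (mem_Z.2 ⟨l, hz.symm⟩) (hny c1.φ (hF.ok c1 hc1).nuc)
    · obtain ⟨h1, h2⟩ := hcom c1 hc1 hxc hzc
      subst h1
      exact ⟨h2.symm, hrel⟩
    · exact absurd (mem_Z.2 ⟨d, hz.symm⟩) (hny φ' hφ')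
  · rcases der_inv h with ⟨φ', hφ', a, b, _, hxa, hzb⟩ | ⟨c1, hc1, _, l, _, hz⟩ |
      ⟨c1, hc1, hyc, hxc, hta, hrel⟩ | ⟨φ', hφ', _, d, _, hz, _⟩
    · exact absurd (mem_Z.2 ⟨a, hxa.symm⟩) (hny φ' hφ')
    · exact absurd (mem_Z.2 ⟨l, hz.symm⟩) (hnx c1.φ (hF.ok c1 hc1).nuc)
    · obtain ⟨h1, h2⟩ := hcom c1 hc1 hxc hyc
      subst h1
      refine ⟨h2.symm, ?_⟩
      have h3 := (Subgroup.zpowers c.u).inv_mem hrel
      have h4 : (c.g y * v (c.t y) (c.t x) * (c.g x)⁻¹)⁻¹ =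
          c.g x * v (c.t x) (c.t y) * (c.g y)⁻¹ := by
        rw [hV _ _ hta]
        group
      rwa [h4] at h3
    · exact absurd (mem_Z.2 ⟨d, hz.symm⟩) (hnx φ' hφ')

/-- vertices with all label edges in the hat graph are in clusters -/
theorem full_mem (hC : CoreOK X) (hN : NucFacts X G) (hF : GoodFam X G v B FF) {φ : V → W}
    (hφ : IsNuc X G φ) {x : W} (hx : x ∉ Z φ) {s : T}
    (h : ∀ l ∈ X.L s, (Gh X G v FF).Adj x (φ l)) :
    ∃ c ∈ FF, c.φ = φ ∧ x ∈ c.S ∧ c.t x = s := by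
  by_cases hall : ∀ l ∈ X.L s, G.Adj x (φ l)
  · have hlab : lab X G φ x s = 15 := by
      unfold lab
      rw [filter_true_of_mem hall, hC.Lcard]
    obtain ⟨c, hc, hcφ, hxc⟩ := hF.f1 φ hφ x s hx (by rw [hlab])
    refine ⟨c, hc, hcφ, hxc, ?_⟩
    exact (hN.t2 c.φ φ x (c.t x) s (hF.ok c hc).nuc hφ ((hF.ok c hc).typed x hxc)
      ⟨hx, by rw [hlab]; norm_num⟩).2
  · push Not at hall
    obtain ⟨l, hl, hnl⟩ := hall
    rcases L1 hC hN hF hφ hx hl (h l hl) with h1 | h1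
    · exact absurd h1 hnl
    · exact h1

/-- edges of the hat graph from an isolated typed vertex to a cluster are edges of `G` -/
theorem L3 (hN : NucFacts X G) (hF : GoodFam X G v B FF) {φ : V → W}
    (hφ : IsNuc X G φ) {x : W} {s : T} (hx : Typed X G φ x s)
    (hno : ∀ c' ∈ FF, c'.φ = φ → x ∉ c'.S) {c : Cl T V W GG} (hc : c ∈ FF) {y : W}
    (hy : y ∈ c.S) (h : (Gh X G v FF).Adj x y) : G.Adj x y := by
  have hnx : ∀ φ', IsNuc X G φ' → x ∉ Z φ' := fun φ' hφ' => hN.t1 φ φ' x s hφ hφ' hx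
  have hny : ∀ φ', IsNuc X G φ' → y ∉ Z φ' := fun φ' hφ' => not_Z hN hF hc hy hφ'
  have hcl : ∀ c' ∈ FF, x ∉ c'.S := by
    intro c' hc' hxc'
    have h1 := (hN.t2 c'.φ φ x (c'.t x) s (hF.ok c' hc').nuc hφ
      ((hF.ok c' hc').typed x hxc') hx).1
    exact hno c' hc' h1 hxc'
  obtain ⟨_, h | h | h⟩ := h
  · exact h
  · exfalso
    rcases der_inv h with ⟨φ', hφ', a, b, _, hxa, hzb⟩ | ⟨c1, hc1, _, l, _, hz⟩ |
      ⟨c1, hc1, hxc, _⟩ | ⟨φ', hφ', _, d, _, hz, _⟩
    · exact hnx φ' hφ' (mem_Z.2 ⟨a, hxa.symm⟩)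
    · exact hny c1.φ (hF.ok c1 hc1).nuc (mem_Z.2 ⟨l, hz.symm⟩)
    · exact hcl c1 hc1 hxc
    · exact hny φ' hφ' (mem_Z.2 ⟨d, hz.symm⟩)
  · exfalso
    rcases der_inv h with ⟨φ', hφ', a, b, _, hxa, hzb⟩ | ⟨c1, hc1, _, l, _, hz⟩ |
      ⟨c1, hc1, _, hxc, _⟩ | ⟨φ', hφ', _, d, _, hz, _⟩
    · exact hnx φ' hφ' (mem_Z.2 ⟨b, hzb.symm⟩)
    · exact hnx c1.φ (hF.ok c1 hc1).nuc (mem_Z.2 ⟨l, hz.symm⟩)
    · exact hcl c1 hc1 hxc
    · exact hnx φ' hφ' (mem_Z.2 ⟨d, hz.symm⟩)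

/-- the vertex number `k` (modulo the length) of the cycle `i` -/
def vtx (hY : CycOK X) (i : I) (k : ℕ) : HV X :=
  .inr (.inr ⟨i, ⟨k % X.len i, Nat.mod_lt _ (by have := hY.len3 i; omega)⟩⟩)

theorem vtx_adj (hY : CycOK X) (i : I) (k : ℕ) :
    (HG X).Adj (vtx hY i k) (vtx hY i (k + 1)) := by
  have h3 := hY.len3 i
  refine ⟨?_, rfl, Or.inl ?_⟩
  · intro h
    rw [Sigma.mk.injEq] at h
    have h1 := eq_of_heq h.2
    rw [Fin.mk.injEq, ← Nat.mod_add_mod k (X.len i) 1] at h1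
    have h2 : k % X.len i < X.len i := Nat.mod_lt _ (by omega)
    rcases Nat.lt_or_ge (k % X.len i + 1) (X.len i) with h4 | h4
    · rw [Nat.mod_eq_of_lt h4] at h1
      omega
    · have h5 : k % X.len i + 1 = X.len i := by omega
      rw [h5, Nat.mod_self] at h1
      omega
  · show (k + 1) % X.len i = (k % X.len i + 1) % X.len i
    rw [Nat.mod_add_mod]

theorem vtx_label (hY : CycOK X) (i : I) (k : ℕ) (l : V) (hl : l ∈ X.L (X.ty i (k % X.len i))) :
    (HG X).Adj (vtx hY i k) (.inl l) := hl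

theorem vtx_inj (hY : CycOK X) (i : I) {k k' : ℕ} (h : vtx hY i k = vtx hY i k') :
    k % X.len i = k' % X.len i := by
  unfold vtx at h
  rw [Sum.inr.injEq, Sum.inr.injEq, Sigma.mk.injEq] at h
  have h1 := eq_of_heq h.2
  rwa [Fin.mk.injEq] at h1

theorem vtx_congr (hY : CycOK X) (i : I) {k k' : ℕ} (h : k % X.len i = k' % X.len i) :
    vtx hY i k = vtx hY i k' := by
  unfold vtx
  congr 4

theorem vtx_fin (hY : CycOK X) (i : I) (p : Fin (X.len i)) :
    vtx hY i p = .inr (.inr ⟨i, p⟩) := by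
  unfold vtx
  congr 3
  exact Fin.ext (Nat.mod_eq_of_lt p.2)

theorem ty_adj (hY : CycOK X) (i : I) (k : ℕ) :
    X.TA.Adj (X.ty i (k % X.len i)) (X.ty i ((k + 1) % X.len i)) := by
  have h3 := hY.len3 i
  have h := hY.adj i (k % X.len i) (Nat.mod_lt _ (by omega))
  rwa [Nat.mod_add_mod] at h

theorem hol' (hv : Volt X v) (i : I) :
    ((List.range (X.len i)).map
      (fun k => v (X.ty i (k % X.len i)) (X.ty i ((k + 1) % X.len i)))).prod = 1 := by
  have h := hv.hol i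
  have h2 : (List.range (X.len i)).map
      (fun k => v (X.ty i (k % X.len i)) (X.ty i ((k + 1) % X.len i))) =
      (List.range (X.len i)).map (fun j => v (X.ty i j) (X.ty i ((j + 1) % X.len i))) := by
    apply List.map_congr_left
    intro k hk
    rw [List.mem_range] at hk
    rw [Nat.mod_eq_of_lt hk]
  rw [h2, h]

/-- the typed edge case -/
theorem typed_case (hC : CoreOK X) (hY : CycOK X) (hv : Volt X v) (hN : NucFacts X G)
    (hF : GoodFam X G v B FF) (f : HV X → W) (hf : Function.Injective f)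
    (hφ : IsNuc X G (fun a => f (.inl a))) (i : I) (j0 : ℕ) (hj0 : j0 < X.len i)
    (h : ∀ c d, (HG X).Adj c d → s(c, d) ≠ s(vtx hY i j0, vtx hY i (j0 + 1)) →
      (Gh X G v FF).Adj (f c) (f d)) :
    (Gh X G v FF).Adj (f (vtx hY i j0)) (f (vtx hY i (j0 + 1))) := by
  have h3 := hY.len3 i
  have hcl : ∀ k, ∃ c ∈ FF, c.φ = (fun a => f (.inl a)) ∧ f (vtx hY i k) ∈ c.S ∧
      c.t (f (vtx hY i k)) = X.ty i (k % X.len i) := by
    intro k
    apply full_mem hC hN hF hφ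
    · intro hm
      obtain ⟨a, ha⟩ := mem_Z.1 hm
      have := hf ha
      simp [vtx] at this
    · intro l hl
      apply h _ _ (vtx_label hY i k l hl)
      intro he
      rw [Sym2.eq_iff] at he
      rcases he with ⟨_, he⟩ | ⟨_, he⟩ <;> simp [vtx] at he
  choose cl hclF hclφ hclS hclt using hcl
  have hGh : ∀ k < X.len i, k ≠ j0 →
      (Gh X G v FF).Adj (f (vtx hY i k)) (f (vtx hY i (k + 1))) := by
    intro k hk hkj
    apply h _ _ (vtx_adj hY i k)
    intro he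
    rw [Sym2.eq_iff] at he
    rcases he with ⟨he, _⟩ | ⟨he1, he2⟩
    · have := vtx_inj hY i he
      rw [Nat.mod_eq_of_lt hk, Nat.mod_eq_of_lt hj0] at this
      exact hkj this
    · have h1 := vtx_inj hY i he1
      have h2 := vtx_inj hY i he2
      rw [Nat.mod_eq_of_lt hk] at h1
      rw [Nat.mod_eq_of_lt hj0] at h2
      have h4 : ∀ q < X.len i, (q + 1) % X.len i = if q + 1 = X.len i then 0 else q + 1 := by
        intro q hq
        split_ifs with h5
        · rw [h5, Nat.mod_self]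
        · exact Nat.mod_eq_of_lt (by omega)
      rw [h4 _ hj0] at h1
      rw [h4 _ hk] at h2
      split_ifs at h1 h2 <;> omega
  have hL2 : ∀ k < X.len i, k ≠ j0 → cl k = cl (k + 1) ∧
      (cl k).g (f (vtx hY i k)) * v (X.ty i (k % X.len i)) (X.ty i ((k + 1) % X.len i)) *
        ((cl k).g (f (vtx hY i (k + 1))))⁻¹ ∈ Subgroup.zpowers (cl k).u := by
    intro k hk hkj
    have h1 := L2 hv.inv hN hF (hclF k) (hclF (k + 1))
      ((hclφ k).trans (hclφ (k + 1)).symm) (hclS k) (hclS (k + 1))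
      (by rw [hclt, hclt]; exact ty_adj hY i k) (hGh k hk hkj)
    refine ⟨h1.1, ?_⟩
    have h2 := h1.2
    have h4 : (cl k).t (f (vtx hY i (k + 1))) = X.ty i ((k + 1) % X.len i) := by
      rw [h1.1]; exact hclt (k + 1)
    rwa [hclt k, h4] at h2
  have hper : f (vtx hY i (X.len i)) = f (vtx hY i 0) := by
    rw [vtx_congr hY i (k := X.len i) (k' := 0) (by simp)]
  have hcln : cl (X.len i) = cl 0 := by
    apply cl_unique hF (hclF _) (hclF _) ((hclφ _).trans (hclφ _).symm) (hclS _)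
    rw [hper]
    exact hclS 0
  have hall := cyc_eq (X.len i) cl hcln j0 hj0 (fun k hk hkj => (hL2 k hk hkj).1)
  have hrel := cyc_rel (Subgroup.zpowers (cl 0).u) (X.len i)
    (fun k => v (X.ty i (k % X.len i)) (X.ty i ((k + 1) % X.len i)))
    (fun k => (cl 0).g (f (vtx hY i k))) (hol' hv i) (by rw [hper]) j0 hj0
    (by
      intro k hk hkj
      have h1 := (hL2 k hk hkj).2
      rw [hall k hk.le] at h1
      exact h1)
  have hS0 : f (vtx hY i j0) ∈ (cl 0).S := by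
    rw [← hall j0 hj0.le]; exact hclS j0
  have hS1 : f (vtx hY i (j0 + 1)) ∈ (cl 0).S := by
    rw [← hall (j0 + 1) hj0]; exact hclS (j0 + 1)
  have ht0 : (cl 0).t (f (vtx hY i j0)) = X.ty i (j0 % X.len i) := by
    rw [← hall j0 hj0.le]; exact hclt j0
  have ht1 : (cl 0).t (f (vtx hY i (j0 + 1))) = X.ty i ((j0 + 1) % X.len i) := by
    rw [← hall (j0 + 1) hj0]; exact hclt (j0 + 1)
  refine ⟨fun he => (vtx_adj hY i j0).ne (hf he), Or.inr (Or.inl ?_)⟩
  apply Der.d3 (cl 0) _ _ (hclF 0) hS0 hS1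
  · rw [ht0, ht1]; exact ty_adj hY i j0
  · rw [ht0, ht1]; exact hrel

/-- the label edge case -/
theorem label_case (hC : CoreOK X) (hY : CycOK X) (hv : Volt X v) (hN : NucFacts X G)
    (hF : GoodFam X G v B FF) (f : HV X → W) (hf : Function.Injective f)
    (hφ : IsNuc X G (fun a => f (.inl a))) (i : I) (j : ℕ) (hj : j < X.len i) (l : V)
    (hl : l ∈ X.L (X.ty i (j % X.len i)))
    (h : ∀ c d, (HG X).Adj c d → s(c, d) ≠ s(vtx hY i j, .inl l) →
      (Gh X G v FF).Adj (f c) (f d)) :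
    (Gh X G v FF).Adj (f (vtx hY i j)) (f (.inl l)) := by
  by_contra hcon
  have h3 := hY.len3 i
  have hZ : ∀ k, f (vtx hY i k) ∉ Z (fun a => f (.inl a)) := by
    intro k hm
    obtain ⟨a, ha⟩ := mem_Z.1 hm
    have := hf ha
    simp [vtx] at this
  have hne : f (vtx hY i j) ≠ f (.inl l) := by
    intro he
    have := hf he
    simp [vtx] at this
  -- the vertex `x` is in no cluster of `φ` of the right type
  have hno' : ∀ c' ∈ FF, c'.φ = (fun a => f (.inl a)) → f (vtx hY i j) ∈ c'.S →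
      c'.t (f (vtx hY i j)) ≠ X.ty i (j % X.len i) := by
    intro c' hc' hφ' hxc' hty
    apply hcon
    refine ⟨hne, Or.inr (Or.inl ?_)⟩
    have h1 := Der.d2 (X := X) (G := G) (v := v) c' (f (vtx hY i j)) l hc' hxc'
      (by rw [hty]; exact hl)
    rw [hφ'] at h1
    exact h1
  have hadj : ∀ l' ∈ X.L (X.ty i (j % X.len i)), l' ≠ l → G.Adj (f (vtx hY i j)) (f (.inl l')) := by
    intro l' hl' hll
    have h1 : (Gh X G v FF).Adj (f (vtx hY i j)) (f (.inl l')) := by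
      apply h _ _ (vtx_label hY i j l' hl')
      intro he
      rw [Sym2.eq_iff] at he
      rcases he with ⟨_, he⟩ | ⟨_, he⟩
      · exact hll (Sum.inl.inj he)
      · simp [vtx] at he
    rcases L1 hC hN hF hφ (hZ j) hl' h1 with h2 | ⟨c, hc, hcφ, hxc, hct⟩
    · exact h2
    · exact absurd hct (hno' c hc hcφ hxc)
  have hlab : 14 ≤ lab X G (fun a => f (.inl a)) (f (vtx hY i j)) (X.ty i (j % X.len i)) := by
    unfold lab
    have h1 : #((X.L (X.ty i (j % X.len i))).erase l) = 14 := by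
      rw [card_erase_of_mem hl, hC.Lcard]
    rw [← h1]
    apply card_le_card
    intro l' hl'
    rw [mem_erase] at hl'
    rw [mem_filter]
    exact ⟨hl'.2, hadj l' hl'.2 hl'.1⟩
  have hty : Typed X G (fun a => f (.inl a)) (f (vtx hY i j)) (X.ty i (j % X.len i)) :=
    ⟨hZ j, hlab⟩
  have hno : ∀ c' ∈ FF, c'.φ = (fun a => f (.inl a)) → f (vtx hY i j) ∉ c'.S := by
    intro c' hc' hφ' hxc'
    apply hno' c' hc' hφ' hxc'
    exact (hN.t2 c'.φ (fun a => f (.inl a)) _ _ _ (hF.ok c' hc').nuc hφ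
      ((hF.ok c' hc').typed _ hxc') hty).2
  have hcl : ∀ k, k % X.len i ≠ j → ∃ c ∈ FF, c.φ = (fun a => f (.inl a)) ∧
      f (vtx hY i k) ∈ c.S ∧ c.t (f (vtx hY i k)) = X.ty i (k % X.len i) := by
    intro k hk
    apply full_mem hC hN hF hφ (hZ k)
    intro l' hl'
    apply h _ _ (vtx_label hY i k l' hl')
    intro he
    rw [Sym2.eq_iff] at he
    rcases he with ⟨he, _⟩ | ⟨_, he⟩
    · have h1 := vtx_inj hY i he
      rw [Nat.mod_eq_of_lt hj] at h1
      exact hk h1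
    · simp [vtx] at he
  have hGh : ∀ k, (Gh X G v FF).Adj (f (vtx hY i k)) (f (vtx hY i (k + 1))) := by
    intro k
    apply h _ _ (vtx_adj hY i k)
    intro he
    rw [Sym2.eq_iff] at he
    rcases he with ⟨_, he⟩ | ⟨he, _⟩ <;> simp [vtx] at he
  have hsucc : ∀ q < X.len i, (q + 1) % X.len i = if q + 1 = X.len i then 0 else q + 1 := by
    intro q hq
    split_ifs with h5
    · rw [h5, Nat.mod_self]
    · exact Nat.mod_eq_of_lt (by omega)
  have hj1 : (j + 1) % X.len i ≠ j := by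
    rw [hsucc j hj]; split_ifs <;> omega
  -- the modified choice of clusters
  have hcl' : ∀ k, ∃ c ∈ FF, c.φ = (fun a => f (.inl a)) ∧
      (k % X.len i ≠ j → f (vtx hY i k) ∈ c.S ∧ c.t (f (vtx hY i k)) = X.ty i (k % X.len i)) ∧
      (k % X.len i = j → f (vtx hY i (j + 1)) ∈ c.S ∧
        c.t (f (vtx hY i (j + 1))) = X.ty i ((j + 1) % X.len i)) := by
    intro k
    by_cases hk : k % X.len i = j
    · obtain ⟨c, h1, h2, h4, h5⟩ := hcl (j + 1) hj1
      exact ⟨c, h1, h2, fun h6 => absurd hk h6, fun _ => ⟨h4, h5⟩⟩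
    · obtain ⟨c, h1, h2, h4, h5⟩ := hcl k hk
      exact ⟨c, h1, h2, fun _ => ⟨h4, h5⟩, fun h6 => absurd h6 hk⟩
  choose cl hclF hclφ hclS hclj using hcl'
  set jm : ℕ := if j = 0 then X.len i - 1 else j - 1 with hjm
  have hjml : jm < X.len i := by rw [hjm]; split_ifs <;> omega
  have hjm1 : (jm + 1) % X.len i = j := by
    rw [hsucc jm hjml, hjm]; split_ifs <;> omega
  have hjmne : jm % X.len i ≠ j := by
    rw [Nat.mod_eq_of_lt hjml, hjm]; split_ifs <;> omega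
  have hkey : ∀ k < X.len i, k ≠ jm → (k + 1) % X.len i ≠ j := by
    intro k hk hkj he
    rw [hsucc k hk] at he
    apply hkj
    rw [hjm]
    split_ifs at he ⊢ <;> omega
  have hL2 : ∀ k < X.len i, k ≠ jm → k ≠ j → cl k = cl (k + 1) ∧
      (cl k).g (f (vtx hY i k)) * v (X.ty i (k % X.len i)) (X.ty i ((k + 1) % X.len i)) *
        ((cl k).g (f (vtx hY i (k + 1))))⁻¹ ∈ Subgroup.zpowers (cl k).u := by
    intro k hk hkm hkj
    have hkj' : k % X.len i ≠ j := by rwa [Nat.mod_eq_of_lt hk]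
    have hk1 := hkey k hk hkm
    obtain ⟨hS, hT⟩ := hclS k hkj'
    obtain ⟨hS1, hT1⟩ := hclS (k + 1) hk1
    have h1 := L2 hv.inv hN hF (hclF k) (hclF (k + 1))
      ((hclφ k).trans (hclφ (k + 1)).symm) hS hS1
      (by rw [hT, hT1]; exact ty_adj hY i k) (hGh k)
    refine ⟨h1.1, ?_⟩
    have h2 := h1.2
    have h4 : (cl k).t (f (vtx hY i (k + 1))) = X.ty i ((k + 1) % X.len i) := by
      rw [h1.1]; exact hT1
    rwa [hT, h4] at h2
  have hper : vtx hY i (X.len i) = vtx hY i 0 :=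
    vtx_congr hY i (k := X.len i) (k' := 0) (by simp)
  have hcln : cl (X.len i) = cl 0 := by
    by_cases h0 : 0 % X.len i = j
    · have h0' : X.len i % X.len i = j := by rwa [Nat.mod_self, ← Nat.zero_mod (X.len i)]
      exact cl_unique hF (hclF _) (hclF _) ((hclφ _).trans (hclφ _).symm) (hclj _ h0').1
        (hclj _ h0).1
    · have h0' : X.len i % X.len i ≠ j := by rwa [Nat.mod_self, ← Nat.zero_mod (X.len i)]
      apply cl_unique hF (hclF _) (hclF _) ((hclφ _).trans (hclφ _).symm) (hclS _ h0').1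
      rw [hper]
      exact (hclS 0 h0).1
  have hall := cyc_eq (X.len i) cl hcln jm hjml (by
    intro k hk hkm
    by_cases hkj : k = j
    · subst hkj
      exact cl_unique hF (hclF _) (hclF _) ((hclφ _).trans (hclφ _).symm)
        (hclj _ (Nat.mod_eq_of_lt hk)).1 (hclS _ hj1).1
    · exact (hL2 k hk hkm hkj).1)
  -- the data of the cluster
  have hSk : ∀ k ≤ X.len i, k % X.len i ≠ j → f (vtx hY i k) ∈ (cl 0).S ∧
      (cl 0).t (f (vtx hY i k)) = X.ty i (k % X.len i) := by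
    intro k hk hkj
    rw [← hall k hk]
    exact hclS k hkj
  obtain ⟨hSm, hTm⟩ := hSk jm hjml.le hjmne
  obtain ⟨hS1, hT1⟩ := hSk (j + 1) hj hj1
  set gg : ℕ → GG := fun k => if k % X.len i = j then
    (cl 0).g (f (vtx hY i (j + 1))) * v (X.ty i ((j + 1) % X.len i)) (X.ty i (j % X.len i))
    else (cl 0).g (f (vtx hY i k)) with hgg
  have hTadj : X.TA.Adj (X.ty i (j % X.len i)) (X.ty i ((j + 1) % X.len i)) := ty_adj hY i j
  have hrel := cyc_rel (Subgroup.zpowers (cl 0).u) (X.len i)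
    (fun k => v (X.ty i (k % X.len i)) (X.ty i ((k + 1) % X.len i)))
    gg (hol' hv i) (by
      simp only [hgg]
      rw [hper, Nat.mod_self, Nat.zero_mod]) jm hjml
    (by
      intro k hk hkm
      by_cases hkj : k = j
      · subst hkj
        simp only [hgg]
        rw [if_pos (Nat.mod_eq_of_lt hk), if_neg hj1, hv.inv _ _ hTadj]
        have e : (cl 0).g (f (vtx hY i (k + 1))) *
            (v (X.ty i (k % X.len i)) (X.ty i ((k + 1) % X.len i)))⁻¹ *
            v (X.ty i (k % X.len i)) (X.ty i ((k + 1) % X.len i)) *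
            ((cl 0).g (f (vtx hY i (k + 1))))⁻¹ = 1 := by group
        rw [e]
        exact one_mem _
      · have h1 := (hL2 k hk hkm hkj).2
        rw [hall k hk.le] at h1
        simp only [hgg]
        rw [if_neg (by rwa [Nat.mod_eq_of_lt hk]), if_neg (hkey k hk hkm)]
        exact h1)
  simp only [hgg] at hrel
  rw [if_neg hjmne, if_pos hjm1, hv.inv _ _ hTadj, hjm1] at hrel
  -- contradiction with (F3)
  have hvj : vtx hY i (jm + 1) = vtx hY i j :=
    vtx_congr hY i (by rw [hjm1, Nat.mod_eq_of_lt hj])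
  have hjj : j % X.len i = j := Nat.mod_eq_of_lt hj
  have hG1 : G.Adj (f (vtx hY i j)) (f (vtx hY i jm)) := by
    apply L3 hN hF hφ hty hno (hclF 0) hSm
    have := hGh jm
    rw [hvj] at this
    exact this.symm
  have hG2 : G.Adj (f (vtx hY i j)) (f (vtx hY i (j + 1))) :=
    L3 hN hF hφ hty hno (hclF 0) hS1 (hGh j)
  have hty' : Typed X G (cl 0).φ (f (vtx hY i j)) (X.ty i (j % X.len i)) := by
    rw [hclφ 0]; exact hty
  have hf3 := hF.f3 (cl 0) (hclF 0) (f (vtx hY i j)) (X.ty i (j % X.len i)) hty'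
    (by rw [hclφ 0]; exact hno) (f (vtx hY i jm)) hSm (f (vtx hY i (j + 1))) hS1
    (by
      intro he
      have h1 := vtx_inj hY i (hf he)
      rw [Nat.mod_eq_of_lt hjml, hsucc j hj, hjm] at h1
      split_ifs at h1 <;> omega)
    hG1 hG2
    (by
      rw [hTm]
      have := ty_adj hY i jm
      rw [hjm1] at this
      rw [hjj]
      exact this.symm)
    (by rw [hT1]; exact hTadj)
  apply hf3
  rw [hTm, hT1, hjj]
  rw [hjj] at hrel
  have e : (cl 0).g (f (vtx hY i jm)) * v (X.ty i (jm % X.len i)) (X.ty i j) *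
      v (X.ty i j) (X.ty i ((j + 1) % X.len i)) * ((cl 0).g (f (vtx hY i (j + 1))))⁻¹ =
      (cl 0).g (f (vtx hY i jm)) * v (X.ty i (jm % X.len i)) (X.ty i j) *
      ((cl 0).g (f (vtx hY i (j + 1))) *
        (v (X.ty i j) (X.ty i ((j + 1) % X.len i)))⁻¹)⁻¹ := by
    group
  rw [e]
  exact hrel

/-- the edges at `y` -/
theorem y_case (hC : CoreOK X) (hN : NucFacts X G)
    (hF : GoodFam X G v B FF) (f : HV X → W) (hf : Function.Injective f)
    (hφ : IsNuc X G (fun a => f (.inl a))) (d : V) (hd : d ∈ X.D)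
    (h : ∀ a b, (HG X).Adj a b → s(a, b) ≠ s(.inr (.inl ()), .inl d) →
      (Gh X G v FF).Adj (f a) (f b)) :
    (Gh X G v FF).Adj (f (.inr (.inl ()))) (f (.inl d)) := by
  have hZ : f (.inr (.inl ())) ∉ Z (fun a => f (.inl a)) := by
    intro hm
    obtain ⟨a, ha⟩ := mem_Z.1 hm
    have := hf ha
    simp at this
  have hne : f (.inr (.inl ())) ≠ f (.inl d) := by
    intro he
    have := hf he
    simp at this
  have h2 : 2 ≤ #{d' ∈ X.D | G.Adj (f (.inr (.inl ()))) (f (.inl d'))} := by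
    by_contra hlt
    have hall : ∀ d' ∈ X.D.erase d, G.Adj (f (.inr (.inl ()))) (f (.inl d')) := by
      intro d' hd'
      rw [mem_erase] at hd'
      have h1 : (Gh X G v FF).Adj (f (.inr (.inl ()))) (f (.inl d')) := by
        apply h _ _ (show (HG X).Adj (.inr (.inl ())) (.inl d') from hd'.2)
        intro he
        rw [Sym2.eq_iff] at he
        rcases he with ⟨_, he⟩ | ⟨he, _⟩
        · exact hd'.1 (Sum.inl.inj he)
        · simp at he
      rcases Ld hC hN hF hφ hZ hd'.2 h1 with h4 | h4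
      · exact h4
      · exact absurd h4 hlt
    apply hlt
    have h5 : #(X.D.erase d) = 2 := by
      rw [card_erase_of_mem hd, hC.Dcard]
    rw [← h5]
    apply card_le_card
    intro d' hd'
    rw [mem_filter]
    exact ⟨(mem_erase.1 hd').2, hall d' hd'⟩
  exact ⟨hne, Or.inr (Or.inl (Der.d4 (fun a => f (.inl a)) _ d hφ hd hZ h2))⟩

end B4aux

open B4aux in
theorem B4 : S_B4 := by
  intro T I V W GG _ _ _ X G v B FF hC hY hv hN hF hcf hB3 f hf a b hab h
  have hDne : X.D.Nonempty := by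
    rw [← card_pos, hC.Dcard]; norm_num
  obtain ⟨d0, _⟩ := hDne
  -- the core is mapped to a nucleus when the missing edge is not in the core
  have hinl : Function.Injective (fun a : V => f (.inl a)) := fun p q hpq => Sum.inl.inj (hf hpq)
  have hnuc : (∀ p q : V, X.C.Adj p q → s((.inl p : HV X), .inl q) ≠ s(a, b)) →
      IsNuc X G (fun a => f (.inl a)) := by
    intro hpq
    apply hB3 _ hinl s(d0, d0)
    intro p q hadj _
    exact h (.inl p) (.inl q) hadj (hpq p q hadj)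
  rcases a with a | a | ⟨i, p⟩
  · rcases b with b | b | ⟨i, q⟩
    · -- core edge
      have hnuc' : IsNuc X G (fun a => f (.inl a)) := by
        apply hB3 _ hinl s(a, b)
        intro p q hadj hne
        apply h (.inl p) (.inl q) hadj
        intro he
        apply hne
        rw [Sym2.eq_iff] at he ⊢
        rcases he with ⟨h1, h2⟩ | ⟨h1, h2⟩
        · exact Or.inl ⟨Sum.inl.inj h1, Sum.inl.inj h2⟩
        · exact Or.inr ⟨Sum.inl.inj h1, Sum.inl.inj h2⟩
      refine ⟨fun he => hab.ne (hf he), Or.inr (Or.inl ?_)⟩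
      exact Der.d1 (fun a => f (.inl a)) a b hnuc' hab
    · -- y edge
      apply SimpleGraph.Adj.symm
      apply y_case hC hN hF f hf (hnuc ?_) a hab
      · intro p q hpq hne
        apply h p q hpq
        rwa [Sym2.eq_swap (a := (.inl a : HV X))]
      · intro p q _ he
        rw [Sym2.eq_iff] at he
        rcases he with ⟨_, he⟩ | ⟨he, _⟩ <;> simp at he
    · -- label edge
      apply SimpleGraph.Adj.symm
      have hn := hnuc (by
        intro p q _ he
        rw [Sym2.eq_iff] at he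
        rcases he with ⟨_, he⟩ | ⟨he, _⟩ <;> simp at he)
      have hq : (q : ℕ) % X.len i = q := Nat.mod_eq_of_lt q.2
      have hl : a ∈ X.L (X.ty i ((q : ℕ) % X.len i)) := by rw [hq]; exact hab
      have h1 := label_case hC hY hv hN hF f hf hn i q q.2 a hl
      rw [vtx_fin hY i q] at h1
      apply h1
      intro p q' hpq hne
      apply h p q' hpq
      rwa [Sym2.eq_swap (a := (.inl a : HV X))]
  · rcases b with b | b | ⟨i, q⟩
    · apply y_case hC hN hF f hf (hnuc ?_) b hab h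
      intro p q _ he
      rw [Sym2.eq_iff] at he
      rcases he with ⟨he, _⟩ | ⟨_, he⟩ <;> simp at he
    · exact absurd hab (fun h => h)
    · exact absurd hab (fun h => h)
  · rcases b with b | b | ⟨i', q⟩
    · have hn := hnuc (by
        intro p q _ he
        rw [Sym2.eq_iff] at he
        rcases he with ⟨he, _⟩ | ⟨_, he⟩ <;> simp at he)
      have hp : (p : ℕ) % X.len i = p := Nat.mod_eq_of_lt p.2
      have hl : b ∈ X.L (X.ty i ((p : ℕ) % X.len i)) := by rw [hp]; exact hab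
      have h1 := label_case hC hY hv hN hF f hf hn i p p.2 b hl
      rw [vtx_fin hY i p] at h1
      exact h1 h
    · exact absurd hab (fun h => h)
    · have hn := hnuc (by
        intro p q _ he
        rw [Sym2.eq_iff] at he
        rcases he with ⟨he, _⟩ | ⟨_, he⟩ <;> simp at he)
      obtain ⟨hne, hii, hpq⟩ := hab
      simp only at hii
      subst hii
      rcases hpq with hpq | hpq
      · have h1 := typed_case hC hY hv hN hF f hf hn i p p.2
        have e1 := vtx_fin hY i p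
        have e2 : vtx hY i (p + 1) = .inr (.inr ⟨i, q⟩) := by
          rw [← vtx_fin hY i q]
          apply vtx_congr
          rw [Nat.mod_eq_of_lt q.2]
          exact hpq.symm
        rw [e1, e2] at h1
        exact h1 h
      · have h1 := typed_case hC hY hv hN hF f hf hn i q q.2
        have e1 := vtx_fin hY i q
        have e2 : vtx hY i (q + 1) = .inr (.inr ⟨i, p⟩) := by
          rw [← vtx_fin hY i p]
          apply vtx_congr
          rw [Nat.mod_eq_of_lt p.2]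
          exact hpq.symm
        rw [e1, e2] at h1
        apply SimpleGraph.Adj.symm
        apply h1
        intro c d hcd hne'
        apply h c d hcd
        rwa [Sym2.eq_swap (a := (.inr (.inr ⟨i, p⟩) : HV X))]

end Pool.Agent.H533HB
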