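import Pool.Agent.H533HB.Stmts

/-!
# Task B5: assembly of part (B)
-/

set_option autoImplicit false

namespace Pool.Agent.H533HB

open Finset
open scoped Classical

namespace PartB

theorem Sp_mono {W : Type} {B B' K K' : ℕ} (hB : B ≤ B') (hK : K' ≤ K) {G : SimpleGraph W}
    (h : Sp B K G) : Sp B' K' G := by
  intro F hF hFK
  obtain ⟨h1, h2⟩ := h F hF (hFK.trans hK)
  exact ⟨h1, fun h3 => (h2 h3).trans hB⟩

end PartB

open PartB in
theorem partB (hB1 : S_B1) (hB2 : S_B2) (hB2c : S_B2c) (hB3 : S_B3) (hB4 : S_B4)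
    (hperc : S_perc_iff) : S_partB := by
  intro T I V _ _ _ _ X hX hC GG _ v hv B
  set N := Fintype.card V with hN
  refine ⟨10 * (N + 1) * (N + (B + 1) + 1) + (3 * N + 1) + (N + 2 * (B + 1) + 1), ?_⟩
  intro n G hn hSp hPerc
  set K := 10 * (N + 1) * (N + (B + 1) + 1) + (3 * N + 1) + (N + 2 * (B + 1) + 1) with hK
  have hSp' : Sp (B + 1) K G := Sp_mono (Nat.le_succ B) le_rfl hSp
  have hnf : NucFacts X G := hB1 X G (B + 1) K hX (by omega) hSp'
  obtain ⟨FF, hFF⟩ := hB2 X G v (B + 1) K hX hv.inv hnf (by omega) (by omega) hSp'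
  have hcf : ∀ c ∈ FF, ClFacts X G c := fun c hc =>
    hB2c X G v (B + 1) K hX hnf (by omega) hSp' c (hFF.ok c hc)
  have hcore : ∀ ψ : V → Fin n, Function.Injective ψ → ∀ f0 : Sym2 V,
      (∀ a b, X.C.Adj a b → s(a, b) ≠ f0 → (Gh X G v FF).Adj (ψ a) (ψ b)) → IsNuc X G ψ :=
    hB3 X G v (B + 1) K FF hX hv hnf hFF hcf
      (show 10 * (N + 1) * (N + (B + 1) + 1) ≤ K by
        rw [hK]; exact (Nat.le_add_right _ _).trans (Nat.le_add_right _ _)) hSp'
  have hcl : HClosed (HG X) (Gh X G v FF) := hB4 X G v (B + 1) FF hX hC hv hnf hFF hcf hcore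
  have htop : Gh X G v FF = ⊤ := (hperc (HG X) G).1 hPerc _
    (fun a b hab => ⟨hab.ne, Or.inl hab⟩) hcl
  obtain ⟨d1, d2, d3, hd12, hd13, hd23, hD⟩ := Finset.card_eq_three.1 hX.Dcard
  have hall : ∀ ψ : V → Fin n, Function.Injective ψ → IsNuc X G ψ := by
    intro ψ hψ
    apply hcore ψ hψ s(d1, d1)
    intro a b hab _
    rw [htop]
    exact fun h => hab.ne (hψ h)
  obtain ⟨ψ⟩ : Nonempty (V ↪ Fin n) := by
    apply Function.Embedding.nonempty_of_card_le
    rw [Fintype.card_fin]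
    exact hn
  have h1 := hall ψ ψ.injective
  have h2 := hall (ψ ∘ Equiv.swap d1 d2) (ψ.injective.comp (Equiv.swap d1 d2).injective)
  have h3 := hnf.n1 _ _ h1 h2 (ψ d1) (by simp [Z])
    (by simp only [Z, mem_image, mem_univ, true_and]; exact ⟨d2, by simp⟩)
  have h4 := congrFun h3 d1
  simp only [Function.comp, Equiv.swap_apply_left] at h4
  exact hd12 (ψ.injective h4)

end Pool.Agent.H533HB
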