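import Pool.Agent.H533HB.Base

/-!
# Part (B): nuclei, typed vertices, clusters, the hat graph
-/

set_option autoImplicit false

namespace Pool.Agent.H533HB

open Finset
open scoped Classical

section

variable {T I V W GG : Type} [Fintype V] [Group GG]

/-- a nucleus: an injection of the core which maps all edges but at most one to edges -/
def IsNuc (X : Data T I V) (G : SimpleGraph W) (φ : V → W) : Prop :=
  Function.Injective φ ∧ ∃ f0 : Sym2 V, ∀ a b, X.C.Adj a b → s(a, b) ≠ f0 →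
    G.Adj (φ a) (φ b)

/-- the range -/
noncomputable def Z (φ : V → W) : Finset W := univ.image φ

/-- number of the label edges of type `s` from `x` to the nucleus -/
noncomputable def lab (X : Data T I V) (G : SimpleGraph W) (φ : V → W) (x : W) (s : T) : ℕ :=
  #{l ∈ X.L s | G.Adj x (φ l)}

/-- `x` is typed for `φ` of type `s` -/
def Typed (X : Data T I V) (G : SimpleGraph W) (φ : V → W) (x : W) (s : T) : Prop :=
  x ∉ Z φ ∧ 14 ≤ lab X G φ x s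

/-- raw data of a cluster -/
structure Cl (T V W GG : Type) where
  φ : V → W
  S : Finset W
  t : W → T
  g : W → GG
  u : GG

/-- `0` if `u = 1`, else `1` -/
noncomputable def rk (u : GG) : ℤ := if u = 1 then 0 else 1

/-- ordered number of typed edges -/
noncomputable def et (X : Data T I V) (G : SimpleGraph W) (c : Cl T V W GG) : ℤ :=
  ∑ x ∈ c.S, ∑ y ∈ c.S, if G.Adj x y ∧ X.TA.Adj (c.t x) (c.t y) then 1 else 0

/-- number of semi vertices -/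
noncomputable def semi (X : Data T I V) (G : SimpleGraph W) (c : Cl T V W GG) : ℕ :=
  #{x ∈ c.S | lab X G c.φ x (c.t x) ≤ 14}

/-- a cluster -/
structure ClOK (X : Data T I V) (G : SimpleGraph W) (v : T → T → GG) (B : ℕ)
    (c : Cl T V W GG) : Prop where
  nuc : IsNuc X G c.φ
  ne : c.S.Nonempty
  typed : ∀ x ∈ c.S, Typed X G c.φ x (c.t x)
  rel : ∀ x ∈ c.S, ∀ y ∈ c.S, G.Adj x y → X.TA.Adj (c.t x) (c.t y) →
    c.g x * v (c.t x) (c.t y) * (c.g y)⁻¹ ∈ Subgroup.zpowers c.u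
  bal : 2 * (#c.S : ℤ) + 2 * semi X G c + 2 * rk c.u ≤ et X G c + 2
  small : #c.S ≤ B

/-- facts about nuclei and typed vertices -/
structure NucFacts (X : Data T I V) (G : SimpleGraph W) : Prop where
  w : ∀ φ, IsNuc X G φ → ee G (Z φ) (Z φ) + 2 = 32 * Fintype.card V
  ind : ∀ φ, IsNuc X G φ → ∀ a b, G.Adj (φ a) (φ b) → X.C.Adj a b
  n1 : ∀ φ φ', IsNuc X G φ → IsNuc X G φ' → ∀ x, x ∈ Z φ → x ∈ Z φ' → φ = φ'
  n2 : ∀ φ φ', IsNuc X G φ → IsNuc X G φ' → φ ≠ φ' → ee G (Z φ) (Z φ') ≤ 1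
  t1 : ∀ φ φ' x s, IsNuc X G φ → IsNuc X G φ' → Typed X G φ x s → x ∉ Z φ'
  t2 : ∀ φ φ' x s s', IsNuc X G φ → IsNuc X G φ' → Typed X G φ x s → Typed X G φ' x s' →
    φ = φ' ∧ s = s'

/-- a family of clusters with the properties that follow from optimality -/
structure GoodFam (X : Data T I V) (G : SimpleGraph W) (v : T → T → GG) (B : ℕ)
    (FF : Finset (Cl T V W GG)) : Prop where
  ok : ∀ c ∈ FF, ClOK X G v B c
  disj : ∀ c ∈ FF, ∀ c' ∈ FF, c ≠ c' → c.φ = c'.φ → Disjoint c.S c'.S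
  f1 : ∀ φ, IsNuc X G φ → ∀ x s, x ∉ Z φ → 15 ≤ lab X G φ x s →
    ∃ c ∈ FF, c.φ = φ ∧ x ∈ c.S
  f2 : ∀ c ∈ FF, ∀ c' ∈ FF, c ≠ c' → c.φ = c'.φ → ∀ p ∈ c.S, ∀ q ∈ c'.S, G.Adj p q →
    ¬ X.TA.Adj (c.t p) (c'.t q)
  f3 : ∀ c ∈ FF, ∀ x s, Typed X G c.φ x s → (∀ c' ∈ FF, c'.φ = c.φ → x ∉ c'.S) →
    ∀ y1 ∈ c.S, ∀ y2 ∈ c.S, y1 ≠ y2 → G.Adj x y1 → G.Adj x y2 →
    X.TA.Adj s (c.t y1) → X.TA.Adj s (c.t y2) →
    c.g y1 * v (c.t y1) s * v s (c.t y2) * (c.g y2)⁻¹ ∉ Subgroup.zpowers c.u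

/-- consequences of the balance condition for one cluster -/
structure ClFacts (X : Data T I V) (G : SimpleGraph W) (c : Cl T V W GG) : Prop where
  r0 : ee G c.S c.S + 2 * ee G c.S (Z c.φ) ≤ 32 * #c.S
  r1 : 32 * #c.S ≤ ee G c.S c.S + 2 * ee G c.S (Z c.φ) + 2
  nt : ∃ f1 : Sym2 W, ∀ x ∈ c.S, ∀ y ∈ c.S, G.Adj x y → s(x, y) ≠ f1 →
    X.TA.Adj (c.t x) (c.t y)
  nl : ∀ x ∈ c.S, #{a : V | G.Adj x (c.φ a) ∧ a ∉ X.L (c.t x)} ≤ 1

/-- derived edges (d1)-(d4), directed -/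
inductive Der (X : Data T I V) (G : SimpleGraph W) (v : T → T → GG)
    (FF : Finset (Cl T V W GG)) : W → W → Prop
  | d1 (φ : V → W) (a b : V) (hφ : IsNuc X G φ) (hab : X.C.Adj a b) : Der X G v FF (φ a) (φ b)
  | d2 (c : Cl T V W GG) (x : W) (l : V) (hc : c ∈ FF) (hx : x ∈ c.S) (hl : l ∈ X.L (c.t x)) :
      Der X G v FF x (c.φ l)
  | d3 (c : Cl T V W GG) (x y : W) (hc : c ∈ FF) (hx : x ∈ c.S) (hy : y ∈ c.S)
      (ht : X.TA.Adj (c.t x) (c.t y))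
      (h : c.g x * v (c.t x) (c.t y) * (c.g y)⁻¹ ∈ Subgroup.zpowers c.u) : Der X G v FF x y
  | d4 (φ : V → W) (x : W) (d : V) (hφ : IsNuc X G φ) (hd : d ∈ X.D) (hx : x ∉ Z φ)
      (h : 2 ≤ #{d' ∈ X.D | G.Adj x (φ d')}) : Der X G v FF x (φ d)

/-- the hat graph -/
def Gh (X : Data T I V) (G : SimpleGraph W) (v : T → T → GG) (FF : Finset (Cl T V W GG)) :
    SimpleGraph W where
  Adj x y := x ≠ y ∧ (G.Adj x y ∨ Der X G v FF x y ∨ Der X G v FF y x)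
  symm := ⟨by
    rintro x y ⟨h0, h | h | h⟩
    · exact ⟨h0.symm, Or.inl h.symm⟩
    · exact ⟨h0.symm, Or.inr (Or.inr h)⟩
    · exact ⟨h0.symm, Or.inr (Or.inl h)⟩⟩
  loopless := ⟨fun x h => h.1 rfl⟩

end

end Pool.Agent.H533HB
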