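import Pool.Agent.H533HB.Conc

/-!
# Basic facts: hull, counting edges
-/

set_option autoImplicit false

namespace Pool.Agent.H533HB

open Finset
open scoped Classical

section Hull

variable {V W : Type} {H : SimpleGraph V} {G G' : SimpleGraph W}

theorem le_hull : G ≤ hull H G := le_sInf fun _ h => h.1

theorem hull_le (h1 : G ≤ G') (h2 : HClosed H G') : hull H G ≤ G' := sInf_le ⟨h1, h2⟩

theorem hull_adj {x y : W} : (hull H G).Adj x y ↔
    ∀ G' : SimpleGraph W, G ≤ G' → HClosed H G' → G'.Adj x y := by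
  constructor
  · intro h G' h1 h2
    exact hull_le h1 h2 h
  · intro h
    have hne : ({G' | G ≤ G' ∧ HClosed H G'} : Set (SimpleGraph W)).Nonempty := by
      refine ⟨⊤, le_top, ?_⟩
      intro f hf a b hab _
      exact fun h => hab.ne (hf h)
    rw [hull, SimpleGraph.sInf_adj_of_nonempty hne]
    exact fun G' hG' => h G' hG'.1 hG'.2

theorem hull_closed : HClosed H (hull H G) := by
  intro f hf a b hab h
  rw [hull_adj]
  intro G' h1 h2
  exact h2 f hf a b hab fun c d hcd hne => hull_adj.1 (h c d hcd hne) G' h1 h2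

theorem hull_mono (h : G ≤ G') : hull H G ≤ hull H G' :=
  hull_le (h.trans le_hull) hull_closed

end Hull

section Count

variable {W : Type} (G : SimpleGraph W)

theorem ee_nonneg (A B : Finset W) : 0 ≤ ee G A B := by
  unfold ee
  exact sum_nonneg fun a _ => sum_nonneg fun b _ => by split_ifs <;> norm_num

theorem ee_comm (A B : Finset W) : ee G A B = ee G B A := by
  unfold ee
  rw [sum_comm]
  refine sum_congr rfl fun a _ => sum_congr rfl fun b _ => ?_
  simp only [SimpleGraph.adj_comm]

theorem ee_union_left {A A' : Finset W} (h : Disjoint A A') (B : Finset W) :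
    ee G (A ∪ A') B = ee G A B + ee G A' B := by
  unfold ee; rw [sum_union h]

theorem ee_union_right (A : Finset W) {B B' : Finset W} (h : Disjoint B B') :
    ee G A (B ∪ B') = ee G A B + ee G A B' := by
  rw [ee_comm, ee_union_left G h, ee_comm G B, ee_comm G B']

theorem ee_union {A B : Finset W} (h : Disjoint A B) :
    ee G (A ∪ B) (A ∪ B) = ee G A A + 2 * ee G A B + ee G B B := by
  rw [ee_union_left G h, ee_union_right G A h, ee_union_right G B h, ee_comm G B A]; ring

theorem ee_mono {A A' B B' : Finset W} (h : A ⊆ A') (h' : B ⊆ B') : ee G A B ≤ ee G A' B' := by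
  unfold ee
  refine (sum_le_sum fun a _ => sum_le_sum_of_subset_of_nonneg h' ?_).trans
    (sum_le_sum_of_subset_of_nonneg h ?_)
  · intro b _ _; split_ifs <;> norm_num
  · intro a _ _; exact sum_nonneg fun b _ => by split_ifs <;> norm_num

theorem ee_mono_graph {G' : SimpleGraph W} (h : G ≤ G') (A B : Finset W) :
    ee G A B ≤ ee G' A B := by
  unfold ee
  refine sum_le_sum fun a _ => sum_le_sum fun b _ => ?_
  by_cases hab : G.Adj a b
  · rw [if_pos hab, if_pos (h hab)]
  · rw [if_neg hab]; split_ifs <;> norm_num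

theorem ee_eq_card (A B : Finset W) :
    ee G A B = #{x ∈ A ×ˢ B | G.Adj x.1 x.2} := by
  unfold ee
  rw [card_filter, Nat.cast_sum, sum_product]
  simp

theorem ee_singleton_left (a : W) (B : Finset W) : ee G {a} B = #{b ∈ B | G.Adj a b} := by
  unfold ee
  rw [sum_singleton, card_filter]
  push_cast
  rfl

theorem ee_eq_sum_card (A B : Finset W) :
    ee G A B = ∑ a ∈ A, (#{b ∈ B | G.Adj a b} : ℤ) := by
  unfold ee
  refine sum_congr rfl fun a _ => ?_
  rw [card_filter]
  push_cast
  rfl

theorem ee_biUnion_left {ι : Type} (s : Finset ι) (A : ι → Finset W)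
    (h : (s : Set ι).PairwiseDisjoint A) (B : Finset W) :
    ee G (s.biUnion A) B = ∑ i ∈ s, ee G (A i) B := by
  unfold ee
  exact sum_biUnion h

/-- `w(A) + w(B) = w(A ∪ B) + w(A ∩ B) + e(A \ B, B \ A)` in ordered counts -/
theorem ee_union_inter (A B : Finset W) :
    ee G (A ∪ B) (A ∪ B) + ee G (A ∩ B) (A ∩ B) =
      ee G A A + ee G B B + 2 * ee G (A \ B) (B \ A) := by
  have hA : A = (A ∩ B) ∪ (A \ B) := by ext x; simp; tauto
  have hB : B = (A ∩ B) ∪ (B \ A) := by ext x; simp; tauto
  have hU : A ∪ B = ((A ∩ B) ∪ (A \ B)) ∪ (B \ A) := by ext x; simp; tauto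
  have d1 : Disjoint (A ∩ B) (A \ B) := by
    rw [Finset.disjoint_left]; intro x; simp; tauto
  have d2 : Disjoint (A ∩ B) (B \ A) := by
    rw [Finset.disjoint_left]; intro x; simp; tauto
  have d3 : Disjoint ((A ∩ B) ∪ (A \ B)) (B \ A) := by
    rw [Finset.disjoint_left]; intro x; simp; tauto
  have eA : ee G A A = ee G (A ∩ B) (A ∩ B) + 2 * ee G (A ∩ B) (A \ B) +
      ee G (A \ B) (A \ B) := by
    conv_lhs => rw [hA]
    exact ee_union G d1
  have eB : ee G B B = ee G (A ∩ B) (A ∩ B) + 2 * ee G (A ∩ B) (B \ A) +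
      ee G (B \ A) (B \ A) := by
    conv_lhs => rw [hB]
    exact ee_union G d2
  have eU : ee G (A ∪ B) (A ∪ B) = ee G (A ∩ B) (A ∩ B) + 2 * ee G (A ∩ B) (A \ B) +
      ee G (A \ B) (A \ B) + 2 * (ee G (A ∩ B) (B \ A) + ee G (A \ B) (B \ A)) +
      ee G (B \ A) (B \ A) := by
    rw [hU, ee_union G d3, ee_union G d1, ee_union_left G d1]
  rw [eA, eB, eU]; ring

theorem ee_map {V : Type} (φ : V → W) (hφ : Function.Injective φ) (A B : Finset V) :
    ee G (A.image φ) (B.image φ) = ∑ a ∈ A, ∑ b ∈ B, if G.Adj (φ a) (φ b) then 1 else 0 := by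
  unfold ee
  rw [sum_image fun a _ b _ h => hφ h]
  refine sum_congr rfl fun a _ => ?_
  rw [sum_image fun a _ b _ h => hφ h]

end Count

end Pool.Agent.H533HB
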