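import Pool.Agent.H533HB.Stmts

/-!
# CORE2: rigidity of the core
-/

set_option autoImplicit false

namespace Pool.Agent.H533HB

open Finset
open scoped Classical

namespace CoreTwo

/-- vertices -/
abbrev Vm (m : ℕ) : Type := ZMod (3 * m)

/-- `m` is large -/
class Big (m : ℕ) : Prop where
  ge : 160 ≤ m

theorem mm_ge (m : ℕ) [Big m] : 160 ≤ m := Big.ge

instance neZ (m : ℕ) [Big m] : NeZero (3 * m) := ⟨by have := mm_ge m; omega⟩

instance bigMM (M : ℕ) : Big (mm M) := ⟨by unfold mm; omega⟩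

/-- the core graph, with the parameter `m` -/
def cG (m : ℕ) : SimpleGraph (Vm m) where
  Adj x y := x ≠ y ∧ ((∃ j : ℕ, 1 ≤ j ∧ j ≤ 15 ∧ (y = x + j ∨ x = y + j)) ∨
    tri m x.val = tri m y.val)
  symm := ⟨by
    rintro x y ⟨h0, h | h⟩
    · obtain ⟨j, h1, h2, h3⟩ := h
      exact ⟨h0.symm, Or.inl ⟨j, h1, h2, h3.symm⟩⟩
    · exact ⟨h0.symm, Or.inr h.symm⟩⟩
  loopless := ⟨fun x h => h.1 rfl⟩

/-- casts of integers which are close to each other -/
theorem cast_eq {m : ℕ} [Big m] {d e : ℤ} (h : |d - e| < 3 * (m : ℤ)) (hde : (d : Vm m) = (e : Vm m)) :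
    d = e := by
  have h1 := (ZMod.intCast_eq_intCast_iff_dvd_sub d e (3 * m)).1 hde
  have h2 : e - d = 0 := by
    apply Int.eq_zero_of_abs_lt_dvd h1
    rw [abs_sub_comm]
    push_cast
    exact h
  omega

theorem nat_gap {m v w : ℕ} (_hm : 160 ≤ m) (hv : v < 3 * m) (hw : w < 3 * m)
    (h : tri m v = tri m w) (hne : v ≠ w) :
    ((m : ℤ) - 2 ≤ (w : ℤ) - v ∧ (w : ℤ) - v ≤ m + 2) ∨
    (-(m : ℤ) - 2 ≤ (w : ℤ) - v ∧ (w : ℤ) - v ≤ -m + 2) ∨
    (2 * (m : ℤ) - 2 ≤ (w : ℤ) - v ∧ (w : ℤ) - v ≤ 2 * m + 2) ∨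
    (-(2 * (m : ℤ)) - 2 ≤ (w : ℤ) - v ∧ (w : ℤ) - v ≤ -(2 * m) + 2) := by
  unfold tri at h
  split_ifs at h <;> omega

theorem X_gap {m : ℕ} [Big m] {x z : Vm m} (h : tri (m) x.val = tri (m) z.val) (hne : x ≠ z) :
    ∃ d : ℤ, (m : ℤ) - 2 ≤ |d| ∧ |d| ≤ m + 2 ∧ z = x + (d : Vm m) := by
  have hm := mm_ge m
  have hx := ZMod.val_lt x
  have hz := ZMod.val_lt z
  have hne' : x.val ≠ z.val := fun h => hne (ZMod.val_injective _ h)
  have e1 : z = x + (((z.val : ℤ) - x.val : ℤ) : Vm m) := by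
    push_cast
    rw [ZMod.natCast_zmod_val, ZMod.natCast_zmod_val]
    ring
  have e2 : ((3 * (m : ℤ) : ℤ) : Vm m) = 0 := by
    have := ZMod.natCast_self (3 * m)
    push_cast at this ⊢
    exact this
  rcases nat_gap hm hx hz h hne' with h1 | h1 | h1 | h1
  · refine ⟨_, ?_, ?_, e1⟩
    · rw [abs_of_nonneg (by omega)]; omega
    · rw [abs_of_nonneg (by omega)]; omega
  · refine ⟨_, ?_, ?_, e1⟩
    · rw [abs_of_nonpos (by omega)]; omega
    · rw [abs_of_nonpos (by omega)]; omega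
  · refine ⟨((z.val : ℤ) - x.val) - 3 * m, ?_, ?_, ?_⟩
    · rw [abs_of_nonpos (by omega)]; omega
    · rw [abs_of_nonpos (by omega)]; omega
    · rw [Int.cast_sub, e2, sub_zero]; exact e1
  · refine ⟨((z.val : ℤ) - x.val) + 3 * m, ?_, ?_, ?_⟩
    · rw [abs_of_nonneg (by omega)]; omega
    · rw [abs_of_nonneg (by omega)]; omega
    · rw [Int.cast_add, e2, add_zero]; exact e1

/-- the short edges -/
def Wd {m : ℕ} [Big m] (x y : Vm m) : Prop := ∃ d : ℤ, d ≠ 0 ∧ |d| ≤ 15 ∧ y = x + (d : Vm m)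

/-- the long edges -/
def Xd {m : ℕ} [Big m] (x y : Vm m) : Prop := x ≠ y ∧ tri (m) x.val = tri (m) y.val

theorem Wd.symm {m : ℕ} [Big m] {x y : Vm m} (h : Wd x y) : Wd y x := by
  obtain ⟨d, h1, h2, rfl⟩ := h
  refine ⟨-d, by omega, by rwa [abs_neg], ?_⟩
  push_cast
  ring

theorem Xd.symm {m : ℕ} [Big m] {x y : Vm m} (h : Xd x y) : Xd y x := ⟨h.1.symm, h.2.symm⟩

theorem Wd.ne {m : ℕ} [Big m] {x y : Vm m} (h : Wd x y) : x ≠ y := by
  obtain ⟨d, h1, h2, rfl⟩ := h
  intro h
  apply h1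
  have hm := mm_ge m
  have h3 : (d : Vm m) = ((0 : ℤ) : Vm m) := by
    push_cast
    exact (left_eq_add.1 h)
  refine cast_eq ?_ h3
  rw [sub_zero]
  omega

theorem adj_iff {m : ℕ} [Big m] {x y : Vm m} : (cG m).Adj x y ↔ Wd x y ∨ Xd x y := by
  constructor
  · rintro ⟨h0, ⟨j, h1, h2, rfl | rfl⟩ | h⟩
    · exact Or.inl ⟨j, by omega, by rw [abs_of_nonneg (by omega)]; omega, by push_cast; rfl⟩
    · exact Or.inl ⟨-j, by omega, by rw [abs_neg, abs_of_nonneg (by omega)]; omega,
        by push_cast; ring⟩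
    · exact Or.inr ⟨h0, h⟩
  · rintro (h | h)
    · refine ⟨h.ne, Or.inl ?_⟩
      obtain ⟨d, h1, h2, rfl⟩ := h
      rcases lt_or_gt_of_ne h1 with h3 | h3
      · rw [abs_of_neg h3] at h2
        refine ⟨(-d).toNat, by omega, by omega, Or.inr ?_⟩
        have h4 : (((-d).toNat : ℕ) : Vm m) = ((-d : ℤ) : Vm m) := by
          rw [← Int.cast_natCast, Int.toNat_of_nonneg (by omega)]
        rw [h4]
        push_cast
        ring
      · rw [abs_of_pos h3] at h2
        refine ⟨d.toNat, by omega, by omega, Or.inl ?_⟩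
        have h4 : ((d.toNat : ℕ) : Vm m) = (d : Vm m) := by
          rw [← Int.cast_natCast, Int.toNat_of_nonneg (by omega)]
        rw [h4]
    · exact ⟨h.1, Or.inr h.2⟩

/-- short and long differences do not interfere -/
theorem far {m : ℕ} [Big m] {d e : ℤ} (hd : |d| ≤ 30) (he : (m : ℤ) - 2 ≤ |e|) (he' : |e| ≤ m + 2)
    (h : (d : Vm m) = (e : Vm m)) : False := by
  have hm := mm_ge m
  have h1 : d = e := by
    refine cast_eq ?_ h
    have := abs_sub d e
    omega
  rw [h1] at hd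
  omega

theorem not_both {m : ℕ} [Big m] {x y : Vm m} (h : Wd x y) (h' : Xd x y) : False := by
  obtain ⟨d, -, h2, rfl⟩ := h
  obtain ⟨e, h3, h4, h5⟩ := X_gap h'.2 h'.1
  exact far (by omega) h3 h4 (add_left_cancel h5)

theorem Xd.trans' {m : ℕ} [Big m] {x y z : Vm m} (h : Xd x y) (h' : Xd y z) (hne : x ≠ z) : Xd x z :=
  ⟨hne, h.2.trans h'.2⟩

/-! ### regularity -/

/-- the third element of a triple -/
def ta (i : ℕ) : ℕ := if i = 0 then 1 else if i = 1 then 2 else if i = 2 then 0 else i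

theorem tri_iff {m v i : ℕ} (hm : 160 ≤ m) (hv : v < 3 * m) (hi : i < m) :
    tri m v = i ↔ v = i ∨ v = m + i ∨ v = 2 * m + ta i := by
  unfold tri ta
  split_ifs <;> omega

theorem tri_lt {m v : ℕ} (hm : 160 ≤ m) (hv : v < 3 * m) : tri m v < m := by
  unfold tri
  split_ifs <;> omega

theorem val_eq_iff {m : ℕ} [Big m] {z : Vm m} {a : ℕ} (ha : a < 3 * m) : z.val = a ↔ z = (a : Vm m) := by
  constructor
  · rintro rfl
    rw [ZMod.natCast_zmod_val]
  · rintro rfl
    exact ZMod.val_cast_of_lt ha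

theorem card_class {m i : ℕ} [Big m] (hi : i < m) :
    #{z : Vm m | tri (m) z.val = i} = 3 := by
  have hm := mm_ge m
  have hta : ta i < m := by unfold ta; split_ifs <;> omega
  have h1 : ({z : Vm m | tri (m) z.val = i} : Finset (Vm m)) =
      {((i : ℕ) : Vm m), ((m + i : ℕ) : Vm m), ((2 * m + ta i : ℕ) : Vm m)} := by
    ext z
    rw [mem_filter, tri_iff hm (ZMod.val_lt z) hi]
    simp only [mem_univ, true_and, mem_insert, mem_singleton]
    rw [val_eq_iff (by omega), val_eq_iff (by omega), val_eq_iff (by omega)]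
  rw [h1, card_eq_three]
  refine ⟨_, _, _, ?_, ?_, ?_, rfl⟩
  · intro h
    have := congrArg ZMod.val h
    rw [ZMod.val_cast_of_lt (by omega), ZMod.val_cast_of_lt (by omega)] at this
    omega
  · intro h
    have := congrArg ZMod.val h
    rw [ZMod.val_cast_of_lt (by omega), ZMod.val_cast_of_lt (by omega)] at this
    omega
  · intro h
    have := congrArg ZMod.val h
    rw [ZMod.val_cast_of_lt (by omega), ZMod.val_cast_of_lt (by omega)] at this
    omega

theorem card_X {m : ℕ} [Big m] (x : Vm m) : #{z : Vm m | Xd x z} = 2 := by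
  have hm := mm_ge m
  have h1 : ({z : Vm m | Xd x z} : Finset (Vm m)) =
      ({z : Vm m | tri (m) z.val = tri (m) x.val} : Finset (Vm m)).erase x := by
    ext z
    rw [mem_filter, mem_erase, mem_filter]
    simp only [mem_univ, true_and, Xd]
    constructor
    · rintro ⟨h1, h2⟩
      exact ⟨h1.symm, h2.symm⟩
    · rintro ⟨h1, h2⟩
      exact ⟨Ne.symm h1, h2.symm⟩
  rw [h1, card_erase_of_mem (by simp), card_class (tri_lt hm (ZMod.val_lt x))]

/-- the map `d ↦ x + d` on small integers is injective -/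
theorem inj_small {m : ℕ} [Big m] (x : Vm m) (S : Finset ℤ) (hS : ∀ d ∈ S, |d| ≤ 40) :
    Set.InjOn (fun d : ℤ => x + (d : Vm m)) (S : Set ℤ) := by
  intro d hd e he h
  have hm := mm_ge m
  refine cast_eq ?_ (add_left_cancel h)
  have := abs_sub d e
  have h1 := hS d hd
  have h2 := hS e he
  omega

theorem card_W {m : ℕ} [Big m] (x : Vm m) : #{z : Vm m | Wd x z} = 30 := by
  have h1 : ({z : Vm m | Wd x z} : Finset (Vm m)) =
      ((Finset.Icc (-15 : ℤ) 15).erase 0).image (fun d : ℤ => x + (d : Vm m)) := by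
    ext z
    rw [mem_filter, mem_image]
    simp only [mem_univ, true_and, Wd, mem_erase, Finset.mem_Icc]
    constructor
    · rintro ⟨d, h1, h2, rfl⟩
      rw [abs_le] at h2
      exact ⟨d, ⟨h1, h2⟩, rfl⟩
    · rintro ⟨d, ⟨h1, h2⟩, rfl⟩
      exact ⟨d, h1, abs_le.2 h2, rfl⟩
  rw [h1, card_image_of_injOn (inj_small x _ ?_)]
  · simp
  · intro d hd
    rw [mem_erase, Finset.mem_Icc] at hd
    rw [abs_le]
    omega

theorem degree_eq {m : ℕ} [Big m] (x : Vm m) : #{z : Vm m | (cG m).Adj x z} = 32 := by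
  have h1 : ({z : Vm m | (cG m).Adj x z} : Finset (Vm m)) =
      ({z : Vm m | Wd x z} : Finset (Vm m)) ∪ ({z : Vm m | Xd x z} : Finset (Vm m)) := by
    ext z
    simp [adj_iff]
  rw [h1, card_union_of_disjoint, card_W, card_X]
  rw [Finset.disjoint_left]
  intro z hz hz'
  rw [mem_filter] at hz hz'
  exact not_both hz.2 hz'.2

/-! ### common neighbours -/

/-- the number of common neighbours -/
noncomputable def cn {m : ℕ} [Big m] (x y : Vm m) : ℕ := #{z : Vm m | (cG m).Adj x z ∧ (cG m).Adj y z}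

theorem cn_comm {m : ℕ} [Big m] (x y : Vm m) : cn x y = cn y x := by
  unfold cn
  congr 1
  ext z
  simp [and_comm]

theorem cn_succ {m : ℕ} [Big m] (x : Vm m) : 28 ≤ cn x (x + 1) := by
  have h1 : (((Finset.Icc (-14 : ℤ) 15).erase 0).erase 1).image
      (fun d : ℤ => x + (d : Vm m)) ⊆
      ({z : Vm m | (cG m).Adj x z ∧ (cG m).Adj (x + 1) z} : Finset (Vm m)) := by
    intro z hz
    rw [mem_image] at hz
    obtain ⟨d, hd, rfl⟩ := hz
    rw [mem_erase, mem_erase, Finset.mem_Icc] at hd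
    rw [mem_filter]
    refine ⟨mem_univ _, adj_iff.2 (Or.inl ⟨d, hd.2.1, abs_le.2 (by omega), rfl⟩),
      adj_iff.2 (Or.inl ⟨d - 1, by omega, abs_le.2 (by omega), ?_⟩)⟩
    push_cast
    ring
  have h2 := card_le_card h1
  rw [card_image_of_injOn (inj_small x _ ?_)] at h2
  · have h3 : #(((Finset.Icc (-14 : ℤ) 15).erase 0).erase 1) = 28 := by decide
    rw [h3] at h2
    exact h2
  · intro d hd
    rw [mem_erase, mem_erase, Finset.mem_Icc] at hd
    rw [abs_le]
    omega

theorem cn_W {m : ℕ} [Big m] (x : Vm m) (j : ℤ) (hj : 2 ≤ j) (hj' : j ≤ 15) :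
    cn x (x + (j : Vm m)) ≤ 27 := by
  have h1 : ({z : Vm m | (cG m).Adj x z ∧ (cG m).Adj (x + (j : Vm m)) z} : Finset (Vm m)) ⊆
      (((Finset.Icc (j - 15 : ℤ) 15).erase 0).erase j).image (fun d : ℤ => x + (d : Vm m)) := by
    intro z hz
    rw [mem_filter] at hz
    obtain ⟨-, hz1, hz2⟩ := hz
    rw [mem_image]
    rcases adj_iff.1 hz1 with hW | hX
    · obtain ⟨d, h1, h2, rfl⟩ := hW
      rw [abs_le] at h2
      rcases adj_iff.1 hz2 with hW' | hX'
      · obtain ⟨e, h3, h4, h5⟩ := hW'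
        rw [abs_le] at h4
        rw [add_assoc] at h5
        have h6 := add_left_cancel h5
        have h7 : d = j + e := by
          have hm := mm_ge m
          refine cast_eq ?_ (by push_cast; exact h6)
          rw [abs_lt]
          omega
        refine ⟨d, ?_, rfl⟩
        rw [mem_erase, mem_erase, Finset.mem_Icc]
        omega
      · exfalso
        obtain ⟨e, h3, h4, h5⟩ := X_gap hX'.2 hX'.1
        rw [add_assoc] at h5
        have h6 := add_left_cancel h5
        refine far (d := d - j) (abs_le.2 (by omega)) h3 h4 ?_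
        push_cast
        rw [h6]
        ring
    · exfalso
      rcases adj_iff.1 hz2 with hW' | hX'
      · obtain ⟨d, h1, h2, rfl⟩ := hW'
        rw [abs_le] at h2
        obtain ⟨e, h3, h4, h5⟩ := X_gap hX.2 hX.1
        rw [add_assoc] at h5
        refine far (d := j + d) (abs_le.2 (by omega)) h3 h4 ?_
        push_cast
        exact add_left_cancel h5
      · have h1 : Wd x (x + (j : Vm m)) := ⟨j, by omega, abs_le.2 (by omega), rfl⟩
        exact not_both h1 (hX.trans' hX'.symm h1.ne)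
  have h2 := card_le_card h1
  refine h2.trans (card_image_le.trans ?_)
  rw [card_erase_of_mem, card_erase_of_mem, Int.card_Icc]
  · omega
  · rw [Finset.mem_Icc]; omega
  · rw [mem_erase, Finset.mem_Icc]; omega

theorem cn_X {m : ℕ} [Big m] {x y : Vm m} (h : Xd x y) : cn x y ≤ 27 := by
  have h1 : ({z : Vm m | (cG m).Adj x z ∧ (cG m).Adj y z} : Finset (Vm m)) ⊆
      ({z : Vm m | Xd x z} : Finset (Vm m)) := by
    intro z hz
    rw [mem_filter] at hz ⊢
    obtain ⟨-, hz1, hz2⟩ := hz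
    refine ⟨mem_univ _, ?_⟩
    rcases adj_iff.1 hz1 with hW | hX
    · exfalso
      rcases adj_iff.1 hz2 with hW' | hX'
      · obtain ⟨d, h1, h2, rfl⟩ := hW
        obtain ⟨e, h3, h4, h5⟩ := hW'
        obtain ⟨g, h6, h7, rfl⟩ := X_gap h.2 h.1
        rw [abs_le] at h2 h4
        refine far (d := d - e) (abs_le.2 (by omega)) h6 h7 ?_
        rw [add_assoc] at h5
        have h8 := add_left_cancel h5
        push_cast
        rw [h8]
        ring
      · exact not_both hW (h.trans' hX' hW.ne)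
    · exact hX
  have h2 := card_le_card h1
  rw [card_X] at h2
  exact h2.trans (by norm_num)

/-- the edges of the long cycle are characterised by the number of common neighbours -/
theorem unit_of_cn {m : ℕ} [Big m] {x y : Vm m} (h : (cG m).Adj x y) (hc : 28 ≤ cn x y) :
    y = x + 1 ∨ y = x - 1 := by
  rcases adj_iff.1 h with hW | hX
  · obtain ⟨d, h1, h2, rfl⟩ := hW
    rw [abs_le] at h2
    rcases lt_or_gt_of_ne h1 with h3 | h3
    · rcases eq_or_ne d (-1) with rfl | h4
      · right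
        push_cast
        ring
      · exfalso
        have h5 := cn_W (x + (d : Vm m)) (-d) (by omega) (by omega)
        have h6 : x + (d : Vm m) + ((-d : ℤ) : Vm m) = x := by
          push_cast
          ring
        rw [h6, cn_comm] at h5
        omega
    · rcases eq_or_ne d 1 with rfl | h4
      · left
        push_cast
        rfl
      · exfalso
        have h5 := cn_W x d (by omega) (by omega)
        omega
  · have := cn_X hX
    omega

/-! ### the long edges of the exceptional triple -/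

theorem adj_R {m : ℕ} [Big m] (x : Vm m) :
    (cG m).Adj x (x + ((m + 2 : ℕ) : Vm m)) ↔ x = ((2 * m : ℕ) : Vm m) := by
  have hm := mm_ge m
  have hx := ZMod.val_lt x
  have hW : ¬ Wd x (x + ((m + 2 : ℕ) : Vm m)) := by
    rintro ⟨d, h1, h2, h3⟩
    refine far (m := m) (d := d) (e := (m : ℤ) + 2) (by omega) ?_ ?_ ?_
    · rw [abs_of_nonneg (by omega)]; omega
    · rw [abs_of_nonneg (by omega)]
    · have := add_left_cancel h3
      push_cast at this ⊢
      exact this.symm
  rw [adj_iff]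
  simp only [hW, false_or]
  have hval : (x + ((m + 2 : ℕ) : Vm m)).val = (x.val + (m + 2)) % (3 * m) := by
    rw [ZMod.val_add, ZMod.val_natCast]
    simp [Nat.add_mod]
  constructor
  · rintro ⟨h1, h2⟩
    rw [← val_eq_iff (by omega)]
    rw [hval] at h2
    rcases Nat.lt_or_ge (x.val + (m + 2)) (3 * m) with h3 | h3
    · rw [Nat.mod_eq_of_lt h3] at h2
      unfold tri at h2
      split_ifs at h2 <;> omega
    · rw [Nat.mod_eq_sub_mod h3, Nat.mod_eq_of_lt (by omega)] at h2
      unfold tri at h2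
      split_ifs at h2 <;> omega
  · intro h
    have h0 : x.val = 2 * m := (val_eq_iff (by omega)).2 h
    have h3 : (x.val + (m + 2)) % (3 * m) = 2 := by
      rw [h0, show 2 * m + (m + 2) = 2 + 3 * m by ring, Nat.add_mod_right,
        Nat.mod_eq_of_lt (by omega)]
    refine ⟨?_, ?_⟩
    · intro h4
      have h5 := congrArg ZMod.val h4
      rw [hval, h3] at h5
      omega
    · rw [hval, h3, h0]
      unfold tri
      split_ifs <;> omega

theorem adj_U {m : ℕ} [Big m] (x : Vm m) :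
    (cG m).Adj x (x + ((m - 2 : ℕ) : Vm m)) ↔ x = ((m + 2 : ℕ) : Vm m) := by
  have hm := mm_ge m
  have hx := ZMod.val_lt x
  have hW : ¬ Wd x (x + ((m - 2 : ℕ) : Vm m)) := by
    rintro ⟨d, h1, h2, h3⟩
    refine far (m := m) (d := d) (e := (m : ℤ) - 2) (by omega) ?_ ?_ ?_
    · rw [abs_of_nonneg (by omega)]
    · rw [abs_of_nonneg (by omega)]; omega
    · have := add_left_cancel h3
      rw [← this, Nat.cast_sub (by omega)]
      push_cast
      rfl
  rw [adj_iff]
  simp only [hW, false_or]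
  have hval : (x + ((m - 2 : ℕ) : Vm m)).val = (x.val + (m - 2)) % (3 * m) := by
    rw [ZMod.val_add, ZMod.val_natCast]
    simp [Nat.add_mod]
  constructor
  · rintro ⟨h1, h2⟩
    rw [← val_eq_iff (by omega)]
    rw [hval] at h2
    rcases Nat.lt_or_ge (x.val + (m - 2)) (3 * m) with h3 | h3
    · rw [Nat.mod_eq_of_lt h3] at h2
      unfold tri at h2
      split_ifs at h2 <;> omega
    · rw [Nat.mod_eq_sub_mod h3, Nat.mod_eq_of_lt (by omega)] at h2
      unfold tri at h2
      split_ifs at h2 <;> omega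
  · intro h
    have h0 : x.val = m + 2 := (val_eq_iff (by omega)).2 h
    have h3 : (x.val + (m - 2)) % (3 * m) = 2 * m := by
      rw [h0, show m + 2 + (m - 2) = 2 * m by omega, Nat.mod_eq_of_lt (by omega)]
    refine ⟨?_, ?_⟩
    · intro h4
      have h5 := congrArg ZMod.val h4
      rw [hval, h3] at h5
      omega
    · rw [hval, h3, h0]
      unfold tri
      split_ifs <;> omega

/-! ### automorphisms -/

theorem rigid_aut {m : ℕ} [Big m] (ψ : Vm m → Vm m) (hinj : Function.Injective ψ)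
    (hadj : ∀ a b, (cG m).Adj a b ↔ (cG m).Adj (ψ a) (ψ b)) : ψ = id := by
  have hm := mm_ge m
  have hbij : Function.Bijective ψ := ⟨hinj, Finite.surjective_of_injective hinj⟩
  have hcn : ∀ x y, cn (ψ x) (ψ y) = cn x y := by
    intro x y
    unfold cn
    symm
    refine card_bij (fun z _ => ψ z) ?_ ?_ ?_
    · intro z hz
      rw [mem_filter] at hz ⊢
      exact ⟨mem_univ _, (hadj _ _).1 hz.2.1, (hadj _ _).1 hz.2.2⟩
    · intro z _ z' _ h
      exact hinj h
    · intro w hw
      obtain ⟨z, rfl⟩ := hbij.2 w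
      rw [mem_filter] at hw
      exact ⟨z, mem_filter.2 ⟨mem_univ _, (hadj _ _).2 hw.2.1, (hadj _ _).2 hw.2.2⟩, rfl⟩
  have hadj1 : ∀ x : Vm m, (cG m).Adj x (x + 1) := fun x =>
    adj_iff.2 (Or.inl ⟨1, by norm_num, by norm_num, by push_cast; rfl⟩)
  have hstep : ∀ x, ψ (x + 1) = ψ x + 1 ∨ ψ (x + 1) = ψ x - 1 := by
    intro x
    refine unit_of_cn ((hadj _ _).1 (hadj1 x)) ?_
    rw [hcn]
    exact cn_succ x
  have h20 : (2 : Vm m) ≠ 0 := by
    intro h
    have h1 : ((2 : ℤ) : Vm m) = ((0 : ℤ) : Vm m) := by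
      push_cast
      exact h
    have := cast_eq (by norm_num; omega) h1
    omega
  have hne2 : ∀ x : Vm m, ψ (x + 1 + 1) ≠ ψ x := by
    intro x h
    have h1 := hinj h
    apply h20
    linear_combination h1
  have hcases : (∀ n : ℕ, ψ (n : Vm m) = ψ 0 + n ∧ ψ ((n : Vm m) + 1) = ψ 0 + n + 1) ∨
      (∀ n : ℕ, ψ (n : Vm m) = ψ 0 - n ∧ ψ ((n : Vm m) + 1) = ψ 0 - n - 1) := by
    rcases hstep 0 with h0 | h0
    · left
      intro n
      induction n with
      | zero =>
        refine ⟨by simp, ?_⟩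
        push_cast
        rw [h0]
        ring
      | succ n ih =>
        refine ⟨by push_cast; rw [ih.2]; ring, ?_⟩
        push_cast
        rcases hstep ((n : Vm m) + 1) with h1 | h1
        · rw [h1, ih.2]; ring
        · exfalso
          apply hne2 (n : Vm m)
          rw [h1, ih.2, ih.1]
          ring
    · right
      intro n
      induction n with
      | zero =>
        refine ⟨by simp, ?_⟩
        push_cast
        rw [h0]
        ring
      | succ n ih =>
        refine ⟨by push_cast; rw [ih.2]; ring, ?_⟩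
        push_cast
        rcases hstep ((n : Vm m) + 1) with h1 | h1
        · exfalso
          apply hne2 (n : Vm m)
          rw [h1, ih.2, ih.1]
          ring
        · rw [h1, ih.2]; ring
  have e2 : 3 * (m : Vm m) = 0 := by
    have := ZMod.natCast_self (3 * m)
    push_cast at this
    exact this
  have hR := fun x => adj_R (m := m) x
  have hU := fun x => adj_U (m := m) x
  rcases hcases with h | h
  · have h1 : ∀ x : Vm m, ψ x = ψ 0 + x := by
      intro x
      have := (h x.val).1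
      rwa [ZMod.natCast_zmod_val] at this
    have h2 : (cG m).Adj ((2 * m : ℕ) : Vm m)
        (((2 * m : ℕ) : Vm m) + ((m + 2 : ℕ) : Vm m)) := (hR _).2 rfl
    have h3 := (hadj _ _).1 h2
    rw [h1, h1 (_ + _), ← add_assoc] at h3
    have h4 := (hR _).1 h3
    have h5 : ψ 0 = 0 := by
      linear_combination h4
    funext x
    rw [h1, h5, zero_add, id]
  · exfalso
    have h1 : ∀ x : Vm m, ψ x = ψ 0 - x := by
      intro x
      have := (h x.val).1
      rwa [ZMod.natCast_zmod_val] at this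
    have h2 : (cG m).Adj ((2 * m : ℕ) : Vm m)
        (((2 * m : ℕ) : Vm m) + ((m + 2 : ℕ) : Vm m)) := (hR _).2 rfl
    have h3 := ((hadj _ _).1 h2).symm
    have h3' : (cG m).Adj (ψ (((2 * m : ℕ) : Vm m) + ((m + 2 : ℕ) : Vm m)))
        (ψ (((2 * m : ℕ) : Vm m) + ((m + 2 : ℕ) : Vm m)) + ((m + 2 : ℕ) : Vm m)) := by
      have h9 : ψ (((2 * m : ℕ) : Vm m) + ((m + 2 : ℕ) : Vm m)) + ((m + 2 : ℕ) : Vm m) =
          ψ ((2 * m : ℕ) : Vm m) := by
        rw [h1 (_ + _), h1 ((2 * m : ℕ) : Vm m)]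
        ring
      rw [h9]
      exact h3
    have h4 := (hR _).1 h3'
    have k2 : (cG m).Adj ((m + 2 : ℕ) : Vm m)
        (((m + 2 : ℕ) : Vm m) + ((m - 2 : ℕ) : Vm m)) := (hU _).2 rfl
    have k3 := ((hadj _ _).1 k2).symm
    have k3' : (cG m).Adj (ψ (((m + 2 : ℕ) : Vm m) + ((m - 2 : ℕ) : Vm m)))
        (ψ (((m + 2 : ℕ) : Vm m) + ((m - 2 : ℕ) : Vm m)) + ((m - 2 : ℕ) : Vm m)) := by
      have h9 : ψ (((m + 2 : ℕ) : Vm m) + ((m - 2 : ℕ) : Vm m)) + ((m - 2 : ℕ) : Vm m) =
          ψ ((m + 2 : ℕ) : Vm m) := by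
        rw [h1 (_ + _), h1 ((m + 2 : ℕ) : Vm m)]
        ring
      rw [h9]
      exact k3
    have k4 := (hU _).1 k3'
    rw [h1] at h4 k4
    rw [Nat.cast_sub (by omega)] at k4
    push_cast at h4 k4
    have h5 : ((m : ℤ) : Vm m) = ((0 : ℤ) : Vm m) := by
      push_cast
      linear_combination e2 - (k4 - h4)
    have h6 := cast_eq (by rw [sub_zero, abs_of_nonneg (by omega)]; omega) h5
    omega

/-- a bijection which maps all edges but one to edges maps all edges to edges -/
theorem rigid_one {m : ℕ} [Big m] (ψ : Vm m → Vm m) (hinj : Function.Injective ψ)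
    (f0 : Sym2 (Vm m)) (h : ∀ a b, (cG m).Adj a b → s(a, b) ≠ f0 → (cG m).Adj (ψ a) (ψ b)) :
    ∀ a b, (cG m).Adj a b → (cG m).Adj (ψ a) (ψ b) := by
  have hbij : Function.Bijective ψ := ⟨hinj, Finite.surjective_of_injective hinj⟩
  intro a b hab
  by_cases hf : s(a, b) = f0
  swap
  · exact h a b hab hf
  by_contra hnot
  -- neighbourhoods of the other vertices
  have hN : ∀ v, v ≠ a → v ≠ b → ∀ w, (cG m).Adj (ψ v) w → ∃ z, (cG m).Adj v z ∧ ψ z = w := by
    intro v hva hvb w hw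
    have h1 : ({z : Vm m | (cG m).Adj v z} : Finset (Vm m)).image ψ ⊆
        ({z : Vm m | (cG m).Adj (ψ v) z} : Finset (Vm m)) := by
      intro z hz
      rw [mem_image] at hz
      obtain ⟨z, hz, rfl⟩ := hz
      rw [mem_filter] at hz ⊢
      refine ⟨mem_univ _, h v z hz.2 ?_⟩
      rw [← hf]
      intro h2
      rw [Sym2.eq_iff] at h2
      rcases h2 with h2 | h2
      · exact hva h2.1
      · exact hvb h2.1
    have h2 := eq_of_subset_of_card_le h1 (by
      rw [card_image_of_injective _ hinj, degree_eq, degree_eq])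
    have h3 : w ∈ ({z : Vm m | (cG m).Adj (ψ v) z} : Finset (Vm m)) :=
      mem_filter.2 ⟨mem_univ _, hw⟩
    rw [← h2, mem_image] at h3
    obtain ⟨z, hz, rfl⟩ := h3
    exact ⟨z, (mem_filter.1 hz).2, rfl⟩
  -- a neighbour of `ψ a` outside the image of the neighbourhood of `a`
  have h1 : (({z : Vm m | (cG m).Adj a z} : Finset (Vm m)).erase b).image ψ ⊆
      ({z : Vm m | (cG m).Adj (ψ a) z} : Finset (Vm m)) := by
    intro z hz
    rw [mem_image] at hz
    obtain ⟨z, hz, rfl⟩ := hz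
    rw [mem_erase, mem_filter] at hz
    rw [mem_filter]
    refine ⟨mem_univ _, h a z hz.2.2 ?_⟩
    rw [← hf]
    intro h2
    rw [Sym2.eq_iff] at h2
    rcases h2 with h2 | h2
    · exact hz.1 h2.2
    · exact hab.ne h2.1
  have h2 : #((({z : Vm m | (cG m).Adj a z} : Finset (Vm m)).erase b).image ψ) <
      #({z : Vm m | (cG m).Adj (ψ a) z} : Finset (Vm m)) := by
    rw [card_image_of_injective _ hinj, card_erase_of_mem (mem_filter.2 ⟨mem_univ _, hab⟩),
      degree_eq, degree_eq]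
    norm_num
  obtain ⟨w, hw, hw'⟩ := exists_mem_notMem_of_card_lt_card h2
  obtain ⟨v, rfl⟩ := hbij.2 w
  rw [mem_filter] at hw
  have hva : v ≠ a := by
    rintro rfl
    exact (cG m).loopless.irrefl _ hw.2
  have hvb : v ≠ b := by
    rintro rfl
    exact hnot hw.2
  obtain ⟨z, hz, hz'⟩ := hN v hva hvb (ψ a) hw.2.symm
  rw [hinj hz'] at hz
  apply hw'
  rw [mem_image]
  exact ⟨v, mem_erase.2 ⟨hvb, mem_filter.2 ⟨mem_univ _, hz.symm⟩⟩, rfl⟩

theorem rigid_main {m : ℕ} [Big m] (ψ : Vm m → Vm m) (hinj : Function.Injective ψ)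
    (f0 : Sym2 (Vm m)) (h : ∀ a b, (cG m).Adj a b → s(a, b) ≠ f0 → (cG m).Adj (ψ a) (ψ b)) :
    ψ = id := by
  have hbij : Function.Bijective ψ := ⟨hinj, Finite.surjective_of_injective hinj⟩
  have h1 := rigid_one ψ hinj f0 h
  refine rigid_aut ψ hinj fun a b => ⟨h1 a b, fun hab => ?_⟩
  have h2 : ({z : Vm m | (cG m).Adj a z} : Finset (Vm m)).image ψ ⊆
      ({z : Vm m | (cG m).Adj (ψ a) z} : Finset (Vm m)) := by
    intro z hz
    rw [mem_image] at hz
    obtain ⟨z, hz, rfl⟩ := hz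
    rw [mem_filter] at hz ⊢
    exact ⟨mem_univ _, h1 _ _ hz.2⟩
  have h3 := eq_of_subset_of_card_le h2 (by
    rw [card_image_of_injective _ hinj, degree_eq, degree_eq])
  have h4 : ψ b ∈ ({z : Vm m | (cG m).Adj (ψ a) z} : Finset (Vm m)) :=
    mem_filter.2 ⟨mem_univ _, hab⟩
  rw [← h3, mem_image] at h4
  obtain ⟨z, hz, hz'⟩ := h4
  rw [hinj hz'] at hz
  exact (mem_filter.1 hz).2

end CoreTwo

theorem core_rigid : S_core_rigid := by
  intro M ψ hinj f0 h
  exact CoreTwo.rigid_main (m := mm M) ψ hinj f0 h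

end Pool.Agent.H533HB
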