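import Pool.Agent.H533HB.Defs

/-!
# The concrete data: core, types, relator cycles, voltages
-/

set_option autoImplicit false

namespace Pool.Agent.H533HB

open Finset
open scoped Classical

/-! ## The core -/

/-- a third of the number of vertices of the core -/
abbrev mm (M : ℕ) : ℕ := 240 * M + 160

/-- vertices of the core -/
abbrev VC (M : ℕ) : Type := ZMod (3 * mm M)

instance neZeroVC (M : ℕ) : NeZero (3 * mm M) := ⟨by unfold mm; omega⟩

/-- the number of the triple containing `v`: the triples are `{i, m+i, 2m+τ i}` with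
`τ = (0 1 2)` -/
def tri (m v : ℕ) : ℕ :=
  if v < m then v else if v < 2 * m then v - m else
    if v = 2 * m then 2 else if v = 2 * m + 1 then 0 else if v = 2 * m + 2 then 1 else v - 2 * m

/-- the core graph -/
def coreC (M : ℕ) : SimpleGraph (VC M) where
  Adj x y := x ≠ y ∧ ((∃ j : ℕ, 1 ≤ j ∧ j ≤ 15 ∧ (y = x + j ∨ x = y + j)) ∨
    tri (mm M) x.val = tri (mm M) y.val)
  symm := ⟨by
    rintro x y ⟨h0, h | h⟩
    · obtain ⟨j, h1, h2, h3⟩ := h
      exact ⟨h0.symm, Or.inl ⟨j, h1, h2, h3.symm⟩⟩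
    · exact ⟨h0.symm, Or.inr h.symm⟩⟩
  loopless := ⟨fun x h => h.1 rfl⟩

/-- the label sets -/
def coreL (M : ℕ) (t : ℕ) : Finset (VC M) :=
  (Finset.range 15).image (fun i : ℕ => ((16 * (15 * t + i) : ℕ) : VC M))

/-- the three vertices joined to `y` -/
def coreD (M : ℕ) : Finset (VC M) :=
  {((mm M : ℕ) : VC M), ((mm M + 1 : ℕ) : VC M), ((mm M + 2 : ℕ) : VC M)}

/-! ## The types -/

/-- the types -/
inductive Ty (s0 : ℕ) : Type
  | hub
  | b (a : Fin 51)
  | p (e : Fin 51 × Fin 51) (s : Fin s0)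
  | q (e : Fin 51 × Fin 51) (s : Fin s0)
deriving DecidableEq, Fintype

/-- adjacency of types -/
def tadj {s0 : ℕ} : Ty s0 → Ty s0 → Prop
  | .hub, .b _ => True
  | .b _, .hub => True
  | .b a, .b a' => a ≠ a'
  | .hub, .p _ _ => True
  | .p _ _, .hub => True
  | .hub, .q _ _ => True
  | .q _ _, .hub => True
  | .p e s, .q e' s' => e = e' ∧ s = s'
  | .q e s, .p e' s' => e = e' ∧ s = s'
  | _, _ => False

/-- the graph of types -/
def TAg (s0 : ℕ) : SimpleGraph (Ty s0) where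
  Adj := tadj
  symm := ⟨by
    rintro (_ | a | ⟨e, s⟩ | ⟨e, s⟩) (_ | a' | ⟨e', s'⟩ | ⟨e', s'⟩) h <;>
      first
        | exact h
        | exact Ne.symm h
        | exact ⟨h.1.symm, h.2.symm⟩⟩
  loopless := ⟨by
    rintro (_ | a | ⟨e, s⟩ | ⟨e, s⟩) h
    · exact h
    · exact h rfl
    · exact h
    · exact h⟩

/-- the loop of a letter -/
def loop {s0 : ℕ} (e : Fin 51 × Fin 51) : Fin s0 × Bool → List (Ty s0)
  | (s, true) => [.hub, .p e s, .q e s]
  | (s, false) => [.hub, .q e s, .p e s]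

/-- the loops of a word -/
def loops {s0 : ℕ} (e : Fin 51 × Fin 51) (u : List (Fin s0 × Bool)) : List (Ty s0) :=
  u.flatMap (loop e)

/-- indices of the relator cycles -/
abbrev Idx (s0 : ℕ) (R : Finset (FreeGroup (Fin s0))) : Type :=
  {x : Ty s0 × Ty s0 × Ty s0 // (TAg s0).Adj x.1 x.2.1 ∧ (TAg s0).Adj x.1 x.2.2} ⊕
    ((Fin 51 × Fin 51) × {r : FreeGroup (Fin s0) // r ∈ R ∧ r ≠ 1}) ⊕
    {e : Fin 51 × Fin 51 // e.1 < e.2}

noncomputable instance fintypeIdx (s0 : ℕ) (R : Finset (FreeGroup (Fin s0))) :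
    Fintype (Idx s0 R) := by
  have : Finite {r : FreeGroup (Fin s0) // r ∈ R ∧ r ≠ 1} :=
    Set.Finite.subset (s := (R : Set (FreeGroup (Fin s0)))) R.finite_toSet fun r hr => hr.1
  exact Fintype.ofFinite _

/-- the relator cycles -/
def cyc {s0 : ℕ} {R : Finset (FreeGroup (Fin s0))} (w : List (Fin s0 × Bool)) :
    Idx s0 R → List (Ty s0)
  | .inl x => [x.1.1, x.1.2.1, x.1.1, x.1.2.2]
  | .inr (.inl (e, r)) => loops e r.1.toWord
  | .inr (.inr e) => [.hub, .b e.1.1, .b e.1.2] ++ loops e.1 (FreeGroup.invRev w)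

/-- the number of a type -/
noncomputable def tnum {s0 : ℕ} (t : Ty s0) : ℕ := (Fintype.equivFin (Ty s0) t).val

/-- the concrete data -/
noncomputable def dat (s0 : ℕ) (R : Finset (FreeGroup (Fin s0))) (w : List (Fin s0 × Bool)) :
    Data (Ty s0) (Idx s0 R) (VC (Fintype.card (Ty s0))) where
  TA := TAg s0
  len i := (cyc w i).length
  ty i j := (cyc w i).getD j .hub
  C := coreC _
  L t := coreL _ (tnum t)
  D := coreD _

/-! ## Voltages -/

/-- the group of the voltages -/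
abbrev GG {s0 : ℕ} (R : Finset (FreeGroup (Fin s0))) : Type :=
  Fin 51 × Fin 51 → FreeGroup (Fin s0) ⧸ Subgroup.normalClosure (R : Set (FreeGroup (Fin s0)))

/-- the class of a word -/
def cls {s0 : ℕ} (R : Finset (FreeGroup (Fin s0))) (u : List (Fin s0 × Bool)) :
    FreeGroup (Fin s0) ⧸ Subgroup.normalClosure (R : Set (FreeGroup (Fin s0))) :=
  QuotientGroup.mk (FreeGroup.mk u)

/-- the voltages -/
noncomputable def volt {s0 : ℕ} (R : Finset (FreeGroup (Fin s0))) (w : List (Fin s0 × Bool)) :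
    Ty s0 → Ty s0 → GG R
  | .hub, .p e s => Pi.mulSingle e (cls R [(s, true)])
  | .p e s, .hub => (Pi.mulSingle e (cls R [(s, true)]))⁻¹
  | .b a, .b a' => if a < a' then Pi.mulSingle (a, a') (cls R w) else
      if a' < a then (Pi.mulSingle (a', a) (cls R w))⁻¹ else 1
  | _, _ => 1

end Pool.Agent.H533HB
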