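import Pool.Agent.H533HB.Stmts

/-!
# Task CORE1: the elementary properties of the core
-/

set_option autoImplicit false

namespace Pool.Agent.H533HB

open Finset
open scoped Classical

namespace CoreOne

variable {M : ℕ}

theorem val_add (x : VC M) (j : ℕ) (hj : j ≤ 100) :
    (x + (j : VC M)).val =
      if x.val + j < 3 * mm M then x.val + j else x.val + j - 3 * mm M := by
  have hx := ZMod.val_lt x
  have h1 : j < 3 * mm M := by unfold mm; omega
  rw [ZMod.val_add, ZMod.val_natCast, Nat.mod_eq_of_lt h1]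
  split_ifs with h
  · exact Nat.mod_eq_of_lt h
  · rw [Nat.mod_eq_sub_mod (by omega)]
    exact Nat.mod_eq_of_lt (by omega)

theorem eq_add_iff (x y : VC M) (j : ℕ) (hj : j ≤ 100) :
    y = x + (j : VC M) ↔ (y.val = x.val + j ∨ y.val + 3 * mm M = x.val + j) := by
  have hx := ZMod.val_lt x
  have hy := ZMod.val_lt y
  have h := val_add x j hj
  constructor
  · rintro rfl
    rw [h]
    split_ifs with h1
    · exact Or.inl rfl
    · right; omega
  · intro h1
    apply ZMod.val_injective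
    rw [h]
    split_ifs with h2 <;> omega

theorem adj_iff (x y : VC M) : (coreC M).Adj x y ↔ x.val ≠ y.val ∧
    ((x.val ≤ y.val + 15 ∧ y.val ≤ x.val + 15) ∨ x.val + 3 * mm M ≤ y.val + 15 ∨
      y.val + 3 * mm M ≤ x.val + 15 ∨ tri (mm M) x.val = tri (mm M) y.val) := by
  have hx := ZMod.val_lt x
  have hy := ZMod.val_lt y
  show (x ≠ y ∧ ((∃ j : ℕ, 1 ≤ j ∧ j ≤ 15 ∧ (y = x + j ∨ x = y + j)) ∨
    tri (mm M) x.val = tri (mm M) y.val)) ↔ _
  have hne : x ≠ y ↔ x.val ≠ y.val := (ZMod.val_injective _).ne_iff.symm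
  rw [hne]
  constructor
  · rintro ⟨h0, h | h⟩
    · obtain ⟨j, h1, h2, h3⟩ := h
      rw [eq_add_iff x y j (by omega), eq_add_iff y x j (by omega)] at h3
      refine ⟨h0, ?_⟩
      omega
    · exact ⟨h0, Or.inr (Or.inr (Or.inr h))⟩
  · rintro ⟨h0, h⟩
    refine ⟨h0, ?_⟩
    by_cases ht : tri (mm M) x.val = tri (mm M) y.val
    · exact Or.inr ht
    left
    have h' : (x.val ≤ y.val + 15 ∧ y.val ≤ x.val + 15) ∨ x.val + 3 * mm M ≤ y.val + 15 ∨
      y.val + 3 * mm M ≤ x.val + 15 := by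
      rcases h with h | h | h | h
      · exact Or.inl h
      · exact Or.inr (Or.inl h)
      · exact Or.inr (Or.inr h)
      · exact absurd h ht
    have hM : 3 * mm M ≥ 480 := by unfold mm; omega
    rcases Nat.lt_or_ge x.val y.val with hxy | hxy
    · by_cases h5 : y.val ≤ x.val + 15
      · refine ⟨y.val - x.val, by omega, by omega, Or.inl ?_⟩
        rw [eq_add_iff _ _ _ (by omega)]; omega
      · refine ⟨x.val + 3 * mm M - y.val, by omega, by omega, Or.inr ?_⟩
        rw [eq_add_iff _ _ _ (by omega)]; omega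
    · by_cases h5 : x.val ≤ y.val + 15
      · refine ⟨x.val - y.val, by omega, by omega, Or.inr ?_⟩
        rw [eq_add_iff _ _ _ (by omega)]; omega
      · refine ⟨y.val + 3 * mm M - x.val, by omega, by omega, Or.inl ?_⟩
        rw [eq_add_iff _ _ _ (by omega)]; omega

theorem add_inj (b : VC M) {k l : ℕ} (hk : k ≤ 100) (hl : l ≤ 100)
    (h : b + (k : VC M) = b + (l : VC M)) : k = l := by
  have hM : 3 * mm M ≥ 480 := by unfold mm; omega
  have hb := ZMod.val_lt b
  rw [eq_add_iff _ _ _ hl, val_add b k hk] at h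
  split_ifs at h <;> omega

/-- two elements of an interval of length 15 are adjacent -/
theorem adj_step (b : VC M) {k l : ℕ} (hk : k ≤ 100) (hl : l ≤ 100) (h1 : k < l)
    (h2 : l ≤ k + 15) : (coreC M).Adj (b + (k : VC M)) (b + (l : VC M)) := by
  refine ⟨fun h => ?_, Or.inl ⟨l - k, by omega, by omega, Or.inl ?_⟩⟩
  · have := add_inj b hk hl h
    omega
  · rw [add_assoc]
    congr 1
    rw [← Nat.cast_add]
    congr 1
    omega

theorem adj_step' (b : VC M) {k l : ℕ} (hk : k ≤ 100) (hl : l ≤ 100) (h0 : k ≠ l)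
    (h1 : k ≤ l + 15) (h2 : l ≤ k + 15) : (coreC M).Adj (b + (k : VC M)) (b + (l : VC M)) := by
  rcases Nat.lt_or_ge k l with h | h
  · exact adj_step b hk hl h h2
  · exact (adj_step b hl hk (by omega) h1).symm

/-- the W-neighbours -/
def wn (x : VC M) : Finset (VC M) :=
  ((range 31).erase 15).image (fun k : ℕ => (x - (15 : ℕ)) + (k : VC M))

theorem card_wn (x : VC M) : #(wn x) = 30 := by
  unfold wn
  rw [card_image_of_injOn, card_erase_of_mem (by simp), card_range]
  intro k hk l hl h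
  simp only [coe_erase, coe_range, Set.mem_sdiff, Set.mem_Iio] at hk hl
  exact add_inj _ (by omega) (by omega) h

theorem mem_wn (x y : VC M) : y ∈ wn x ↔ ∃ j : ℕ, 1 ≤ j ∧ j ≤ 15 ∧ (y = x + j ∨ x = y + j) := by
  unfold wn
  simp only [mem_image, mem_erase, mem_range]
  constructor
  · rintro ⟨k, ⟨h1, h2⟩, rfl⟩
    rcases Nat.lt_or_ge k 15 with h | h
    · refine ⟨15 - k, by omega, by omega, Or.inr ?_⟩
      rw [add_assoc, ← Nat.cast_add, Nat.add_sub_cancel' h.le, sub_add_cancel]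
    · refine ⟨k - 15, by omega, by omega, Or.inl ?_⟩
      rw [Nat.cast_sub h]
      ring
  · rintro ⟨j, h1, h2, h | h⟩
    · refine ⟨15 + j, ⟨by omega, by omega⟩, ?_⟩
      rw [h, Nat.cast_add]; ring
    · refine ⟨15 - j, ⟨by omega, by omega⟩, ?_⟩
      rw [h, Nat.cast_sub h2]; ring

/-- the third point of a triple -/
def tau (i : ℕ) : ℕ := if i = 0 then 1 else if i = 1 then 2 else if i = 2 then 0 else i

/-- the triple with number `i` -/
def trp (M : ℕ) (i : ℕ) : Finset (VC M) :=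
  {((i : ℕ) : VC M), ((mm M + i : ℕ) : VC M), ((2 * mm M + tau i : ℕ) : VC M)}

theorem val_cast {a : ℕ} (ha : a < 3 * mm M) : ((a : ℕ) : VC M).val = a := by
  rw [ZMod.val_natCast, Nat.mod_eq_of_lt ha]

theorem eq_cast_iff (y : VC M) {a : ℕ} (ha : a < 3 * mm M) : y = (a : VC M) ↔ y.val = a := by
  constructor
  · rintro rfl; exact val_cast ha
  · intro h
    apply ZMod.val_injective
    rw [h, val_cast ha]

theorem tau_lt {i : ℕ} (hi : i < mm M) : tau i < mm M := by
  unfold tau mm at *; split_ifs <;> omega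

theorem mem_trp (y : VC M) {i : ℕ} (hi : i < mm M) :
    y ∈ trp M i ↔ tri (mm M) y.val = i := by
  have h1 := tau_lt hi
  have hy := ZMod.val_lt y
  unfold trp
  simp only [mem_insert, mem_singleton]
  rw [eq_cast_iff y (by omega), eq_cast_iff y (by omega), eq_cast_iff y (by omega)]
  unfold tri tau mm at *
  split_ifs at * <;> omega

theorem card_trp {i : ℕ} (hi : i < mm M) : #(trp M i) = 3 := by
  have h1 := tau_lt hi
  have hm : mm M ≥ 160 := by unfold mm; omega
  unfold trp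
  rw [card_insert_of_notMem, card_insert_of_notMem, card_singleton]
  · simp only [mem_singleton]
    rw [eq_cast_iff _ (by omega), val_cast (by omega)]
    omega
  · simp only [mem_insert, mem_singleton]
    rw [eq_cast_iff _ (by omega), eq_cast_iff _ (by omega), val_cast (by omega)]
    omega

theorem tri_lt (x : VC M) : tri (mm M) x.val < mm M := by
  have hx := ZMod.val_lt x
  unfold tri mm at *
  split_ifs <;> omega

/-- the neighbours -/
theorem nbr_eq (x : VC M) : (univ.filter fun y => (coreC M).Adj x y) =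
    wn x ∪ (trp M (tri (mm M) x.val)).erase x := by
  ext y
  simp only [mem_filter, mem_univ, true_and, mem_union, mem_erase, mem_trp y (tri_lt x)]
  rw [mem_wn]
  constructor
  · rintro ⟨h0, h | h⟩
    · exact Or.inl h
    · exact Or.inr ⟨h0.symm, h.symm⟩
  · rintro (h | h)
    · refine ⟨?_, Or.inl h⟩
      rintro rfl
      obtain ⟨j, h1, h2, h3⟩ := h
      have hM : 3 * mm M ≥ 480 := by unfold mm; omega
      rw [eq_add_iff x x j (by omega)] at h3
      omega
    · exact ⟨h.1.symm, Or.inr h.2.symm⟩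

theorem disj_nbr (x : VC M) : Disjoint (wn x) ((trp M (tri (mm M) x.val)).erase x) := by
  rw [Finset.disjoint_left]
  intro y h1 h2
  rw [mem_wn] at h1
  rw [mem_erase, mem_trp y (tri_lt x)] at h2
  obtain ⟨j, h3, h4, h5⟩ := h1
  obtain ⟨h6, h7⟩ := h2
  have hx := ZMod.val_lt x
  have hy := ZMod.val_lt y
  rw [eq_add_iff x y j (by omega), eq_add_iff y x j (by omega)] at h5
  unfold tri mm at *
  split_ifs at h7 <;> omega

theorem card_nbr (x : VC M) : #(univ.filter fun y => (coreC M).Adj x y) = 32 := by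
  rw [nbr_eq, card_union_of_disjoint (disj_nbr x), card_wn, card_erase_of_mem, card_trp (tri_lt x)]
  rw [mem_trp x (tri_lt x)]

/-- regularity -/
theorem ee_compl (F : Finset (VC M)) :
    ee (coreC M) F F + ee (coreC M) F Fᶜ = 32 * #F := by
  have key : ee (coreC M) F F + ee (coreC M) F Fᶜ = ee (coreC M) F univ := by
    rw [← ee_union_right _ _ disjoint_compl_right]
    congr 1
    ext y
    simp [em]
  rw [key, ee_eq_sum_card]
  simp only [card_nbr]
  rw [sum_const, nsmul_eq_mul]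
  push_cast
  ring

/-- the boundary -/
theorem bd_ge (F : Finset (VC M)) (h1 : F.Nonempty) (h2 : F ≠ univ) :
    29 ≤ ee (coreC M) F Fᶜ := by
  have hx : ∃ x, x ∈ F ∧ x + ((1 : ℕ) : VC M) ∉ F := by
    by_contra hcon
    push Not at hcon
    apply h2
    obtain ⟨x, hx⟩ := h1
    have h3 : ∀ k : ℕ, x + (k : VC M) ∈ F := by
      intro k
      induction k with
      | zero => simpa using hx
      | succ k ih =>
        have := hcon _ ih
        rw [add_assoc, ← Nat.cast_add] at this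
        exact this
    refine eq_univ_of_forall fun y => ?_
    have h4 := h3 (y - x).val
    rw [ZMod.natCast_zmod_val, add_sub_cancel] at h4
    exact h4
  obtain ⟨x, hx1, hx2⟩ := hx
  set b : VC M := x - (14 : ℕ) with hb
  have e1 : x = b + (14 : ℕ) := by rw [hb, sub_add_cancel]
  have e2 : x + ((1 : ℕ) : VC M) = b + (15 : ℕ) := by
    rw [e1, add_assoc, ← Nat.cast_add]
  rw [e2] at hx2
  rw [e1] at hx1
  rw [ee_eq_card]
  have h3 : #((range 30).erase 14) = 29 := by rw [card_erase_of_mem (by simp), card_range]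
  rw [show (29 : ℤ) = ((29 : ℕ) : ℤ) from rfl, Nat.cast_le, ← h3]
  apply card_le_card_of_injOn (fun k : ℕ => if b + (k : VC M) ∈ F then
    (b + (k : VC M), b + ((15 : ℕ) : VC M)) else (b + ((14 : ℕ) : VC M), b + (k : VC M)))
  · intro k hk
    simp only [coe_erase, coe_range, Set.mem_sdiff, Set.mem_Iio, Set.mem_singleton_iff] at hk
    simp only [coe_filter, mem_product, mem_compl, Set.mem_ofPred_eq]
    by_cases hF : b + (k : VC M) ∈ F
    · rw [if_pos hF]
      refine ⟨⟨hF, hx2⟩, adj_step' b (by omega) (by omega) ?_ (by omega) (by omega)⟩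
      rintro rfl
      exact hx2 hF
    · rw [if_neg hF]
      exact ⟨⟨hx1, hF⟩, adj_step' b (by omega) (by omega) (by omega) (by omega) (by omega)⟩
  · intro k hk l hl h
    simp only [coe_erase, coe_range, Set.mem_sdiff, Set.mem_Iio, Set.mem_singleton_iff] at hk hl
    simp only at h
    split_ifs at h with hF hF' hF'
    · exact add_inj b (by omega) (by omega) (Prod.mk.inj h).1
    · exfalso
      have := add_inj b (by omega) (by omega) (Prod.mk.inj h).1
      omega
    · exfalso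
      have := add_inj b (by omega) (by omega) (Prod.mk.inj h).1
      omega
    · exact add_inj b (by omega) (by omega) (Prod.mk.inj h).2

end CoreOne

theorem core_edges : S_core_edges := by
  intro M
  have h := CoreOne.ee_compl (M := M) univ
  rw [compl_univ] at h
  have h0 : ee (coreC M) univ ∅ = 0 := by simp [ee]
  rw [h0, add_zero] at h
  rw [h, card_univ]

theorem core_c1 : S_core_c1 := by
  intro M F h1 h2
  have h := CoreOne.ee_compl F
  have h' := CoreOne.bd_ge F h1 h2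
  linarith

theorem core_c1' : S_core_c1' := by
  intro M F h2 E hE hE3
  have h := CoreOne.ee_compl F
  have hne : F.Nonempty := by
    have : E.Nonempty := card_pos.mp (by omega)
    exact this.mono hE
  have h' := CoreOne.bd_ge F hne h2
  have h3 : (3 * #{y : VC M | y ∉ F ∧ ∀ d ∈ E, (coreC M).Adj y d} : ℤ) ≤
      ee (coreC M) F Fᶜ := by
    have h4 : ee (coreC M) E (univ.filter fun y : VC M => y ∉ F ∧ ∀ d ∈ E, (coreC M).Adj y d) ≤
        ee (coreC M) F Fᶜ := by
      apply ee_mono _ hE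
      intro y hy
      simp only [mem_filter, mem_univ, true_and] at hy
      simpa using hy.1
    refine le_trans (le_of_eq ?_) h4
    rw [ee_eq_sum_card]
    have h5 : ∀ a ∈ E, (#{b ∈ (univ.filter fun y : VC M => y ∉ F ∧
        ∀ d ∈ E, (coreC M).Adj y d) | (coreC M).Adj a b} : ℤ) =
        #{y : VC M | y ∉ F ∧ ∀ d ∈ E, (coreC M).Adj y d} := by
      intro a ha
      rw [filter_true_of_mem (s := univ.filter fun y : VC M => y ∉ F ∧
        ∀ d ∈ E, (coreC M).Adj y d)]
      intro y hy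
      simp only [mem_filter, mem_univ, true_and] at hy
      exact (hy.2 a ha).symm
    rw [sum_congr rfl h5, sum_const, hE3, nsmul_eq_mul]
    rfl
  omega

namespace CoreOne

variable {M : ℕ}

theorem ee_split {W : Type} (G : SimpleGraph W) {A B C : Finset W} (h : Disjoint A B)
    (hC : ∀ x, x ∈ C ↔ x ∈ A ∨ x ∈ B) :
    ee G C C = ee G A A + 2 * ee G A B + ee G B B := by
  have : C = A ∪ B := by
    ext x
    rw [hC, mem_union]
  rw [this, ee_union G h]

theorem ee_le_three (F : Finset (VC M)) : ee (coreC M) F F ≤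
    2 * (∑ x ∈ F, (#{y ∈ F | ∃ j : ℕ, 1 ≤ j ∧ j ≤ 15 ∧ y = x + j} : ℤ)) +
    (∑ x ∈ F, (#{y ∈ F | x ≠ y ∧ tri (mm M) x.val = tri (mm M) y.val} : ℤ)) := by
  have hdc : (∑ y ∈ F, #{x ∈ F | ∃ j : ℕ, 1 ≤ j ∧ j ≤ 15 ∧ x = y + j}) =
      ∑ x ∈ F, #{y ∈ F | ∃ j : ℕ, 1 ≤ j ∧ j ≤ 15 ∧ x = y + j} :=
    (Finset.sum_card_bipartiteAbove_eq_sum_card_bipartiteBelow
      (s := F) (t := F) (fun x y : VC M => ∃ j : ℕ, 1 ≤ j ∧ j ≤ 15 ∧ x = y + j)).symm
  have hdc' : (∑ y ∈ F, (#{x ∈ F | ∃ j : ℕ, 1 ≤ j ∧ j ≤ 15 ∧ x = y + j} : ℤ)) =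
      ∑ x ∈ F, (#{y ∈ F | ∃ j : ℕ, 1 ≤ j ∧ j ≤ 15 ∧ x = y + j} : ℤ) := by
    exact_mod_cast hdc
  rw [two_mul]
  nth_rewrite 2 [hdc']
  rw [ee_eq_sum_card, ← sum_add_distrib, ← sum_add_distrib]
  refine sum_le_sum fun x hx => ?_
  rw [← Nat.cast_add, ← Nat.cast_add, Nat.cast_le]
  refine le_trans (card_le_card (t := ({y ∈ F | ∃ j : ℕ, 1 ≤ j ∧ j ≤ 15 ∧ y = x + j} ∪
      {y ∈ F | ∃ j : ℕ, 1 ≤ j ∧ j ≤ 15 ∧ x = y + j}) ∪
      {y ∈ F | x ≠ y ∧ tri (mm M) x.val = tri (mm M) y.val}) ?_)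
      (le_trans (card_union_le _ _) (Nat.add_le_add_right (card_union_le _ _) _))
  intro y hy
  rw [mem_filter] at hy
  obtain ⟨hy, h0, h | h⟩ := hy
  · obtain ⟨j, h1, h2, h3 | h3⟩ := h
    · exact mem_union_left _ (mem_union_left _ (mem_filter.mpr ⟨hy, j, h1, h2, h3⟩))
    · exact mem_union_left _ (mem_union_right _ (mem_filter.mpr ⟨hy, j, h1, h2, h3⟩))
  · exact mem_union_right _ (mem_filter.mpr ⟨hy, h0, h⟩)

/-- at most five elements among sixteen consecutive ones -/
theorem five (F : Finset (VC M))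
    (hF : ∀ K ⊆ F, #K = 6 → ¬ (coreC M).IsClique (K : Set (VC M))) (b : VC M) :
    #{k ∈ range 16 | b + ((k : ℕ) : VC M) ∈ F} ≤ 5 := by
  by_contra hcon
  push Not at hcon
  obtain ⟨K, hK, hK6⟩ := exists_subset_card_eq (s := {k ∈ range 16 | b + ((k : ℕ) : VC M) ∈ F})
    (n := 6) (by omega)
  refine hF (K.image fun k : ℕ => b + (k : VC M)) ?_ ?_ ?_
  · intro y hy
    rw [mem_image] at hy
    obtain ⟨k, hk, rfl⟩ := hy
    exact (mem_filter.mp (hK hk)).2
  · rw [card_image_of_injOn, hK6]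
    intro k hk l hl h
    have h1 := (mem_filter.mp (hK hk)).1
    have h2 := (mem_filter.mp (hK hl)).1
    rw [mem_range] at h1 h2
    exact add_inj b (by omega) (by omega) h
  · intro y hy z hz hyz
    simp only [coe_image, Set.mem_image, mem_coe] at hy hz
    obtain ⟨k, hk, rfl⟩ := hy
    obtain ⟨l, hl, rfl⟩ := hz
    have h1 := (mem_filter.mp (hK hk)).1
    have h2 := (mem_filter.mp (hK hl)).1
    rw [mem_range] at h1 h2
    refine adj_step' b (by omega) (by omega) ?_ (by omega) (by omega)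
    rintro rfl
    exact hyz rfl

theorem four (F : Finset (VC M))
    (hF : ∀ K ⊆ F, #K = 6 → ¬ (coreC M).IsClique (K : Set (VC M))) (x : VC M) (hx : x ∈ F) :
    #{y ∈ F | ∃ j : ℕ, 1 ≤ j ∧ j ≤ 15 ∧ y = x + j} ≤ 4 := by
  have h1 := five F hF x
  have h2 : #{y ∈ F | ∃ j : ℕ, 1 ≤ j ∧ j ≤ 15 ∧ y = x + j} ≤
      #(({k ∈ range 16 | x + ((k : ℕ) : VC M) ∈ F}).erase 0) := by
    have h3 : {y ∈ F | ∃ j : ℕ, 1 ≤ j ∧ j ≤ 15 ∧ y = x + j} ⊆
        (({k ∈ range 16 | x + ((k : ℕ) : VC M) ∈ F}).erase 0).image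
          (fun k : ℕ => x + (k : VC M)) := by
      intro y hy
      rw [mem_filter] at hy
      obtain ⟨hy, j, h1, h2, rfl⟩ := hy
      rw [mem_image]
      refine ⟨j, ?_, rfl⟩
      rw [mem_erase, mem_filter, mem_range]
      exact ⟨by omega, by omega, hy⟩
    exact (card_le_card h3).trans card_image_le
  rw [card_erase_of_mem (by rw [mem_filter]; exact ⟨by simp, by simpa using hx⟩)] at h2
  omega

theorem two (F : Finset (VC M)) (x : VC M) :
    #{y ∈ F | x ≠ y ∧ tri (mm M) x.val = tri (mm M) y.val} ≤ 2 := by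
  have h : {y ∈ F | x ≠ y ∧ tri (mm M) x.val = tri (mm M) y.val} ⊆
      (trp M (tri (mm M) x.val)).erase x := by
    intro y hy
    rw [mem_filter] at hy
    rw [mem_erase, mem_trp y (tri_lt x)]
    exact ⟨hy.2.1.symm, hy.2.2.symm⟩
  refine (card_le_card h).trans ?_
  rw [card_erase_of_mem, card_trp (tri_lt x)]
  rw [mem_trp x (tri_lt x)]

/-- a clique spans all pairs -/
theorem ee_clique (J : Finset (VC M)) (h : ∀ x ∈ J, ∀ y ∈ J, x ≠ y → (coreC M).Adj x y) :
    ee (coreC M) J J = #J * (#J - 1) := by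
  rw [ee_eq_sum_card]
  have h1 : ∀ a ∈ J, (#{b ∈ J | (coreC M).Adj a b} : ℤ) = #J - 1 := by
    intro a ha
    have h2 : {b ∈ J | (coreC M).Adj a b} = J.erase a := by
      ext b
      rw [mem_filter, mem_erase]
      constructor
      · rintro ⟨h3, h4⟩
        exact ⟨h4.ne', h3⟩
      · rintro ⟨h3, h4⟩
        exact ⟨h4, h a ha b h4 h3.symm⟩
    rw [h2, card_erase_of_mem ha]
    have : 1 ≤ #J := card_pos.mpr ⟨a, ha⟩
    push_cast [Nat.cast_sub this]
    ring
  rw [sum_congr rfl h1, sum_const, nsmul_eq_mul]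

end CoreOne

theorem core_c2 : S_core_c2 := by
  intro M F hF
  have h := CoreOne.ee_le_three F
  have h1 : (∑ x ∈ F, (#{y ∈ F | ∃ j : ℕ, 1 ≤ j ∧ j ≤ 15 ∧ y = x + j} : ℤ)) ≤ ∑ x ∈ F, 4 :=
    sum_le_sum fun x hx => by exact_mod_cast CoreOne.four F hF x hx
  have h2 : (∑ x ∈ F, (#{y ∈ F | x ≠ y ∧ tri (mm M) x.val = tri (mm M) y.val} : ℤ)) ≤
      ∑ x ∈ F, 2 :=
    sum_le_sum fun x hx => by exact_mod_cast CoreOne.two F x
  rw [sum_const, nsmul_eq_mul] at h1 h2
  linarith

theorem core_c3 : S_core_c3 := by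
  intro M a J hJ hee
  set J1 := J.filter fun y => ∃ j : ℕ, 1 ≤ j ∧ j ≤ 15 ∧ y = a + j with hJ1
  set J2 := (J \ J1).filter fun y => ∃ j : ℕ, 1 ≤ j ∧ j ≤ 15 ∧ a = y + j with hJ2
  set J3 := (J \ J1) \ J2 with hJ3
  have c1 : ∀ x ∈ J1, ∀ y ∈ J1, x ≠ y → (coreC M).Adj x y := by
    intro x hx y hy hxy
    rw [hJ1, mem_filter] at hx hy
    obtain ⟨_, j, h1, h2, rfl⟩ := hx
    obtain ⟨_, l, h3, h4, rfl⟩ := hy
    refine CoreOne.adj_step' a (by omega) (by omega) ?_ (by omega) (by omega)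
    rintro rfl
    exact hxy rfl
  have c2 : ∀ x ∈ J2, ∀ y ∈ J2, x ≠ y → (coreC M).Adj x y := by
    intro x hx y hy hxy
    rw [hJ2, mem_filter] at hx hy
    obtain ⟨_, j, h1, h2, h5⟩ := hx
    obtain ⟨_, l, h3, h4, h6⟩ := hy
    have e1 : x = (a - (15 : ℕ)) + ((15 - j : ℕ) : VC M) := by
      rw [h5, Nat.cast_sub h2]; ring
    have e2 : y = (a - (15 : ℕ)) + ((15 - l : ℕ) : VC M) := by
      rw [h6, Nat.cast_sub h4]; ring
    rw [e1, e2]
    refine CoreOne.adj_step' _ (by omega) (by omega) ?_ (by omega) (by omega)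
    intro h
    apply hxy
    rw [e1, e2, h]
  have c3 : ∀ x ∈ J3, ∀ y ∈ J3, x ≠ y → (coreC M).Adj x y := by
    have key : ∀ x ∈ J3, tri (mm M) a.val = tri (mm M) x.val := by
      intro x hx
      rw [hJ3, mem_sdiff, mem_sdiff] at hx
      obtain ⟨⟨h1, h2⟩, h3⟩ := hx
      rcases hJ x h1 with ⟨h4, h5 | h5⟩
      · obtain ⟨j, h6, h7, h8 | h8⟩ := h5
        · exact absurd (mem_filter.mpr ⟨h1, j, h6, h7, h8⟩) h2
        · exact absurd (mem_filter.mpr ⟨mem_sdiff.mpr ⟨h1, h2⟩, j, h6, h7, h8⟩) h3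
      · exact h5
    intro x hx y hy hxy
    exact ⟨hxy, Or.inr ((key x hx).symm.trans (key y hy))⟩
  have e1 := CoreOne.ee_clique J1 c1
  have e2 := CoreOne.ee_clique J2 c2
  have e3 := CoreOne.ee_clique J3 c3
  have d1 : Disjoint J1 (J \ J1) := disjoint_sdiff
  have d2 : Disjoint J2 J3 := disjoint_sdiff
  have u1 : J1 ∪ (J \ J1) = J := union_sdiff_of_subset (filter_subset _ _)
  have u2 : J2 ∪ J3 = J \ J1 := union_sdiff_of_subset (filter_subset _ _)
  have f1 := CoreOne.ee_split (coreC M) (C := J) d1 (fun x => by rw [← mem_union, u1])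
  have f2 := CoreOne.ee_split (coreC M) (C := J \ J1) d2 (fun x => by rw [← mem_union, u2])
  have g1 := ee_nonneg (coreC M) J1 (J \ J1)
  have g2 := ee_nonneg (coreC M) J2 J3
  have k1 : #J1 + #(J \ J1) = #J := by rw [← card_union_of_disjoint d1, u1]
  have k2 : #J2 + #J3 = #(J \ J1) := by rw [← card_union_of_disjoint d2, u2]
  have hs : (#J1 : ℤ) * (#J1 - 1) + #J2 * (#J2 - 1) + #J3 * (#J3 - 1) ≤ 2 := by
    linarith
  have aux : ∀ n : ℕ, (0 : ℤ) ≤ n * (n - 1) ∧ ((3 : ℤ) ≤ n → 6 ≤ (n : ℤ) * (n - 1)) ∧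
      ((n : ℤ) = 2 → (n : ℤ) * (n - 1) = 2) := by
    intro n
    refine ⟨?_, fun h => by nlinarith, fun h => by rw [h]; norm_num⟩
    rcases Nat.eq_zero_or_pos n with h | h
    · simp [h]
    · have : (1 : ℤ) ≤ n := by exact_mod_cast h
      nlinarith
  obtain ⟨a1, a2, a3⟩ := aux #J1
  obtain ⟨b1, b2, b3⟩ := aux #J2
  obtain ⟨c1, c2, c3⟩ := aux #J3
  omega

/-! ### Labels and colouring -/

theorem core_labels : S_core_labels := by
  intro M
  have hm : mm M = 240 * M + 160 := rfl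
  have hmem : ∀ (t : ℕ) (y : VC M), t < M →
      (y ∈ coreL M t ↔ ∃ i < 15, y.val = 16 * (15 * t + i)) := by
    intro t y ht
    unfold coreL
    rw [mem_image]
    constructor
    · rintro ⟨i, hi, rfl⟩
      rw [mem_range] at hi
      exact ⟨i, hi, CoreOne.val_cast (by omega)⟩
    · rintro ⟨i, hi, h⟩
      refine ⟨i, mem_range.mpr hi, ?_⟩
      exact ((CoreOne.eq_cast_iff y (by omega)).mpr h).symm
  have hD : ∀ y : VC M, y ∈ coreD M ↔ (y.val = mm M ∨ y.val = mm M + 1 ∨ y.val = mm M + 2) := by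
    intro y
    unfold coreD
    simp only [mem_insert, mem_singleton]
    rw [CoreOne.eq_cast_iff y (by omega), CoreOne.eq_cast_iff y (by omega),
      CoreOne.eq_cast_iff y (by omega)]
  refine ⟨?_, ?_, ?_, ?_, ?_⟩
  · intro t ht
    unfold coreL
    rw [card_image_of_injOn, card_range]
    intro i hi j hj h
    simp only [coe_range, Set.mem_Iio] at hi hj
    have h1 := congrArg ZMod.val h
    simp only at h1
    rw [CoreOne.val_cast (by omega), CoreOne.val_cast (by omega)] at h1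
    omega
  · intro s hs t ht hst
    rw [Finset.disjoint_left]
    intro y h1 h2
    rw [hmem s y hs] at h1
    rw [hmem t y ht] at h2
    obtain ⟨i, hi, h1⟩ := h1
    obtain ⟨j, hj, h2⟩ := h2
    omega
  · intro t ht a ha b hb
    rw [hmem t a ht] at ha
    rw [hmem t b ht] at hb
    obtain ⟨i, hi, h1⟩ := ha
    obtain ⟨j, hj, h2⟩ := hb
    rw [CoreOne.adj_iff]
    have t1 : tri (mm M) a.val = a.val := by
      unfold tri
      rw [if_pos (by omega)]
    have t2 : tri (mm M) b.val = b.val := by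
      unfold tri
      rw [if_pos (by omega)]
    rw [t1, t2]
    omega
  · unfold coreD
    rw [card_insert_of_notMem, card_insert_of_notMem, card_singleton]
    · rw [mem_singleton, CoreOne.eq_cast_iff _ (by omega), CoreOne.val_cast (by omega)]
      omega
    · rw [mem_insert, mem_singleton, CoreOne.eq_cast_iff _ (by omega),
        CoreOne.eq_cast_iff _ (by omega), CoreOne.val_cast (by omega)]
      omega
  · intro t ht
    rw [Finset.disjoint_left]
    intro y h1 h2
    rw [hD] at h1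
    rw [hmem t y ht] at h2
    obtain ⟨j, hj, h2⟩ := h2
    omega

theorem core_col : S_core_col := by
  intro M
  have hm : mm M = 240 * M + 160 := rfl
  refine ⟨fun x => ⟨16 * (if x.val < mm M then 0 else if x.val < 2 * mm M then 1 else 2) +
    x.val % 16, by split_ifs <;> omega⟩, ?_⟩
  intro a b hab heq
  rw [CoreOne.adj_iff] at hab
  have ha := ZMod.val_lt a
  have hb := ZMod.val_lt b
  have h1 := congrArg Fin.val heq
  simp only at h1
  obtain ⟨h0, h | h | h | h⟩ := hab
  · split_ifs at h1 <;> omega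
  · split_ifs at h1 <;> omega
  · split_ifs at h1 <;> omega
  · unfold tri at h
    split_ifs at h1 h <;> omega

end Pool.Agent.H533HB
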