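import Pool.Agent.H533HB.Core1
import Pool.Agent.H533HB.CORE2

/-!
# The core has the required properties
-/

set_option autoImplicit false

namespace Pool.Agent.H533HB

open Finset
open scoped Classical

theorem tnum_lt {s0 : ℕ} (t : Ty s0) : tnum t < Fintype.card (Ty s0) :=
  (Fintype.equivFin (Ty s0) t).isLt

theorem tnum_inj {s0 : ℕ} {s t : Ty s0} (h : tnum s = tnum t) : s = t :=
  (Fintype.equivFin (Ty s0)).injective (Fin.ext h)

theorem dec_aux {A : Type} [Fintype A] (p : A → Prop) (i1 i2 : DecidablePred p) (x z : ℤ)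
    (h : x + 2 * ((@Finset.filter A p i1 univ).card : ℤ) ≤ z) :
    x + 2 * ((@Finset.filter A p i2 univ).card : ℤ) ≤ z := by
  have : i1 = i2 := Subsingleton.elim _ _
  rw [← this]; exact h

theorem coreOK_gen {T I : Type} (M : ℕ) (X : Data T I (VC M)) (hC : X.C = coreC M)
    (num : T → ℕ) (hlt : ∀ t, num t < M) (hinj : ∀ s t, num s = num t → s = t)
    (hX : ∀ t, X.L t = coreL M (num t)) (hD : X.D = coreD M) : CoreOK X := by
  have hL := core_labels M
  constructor
  · rw [hC]; exact core_edges M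
  · rw [hC]; exact core_c1 M
  · rw [hC]
    intro F hF E hE hE3
    have h := core_c1' M F hF E hE hE3
    exact dec_aux (fun y => y ∉ F ∧ ∀ d ∈ E, (coreC M).Adj y d) _ _ _ _ h
  · rw [hC]; exact core_c2 M
  · rw [hC]; exact core_c3 M
  · rw [hC]; exact core_rigid M
  · intro t; rw [hX]; exact hL.1 _ (hlt t)
  · intro s t hne; rw [hX, hX]; exact hL.2.1 _ (hlt s) _ (hlt t) fun h => hne (hinj s t h)
  · intro t; rw [hX, hC]; exact hL.2.2.1 _ (hlt t)
  · rw [hD]; exact hL.2.2.2.1
  · intro t; rw [hX, hD]; exact hL.2.2.2.2 _ (hlt t)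
  · rw [hC]; exact core_col M

theorem coreOK : S_coreOK := fun s0 R w =>
  coreOK_gen (Fintype.card (Ty s0)) (dat s0 R w) rfl tnum tnum_lt (fun _ _ h => tnum_inj h)
    (fun _ => rfl) rfl

end Pool.Agent.H533HB
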