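import Pool.Agent.H533HB.Perc

/-!
# H-bootstrap percolation and the exponent: internal definitions
-/

set_option autoImplicit false

namespace Pool.Agent.H533HB

open Finset
open scoped Classical

/-! ## Internal notions -/

/-- `G` is closed under the `H`-rule. -/
def HClosed {V W : Type} (H : SimpleGraph V) (G : SimpleGraph W) : Prop :=
  ∀ f : V → W, Function.Injective f → ∀ a b, H.Adj a b →
    (∀ c d, H.Adj c d → s(c, d) ≠ s(a, b) → G.Adj (f c) (f d)) → G.Adj (f a) (f b)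

/-- the least closed graph above `G` -/
def hull {V W : Type} (H : SimpleGraph V) (G : SimpleGraph W) : SimpleGraph W :=
  sInf {G' | G ≤ G' ∧ HClosed H G'}

/-- ordered count of adjacent pairs -/
noncomputable def ee {W : Type} (G : SimpleGraph W) (A B : Finset W) : ℤ :=
  ∑ a ∈ A, ∑ b ∈ B, if G.Adj a b then 1 else 0

/-- `G` contains a copy of `A`. -/
def Contains {U W : Type} (A : SimpleGraph U) (G : SimpleGraph W) : Prop :=
  ∃ f : U → W, Function.Injective f ∧ ∀ x y, A.Adj x y → G.Adj (f x) (f y)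

/-- every three distinct vertices have two common neighbours -/
def CN {W : Type} (G : SimpleGraph W) : Prop :=
  ∀ a b c : W, a ≠ b → a ≠ c → b ≠ c → ∃ x y, x ≠ y ∧ G.Adj a x ∧ G.Adj b x ∧ G.Adj c x ∧
    G.Adj a y ∧ G.Adj b y ∧ G.Adj c y

/-- every nonempty finite set spans fewer than `16 |F|` edges -/
def Sparse {W : Type} (G : SimpleGraph W) : Prop :=
  ∀ F : Finset W, F.Nonempty → ee G F F < 32 * #F

/-- `Sp(B,K)` -/
def Sp {W : Type} (B K : ℕ) (G : SimpleGraph W) : Prop :=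
  ∀ F : Finset W, F.Nonempty → #F ≤ K →
    ee G F F + 2 ≤ 32 * #F ∧ (32 * #F ≤ ee G F F + 4 → #F ≤ B)

/-- the data from which the graph `H` is built: a graph `TA` on the types, cycles with
their lengths and types, the core `C`, the label sets, and the set `D`. -/
structure Data (T I V : Type) where
  TA : SimpleGraph T
  len : I → ℕ
  ty : I → ℕ → T
  C : SimpleGraph V
  L : T → Finset V
  D : Finset V

variable {T I V : Type}

/-- vertices of `H`: core, the vertex `y`, the vertices of the cycles -/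
abbrev HV (X : Data T I V) : Type := V ⊕ Unit ⊕ (Σ i : I, Fin (X.len i))

/-- adjacency of `H` -/
def hadj (X : Data T I V) : HV X → HV X → Prop
  | .inl a, .inl b => X.C.Adj a b
  | .inl a, .inr (.inl _) => a ∈ X.D
  | .inr (.inl _), .inl a => a ∈ X.D
  | .inl a, .inr (.inr x) => a ∈ X.L (X.ty x.1 x.2)
  | .inr (.inr x), .inl a => a ∈ X.L (X.ty x.1 x.2)
  | .inr (.inr x), .inr (.inr y) => x ≠ y ∧ x.1 = y.1 ∧
      ((y.2 : ℕ) = (x.2 + 1) % X.len x.1 ∨ (x.2 : ℕ) = (y.2 + 1) % X.len x.1)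
  | .inr (.inl _), .inr _ => False
  | .inr (.inr _), .inr (.inl _) => False

/-- the graph `H` -/
def HG (X : Data T I V) : SimpleGraph (HV X) where
  Adj := hadj X
  symm := ⟨by
    rintro (a | a | ⟨i, a⟩) (b | b | ⟨j, b⟩) h
    · exact SimpleGraph.Adj.symm h
    · exact h
    · exact h
    · exact h
    · exact h
    · exact h
    · exact h
    · exact h
    · obtain ⟨h0, h1, h2⟩ := h
      simp only at h1
      subst h1
      exact ⟨h0.symm, rfl, h2.symm⟩⟩
  loopless := ⟨by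
    rintro (a | a | ⟨i, a⟩) h
    · exact X.C.loopless.irrefl a h
    · exact h
    · exact h.1 rfl⟩

/-- the properties of the core -/
structure CoreOK [Fintype V] (X : Data T I V) : Prop where
  edges : ee X.C univ univ = 32 * Fintype.card V
  c1 : ∀ F : Finset V, F.Nonempty → F ≠ univ → ee X.C F F + 29 ≤ 32 * #F
  c1' : ∀ F : Finset V, F ≠ univ → ∀ E : Finset V, E ⊆ F → #E = 3 →
    ee X.C F F + 4 + 2 * #{y : V | y ∉ F ∧ ∀ d ∈ E, X.C.Adj y d} ≤ 32 * #F
  c2 : ∀ F : Finset V, (∀ K ⊆ F, #K = 6 → ¬ X.C.IsClique (K : Set V)) →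
    ee X.C F F ≤ 10 * #F
  c3 : ∀ (a : V) (J : Finset V), (∀ x ∈ J, X.C.Adj a x) → ee X.C J J ≤ 2 → #J ≤ 4
  rigid : ∀ ψ : V → V, Function.Injective ψ → ∀ f0 : Sym2 V,
    (∀ a b, X.C.Adj a b → s(a, b) ≠ f0 → X.C.Adj (ψ a) (ψ b)) → ψ = id
  Lcard : ∀ t, #(X.L t) = 15
  Ldisj : ∀ s t, s ≠ t → Disjoint (X.L s) (X.L t)
  Lindep : ∀ t, ∀ a ∈ X.L t, ∀ b ∈ X.L t, ¬ X.C.Adj a b
  Dcard : #X.D = 3
  DL : ∀ t, Disjoint X.D (X.L t)
  col : ∃ c : V → Fin 48, ∀ a b, X.C.Adj a b → c a ≠ c b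

/-- the cycles are closed walks of length at least three in the graph of types -/
structure CycOK (X : Data T I V) : Prop where
  len3 : ∀ i, 3 ≤ X.len i
  adj : ∀ i, ∀ j < X.len i, X.TA.Adj (X.ty i j) (X.ty i ((j + 1) % X.len i))

/-- the voltage assignment -/
structure Volt (X : Data T I V) {GG : Type} [Group GG] (v : T → T → GG) : Prop where
  inv : ∀ s t, X.TA.Adj s t → v t s = (v s t)⁻¹
  hol : ∀ i, ((List.range (X.len i)).map
    (fun j => v (X.ty i j) (X.ty i ((j + 1) % X.len i)))).prod = 1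
  nok4 : ∀ (u : GG) (t : Fin 4 → T) (g : Fin 4 → GG), (∀ i j, i ≠ j → X.TA.Adj (t i) (t j)) →
    ¬ ∀ i j, i ≠ j → g i * v (t i) (t j) * (g j)⁻¹ ∈ Subgroup.zpowers u

/-- type of a tree vertex -/
def tt (hub : T) : List (T × ℕ) → T
  | [] => hub
  | x :: _ => x.1

/-- adjacency of the infinite graph `AA` -/
def aadj (X : Data T I V) (hub : T) (e0 : Sym2 V) :
    HV X ⊕ List (T × ℕ) → HV X ⊕ List (T × ℕ) → Prop
  | .inl a, .inl b => (HG X).Adj a b ∧ ∀ c d : V, s(a, b) = s(.inl c, .inl d) → s(c, d) ≠ e0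
  | .inl (.inl l), .inr x => l ∈ X.L (tt hub x)
  | .inr x, .inl (.inl l) => l ∈ X.L (tt hub x)
  | .inl (.inr _), .inr _ => False
  | .inr _, .inl (.inr _) => False
  | .inr x, .inr y => ∃ t i, X.TA.Adj t (tt hub x) ∧ y = (t, i) :: x ∨
      X.TA.Adj t (tt hub y) ∧ x = (t, i) :: y

/-- the infinite graph `AA`: `H` minus the edge `e0` of the core, and a tree -/
def AA (X : Data T I V) (hub : T) (e0 : Sym2 V) : SimpleGraph (HV X ⊕ List (T × ℕ)) where
  Adj := aadj X hub e0
  symm := ⟨by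
    rintro (a | x) (b | y) h
    · refine ⟨h.1.symm, fun c d hcd => h.2 c d ?_⟩
      rw [← hcd]; exact Sym2.eq_swap
    · rcases a with l | a
      · exact h
      · exact h
    · rcases b with l | b
      · exact h
      · exact h
    · obtain ⟨t, i, h | h⟩ := h
      · exact ⟨t, i, Or.inr h⟩
      · exact ⟨t, i, Or.inl h⟩⟩
  loopless := ⟨by
    rintro (a | x) h
    · exact (HG X).loopless.irrefl a h.1
    · obtain ⟨t, i, h | h⟩ := h
      · exact absurd h.2 (by simp)
      · exact absurd h.2 (by simp)⟩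

end Pool.Agent.H533HB
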