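import Pool.Agent.H533HB.Stmts
import Pool.Agent.R980.Gnp

/-!
# Task P1: the random graph contains a copy of a sparse graph (second moment)
-/

set_option autoImplicit false

namespace Pool.Agent.H533HB

open Finset Filter Topology
open scoped Classical
open Pool.Agent.R980 (Edge ofBool bex gnp)

namespace P1aux

/-- ordered count is twice the count of increasing pairs -/
theorem ee_two {m : ℕ} (G : SimpleGraph (Fin m)) (F : Finset (Fin m)) :
    ee G F F = 2 * (#{x ∈ F ×ˢ F | x.1 < x.2 ∧ G.Adj x.1 x.2} : ℤ) := by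
  rw [ee_eq_card]
  have h1 : #{x ∈ F ×ˢ F | G.Adj x.1 x.2} =
      #{x ∈ F ×ˢ F | x.1 < x.2 ∧ G.Adj x.1 x.2} +
        #{x ∈ F ×ˢ F | x.2 < x.1 ∧ G.Adj x.1 x.2} := by
    rw [← card_union_of_disjoint]
    · congr 1
      ext ⟨u, v⟩
      simp only [mem_filter, mem_union, mem_product]
      constructor
      · rintro ⟨h, hG⟩
        rcases lt_or_gt_of_ne hG.ne with h2 | h2
        · exact Or.inl ⟨h, h2, hG⟩
        · exact Or.inr ⟨h, h2, hG⟩
      · rintro (⟨h, _, hG⟩ | ⟨h, _, hG⟩) <;> exact ⟨h, hG⟩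
    · rw [Finset.disjoint_left]
      rintro ⟨u, v⟩ h h'
      simp only [mem_filter] at h h'
      exact absurd (h.2.1.trans h'.2.1) (lt_irrefl _)
  have h2 : #{x ∈ F ×ˢ F | x.2 < x.1 ∧ G.Adj x.1 x.2} =
      #{x ∈ F ×ˢ F | x.1 < x.2 ∧ G.Adj x.1 x.2} := by
    refine card_bij (fun x _ => (x.2, x.1)) ?_ ?_ ?_
    · rintro ⟨u, v⟩ h
      simp only [mem_filter, mem_product] at h ⊢
      exact ⟨⟨h.1.2, h.1.1⟩, h.2.1, h.2.2.symm⟩
    · rintro ⟨u, v⟩ _ ⟨u', v'⟩ _ h
      simp only [Prod.mk.injEq] at h ⊢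
      exact ⟨h.2, h.1⟩
    · rintro ⟨u, v⟩ h
      simp only [mem_filter, mem_product] at h
      exact ⟨(v, u), by simp only [mem_filter, mem_product]
                        exact ⟨⟨h.1.2, h.1.1⟩, h.2.1, h.2.2.symm⟩, rfl⟩
  rw [h1, h2]
  push_cast
  ring

/-- indicator that all edges of `S` are present -/
noncomputable def Y {n : ℕ} (S : Finset (Edge n)) (x : Edge n → Bool) : ℝ :=
  if ∀ e ∈ S, x e = true then 1 else 0

theorem Y_mul {n : ℕ} (S T : Finset (Edge n)) (x : Edge n → Bool) :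
    Y S x * Y T x = Y (S ∪ T) x := by
  unfold Y
  by_cases h1 : ∀ e ∈ S, x e = true
  · by_cases h2 : ∀ e ∈ T, x e = true
    · rw [if_pos h1, if_pos h2, if_pos, mul_one]
      intro e he
      rcases mem_union.1 he with h | h
      · exact h1 e h
      · exact h2 e h
    · have h3 : ¬ ∀ e ∈ S ∪ T, x e = true := fun h => h2 fun e he => h e (mem_union_right _ he)
      rw [if_neg h2, if_neg h3, mul_zero]
  · have h3 : ¬ ∀ e ∈ S ∪ T, x e = true := fun h => h1 fun e he => h e (mem_union_left _ he)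
    rw [if_neg h1, if_neg h3, zero_mul]

theorem bex_Y {n : ℕ} (p : ℝ) (S : Finset (Edge n)) : bex p (Y S) = p ^ #S := by
  have h : Y S = fun x => ∏ e : Edge n, (fun (e : Edge n) (b : Bool) =>
      if e ∈ S then (if b = true then (1 : ℝ) else 0) else 1) e (x e) := by
    funext x
    simp only
    rw [Finset.prod_ite_mem, univ_inter]
    unfold Y
    by_cases h1 : ∀ e ∈ S, x e = true
    · rw [if_pos h1]
      exact (prod_eq_one fun e he => by rw [if_pos (h1 e he)]).symm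
    · rw [if_neg h1]
      push Not at h1
      obtain ⟨e, he, hx⟩ := h1
      exact (prod_eq_zero he (by rw [if_neg hx])).symm
  rw [h, R980.bex_prod p (fun (e : Edge n) (b : Bool) =>
      if e ∈ S then (if b = true then (1 : ℝ) else 0) else 1)]
  have h2 : ∀ e : Edge n, (p * (if e ∈ S then (if true = true then (1 : ℝ) else 0) else 1) +
      (1 - p) * (if e ∈ S then (if false = true then (1 : ℝ) else 0) else 1))
      = if e ∈ S then p else 1 := by
    intro e
    by_cases he : e ∈ S <;> simp [he]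
  rw [prod_congr rfl fun e _ => h2 e, Finset.prod_ite_mem, univ_inter, prod_const]

theorem bex_sum {n : ℕ} {ι : Type} (p : ℝ) (s : Finset ι) (f : ι → (Edge n → Bool) → ℝ) :
    bex p (fun x => ∑ i ∈ s, f i x) = ∑ i ∈ s, bex p (f i) := by
  unfold bex
  rw [sum_comm]
  refine sum_congr rfl fun x _ => ?_
  rw [mul_sum]

/-- Chebyshev: if the property contains the event `X > 0`, `X = ∑ Y (S i)` -/
theorem cheb {n : ℕ} {ι : Type} [Fintype ι] {p : ℝ} (h0 : 0 ≤ p) (h1 : p ≤ 1)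
    (S : ι → Finset (Edge n)) (A : SimpleGraph (Fin n) → Prop)
    (hA : ∀ x : Edge n → Bool, (∃ i, ∀ e ∈ S i, x e = true) → A (ofBool x))
    (μ δ : ℝ) (hμ : 0 < μ) (hμ1 : ∑ i, p ^ #(S i) = μ)
    (hμ2 : ∑ i, ∑ j, p ^ #(S i ∪ S j) ≤ μ ^ 2 * (1 + δ)) :
    1 - δ ≤ prob n p A := by
  have hadd := R980.gnp_add_not (n := n) (p := p) A
  have hm := R980.gnp_markov (n := n) h0 h1 (fun G => ¬ A G)
    (fun x => (∑ i, Y (S i) x - μ) ^ 2) (fun x => sq_nonneg _) (μ ^ 2) (by positivity) (by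
      intro x hx
      have h0 : ∑ i, Y (S i) x = 0 := by
        refine sum_eq_zero fun i _ => ?_
        unfold Y
        rw [if_neg]
        exact fun h => hx (hA x ⟨i, h⟩)
      rw [h0, zero_sub, neg_sq])
  have he : bex p (fun x : Edge n → Bool => (∑ i, Y (S i) x - μ) ^ 2) =
      ∑ i, ∑ j, p ^ #(S i ∪ S j) - μ ^ 2 := by
    have h2 : (fun x : Edge n → Bool => (∑ i, Y (S i) x - μ) ^ 2) =
        fun x => ((∑ i, ∑ j, Y (S i ∪ S j) x) + (-2 * μ) * ∑ i, Y (S i) x) + μ ^ 2 := by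
      funext x
      have : (∑ i, Y (S i) x) ^ 2 = ∑ i, ∑ j, Y (S i ∪ S j) x := by
        rw [sq, sum_mul_sum]
        refine sum_congr rfl fun i _ => sum_congr rfl fun j _ => Y_mul _ _ _
      rw [← this]; ring
    rw [h2, R980.bex_add p (fun x : Edge n → Bool => (∑ i, ∑ j, Y (S i ∪ S j) x) +
      (-2 * μ) * ∑ i, Y (S i) x) (fun _ => μ ^ 2),
      R980.bex_add p (fun x : Edge n → Bool => ∑ i, ∑ j, Y (S i ∪ S j) x)
      (fun x => (-2 * μ) * ∑ i, Y (S i) x), R980.bex_const,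
      R980.bex_mul p (-2 * μ) (fun x : Edge n → Bool => ∑ i, Y (S i) x),
      bex_sum p univ (fun i x => ∑ j, Y (S i ∪ S j) x), bex_sum p univ (fun i x => Y (S i) x)]
    have h3 : ∀ i, bex p (fun x : Edge n → Bool => ∑ j, Y (S i ∪ S j) x) =
        ∑ j, p ^ #(S i ∪ S j) := by
      intro i
      rw [bex_sum p univ (fun j x => Y (S i ∪ S j) x)]
      exact sum_congr rfl fun j _ => bex_Y p _
    have h4 : ∀ i, bex p (fun x : Edge n → Bool => Y (S i) x) = p ^ #(S i) := fun i => bex_Y p _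
    rw [sum_congr rfl fun i _ => h3 i, sum_congr rfl fun i _ => h4 i, hμ1]
    ring
  rw [he] at hm
  have h5 : (∑ i, ∑ j, p ^ #(S i ∪ S j) - μ ^ 2) / μ ^ 2 ≤ δ := by
    rw [div_le_iff₀ (by positivity)]
    linarith
  have h6 : prob n p A = gnp n p A := rfl
  rw [h6]
  linarith

/-! ### The block maps -/

section block

variable {a b n : ℕ} (hab : a * b ≤ n)

/-- the map with value in the `i`-th block -/
def bm (s : Fin a → Fin b) (i : Fin a) : Fin n :=
  ⟨i.1 * b + (s i).1, by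
    have h1 := i.2
    have h2 := (s i).2
    have h3 : (i.1 + 1) * b ≤ a * b := Nat.mul_le_mul_right _ h1
    nlinarith⟩

theorem bm_eq (s t : Fin a → Fin b) (i j : Fin a) (h : bm hab s i = bm hab t j) :
    i = j ∧ s i = t j := by
  have h1 : i.1 * b + (s i).1 = j.1 * b + (t j).1 := congrArg Fin.val h
  have h2 := (s i).2
  have h3 := (t j).2
  have h4 : i.1 = j.1 := by
    rcases lt_trichotomy i.1 j.1 with h5 | h5 | h5
    · have : (i.1 + 1) * b ≤ j.1 * b := Nat.mul_le_mul_right _ h5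
      nlinarith
    · exact h5
    · have : (j.1 + 1) * b ≤ i.1 * b := Nat.mul_le_mul_right _ h5
      nlinarith
  rw [h4] at h1
  exact ⟨Fin.ext h4, Fin.ext (by omega)⟩

theorem bm_lt (s : Fin a → Fin b) {i j : Fin a} (h : i < j) : bm hab s i < bm hab s j := by
  have h2 := (s i).2
  have h5 : i.1 < j.1 := h
  have : (i.1 + 1) * b ≤ j.1 * b := Nat.mul_le_mul_right _ h5
  show i.1 * b + (s i).1 < j.1 * b + (s j).1
  nlinarith

/-- increasing edges of `A` inside `F` -/
noncomputable def PF (A : SimpleGraph (Fin a)) (F : Finset (Fin a)) : Finset (Fin a × Fin a) :=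
  {x ∈ F ×ˢ F | x.1 < x.2 ∧ A.Adj x.1 x.2}

theorem mem_PF (A : SimpleGraph (Fin a)) (F : Finset (Fin a)) (x : Fin a × Fin a) :
    x ∈ PF A F ↔ (x.1 ∈ F ∧ x.2 ∈ F) ∧ x.1 < x.2 ∧ A.Adj x.1 x.2 := by
  unfold PF
  rw [mem_filter, mem_product]

/-- the edge of the block map -/
def em (A : SimpleGraph (Fin a)) (s : Fin a → Fin b) (x : {x // x ∈ PF A univ}) : Edge n :=
  ⟨s(bm hab s x.1.1, bm hab s x.1.2), by
    rw [Sym2.mk_isDiag_iff]
    exact (bm_lt hab s ((mem_PF A univ x.1).1 x.2).2.1).ne⟩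

theorem em_eq (A : SimpleGraph (Fin a)) (s t : Fin a → Fin b) (x y : {x // x ∈ PF A univ})
    (h : em hab A s x = em hab A t y) : x = y ∧ s x.1.1 = t x.1.1 ∧ s x.1.2 = t x.1.2 := by
  have h1 : s(bm hab s x.1.1, bm hab s x.1.2) = s(bm hab t y.1.1, bm hab t y.1.2) :=
    congrArg Subtype.val h
  have hx := ((mem_PF A univ x.1).1 x.2).2.1
  have hy := ((mem_PF A univ y.1).1 y.2).2.1
  rw [Sym2.eq_iff] at h1
  rcases h1 with ⟨h1, h2⟩ | ⟨h1, h2⟩
  · obtain ⟨h3, h4⟩ := bm_eq hab s t _ _ h1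
    obtain ⟨h5, h6⟩ := bm_eq hab s t _ _ h2
    have hxy : x = y := Subtype.ext (Prod.ext h3 h5)
    subst hxy
    exact ⟨rfl, h4, h6⟩
  · obtain ⟨h3, h4⟩ := bm_eq hab s t _ _ h1
    obtain ⟨h5, h6⟩ := bm_eq hab s t _ _ h2
    rw [h3, h5] at hx
    exact absurd (hx.trans hy) (lt_irrefl _)

/-- the set of edges of the image of `A` under the block map -/
noncomputable def SS (A : SimpleGraph (Fin a)) (s : Fin a → Fin b) : Finset (Edge n) :=
  univ.image (em hab A s)

theorem card_SS (A : SimpleGraph (Fin a)) (s : Fin a → Fin b) :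
    #(SS hab A s) = #(PF A univ) := by
  unfold SS
  rw [card_image_of_injective _ fun x y h => (em_eq hab A s s x y h).1, card_univ,
    Fintype.card_coe]

/-- the agreement set -/
def AG (s t : Fin a → Fin b) : Finset (Fin a) := {i | s i = t i}

theorem card_inter (A : SimpleGraph (Fin a)) (s t : Fin a → Fin b) :
    #(SS hab A s ∩ SS hab A t) ≤ #(PF A (AG s t)) := by
  have h1 : SS hab A s ∩ SS hab A t ⊆
      ((univ : Finset {x // x ∈ PF A univ}).filter fun x => x.1 ∈ PF A (AG s t)).image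
        (em hab A s) := by
    intro e he
    rw [mem_inter] at he
    obtain ⟨x, _, hx⟩ := mem_image.1 he.1
    obtain ⟨y, _, hy⟩ := mem_image.1 he.2
    obtain ⟨h2, h3, h4⟩ := em_eq hab A s t x y (hx.trans hy.symm)
    refine mem_image.2 ⟨x, ?_, hx⟩
    rw [mem_filter]
    refine ⟨mem_univ _, (mem_PF A _ _).2 ⟨⟨?_, ?_⟩, ((mem_PF A univ x.1).1 x.2).2⟩⟩
    · unfold AG; rw [mem_filter]; exact ⟨mem_univ _, h3⟩
    · unfold AG; rw [mem_filter]; exact ⟨mem_univ _, h4⟩
  refine (card_le_card h1).trans (card_image_le.trans ?_)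
  refine card_le_card_of_injOn (fun x => x.1) ?_ ?_
  · intro x hx
    exact (mem_filter.1 hx).2
  · intro x _ y _ h; exact Subtype.ext h

theorem pow_union_le {p : ℝ} (h0 : 0 < p) (h1 : p ≤ 1) (A : SimpleGraph (Fin a))
    (s t : Fin a → Fin b) :
    p ^ #(SS hab A s ∪ SS hab A t) ≤
      (p ^ #(PF A univ)) ^ 2 * ((p ^ #(PF A (AG s t)))⁻¹) := by
  have h2 := card_union_add_card_inter (SS hab A s) (SS hab A t)
  rw [card_SS, card_SS] at h2
  have h3 := card_inter hab A s t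
  rw [← div_eq_mul_inv, le_div_iff₀ (by positivity), ← pow_add, ← pow_mul]
  exact pow_le_pow_of_le_one h0.le h1 (by omega)

theorem card_agree (s : Fin a → Fin b) (F : Finset (Fin a)) :
    #{t : Fin a → Fin b | AG s t = F} ≤ b ^ (a - #F) := by
  have h1 : ({t : Fin a → Fin b | AG s t = F} : Finset (Fin a → Fin b)) ⊆
      Fintype.piFinset (fun i => if i ∈ F then {s i} else univ) := by
    intro t ht
    rw [mem_filter] at ht
    rw [Fintype.mem_piFinset]
    intro i
    by_cases hi : i ∈ F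
    · rw [if_pos hi, mem_singleton]
      have h3 := ht.2
      rw [← h3] at hi
      unfold AG at hi
      exact (mem_filter.1 hi).2.symm
    · rw [if_neg hi]; exact mem_univ _
  refine (card_le_card h1).trans_eq ?_
  rw [Fintype.card_piFinset]
  have h2 : ∀ i, #(if i ∈ F then {s i} else (univ : Finset (Fin b))) = if i ∈ F then 1 else b := by
    intro i
    split_ifs
    · rw [card_singleton]
    · rw [card_univ, Fintype.card_fin]
  rw [prod_congr rfl fun i _ => h2 i, prod_ite, prod_const_one, one_mul, prod_const]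
  congr 1
  rw [filter_not, card_sdiff_of_subset (filter_subset _ _), card_univ, Fintype.card_fin]
  congr 2
  ext i; simp

theorem second_moment {p : ℝ} (h0 : 0 < p) (h1 : p ≤ 1) (hb : 0 < b)
    (A : SimpleGraph (Fin a)) :
    ∑ s : Fin a → Fin b, ∑ t : Fin a → Fin b, p ^ #(SS hab A s ∪ SS hab A t) ≤
      ((b : ℝ) ^ a * p ^ #(PF A univ)) ^ 2 *
        ∑ F : Finset (Fin a), ((b : ℝ) ^ #F * p ^ #(PF A F))⁻¹ := by
  have hb' : (0 : ℝ) < b := by exact_mod_cast hb
  have hs : ∀ s : Fin a → Fin b, ∑ t : Fin a → Fin b, p ^ #(SS hab A s ∪ SS hab A t) ≤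
      (b : ℝ) ^ a * (p ^ #(PF A univ)) ^ 2 *
        ∑ F : Finset (Fin a), ((b : ℝ) ^ #F * p ^ #(PF A F))⁻¹ := by
    intro s
    have h2 : ∑ t : Fin a → Fin b, p ^ #(SS hab A s ∪ SS hab A t) ≤
        ∑ t : Fin a → Fin b, (p ^ #(PF A univ)) ^ 2 * ((p ^ #(PF A (AG s t)))⁻¹) :=
      sum_le_sum fun t _ => pow_union_le hab h0 h1 A s t
    refine h2.trans ?_
    rw [← sum_fiberwise (univ : Finset (Fin a → Fin b)) (fun t => AG s t), mul_sum]
    refine sum_le_sum fun F _ => ?_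
    have h3 : ∑ t ∈ (univ : Finset (Fin a → Fin b)) with AG s t = F,
        (p ^ #(PF A univ)) ^ 2 * ((p ^ #(PF A (AG s t)))⁻¹) =
        #{t : Fin a → Fin b | AG s t = F} * ((p ^ #(PF A univ)) ^ 2 * ((p ^ #(PF A F))⁻¹)) := by
      rw [← nsmul_eq_mul, ← sum_const]
      refine sum_congr rfl fun t ht => ?_
      rw [(mem_filter.1 ht).2]
    rw [h3]
    have h4 : (#{t : Fin a → Fin b | AG s t = F} : ℝ) ≤ (b : ℝ) ^ (a - #F) := by
      exact_mod_cast card_agree s F
    have hF : #F ≤ a := by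
      have := card_le_univ F
      rwa [Fintype.card_fin] at this
    have h5 : (b : ℝ) ^ (a - #F) = (b : ℝ) ^ a * ((b : ℝ) ^ #F)⁻¹ := by
      rw [← div_eq_mul_inv, eq_div_iff (by positivity), ← pow_add]
      congr 1; omega
    refine (mul_le_mul_of_nonneg_right h4 (by positivity)).trans_eq ?_
    rw [h5, mul_inv]
    ring
  refine (sum_le_sum fun s _ => hs s).trans_eq ?_
  rw [sum_const, card_univ, Fintype.card_fun, Fintype.card_fin, Fintype.card_fin, nsmul_eq_mul]
  push_cast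
  ring

theorem first_moment {p : ℝ} (A : SimpleGraph (Fin a)) :
    ∑ s : Fin a → Fin b, p ^ #(SS hab A s) = (b : ℝ) ^ a * p ^ #(PF A univ) := by
  simp only [card_SS]
  rw [sum_const, card_univ, Fintype.card_fun, Fintype.card_fin, Fintype.card_fin, nsmul_eq_mul]
  push_cast
  ring

theorem contains_of (A : SimpleGraph (Fin a)) (x : Edge n → Bool)
    (h : ∃ s, ∀ e ∈ SS hab A s, x e = true) : Contains A (ofBool x) := by
  obtain ⟨s, hs⟩ := h
  have key : ∀ u v, u < v → A.Adj u v → (ofBool x).Adj (bm hab s u) (bm hab s v) := by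
    intro u v huv hA
    have h1 : em hab A s ⟨(u, v), (mem_PF A univ (u, v)).2
        ⟨⟨mem_univ _, mem_univ _⟩, huv, hA⟩⟩ ∈ SS hab A s :=
      mem_image_of_mem _ (mem_univ _)
    exact ⟨_, hs _ h1⟩
  refine ⟨bm hab s, ?_, ?_⟩
  · intro i j hij
    exact (bm_eq hab s s i j hij).1
  · intro u v hA
    rcases lt_or_gt_of_ne hA.ne with h2 | h2
    · exact key u v h2 hA
    · exact (key v u h2 hA.symm).symm

include hab in
theorem prob_contains {p : ℝ} (h0 : 0 < p) (h1 : p ≤ 1) (hb : 0 < b)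
    (A : SimpleGraph (Fin a)) :
    1 - ∑ F ∈ (univ : Finset (Finset (Fin a))).erase ∅, ((b : ℝ) ^ #F * p ^ #(PF A F))⁻¹ ≤
      prob n p (Contains A) := by
  have hb' : (0 : ℝ) < b := by exact_mod_cast hb
  refine cheb h0.le h1 (SS hab A) (Contains A) (contains_of hab A)
    ((b : ℝ) ^ a * p ^ #(PF A univ)) _ (by positivity) (first_moment hab A) ?_
  refine (second_moment hab h0 h1 hb A).trans_eq ?_
  congr 1
  rw [← add_sum_erase _ _ (mem_univ (∅ : Finset (Fin a)))]
  congr 1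
  have : PF A ∅ = ∅ := by
    ext x; rw [mem_PF]; simp
  rw [this]; simp

end block

/-- the limit of one term -/
theorem term_lim (a f e : ℕ) (β : ℝ) (h : β * e < f) :
    Tendsto (fun n : ℕ => (((n / (a + 1) : ℕ) : ℝ) ^ f * ((n : ℝ) ^ (-β)) ^ e)⁻¹)
      atTop (𝓝 0) := by
  have h1 : Tendsto (fun n : ℕ => (2 * ((a : ℝ) + 1)) ^ f * (n : ℝ) ^ (-((f : ℝ) - β * e)))
      atTop (𝓝 0) := by
    have := (tendsto_rpow_neg_atTop (show 0 < (f : ℝ) - β * e by linarith)).comp
      tendsto_natCast_atTop_atTop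
    simpa using this.const_mul ((2 * ((a : ℝ) + 1)) ^ f)
  refine squeeze_zero' (Eventually.of_forall fun n => by positivity) ?_ h1
  filter_upwards [eventually_ge_atTop (2 * (a + 1))] with n hn
  have hn0 : (0 : ℝ) < n := by
    have : 0 < n := by omega
    exact_mod_cast this
  have h2 : (n : ℝ) / (2 * ((a : ℝ) + 1)) ≤ ((n / (a + 1) : ℕ) : ℝ) := by
    rw [div_le_iff₀ (by positivity)]
    have h3 : n < (a + 1) * (n / (a + 1) + 1) := by
      have := Nat.lt_mul_div_succ n (show 0 < a + 1 by omega)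
      exact this
    have h4 : 2 ≤ n / (a + 1) := by
      rw [Nat.le_div_iff_mul_le (by omega)]
      omega
    have h5 : n ≤ (n / (a + 1)) * (2 * (a + 1)) := by nlinarith
    exact_mod_cast h5
  have h6 : (n : ℝ) ^ f / (2 * ((a : ℝ) + 1)) ^ f * (n : ℝ) ^ (-β * e) ≤
      ((n / (a + 1) : ℕ) : ℝ) ^ f * ((n : ℝ) ^ (-β)) ^ e := by
    have h7 : ((n : ℝ) ^ (-β)) ^ e = (n : ℝ) ^ (-β * e) := by
      rw [Real.rpow_mul hn0.le, Real.rpow_natCast]
    rw [h7, ← div_pow]
    exact mul_le_mul_of_nonneg_right (pow_le_pow_left₀ (by positivity) h2 f) (by positivity)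
  have h8 : (2 * ((a : ℝ) + 1)) ^ f * (n : ℝ) ^ (-((f : ℝ) - β * e)) =
      ((n : ℝ) ^ f / (2 * ((a : ℝ) + 1)) ^ f * (n : ℝ) ^ (-β * e))⁻¹ := by
    have h9 : (n : ℝ) ^ (-((f : ℝ) - β * e)) = ((n : ℝ) ^ f * (n : ℝ) ^ (-β * e))⁻¹ := by
      rw [Real.rpow_neg hn0.le, ← Real.rpow_natCast, ← Real.rpow_add hn0]
      congr 2; ring
    rw [h9]
    field_simp
  rw [h8]
  exact inv_anti₀ (by positivity) h6

end P1aux

open P1aux in
theorem contains : S_contains := by
  intro a A hA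
  have ha0 : (0 : ℝ) ≤ a := Nat.cast_nonneg a
  refine ⟨4 * ((a : ℝ) + 1) / (64 * ((a : ℝ) + 1) - 1), ?_, ?_, ?_⟩
  · rw [div_lt_div_iff₀ (by norm_num) (by linarith)]
    linarith
  · rw [div_lt_div_iff₀ (by linarith) (by norm_num)]
    linarith
  set β : ℝ := 4 * ((a : ℝ) + 1) / (64 * ((a : ℝ) + 1) - 1) with hβ
  have hβ0 : 0 < β := by
    rw [hβ]; exact div_pos (by linarith) (by linarith)
  have hF : ∀ F ∈ (univ : Finset (Finset (Fin a))).erase ∅, β * #(PF A F) < #F := by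
    intro F hF
    have hne : F.Nonempty := nonempty_iff_ne_empty.2 (mem_erase.1 hF).1
    have h1 := hA F hne
    rw [ee_two] at h1
    have h2 : 2 * (#(PF A F) : ℤ) < 32 * #F := h1
    have h3 : (#(PF A F) : ℝ) ≤ 16 * #F - 1 := by
      have : (#(PF A F) : ℤ) ≤ 16 * #F - 1 := by omega
      exact_mod_cast this
    have h4 : (#F : ℝ) ≤ a := by
      have := card_le_univ F
      rw [Fintype.card_fin] at this
      exact_mod_cast this
    have h5 : β * #(PF A F) ≤ β * (16 * #F - 1) := mul_le_mul_of_nonneg_left h3 hβ0.le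
    refine lt_of_le_of_lt h5 ?_
    rw [hβ, div_mul_eq_mul_div, div_lt_iff₀ (by linarith)]
    nlinarith
  have hlim : Tendsto (fun n : ℕ => 1 - ∑ F ∈ (univ : Finset (Finset (Fin a))).erase ∅,
      (((n / (a + 1) : ℕ) : ℝ) ^ #F * ((n : ℝ) ^ (-β)) ^ #(PF A F))⁻¹) atTop (𝓝 1) := by
    have h1 := tendsto_finsetSum ((univ : Finset (Finset (Fin a))).erase ∅)
      (fun F hF' => term_lim a #F #(PF A F) β (hF F hF'))
    rw [sum_const_zero] at h1
    simpa using h1.const_sub 1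
  refine tendsto_of_tendsto_of_tendsto_of_le_of_le' hlim tendsto_const_nhds ?_ ?_
  · filter_upwards [eventually_ge_atTop (a + 1)] with n hn
    have hn1 : (1 : ℝ) ≤ n := by
      have : 1 ≤ n := by omega
      exact_mod_cast this
    have hab : a * (n / (a + 1)) ≤ n :=
      (Nat.mul_le_mul_right _ (Nat.le_succ a)).trans (Nat.mul_div_le n (a + 1))
    refine prob_contains hab (Real.rpow_pos_of_pos (by linarith) _) ?_ ?_ A
    · exact Real.rpow_le_one_of_one_le_of_nonpos hn1 (by linarith)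
    · exact Nat.div_pos hn (by omega)
  · filter_upwards [eventually_ge_atTop 1] with n hn
    have hn1 : (1 : ℝ) ≤ n := by exact_mod_cast hn
    exact R980.gnp_le_one (Real.rpow_nonneg (by linarith) _)
      (Real.rpow_le_one_of_one_le_of_nonpos hn1 (by linarith)) _

end Pool.Agent.H533HB
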