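import Pool.Agent.H533HB.Stmts
import Pool.Agent.R980.Indep

/-!
# P2: every three vertices have two common neighbours
-/

set_option autoImplicit false

namespace Pool.Agent.H533HB

open Finset Filter Topology
open scoped Classical

namespace PTwo

open Pool.Agent.R980

section one

variable {n : ℕ}

/-- `0` if `w` is adjacent to all of `S`, otherwise `1` -/
noncomputable def NB (x : Edge n → Bool) (w : Fin n) (S : Finset (Fin n)) : ℝ :=
  if ∀ s ∈ S, (ofBool x).Adj w s then 0 else 1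

theorem NB_dep (w : Fin n) (S : Finset (Fin n)) (x y : Edge n → Bool)
    (h : ∀ e ∈ edgesTo w S, x e = y e) : NB x w S = NB y w S := by
  have h1 : (∀ s ∈ S, (ofBool x).Adj w s) ↔ ∀ s ∈ S, (ofBool y).Adj w s := by
    refine forall_congr' fun s => forall_congr' fun hs => ?_
    rw [adj_ofBool, adj_ofBool]
    refine exists_congr fun hd => ?_
    rw [h ⟨s(w, s), hd⟩ ⟨s, hs, rfl⟩]
  unfold NB
  by_cases h2 : ∀ s ∈ S, (ofBool x).Adj w s
  · rw [if_pos h2, if_pos (h1.1 h2)]
  · rw [if_neg h2, if_neg fun h3 => h2 (h1.2 h3)]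

theorem NB_prod (x : Edge n → Bool) (w : Fin n) (S : Finset (Fin n)) (hw : w ∉ S) :
    NB x w S = 1 + (-1) * ∏ e : Edge n, (if e ∈ edgesTo w S then
      (if x e = true then (1 : ℝ) else 0) else 1) := by
  unfold NB
  by_cases h : ∀ s ∈ S, (ofBool x).Adj w s
  · rw [if_pos h, prod_eq_one]
    · norm_num
    · intro e _
      by_cases he : e ∈ edgesTo w S
      · rw [if_pos he, if_pos]
        obtain ⟨s, hs, hes⟩ := he
        obtain ⟨hd, hx⟩ := (adj_ofBool x w s).1 (h s hs)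
        have : (⟨s(w, s), hd⟩ : Edge n) = e := Subtype.ext hes.symm
        rw [← this]
        exact hx
      · rw [if_neg he]
  · rw [if_neg h]
    have h' := h
    push Not at h'
    obtain ⟨s, hs, hns⟩ := h'
    have hd : ¬ (s(w, s) : Sym2 (Fin n)).IsDiag := by
      rw [Sym2.mk_isDiag_iff]
      rintro rfl
      exact hw hs
    rw [prod_eq_zero (mem_univ (⟨s(w, s), hd⟩ : Edge n))]
    · norm_num
    · rw [if_pos ⟨s, hs, rfl⟩, if_neg]
      intro hx
      exact hns ⟨hd, hx⟩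

theorem bex_NB (p : ℝ) (w : Fin n) (S : Finset (Fin n)) (hw : w ∉ S) :
    bex p (fun x => NB x w S) = 1 - p ^ S.card := by
  have h : (fun x : Edge n → Bool => NB x w S) = fun x => (fun _ => (1 : ℝ)) x +
      (fun x => (-1) * (fun x => ∏ e : Edge n,
      (fun (e : Edge n) (b : Bool) => if e ∈ edgesTo w S then (if b = true then (1 : ℝ) else 0)
        else 1) e (x e)) x) x := by
    funext x
    exact NB_prod x w S hw
  rw [h, bex_add, bex_mul, bex_const, bex_prod p (fun (e : Edge n) (b : Bool) =>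
    if e ∈ edgesTo w S then (if b = true then (1 : ℝ) else 0) else 1)]
  simp only [if_true, Bool.false_eq_true, if_false]
  have h2 : ∀ e : Edge n, (p * (if e ∈ edgesTo w S then (1 : ℝ) else 1) +
      (1 - p) * (if e ∈ edgesTo w S then (0 : ℝ) else 1))
      = if e ∈ edgesTo w S then p else 1 := by
    intro e; split_ifs <;> ring
  rw [prod_congr rfl fun e _ => h2 e, Finset.prod_ite, prod_const, prod_const_one, mul_one,
    card_edgesTo w S hw]
  ring

/-- the probability that no vertex of `W` is adjacent to all of `S` -/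
theorem gnp_none (p : ℝ) (S W : Finset (Fin n)) (hd : Disjoint W S) :
    gnp n p (fun G => ∀ w ∈ W, ¬ ∀ s ∈ S, G.Adj w s) = (1 - p ^ S.card) ^ W.card := by
  rw [gnp_eq_bex]
  refine Eq.trans (congrArg (bex p) (funext fun x => (?_ : _ = ∏ w ∈ W, NB x w S))) ?_
  · by_cases h : ∀ w ∈ W, ¬ ∀ s ∈ S, (ofBool x).Adj w s
    · rw [if_pos h, prod_eq_one]
      intro w hw
      unfold NB
      rw [if_neg (h w hw)]
    · rw [if_neg h]
      push Not at h
      obtain ⟨w, hw, h⟩ := h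
      rw [prod_eq_zero hw]
      unfold NB
      rw [if_pos h]
  rw [bex_prod_blocks p W (fun w => edgesTo w S) (fun w x => NB x w S)
    (fun w _ x y h => NB_dep w S x y h)
    (fun w hw w' _ hne => edgesTo_disj S w w' (Finset.disjoint_left.1 hd hw) hne)]
  rw [prod_congr rfl fun w hw => bex_NB p w S (Finset.disjoint_left.1 hd hw), prod_const]

/-- the vertices of a given parity outside a set -/
noncomputable def half (h : Fin 2) (S : Finset (Fin n)) : Finset (Fin n) :=
  ({v : Fin n | v.val % 2 = h.val} : Finset (Fin n)) \ S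

theorem mem_half {h : Fin 2} {S : Finset (Fin n)} {v : Fin n} (hv : v ∈ half h S) :
    v.val % 2 = h.val := by
  unfold half at hv
  have h1 := (mem_sdiff.1 hv).1
  rw [mem_filter] at h1
  exact h1.2

theorem card_half (h : Fin 2) (S : Finset (Fin n)) : n / 2 ≤ #(half h S) + #S := by
  have h1 : n / 2 ≤ #({v : Fin n | v.val % 2 = h.val} : Finset (Fin n)) := by
    have h2 : ((Finset.range (n / 2)).attach.image fun k => (⟨2 * k.1 + h.val, by
        have := Finset.mem_range.1 k.2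
        have := h.2
        omega⟩ : Fin n)) ⊆ ({v : Fin n | v.val % 2 = h.val} : Finset (Fin n)) := by
      intro v hv
      rw [mem_image] at hv
      obtain ⟨k, -, rfl⟩ := hv
      rw [mem_filter]
      refine ⟨mem_univ _, ?_⟩
      have := h.2
      simp only
      omega
    have h3 := card_le_card h2
    rw [card_image_of_injective, card_attach, card_range] at h3
    · exact h3
    · intro k k' hk
      have := congrArg Fin.val hk
      simp only at this
      apply Subtype.ext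
      omega
  unfold half
  have h4 := Finset.le_card_sdiff S ({v : Fin n | v.val % 2 = h.val} : Finset (Fin n))
  omega

theorem not_cn_le {p : ℝ} (h0 : 0 ≤ p) (h1 : p ≤ 1) :
    gnp n p (fun G => ¬ CN G) ≤ 2 * (n : ℝ) ^ 3 * (1 - p ^ 3) ^ (n / 2 - 3) := by
  have h2 : gnp n p (fun G => ¬ CN G) ≤ gnp n p (fun G => ∃ i : (Fin n × Fin n × Fin n) × Fin 2,
      i.1.1 ≠ i.1.2.1 ∧ i.1.1 ≠ i.1.2.2 ∧ i.1.2.1 ≠ i.1.2.2 ∧
      ∀ w ∈ half i.2 {i.1.1, i.1.2.1, i.1.2.2},
        ¬ ∀ s ∈ ({i.1.1, i.1.2.1, i.1.2.2} : Finset (Fin n)), G.Adj w s) := by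
    refine gnp_mono h0 h1 fun G hG => ?_
    by_contra hcon
    push Not at hcon
    apply hG
    intro a b c hab hac hbc
    obtain ⟨x, hx, hx'⟩ := hcon ((a, b, c), 0) hab hac hbc
    obtain ⟨y, hy, hy'⟩ := hcon ((a, b, c), 1) hab hac hbc
    refine ⟨x, y, ?_, (hx' a (by simp)).symm, (hx' b (by simp)).symm, (hx' c (by simp)).symm,
      (hy' a (by simp)).symm, (hy' b (by simp)).symm, (hy' c (by simp)).symm⟩
    rintro rfl
    have e1 := mem_half hx
    have e2 := mem_half hy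
    rw [e1] at e2
    simp at e2
  refine h2.trans ((gnp_exists_le h0 h1 _).trans ?_)
  have hp3 : 0 ≤ 1 - p ^ 3 := by
    have := pow_le_one₀ (n := 3) h0 h1
    linarith
  have hp3' : 1 - p ^ 3 ≤ 1 := by
    have := pow_nonneg h0 3
    linarith
  have h3 : ∀ i ∈ (univ : Finset ((Fin n × Fin n × Fin n) × Fin 2)),
      gnp n p (fun G => i.1.1 ≠ i.1.2.1 ∧ i.1.1 ≠ i.1.2.2 ∧ i.1.2.1 ≠ i.1.2.2 ∧
      ∀ w ∈ half i.2 {i.1.1, i.1.2.1, i.1.2.2},
        ¬ ∀ s ∈ ({i.1.1, i.1.2.1, i.1.2.2} : Finset (Fin n)), G.Adj w s) ≤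
      (1 - p ^ 3) ^ (n / 2 - 3) := by
    rintro ⟨⟨a, b, c⟩, h⟩ -
    simp only
    by_cases hd : a ≠ b ∧ a ≠ c ∧ b ≠ c
    · have hc3 : #({a, b, c} : Finset (Fin n)) = 3 :=
        card_eq_three.2 ⟨a, b, c, hd.1, hd.2.1, hd.2.2, rfl⟩
      calc gnp n p (fun G => a ≠ b ∧ a ≠ c ∧ b ≠ c ∧ ∀ w ∈ half h {a, b, c},
            ¬ ∀ s ∈ ({a, b, c} : Finset (Fin n)), G.Adj w s)
          ≤ gnp n p (fun G => ∀ w ∈ half h {a, b, c},
            ¬ ∀ s ∈ ({a, b, c} : Finset (Fin n)), G.Adj w s) :=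
            gnp_mono h0 h1 fun G hG => hG.2.2.2
        _ = (1 - p ^ 3) ^ #(half h {a, b, c}) := by
            rw [gnp_none p _ _ (by unfold half; exact sdiff_disjoint), hc3]
        _ ≤ (1 - p ^ 3) ^ (n / 2 - 3) := by
            refine pow_le_pow_of_le_one hp3 hp3' ?_
            have := card_half h ({a, b, c} : Finset (Fin n))
            omega
    · have h4 : gnp n p (fun G => a ≠ b ∧ a ≠ c ∧ b ≠ c ∧ ∀ w ∈ half h {a, b, c},
            ¬ ∀ s ∈ ({a, b, c} : Finset (Fin n)), G.Adj w s) = 0 := by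
        unfold gnp
        refine sum_eq_zero fun G _ => ?_
        rw [if_neg]
        rintro ⟨k1, k2, k3, -⟩
        exact hd ⟨k1, k2, k3⟩
      rw [h4]
      exact pow_nonneg hp3 _
  refine (sum_le_sum h3).trans ?_
  rw [sum_const, card_univ]
  simp only [Fintype.card_prod, Fintype.card_fin, nsmul_eq_mul]
  push_cast
  apply le_of_eq
  ring

end one

theorem tendsto_bound {δ : ℝ} (hδ : 0 < δ) :
    Tendsto (fun n : ℕ => 2 * (n : ℝ) ^ 3 * Real.exp (-(1 / 4) * (n : ℝ) ^ δ)) atTop (𝓝 0) := by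
  have h1 := tendsto_rpow_mul_exp_neg_mul_atTop_nhds_zero (3 / δ) (1 / 4) (by norm_num)
  have h2 : Tendsto (fun n : ℕ => (n : ℝ) ^ δ) atTop atTop :=
    (tendsto_rpow_atTop hδ).comp tendsto_natCast_atTop_atTop
  have h3 := (h1.comp h2).const_mul 2
  rw [mul_zero] at h3
  refine h3.congr fun n => ?_
  simp only [Function.comp]
  rw [← Real.rpow_mul (Nat.cast_nonneg n), mul_div_cancel₀ _ hδ.ne']
  rw [show (3 : ℝ) = ((3 : ℕ) : ℝ) by norm_num, Real.rpow_natCast]
  ring

end PTwo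

theorem cn : S_cn := by
  intro β hβ hβ3
  have hδ : 0 < 1 - 3 * β := by linarith
  have h1 : ∀ᶠ n : ℕ in atTop, 1 - 2 * (n : ℝ) ^ 3 * Real.exp (-(1 / 4) * (n : ℝ) ^ (1 - 3 * β))
      ≤ prob n ((n : ℝ) ^ (-β)) CN ∧ prob n ((n : ℝ) ^ (-β)) CN ≤ 1 := by
    filter_upwards [eventually_ge_atTop 16] with n hn
    have hn0 : (0 : ℝ) < n := by
      have : 0 < n := by omega
      exact_mod_cast this
    have hn1 : (1 : ℝ) ≤ n := by
      have : 1 ≤ n := by omega
      exact_mod_cast this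
    set p : ℝ := (n : ℝ) ^ (-β) with hp
    have p0 : 0 ≤ p := Real.rpow_nonneg hn0.le _
    have p1 : p ≤ 1 := Real.rpow_le_one_of_one_le_of_nonpos hn1 (by linarith)
    have e1 : prob n p CN + R980.gnp n p (fun G => ¬ CN G) = 1 := R980.gnp_add_not (n := n) (p := p) CN
    refine ⟨?_, R980.gnp_le_one p0 p1 CN⟩
    have e2 := PTwo.not_cn_le (n := n) p0 p1
    have e3 : (1 - p ^ 3) ^ (n / 2 - 3) ≤ Real.exp (-(1 / 4) * (n : ℝ) ^ (1 - 3 * β)) := by
      have f1 : 1 - p ^ 3 ≤ Real.exp (-(p ^ 3)) := by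
        have := Real.add_one_le_exp (-(p ^ 3))
        linarith
      have f0 : 0 ≤ 1 - p ^ 3 := by
        have := pow_le_one₀ (n := 3) p0 p1
        linarith
      refine (pow_le_pow_left₀ f0 f1 _).trans ?_
      rw [← Real.exp_nat_mul, Real.exp_le_exp]
      have f2 : p ^ 3 = (n : ℝ) ^ (-(3 * β)) := by
        rw [hp, ← Real.rpow_natCast, ← Real.rpow_mul hn0.le]
        congr 1
        push_cast
        ring
      have f3 : (n : ℝ) ^ (1 - 3 * β) = n * p ^ 3 := by
        rw [f2, sub_eq_add_neg, Real.rpow_add hn0, Real.rpow_one]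
      rw [f3]
      have f4 : (n : ℝ) / 4 ≤ ((n / 2 - 3 : ℕ) : ℝ) := by
        have f5 : n ≤ 4 * (n / 2 - 3) + 14 := by omega
        have f6 : n ≤ 4 * (n / 2 - 3) := by omega
        have f7 : (n : ℝ) ≤ 4 * ((n / 2 - 3 : ℕ) : ℝ) := by exact_mod_cast f6
        linarith
      have f8 : 0 ≤ p ^ 3 := pow_nonneg p0 3
      nlinarith
    have e4 : 2 * (n : ℝ) ^ 3 * (1 - p ^ 3) ^ (n / 2 - 3) ≤
        2 * (n : ℝ) ^ 3 * Real.exp (-(1 / 4) * (n : ℝ) ^ (1 - 3 * β)) :=
      mul_le_mul_of_nonneg_left e3 (by positivity)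
    linarith
  have h2 : Tendsto (fun n : ℕ => 1 - 2 * (n : ℝ) ^ 3 *
      Real.exp (-(1 / 4) * (n : ℝ) ^ (1 - 3 * β))) atTop (𝓝 1) := by
    have := (PTwo.tendsto_bound hδ).const_sub 1
    rwa [sub_zero] at this
  exact tendsto_of_tendsto_of_tendsto_of_le_of_le' h2 tendsto_const_nhds
    (h1.mono fun n h => h.1) (h1.mono fun n h => h.2)

end Pool.Agent.H533HB
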