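import Pool.Agent.H533HB.Stmts
import Pool.Agent.R980.Gnp

/-!
# Task P3: the random graph satisfies `Sp(B,K)` (first moment)
-/

set_option autoImplicit false

namespace Pool.Agent.H533HB

open Finset Filter Topology
open scoped Classical
open Pool.Agent.R980 (Edge ofBool bex gnp)

namespace P3aux

/-- edges inside `F` -/
noncomputable def EF {n : ℕ} (F : Finset (Fin n)) : Finset (Edge n) := {e | e.1 ∈ F.sym2}

theorem card_EF {n : ℕ} (F : Finset (Fin n)) (K : ℕ) (h : #F ≤ K) : #(EF F) ≤ (K + 1) ^ 2 := by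
  have h1 : #(EF F) ≤ #F.sym2 := by
    refine card_le_card_of_injOn (fun e => e.1) ?_ ?_
    · intro e he
      unfold EF at he
      rw [coe_filter] at he
      exact he.2
    · intro x _ y _ h; exact Subtype.ext h
  rw [card_sym2] at h1
  refine h1.trans ((Nat.choose_le_pow _ _).trans ?_)
  exact Nat.pow_le_pow_left (by omega) 2

/-- ordered count is twice the number of edges -/
theorem ee_two {n : ℕ} (x : Edge n → Bool) (F : Finset (Fin n)) :
    ee (ofBool x) F F = 2 * (#{e ∈ EF F | x e = true} : ℤ) := by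
  rw [ee_eq_card]
  have h0 : #{y ∈ F ×ˢ F | (ofBool x).Adj y.1 y.2} = 2 * #{e ∈ EF F | x e = true} := by
    have h1 : #{y ∈ F ×ˢ F | (ofBool x).Adj y.1 y.2} =
        #{y ∈ F ×ˢ F | y.1 < y.2 ∧ (ofBool x).Adj y.1 y.2} +
          #{y ∈ F ×ˢ F | y.2 < y.1 ∧ (ofBool x).Adj y.1 y.2} := by
      rw [← card_union_of_disjoint]
      · congr 1
        ext ⟨u, v⟩
        simp only [mem_filter, mem_union, mem_product]
        constructor
        · rintro ⟨h, hG⟩
          rcases lt_or_gt_of_ne hG.ne with h2 | h2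
          · exact Or.inl ⟨h, h2, hG⟩
          · exact Or.inr ⟨h, h2, hG⟩
        · rintro (⟨h, _, hG⟩ | ⟨h, _, hG⟩) <;> exact ⟨h, hG⟩
      · rw [Finset.disjoint_left]
        rintro ⟨u, v⟩ h h'
        simp only [mem_filter] at h h'
        exact absurd (h.2.1.trans h'.2.1) (lt_irrefl _)
    have h2 : #{y ∈ F ×ˢ F | y.2 < y.1 ∧ (ofBool x).Adj y.1 y.2} =
        #{y ∈ F ×ˢ F | y.1 < y.2 ∧ (ofBool x).Adj y.1 y.2} := by
      refine card_bij (fun y _ => (y.2, y.1)) ?_ ?_ ?_
      · rintro ⟨u, v⟩ h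
        simp only [mem_filter, mem_product] at h ⊢
        exact ⟨⟨h.1.2, h.1.1⟩, h.2.1, h.2.2.symm⟩
      · rintro ⟨u, v⟩ _ ⟨u', v'⟩ _ h
        simp only [Prod.mk.injEq] at h ⊢
        exact ⟨h.2, h.1⟩
      · rintro ⟨u, v⟩ h
        simp only [mem_filter, mem_product] at h
        exact ⟨(v, u), by simp only [mem_filter, mem_product]
                          exact ⟨⟨h.1.2, h.1.1⟩, h.2.1, h.2.2.symm⟩, rfl⟩
    have h3 : #{y ∈ F ×ˢ F | y.1 < y.2 ∧ (ofBool x).Adj y.1 y.2} =
        #{e ∈ EF F | x e = true} := by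
      symm
      have hex : ∀ e : Edge n, ∃ y : Fin n × Fin n, y.1 < y.2 ∧ s(y.1, y.2) = e.1 := by
        rintro ⟨e, he⟩
        induction e with
        | _ u v =>
        rw [Sym2.mk_isDiag_iff] at he
        rcases lt_or_gt_of_ne he with h2 | h2
        · exact ⟨(u, v), h2, rfl⟩
        · exact ⟨(v, u), h2, Sym2.eq_swap⟩
      choose y hy1 hy2 using hex
      refine card_bij (fun e _ => y e) ?_ ?_ ?_
      · intro e he
        unfold EF at he
        simp only [mem_filter, mem_univ, true_and, mem_product] at he ⊢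
        rw [← hy2 e, mk_mem_sym2_iff] at he
        refine ⟨he.1, hy1 e, ?_⟩
        have h5 : ¬ (s((y e).1, (y e).2) : Sym2 (Fin n)).IsDiag := by rw [hy2 e]; exact e.2
        refine ⟨h5, ?_⟩
        have : (⟨s((y e).1, (y e).2), h5⟩ : Edge n) = e := Subtype.ext (hy2 e)
        rw [this]; exact he.2
      · intro e _ e' _ h
        refine Subtype.ext ?_
        rw [← hy2 e, ← hy2 e', h]
      · rintro ⟨u, v⟩ h
        simp only [mem_filter, mem_product] at h
        obtain ⟨⟨hu, hv⟩, huv, hd, hx⟩ := h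
        refine ⟨⟨s(u, v), hd⟩, ?_, ?_⟩
        · unfold EF
          simp only [mem_filter, mem_univ, true_and]
          exact ⟨mk_mem_sym2_iff.2 ⟨hu, hv⟩, hx⟩
        · have h6 := hy2 ⟨s(u, v), hd⟩
          have h7 := hy1 ⟨s(u, v), hd⟩
          simp only at h6
          rw [Sym2.eq_iff] at h6
          rcases h6 with ⟨h6, h8⟩ | ⟨h6, h8⟩
          · exact Prod.ext h6 h8
          · rw [h6, h8] at h7
            exact absurd (h7.trans huv) (lt_irrefl _)
    rw [h1, h2, h3]; ring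
  rw [h0]
  push_cast
  ring

/-- probability that `F` spans at least `m` edges -/
theorem many_edges {n : ℕ} {p q : ℝ} (h0 : 0 ≤ p) (hpq : p ≤ q) (hq : 0 < q) (hq1 : q ≤ 1)
    (F : Finset (Fin n)) (m : ℕ) (A : SimpleGraph (Fin n) → Prop)
    (hA : ∀ x : Edge n → Bool, A (ofBool x) → m ≤ #{e ∈ EF F | x e = true}) :
    gnp n p A ≤ 2 ^ #(EF F) * q ^ m := by
  have h1 : p ≤ 1 := hpq.trans hq1
  have hm := R980.gnp_markov (n := n) h0 h1 A
    (fun x => ∏ e : Edge n, (fun (e : Edge n) (b : Bool) =>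
      if e ∈ EF F then (if b = true then q⁻¹ else 1) else 1) e (x e))
    (fun x => prod_nonneg fun e _ => by
      simp only
      split_ifs
      · positivity
      · norm_num
      · norm_num) ((q⁻¹) ^ m) (by positivity) (by
      intro x hx
      simp only
      rw [Finset.prod_ite_mem, univ_inter, prod_ite, prod_const, prod_const_one, mul_one]
      exact pow_le_pow_right₀ ((one_le_inv₀ hq).2 hq1) (hA x hx))
  rw [R980.bex_prod p (fun (e : Edge n) (b : Bool) =>
      if e ∈ EF F then (if b = true then q⁻¹ else 1) else 1)] at hm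
  refine hm.trans ?_
  have h2 : ∀ e : Edge n, (p * (if e ∈ EF F then (if true = true then q⁻¹ else 1) else 1) +
      (1 - p) * (if e ∈ EF F then (if false = true then q⁻¹ else 1) else 1))
      = if e ∈ EF F then p * q⁻¹ + (1 - p) else 1 := by
    intro e
    by_cases he : e ∈ EF F <;> simp [he]
  rw [prod_congr rfl fun e _ => h2 e, Finset.prod_ite_mem, univ_inter, prod_const,
    div_eq_mul_inv, ← inv_pow, inv_inv]
  refine mul_le_mul_of_nonneg_right ?_ (by positivity)
  have h3 : p * q⁻¹ ≤ 1 := by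
    rw [← div_eq_mul_inv]; exact (div_le_one hq).2 hpq
  refine pow_le_pow_left₀ ?_ (by linarith) _
  have : 0 ≤ p * q⁻¹ := by positivity
  linarith

/-- union bound -/
theorem union_bound {n : ℕ} {p : ℝ} (h0 : 0 ≤ p) (h1 : p ≤ 1) (s : Finset (Finset (Fin n)))
    (A : Finset (Fin n) → SimpleGraph (Fin n) → Prop) :
    gnp n p (fun G => ∃ F ∈ s, A F G) ≤ ∑ F ∈ s, gnp n p (A F) := by
  have h2 : gnp n p (fun G => ∃ F ∈ s, A F G) ≤ ∑ F : {F // F ∈ s}, gnp n p (A F.1) := by
    refine (R980.gnp_mono h0 h1 ?_).trans (R980.gnp_exists_le h0 h1 fun F : {F // F ∈ s} => A F.1)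
    rintro G ⟨F, hF, hG⟩
    exact ⟨⟨F, hF⟩, hG⟩
  refine h2.trans_eq ?_
  rw [← sum_coe_sort s (fun F => gnp n p (A F))]

/-- sum of `r ^ |F|` over nonempty sets -/
theorem sum_pow_card {n : ℕ} {r : ℝ} (hr : 0 ≤ r) :
    ∑ F ∈ (univ : Finset (Finset (Fin n))).erase ∅, r ^ #F ≤ Real.exp (n * r) - 1 := by
  have h1 : ∑ F : Finset (Fin n), r ^ #F = (r + 1) ^ n := by
    have := Finset.sum_pow_mul_eq_add_pow r 1 (univ : Finset (Fin n))
    rw [card_univ, Fintype.card_fin, powerset_univ] at this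
    rw [← this]
    refine sum_congr rfl fun F _ => ?_
    rw [one_pow, mul_one]
  have h2 := add_sum_erase (univ : Finset (Finset (Fin n))) (fun F => r ^ #F) (mem_univ ∅)
  simp only [card_empty, pow_zero] at h2
  rw [h1] at h2
  have h3 : (r + 1) ^ n ≤ Real.exp (n * r) := by
    rw [Real.exp_nat_mul]
    exact pow_le_pow_left₀ (by linarith) (Real.add_one_le_exp r) n
  linarith

/-- the first moment bound -/
theorem sp_bound {n : ℕ} {p q ρ : ℝ} (B K : ℕ) (h0 : 0 ≤ p) (hpq : p ≤ q) (hq : 0 < q)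
    (hq1 : q ≤ 1) (hρ : ρ < 16) (hB : 2 ≤ (16 - ρ) * B) :
    1 - 2 ^ ((K + 1) ^ 2) * (Real.exp (n * q ^ ρ) - 1) ≤ gnp n p (Sp B K) := by
  have h1 : p ≤ 1 := hpq.trans hq1
  set bad : Finset (Fin n) → SimpleGraph (Fin n) → Prop := fun F G =>
    F.Nonempty ∧ #F ≤ K ∧ ¬ (ee G F F + 2 ≤ 32 * #F ∧ (32 * #F ≤ ee G F F + 4 → #F ≤ B))
    with hbad
  have h2 : gnp n p (fun G => ¬ Sp B K G) ≤
      gnp n p (fun G => ∃ F ∈ (univ : Finset (Finset (Fin n))).erase ∅, bad F G) := by
    refine R980.gnp_mono h0 h1 fun G hG => ?_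
    unfold Sp at hG
    push Not at hG
    obtain ⟨F, hF, hK, hb⟩ := hG
    refine ⟨F, mem_erase.2 ⟨nonempty_iff_ne_empty.1 hF, mem_univ _⟩, hF, hK, ?_⟩
    rintro ⟨h3, h4⟩
    obtain ⟨h5, h6⟩ := hb h3
    exact absurd (h4 h5) (not_le.2 h6)
  have h3 : ∀ F ∈ (univ : Finset (Finset (Fin n))).erase ∅,
      gnp n p (bad F) ≤ 2 ^ ((K + 1) ^ 2) * (q ^ ρ) ^ #F := by
    intro F _
    by_cases hK : #F ≤ K
    · have h4 := many_edges h0 hpq hq hq1 F ⌈ρ * #F⌉₊ (bad F) (by
        intro x hx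
        obtain ⟨hne, _, hx⟩ := hx
        rw [ee_two] at hx
        set c : ℕ := #{e ∈ EF F | x e = true} with hc
        have hcard : 0 < #F := card_pos.2 hne
        have h5 : 16 * #F ≤ c ∨ (16 * #F ≤ c + 2 ∧ B < #F) := by
          by_contra hcon
          push Not at hcon
          apply hx
          refine ⟨by omega, fun h6 => hcon.2 (by omega)⟩
        rw [Nat.ceil_le]
        rcases h5 with h5 | ⟨h5, h6⟩
        · have h7 : (16 : ℝ) * #F ≤ c := by exact_mod_cast h5
          have h8 : (0 : ℝ) ≤ #F := Nat.cast_nonneg _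
          nlinarith
        · have h7 : (16 : ℝ) * #F ≤ c + 2 := by exact_mod_cast h5
          have h8 : (B : ℝ) ≤ #F := by exact_mod_cast h6.le
          nlinarith)
      refine h4.trans ?_
      have h5 : (q : ℝ) ^ ⌈ρ * #F⌉₊ ≤ (q ^ ρ) ^ #F := by
        rw [← Real.rpow_natCast, ← Real.rpow_natCast, ← Real.rpow_mul hq.le]
        exact Real.rpow_le_rpow_of_exponent_ge hq hq1 (Nat.le_ceil _)
      have h6 : (2 : ℝ) ^ #(EF F) ≤ 2 ^ ((K + 1) ^ 2) :=
        pow_le_pow_right₀ (by norm_num) (card_EF F K hK)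
      exact mul_le_mul h6 h5 (by positivity) (by positivity)
    · have h4 : gnp n p (bad F) ≤ 0 := by
        have : gnp n p (bad F) ≤ gnp n p (fun _ => False) :=
          R980.gnp_mono h0 h1 fun G hG => hK hG.2.1
        refine this.trans_eq ?_
        unfold gnp
        simp
      exact h4.trans (by positivity)
  have h4 := R980.gnp_add_not (n := n) (p := p) (Sp B K)
  have h5 : gnp n p (fun G => ¬ Sp B K G) ≤ 2 ^ ((K + 1) ^ 2) * (Real.exp (n * q ^ ρ) - 1) := by
    refine h2.trans ((union_bound h0 h1 _ bad).trans ((sum_le_sum h3).trans ?_))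
    rw [← mul_sum]
    exact mul_le_mul_of_nonneg_left (sum_pow_card (by positivity)) (by positivity)
  linarith

end P3aux

open P3aux in
theorem sp : S_sp := by
  intro β hβ
  have hβ0 : 0 < β := by linarith
  set ρ : ℝ := (1 / β + 16) / 2 with hρ
  have h16 : 1 / β < 16 := by
    rw [div_lt_iff₀ hβ0]; linarith
  have hρ0 : 0 < ρ := by
    have : 0 < 1 / β := by positivity
    linarith
  have hρ16 : ρ < 16 := by linarith
  have hβρ : 1 < β * ρ := by
    have : β * ρ = (1 + 16 * β) / 2 := by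
      rw [hρ]; field_simp
    rw [this]; linarith
  refine ⟨⌈2 / (16 - ρ)⌉₊, fun K => ?_⟩
  have hB : 2 ≤ (16 - ρ) * (⌈2 / (16 - ρ)⌉₊ : ℝ) := by
    have h1 := Nat.le_ceil (2 / (16 - ρ))
    rw [div_le_iff₀ (by linarith)] at h1
    linarith
  have hlim : Tendsto (fun n : ℕ => 1 - (2 : ℝ) ^ ((K + 1) ^ 2) *
      (Real.exp (n * ((n : ℝ) ^ (-β)) ^ ρ) - 1)) atTop (𝓝 1) := by
    have h1 : Tendsto (fun n : ℕ => (n : ℝ) ^ (-(β * ρ - 1))) atTop (𝓝 0) :=
      (tendsto_rpow_neg_atTop (show 0 < β * ρ - 1 by linarith)).comp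
        tendsto_natCast_atTop_atTop
    have h2 : Tendsto (fun n : ℕ => (n : ℝ) * ((n : ℝ) ^ (-β)) ^ ρ) atTop (𝓝 0) := by
      refine h1.congr' ?_
      filter_upwards [eventually_ge_atTop 1] with n hn
      have hn0 : (0 : ℝ) < n := by exact_mod_cast hn
      rw [← Real.rpow_mul hn0.le]
      nth_rw 2 [← Real.rpow_one (n : ℝ)]
      rw [← Real.rpow_add hn0]
      congr 1; ring
    have h3 := ((Real.continuous_exp.tendsto 0).comp h2)
    rw [Real.exp_zero] at h3
    have h4 := ((h3.sub_const 1).const_mul ((2 : ℝ) ^ ((K + 1) ^ 2))).const_sub 1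
    simpa using h4
  have h5 := hlim.eventually (lt_mem_nhds (show (1 / 2 : ℝ) < 1 by norm_num))
  filter_upwards [h5, eventually_ge_atTop 1] with n hn hn1 p hp0 hp
  have hn1' : (1 : ℝ) ≤ n := by exact_mod_cast hn1
  refine hn.trans_le ?_
  exact sp_bound _ K hp0 hp (Real.rpow_pos_of_pos (by linarith) _)
    (Real.rpow_le_one_of_one_le_of_nonpos hn1' (by linarith)) hρ16 hB

end Pool.Agent.H533HB
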