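import Pool.Agent.H533HB.Stmts

/-!
# Task PCP: the critical probability is positive
-/

set_option autoImplicit false

namespace Pool.Agent.H533HB

open Finset
open scoped Classical

namespace Pcp

theorem prob_continuous (n : ℕ) (A : SimpleGraph (Fin n) → Prop) :
    Continuous fun p : ℝ => prob n p A := by
  unfold prob
  apply continuous_finsetSum
  intro G _
  split_ifs
  · fun_prop
  · exact continuous_const

theorem ncard_le {n : ℕ} (G : SimpleGraph (Fin n)) : G.edgeSet.ncard ≤ n.choose 2 := by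
  rw [← SimpleGraph.coe_edgeFinset, Set.ncard_coe_finset]
  simpa using G.card_edgeFinset_le_card_choose_two

theorem ncard_top (n : ℕ) : (⊤ : SimpleGraph (Fin n)).edgeSet.ncard = n.choose 2 := by
  rw [← SimpleGraph.coe_edgeFinset, Set.ncard_coe_finset]
  simpa using SimpleGraph.card_edgeFinset_top_eq_card_choose_two (V := Fin n)

theorem eq_top_of_ncard {n : ℕ} (G : SimpleGraph (Fin n)) (h : G.edgeSet.ncard = n.choose 2) :
    G = ⊤ := by
  rw [← SimpleGraph.edgeSet_inj]
  apply Set.eq_of_subset_of_ncard_le (SimpleGraph.edgeSet_mono le_top)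
  rw [ncard_top, h]

theorem eq_bot_of_ncard {n : ℕ} (G : SimpleGraph (Fin n)) (h : G.edgeSet.ncard = 0) :
    G = ⊥ := by
  rw [← SimpleGraph.edgeSet_inj]
  rw [Set.ncard_eq_zero (Set.toFinite _)] at h
  rw [h, SimpleGraph.edgeSet_bot]

theorem prob_one (n : ℕ) (A : SimpleGraph (Fin n) → Prop) (h : A ⊤) : prob n 1 A = 1 := by
  unfold prob
  rw [Finset.sum_eq_single ⊤]
  · rw [if_pos h, ncard_top]; simp
  · intro G _ hG
    have : G.edgeSet.ncard ≠ n.choose 2 := fun h => hG (eq_top_of_ncard G h)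
    have h2 := ncard_le G
    split_ifs
    · rw [sub_self, zero_pow (by omega), mul_zero]
    · rfl
  · intro h; exact absurd (mem_univ _) h

theorem prob_zero (n : ℕ) (A : SimpleGraph (Fin n) → Prop) (h : ¬ A ⊥) : prob n 0 A = 0 := by
  unfold prob
  apply Finset.sum_eq_zero
  intro G _
  by_cases hG : G = ⊥
  · rw [hG, if_neg h]
  · have : G.edgeSet.ncard ≠ 0 := fun h => hG (eq_bot_of_ncard G h)
    split_ifs
    · rw [zero_pow this, zero_mul]
    · rfl

theorem bot_not_percolates {V : Type} (H : SimpleGraph V)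
    (hH : ∃ a b c : V, b ≠ c ∧ H.Adj a b ∧ H.Adj a c) (n : ℕ) (hn : 2 ≤ n) :
    ¬ Percolates H (⊥ : SimpleGraph (Fin n)) := by
  obtain ⟨a, b, c, hbc, hab, hac⟩ := hH
  have hstep : step H (⊥ : SimpleGraph (Fin n)) = ⊥ := by
    ext u v
    simp only [step, SimpleGraph.bot_adj, false_or, iff_false, not_and, not_exists]
    intro _ f hf h1 _ _ _
    have e1 := h1 a b hab
    have e2 := h1 a c hac
    rw [← e2] at e1
    rw [← Sym2.map_mk, ← Sym2.map_mk] at e1
    have e3 := Sym2.map.injective hf e1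
    rw [Sym2.eq_iff] at e3
    rcases e3 with e3 | e3
    · exact absurd e3.2 hbc
    · exact absurd e3.1 hac.ne
  rintro ⟨t, ht⟩
  have : ∀ t, (step H)^[t] (⊥ : SimpleGraph (Fin n)) = ⊥ := by
    intro t
    induction t with
    | zero => rfl
    | succ t ih => rw [Function.iterate_succ_apply', ih, hstep]
  rw [this] at ht
  have h01 : (⊤ : SimpleGraph (Fin n)).Adj ⟨0, by omega⟩ ⟨1, by omega⟩ := by
    rw [SimpleGraph.top_adj]
    intro h
    simp at h
  rw [← ht] at h01
  exact h01

end Pcp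

open Pcp in
theorem pc_pos : S_pc_pos := by
  intro V _ H hH n hn
  have hbdd : BddBelow {p : ℝ | 0 ≤ p ∧ p ≤ 1 ∧ 1 / 2 ≤ prob n p (Percolates H)} :=
    ⟨0, fun p hp => hp.1⟩
  have h1 : (1 : ℝ) ∈ {p : ℝ | 0 ≤ p ∧ p ≤ 1 ∧ 1 / 2 ≤ prob n p (Percolates H)} := by
    refine ⟨zero_le_one, le_rfl, ?_⟩
    rw [prob_one n _ ⟨0, rfl⟩]
    norm_num
  constructor
  · have hc := prob_continuous n (Percolates H)
    have h0 : prob n 0 (Percolates H) = 0 := prob_zero n _ (bot_not_percolates H hH n hn)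
    have hev : ∀ᶠ p : ℝ in nhds 0, prob n p (Percolates H) < 1 / 2 := by
      apply hc.continuousAt.eventually_lt_const
      change prob n 0 (Percolates H) < 1 / 2
      rw [h0]; norm_num
    obtain ⟨ε, hε, hball⟩ := Metric.eventually_nhds_iff.1 hev
    refine lt_of_lt_of_le hε (le_csInf ⟨1, h1⟩ ?_)
    rintro p ⟨hp0, hp1, hp2⟩
    by_contra hlt
    push Not at hlt
    have := hball (y := p) (by rw [Real.dist_eq, sub_zero, abs_of_nonneg hp0]; exact hlt)
    linarith
  · exact csInf_le hbdd h1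

end Pool.Agent.H533HB
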