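import Pool.Agent.H533HB.Stmts

/-!
# Task Q: the graph `H_w` is computable from the word `w`
-/

set_option autoImplicit false

namespace Pool.Agent.H533HB

namespace CodeQ

/-! ### Coding a graph through a primitive recursive adjacency -/

/-- the code of the graph on `n a` vertices with the adjacency `P a` -/
def codeOf {α : Type} (n : α → ℕ) (P : α → ℕ → ℕ → Bool) (a : α) : ℕ × List (ℕ × ℕ) :=
  (n a, (List.range (n a)).flatMap fun i => (List.range (n a)).filterMap fun j =>
    bif P a i j then some (i, j) else none)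

theorem mem_codeOf {α : Type} {n : α → ℕ} {P : α → ℕ → ℕ → Bool} {a : α} {i j : ℕ} :
    (i, j) ∈ (codeOf n P a).2 ↔ i < n a ∧ j < n a ∧ P a i j = true := by
  simp only [codeOf, List.mem_flatMap, List.mem_range, List.mem_filterMap]
  constructor
  · rintro ⟨i', hi', j', hj', h⟩
    cases hP : P a i' j' with
    | true =>
      rw [hP] at h
      simp only [cond_true, Option.some.injEq, Prod.mk.injEq] at h
      obtain ⟨rfl, rfl⟩ := h
      exact ⟨hi', hj', hP⟩
    | false =>
      rw [hP] at h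
      simp at h
  · rintro ⟨hi, hj, h⟩
    exact ⟨i, hi, j, hj, by rw [h]; rfl⟩

theorem codeOf_primrec {α : Type} [Primcodable α] {n : α → ℕ} {P : α → ℕ → ℕ → Bool}
    (hn : Primrec n) (hP : Primrec fun x : α × ℕ × ℕ => P x.1 x.2.1 x.2.2) :
    Primrec (codeOf n P) := by
  unfold codeOf
  refine Primrec.pair hn ?_
  refine Primrec.list_flatMap (Primrec.list_range.comp hn) ?_
  refine Primrec₂.mk ?_
  refine Primrec.listFilterMap (f := fun x : α × ℕ => List.range (n x.1))
    (Primrec.list_range.comp (hn.comp Primrec.fst)) ?_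
  refine Primrec₂.mk ?_
  have h1 : Primrec fun x : (α × ℕ) × ℕ => P x.1.1 x.1.2 x.2 :=
    hP.comp (Primrec.pair (Primrec.fst.comp Primrec.fst)
      (Primrec.pair (Primrec.snd.comp Primrec.fst) Primrec.snd))
  refine Primrec.cond h1 ?_ (Primrec.const none)
  exact Primrec.option_some.comp (Primrec.pair (Primrec.snd.comp Primrec.fst) Primrec.snd)

theorem iso_codeOf {α : Type} {n : α → ℕ} {P : α → ℕ → ℕ → Bool} {a : α} {V : Type}
    (G : SimpleGraph V) (φ : V ≃ Fin (n a))
    (h : ∀ x y : V, P a (φ x) (φ y) = true ↔ G.Adj x y) :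
    Nonempty (graphOf (codeOf n P a) ≃g G) := by
  refine ⟨(⟨φ, ?_⟩ : G ≃g graphOf (codeOf n P a)).symm⟩
  intro x y
  change (φ x ≠ φ y ∧ (((φ x).val, (φ y).val) ∈ (codeOf n P a).2 ∨
    ((φ y).val, (φ x).val) ∈ (codeOf n P a).2)) ↔ G.Adj x y
  rw [mem_codeOf, mem_codeOf, h, h]
  constructor
  · rintro ⟨_, ⟨_, _, h1⟩ | ⟨_, _, h1⟩⟩
    · exact h1
    · exact h1.symm
  · intro h1
    exact ⟨fun h2 => h1.ne (φ.injective h2), Or.inl ⟨(φ x).2, (φ y).2, h1⟩⟩

/-! ### The concrete vertex sets -/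

section Concrete

variable {s0 : ℕ} {R : Finset (FreeGroup (Fin s0))}

/-- indices of the cycles which do not depend on the word -/
abbrev J (s0 : ℕ) (R : Finset (FreeGroup (Fin s0))) : Type :=
  {x : Ty s0 × Ty s0 × Ty s0 // (TAg s0).Adj x.1 x.2.1 ∧ (TAg s0).Adj x.1 x.2.2} ⊕
    ((Fin 51 × Fin 51) × {r : FreeGroup (Fin s0) // r ∈ R ∧ r ≠ 1})

/-- the embedding of `J` into the indices -/
def emb : J s0 R → Idx s0 R
  | .inl a => .inl a
  | .inr b => .inr (.inl b)

/-- the vertices which do not depend on the word -/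
abbrev Fx (s0 : ℕ) (R : Finset (FreeGroup (Fin s0))) : Type :=
  VC (Fintype.card (Ty s0)) ⊕ Unit ⊕ (Σ i : J s0 R, Fin (cyc (R := R) [] (emb i)).length)

/-- indices of the other cycles -/
abbrev E2 : Type := {e : Fin 51 × Fin 51 // e.1 < e.2}

instance finR (s0 : ℕ) (R : Finset (FreeGroup (Fin s0))) :
    Finite {r : FreeGroup (Fin s0) // r ∈ R ∧ r ≠ 1} :=
  Set.Finite.subset (s := (R : Set (FreeGroup (Fin s0)))) R.finite_toSet fun _ hr => hr.1

instance finJ (s0 : ℕ) (R : Finset (FreeGroup (Fin s0))) : Finite (J s0 R) := inferInstance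

instance finFx (s0 : ℕ) (R : Finset (FreeGroup (Fin s0))) : Finite (Fx s0 R) := inferInstance

theorem length_loops (e : Fin 51 × Fin 51) (u : List (Fin s0 × Bool)) :
    (loops e u).length = 3 * u.length := by
  induction u with
  | nil => rfl
  | cons a u ih =>
    have h : (loop e a).length = 3 := by
      obtain ⟨s, b⟩ := a
      cases b <;> rfl
    have h2 : loops e (a :: u) = loop e a ++ loops e u := rfl
    rw [h2, List.length_append, ih, h, List.length_cons]
    ring

theorem length_cyc2 (w : List (Fin s0 × Bool)) (e : E2) :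
    (cyc (R := R) w (.inr (.inr e))).length = 3 + 3 * w.length := by
  change ([Ty.hub, Ty.b e.1.1, Ty.b e.1.2] ++ loops e.1 (FreeGroup.invRev w)).length = _
  rw [List.length_append, length_loops, FreeGroup.invRev_length]
  rfl

/-- separating the vertices which depend on the word -/
noncomputable def sep (R : Finset (FreeGroup (Fin s0))) (w : List (Fin s0 × Bool)) :
    HV (dat s0 R w) ≃ Fx s0 R ⊕ (Fin (3 + 3 * w.length) × E2) where
  toFun
    | .inl v => .inl (.inl v)
    | .inr (.inl u) => .inl (.inr (.inl u))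
    | .inr (.inr ⟨.inl a, j⟩) => .inl (.inr (.inr ⟨.inl a, j⟩))
    | .inr (.inr ⟨.inr (.inl b), j⟩) => .inl (.inr (.inr ⟨.inr b, j⟩))
    | .inr (.inr ⟨.inr (.inr e), j⟩) => .inr (Fin.cast (length_cyc2 (R := R) w e) j, e)
  invFun
    | .inl (.inl v) => .inl v
    | .inl (.inr (.inl u)) => .inr (.inl u)
    | .inl (.inr (.inr ⟨.inl a, j⟩)) => .inr (.inr ⟨.inl a, j⟩)
    | .inl (.inr (.inr ⟨.inr b, j⟩)) => .inr (.inr ⟨.inr (.inl b), j⟩)
    | .inr (j, e) => .inr (.inr ⟨.inr (.inr e), Fin.cast (length_cyc2 (R := R) w e).symm j⟩)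
  left_inv := by
    rintro (v | u | ⟨a | b | e, j⟩) <;> rfl
  right_inv := by
    rintro ((v | u | ⟨a | b, j⟩) | ⟨j, e⟩) <;> rfl

/-- the fixed part of the adjacency -/
def adjF : Fx s0 R → Fx s0 R → Prop
  | .inl a, .inl b => (coreC _).Adj a b
  | .inl a, .inr (.inl _) => a ∈ coreD _
  | .inr (.inl _), .inl a => a ∈ coreD _
  | .inl a, .inr (.inr x) => a ∈ coreL _ (tnum ((cyc (R := R) [] (emb x.1)).getD x.2 .hub))
  | .inr (.inr x), .inl a => a ∈ coreL _ (tnum ((cyc (R := R) [] (emb x.1)).getD x.2 .hub))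
  | .inr (.inr x), .inr (.inr y) => x ≠ y ∧ x.1 = y.1 ∧
      ((y.2 : ℕ) = (x.2 + 1) % (cyc (R := R) [] (emb x.1)).length ∨
        (x.2 : ℕ) = (y.2 + 1) % (cyc (R := R) [] (emb x.1)).length)
  | .inr (.inl _), .inr _ => False
  | .inr (.inr _), .inr (.inl _) => False

/-- the labels -/
def labF : Fx s0 R → Ty s0 → Prop
  | .inl a, t => a ∈ coreL _ (tnum t)
  | .inr _, _ => False

/-- the type of a vertex of the last kind -/
def ty2 (w : List (Fin s0 × Bool)) (e : Fin 51 × Fin 51) (j : ℕ) : Ty s0 :=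
  ([Ty.hub, Ty.b e.1, Ty.b e.2] ++ loops e (FreeGroup.invRev w)).getD j .hub

/-- adjacency after separation -/
def adjS (w : List (Fin s0 × Bool)) :
    Fx s0 R ⊕ (Fin (3 + 3 * w.length) × E2) → Fx s0 R ⊕ (Fin (3 + 3 * w.length) × E2) → Prop
  | .inl f, .inl g => adjF f g
  | .inl f, .inr x => labF f (ty2 w x.2.1 x.1)
  | .inr x, .inl f => labF f (ty2 w x.2.1 x.1)
  | .inr x, .inr y => x.2 = y.2 ∧ (x.1 : ℕ) ≠ y.1 ∧
      ((y.1 : ℕ) = (x.1 + 1) % (3 + 3 * w.length) ∨ (x.1 : ℕ) = (y.1 + 1) % (3 + 3 * w.length))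

theorem hadj_cyc {T I V : Type} (X : Data T I V) (i : I) (j j' : Fin (X.len i)) :
    hadj X (.inr (.inr ⟨i, j⟩)) (.inr (.inr ⟨i, j'⟩)) ↔ (j : ℕ) ≠ j' ∧
      ((j' : ℕ) = (j + 1) % X.len i ∨ (j : ℕ) = (j' + 1) % X.len i) := by
  constructor
  · rintro ⟨h0, _, h2⟩
    refine ⟨fun h => h0 ?_, h2⟩
    rw [Fin.ext h]
  · rintro ⟨h0, h2⟩
    refine ⟨fun h => h0 ?_, rfl, h2⟩
    exact congrArg Fin.val (eq_of_heq (Sigma.mk.inj_iff.1 h).2)

theorem hadj_ne {T I V : Type} (X : Data T I V) {i i' : I} (h : i ≠ i') (j : Fin (X.len i))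
    (j' : Fin (X.len i')) : ¬ hadj X (.inr (.inr ⟨i, j⟩)) (.inr (.inr ⟨i', j'⟩)) :=
  fun h1 => h h1.2.1

theorem adjF_cyc (i : J s0 R) (j j' : Fin (cyc (R := R) [] (emb i)).length) :
    adjF (.inr (.inr ⟨i, j⟩)) (.inr (.inr ⟨i, j'⟩)) ↔ (j : ℕ) ≠ j' ∧
      ((j' : ℕ) = (j + 1) % (cyc (R := R) [] (emb i)).length ∨
        (j : ℕ) = (j' + 1) % (cyc (R := R) [] (emb i)).length) := by
  constructor
  · rintro ⟨h0, _, h2⟩
    refine ⟨fun h => h0 ?_, h2⟩
    rw [Fin.ext h]
  · rintro ⟨h0, h2⟩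
    refine ⟨fun h => h0 ?_, rfl, h2⟩
    exact congrArg Fin.val (eq_of_heq (Sigma.mk.inj_iff.1 h).2)

theorem adjF_ne {i i' : J s0 R} (h : i ≠ i') (j : Fin (cyc (R := R) [] (emb i)).length)
    (j' : Fin (cyc (R := R) [] (emb i')).length) :
    ¬ adjF (.inr (.inr ⟨i, j⟩)) (.inr (.inr ⟨i', j'⟩)) :=
  fun h1 => h h1.2.1

theorem adjS_iff (w : List (Fin s0 × Bool)) (x y : HV (dat s0 R w)) :
    adjS w (sep R w x) (sep R w y) ↔ (HG (dat s0 R w)).Adj x y := by
  rcases x with v | u | ⟨a | b | e, j⟩ <;> rcases y with v' | u' | ⟨a' | b' | e', j'⟩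
  · exact Iff.rfl
  · exact Iff.rfl
  · exact Iff.rfl
  · exact Iff.rfl
  · exact Iff.rfl
  · exact Iff.rfl
  · exact Iff.rfl
  · exact Iff.rfl
  · exact Iff.rfl
  · exact Iff.rfl
  · exact Iff.rfl
  · exact Iff.rfl
  · by_cases h : a = a'
    · subst h
      exact (adjF_cyc (R := R) (.inl a) j j').trans
        (hadj_cyc (dat s0 R w) (.inl a) j j').symm
    · refine iff_of_false (adjF_ne (R := R) (i := .inl a) (i' := .inl a') ?_ j j')
        (hadj_ne (dat s0 R w) (i := .inl a) (i' := .inl a') ?_ j j')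
      · exact fun h' => h (Sum.inl.inj h')
      · exact fun h' => h (Sum.inl.inj h')
  · refine iff_of_false (adjF_ne (R := R) (i := .inl a) (i' := .inr b') ?_ j j')
        (hadj_ne (dat s0 R w) (i := .inl a) (i' := .inr (.inl b')) ?_ j j')
    · exact fun h' => by cases h'
    · exact fun h' => by cases h'
  · refine iff_of_false (fun h => h)
        (hadj_ne (dat s0 R w) (i := .inl a) (i' := .inr (.inr e')) ?_ j j')
    · exact fun h' => by cases h'
  · exact Iff.rfl
  · exact Iff.rfl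
  · refine iff_of_false (adjF_ne (R := R) (i := .inr b) (i' := .inl a') ?_ j j')
        (hadj_ne (dat s0 R w) (i := .inr (.inl b)) (i' := .inl a') ?_ j j')
    · exact fun h' => by cases h'
    · exact fun h' => by cases h'
  · by_cases h : b = b'
    · subst h
      exact (adjF_cyc (R := R) (.inr b) j j').trans
        (hadj_cyc (dat s0 R w) (.inr (.inl b)) j j').symm
    · refine iff_of_false (adjF_ne (R := R) (i := .inr b) (i' := .inr b') ?_ j j')
        (hadj_ne (dat s0 R w) (i := .inr (.inl b)) (i' := .inr (.inl b')) ?_ j j')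
      · exact fun h' => h (Sum.inr.inj h')
      · exact fun h' => h (Sum.inl.inj (Sum.inr.inj h'))
  · refine iff_of_false (fun h => h)
        (hadj_ne (dat s0 R w) (i := .inr (.inl b)) (i' := .inr (.inr e')) ?_ j j')
    · exact fun h' => by cases h'
  · exact Iff.rfl
  · exact Iff.rfl
  · refine iff_of_false (fun h => h)
        (hadj_ne (dat s0 R w) (i := .inr (.inr e)) (i' := .inl a') ?_ j j')
    · exact fun h' => by cases h'
  · refine iff_of_false (fun h => h)
        (hadj_ne (dat s0 R w) (i := .inr (.inr e)) (i' := .inr (.inl b')) ?_ j j')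
    · exact fun h' => by cases h'
  · by_cases h : e = e'
    · subst h
      refine Iff.trans ?_ (hadj_cyc (dat s0 R w) (.inr (.inr e)) j j').symm
      have hl : (dat s0 R w).len (.inr (.inr e)) = 3 + 3 * w.length :=
        length_cyc2 (R := R) w e
      constructor
      · rintro ⟨_, h0, h1⟩
        refine ⟨h0, ?_⟩
        have h2 : ∀ m : ℕ, m % (dat s0 R w).len (.inr (.inr e)) = m % (3 + 3 * w.length) :=
          fun m => congrArg (m % ·) hl
        rw [h2, h2]
        exact h1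
      · rintro ⟨h0, h1⟩
        have h2 : ∀ m : ℕ, m % (dat s0 R w).len (.inr (.inr e)) = m % (3 + 3 * w.length) :=
          fun m => congrArg (m % ·) hl
        rw [h2, h2] at h1
        exact ⟨rfl, h0, h1⟩
    · refine iff_of_false (fun h' => h h'.1)
        (hadj_ne (dat s0 R w) (i := .inr (.inr e)) (i' := .inr (.inr e')) ?_ j j')
      exact fun h' => h (Sum.inr.inj (Sum.inr.inj h'))

/-- number of the fixed vertices -/
noncomputable def v0 (s0 : ℕ) (R : Finset (FreeGroup (Fin s0))) : ℕ := Nat.card (Fx s0 R)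

/-- number of the cycles depending on the word -/
noncomputable def n2 : ℕ := Nat.card E2

instance neZero_v0 : NeZero (v0 s0 R) := ⟨(Nat.card_pos (α := Fx s0 R)).ne'⟩

instance neZero_n2 : NeZero n2 := ⟨by
  have : Nonempty E2 := ⟨⟨(0, 1), by decide⟩⟩
  exact (Nat.card_pos (α := E2)).ne'⟩

noncomputable def eF (R : Finset (FreeGroup (Fin s0))) : Fx s0 R ≃ Fin (v0 s0 R) :=
  Finite.equivFin _

noncomputable def eE : E2 ≃ Fin n2 := Finite.equivFin _

/-- number of vertices -/
noncomputable def nv (R : Finset (FreeGroup (Fin s0))) (w : List (Fin s0 × Bool)) : ℕ :=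
  v0 s0 R + (3 + 3 * w.length) * n2

/-- the numbering after separation -/
noncomputable def numS (R : Finset (FreeGroup (Fin s0))) (w : List (Fin s0 × Bool)) :
    Fx s0 R ⊕ (Fin (3 + 3 * w.length) × E2) ≃ Fin (nv R w) :=
  (Equiv.sumCongr (eF R) ((Equiv.prodCongr (Equiv.refl _) eE).trans finProdFinEquiv)).trans
    finSumFinEquiv

theorem numS_inl (w : List (Fin s0 × Bool)) (f : Fx s0 R) :
    (numS R w (.inl f) : ℕ) = eF R f := rfl

theorem numS_inr (w : List (Fin s0 × Bool)) (x : Fin (3 + 3 * w.length) × E2) :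
    (numS R w (.inr x) : ℕ) = v0 s0 R + (eE x.2 + n2 * x.1) := rfl

/-! ### The primitive recursive adjacency -/

open scoped Classical in
/-- table of the fixed part -/
noncomputable def tabF (R : Finset (FreeGroup (Fin s0))) (x : Fin (v0 s0 R) × Fin (v0 s0 R)) :
    Bool := decide (adjF ((eF R).symm x.1) ((eF R).symm x.2))

open scoped Classical in
/-- table of the labels -/
noncomputable def tabL (R : Finset (FreeGroup (Fin s0))) (x : Fin (v0 s0 R) × Ty s0) :
    Bool := decide (labF ((eF R).symm x.1) x.2)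

/-- the pair of the cycle number `k` -/
noncomputable def ek (k : Fin n2) : Fin 51 × Fin 51 := (eE.symm k).1

/-- the number of the cycle of the vertex `v0 + m` -/
noncomputable def cn (m : ℕ) : Fin n2 := Fin.ofNat n2 m

/-- vertices `v0 + m`, `v0 + m'` of the same cycle are adjacent -/
noncomputable def adjC (L m m' : ℕ) : Bool :=
  decide (m % n2 = m' % n2) && (! decide (m / n2 = m' / n2)) &&
    (decide (m' / n2 = (m / n2 + 1) % L) || decide (m / n2 = (m' / n2 + 1) % L))

/-- the adjacency -/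
noncomputable def PP (R : Finset (FreeGroup (Fin s0))) (w : List (Fin s0 × Bool)) (i j : ℕ) :
    Bool :=
  bif decide (i < v0 s0 R) then
    (bif decide (j < v0 s0 R) then tabF R (Fin.ofNat _ i, Fin.ofNat _ j)
      else tabL R (Fin.ofNat _ i, ty2 w (ek (cn (j - v0 s0 R))) ((j - v0 s0 R) / n2)))
  else
    (bif decide (j < v0 s0 R) then
      tabL R (Fin.ofNat _ j, ty2 w (ek (cn (i - v0 s0 R))) ((i - v0 s0 R) / n2))
      else adjC (3 + 3 * w.length) (i - v0 s0 R) (j - v0 s0 R))

theorem ofNat_self {n : ℕ} [NeZero n] (i : Fin n) : Fin.ofNat n (i : ℕ) = i := by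
  apply Fin.ext
  simp [Fin.ofNat, Nat.mod_eq_of_lt i.2]

theorem mod_n2 (k : Fin n2) (j : ℕ) : (k + n2 * j) % n2 = k := by
  rw [Nat.add_mul_mod_self_left, Nat.mod_eq_of_lt k.2]

theorem div_n2 (k : Fin n2) (j : ℕ) : (k + n2 * j) / n2 = j := by
  rw [Nat.add_mul_div_left _ _ (Nat.pos_of_ne_zero (NeZero.ne n2)), Nat.div_eq_of_lt k.2,
    Nat.zero_add]

theorem ek_cn (e : E2) (j : ℕ) : ek (cn (eE e + n2 * j)) = e.1 := by
  have h : cn (eE e + n2 * j) = eE e := by
    apply Fin.ext
    exact mod_n2 _ _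
  rw [h, ek, Equiv.symm_apply_apply]

theorem tabF_iff (f g : Fx s0 R) : tabF R (eF R f, eF R g) = true ↔ adjF f g := by
  classical
  unfold tabF
  rw [decide_eq_true_iff, Equiv.symm_apply_apply, Equiv.symm_apply_apply]

theorem tabL_iff (f : Fx s0 R) (t : Ty s0) : tabL R (eF R f, t) = true ↔ labF f t := by
  classical
  unfold tabL
  rw [decide_eq_true_iff, Equiv.symm_apply_apply]

theorem PP_iff (w : List (Fin s0 × Bool)) (x y : Fx s0 R ⊕ (Fin (3 + 3 * w.length) × E2)) :
    PP R w (numS R w x) (numS R w y) = true ↔ adjS w x y := by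
  rcases x with f | ⟨i, e⟩ <;> rcases y with g | ⟨j, e'⟩
  · have h1 : (numS R w (.inl f) : ℕ) < v0 s0 R := (eF R f).2
    have h2 : (numS R w (.inl g) : ℕ) < v0 s0 R := (eF R g).2
    rw [PP, decide_eq_true h1, decide_eq_true h2, cond_true, cond_true, numS_inl, numS_inl,
      ofNat_self, ofNat_self, tabF_iff]
    exact Iff.rfl
  · have h1 : (numS R w (.inl f) : ℕ) < v0 s0 R := (eF R f).2
    have h2 : ¬ (numS R w (.inr (j, e')) : ℕ) < v0 s0 R := by rw [numS_inr]; omega
    rw [PP, decide_eq_true h1, decide_eq_false h2, cond_true, cond_false, numS_inl, numS_inr,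
      ofNat_self, Nat.add_sub_cancel_left, ek_cn, div_n2, tabL_iff]
    exact Iff.rfl
  · have h1 : (numS R w (.inl g) : ℕ) < v0 s0 R := (eF R g).2
    have h2 : ¬ (numS R w (.inr (i, e)) : ℕ) < v0 s0 R := by rw [numS_inr]; omega
    rw [PP, decide_eq_true h1, decide_eq_false h2, cond_true, cond_false, numS_inl, numS_inr,
      ofNat_self, Nat.add_sub_cancel_left, ek_cn, div_n2, cond_true, tabL_iff]
    exact Iff.rfl
  · have h1 : ¬ (numS R w (.inr (i, e)) : ℕ) < v0 s0 R := by rw [numS_inr]; omega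
    have h2 : ¬ (numS R w (.inr (j, e')) : ℕ) < v0 s0 R := by rw [numS_inr]; omega
    rw [PP, decide_eq_false h1, decide_eq_false h2, cond_false, cond_false, numS_inr, numS_inr,
      Nat.add_sub_cancel_left, Nat.add_sub_cancel_left, adjC, mod_n2, mod_n2, div_n2, div_n2]
    have h3 : (((eE e : Fin n2) : ℕ) = (eE e' : Fin n2)) ↔ e = e' := by
      rw [Fin.val_inj, EmbeddingLike.apply_eq_iff_eq]
    simp only [Bool.and_eq_true, Bool.or_eq_true, Bool.not_eq_true', decide_eq_true_eq,
      decide_eq_false_iff_not, h3, and_assoc]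
    exact Iff.rfl

noncomputable instance pcTy : Primcodable (Ty s0) :=
  Primcodable.ofEquiv (Fin (Nat.card (Ty s0))) (Finite.equivFin _)

theorem ofNat_primrec (n : ℕ) [NeZero n] : Primrec (fun i : ℕ => Fin.ofNat n i) :=
  Primrec.fin_val_iff.1 ((Primrec.nat_mod.comp Primrec.id (Primrec.const n)).of_eq fun _ => rfl)

theorem invRev_primrec : Primrec (fun w : List (Fin s0 × Bool) => FreeGroup.invRev w) := by
  unfold FreeGroup.invRev
  refine Primrec.list_reverse.comp (Primrec.list_map Primrec.id ?_)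
  exact Primrec₂.mk (Primrec.pair (Primrec.fst.comp Primrec.snd)
    (Primrec.not.comp (Primrec.snd.comp Primrec.snd)))

theorem ty2_primrec {α : Type} [Primcodable α] {f : α → List (Fin s0 × Bool)}
    {g : α → Fin n2} {h : α → ℕ} (hf : Primrec f) (hg : Primrec g) (hh : Primrec h) :
    Primrec (fun a => ty2 (f a) (ek (g a)) (h a)) := by
  unfold ty2
  refine (Primrec.list_getD Ty.hub).comp (Primrec.list_append.comp ?_ ?_) hh
  · exact (Primrec.dom_finite
      (fun k : Fin n2 => ([Ty.hub, Ty.b (ek k).1, Ty.b (ek k).2] : List (Ty s0)))).comp hg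
  · unfold loops
    refine Primrec.list_flatMap (invRev_primrec.comp hf) ?_
    refine Primrec₂.mk ?_
    exact (Primrec.dom_finite (fun x : Fin n2 × (Fin s0 × Bool) => loop (ek x.1) x.2)).comp
      (Primrec.pair (hg.comp Primrec.fst) Primrec.snd)

theorem adjC_primrec {α : Type} [Primcodable α] {L m m' : α → ℕ}
    (hL : Primrec L) (hm : Primrec m) (hm' : Primrec m') :
    Primrec (fun a => adjC (L a) (m a) (m' a)) := by
  have hd : ∀ {f : α → ℕ}, Primrec f → Primrec fun a => f a / n2 := fun hf =>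
    Primrec.nat_div.comp hf (Primrec.const n2)
  have hr : ∀ {f : α → ℕ}, Primrec f → Primrec fun a => f a % n2 := fun hf =>
    Primrec.nat_mod.comp hf (Primrec.const n2)
  have he : ∀ {f g : α → ℕ}, Primrec f → Primrec g → Primrec fun a => decide (f a = g a) :=
    fun hf hg => (Primrec.eq.comp hf hg).decide
  have hs : ∀ {f : α → ℕ}, Primrec f → Primrec fun a => (f a + 1) % L a := fun hf =>
    Primrec.nat_mod.comp (Primrec.succ.comp hf) hL
  unfold adjC
  refine Primrec.and.comp (Primrec.and.comp (he (hr hm) (hr hm')) ?_) ?_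
  · exact Primrec.not.comp (he (hd hm) (hd hm'))
  · exact Primrec.or.comp (he (hd hm') (hs (hd hm))) (he (hd hm) (hs (hd hm')))

theorem PP_primrec (R : Finset (FreeGroup (Fin s0))) :
    Primrec (fun x : List (Fin s0 × Bool) × ℕ × ℕ => PP R x.1 x.2.1 x.2.2) := by
  have hw : Primrec (fun x : List (Fin s0 × Bool) × ℕ × ℕ => x.1) := Primrec.fst
  have hi : Primrec (fun x : List (Fin s0 × Bool) × ℕ × ℕ => x.2.1) :=
    Primrec.fst.comp Primrec.snd
  have hj : Primrec (fun x : List (Fin s0 × Bool) × ℕ × ℕ => x.2.2) :=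
    Primrec.snd.comp Primrec.snd
  have hlt : ∀ {f : List (Fin s0 × Bool) × ℕ × ℕ → ℕ}, Primrec f →
      Primrec fun x => decide (f x < v0 s0 R) := fun hf =>
    (Primrec.nat_lt.comp hf (Primrec.const _)).decide
  have hsub : ∀ {f : List (Fin s0 × Bool) × ℕ × ℕ → ℕ}, Primrec f →
      Primrec fun x => f x - v0 s0 R := fun hf => Primrec.nat_sub.comp hf (Primrec.const _)
  have hlab : ∀ {f g : List (Fin s0 × Bool) × ℕ × ℕ → ℕ}, Primrec f → Primrec g →
      Primrec fun x => tabL R (Fin.ofNat _ (f x),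
        ty2 x.1 (ek (cn (g x - v0 s0 R))) ((g x - v0 s0 R) / n2)) := by
    intro f g hf hg
    refine (Primrec.dom_finite (tabL R)).comp (Primrec.pair ((ofNat_primrec _).comp hf) ?_)
    exact ty2_primrec hw ((ofNat_primrec n2).comp (hsub hg))
      (Primrec.nat_div.comp (hsub hg) (Primrec.const n2))
  unfold PP
  refine Primrec.cond (hlt hi) (Primrec.cond (hlt hj) ?_ (hlab hi hj))
    (Primrec.cond (hlt hj) (hlab hj hi) ?_)
  · exact (Primrec.dom_finite (tabF R)).comp
      (Primrec.pair ((ofNat_primrec _).comp hi) ((ofNat_primrec _).comp hj))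
  · refine adjC_primrec ?_ (hsub hi) (hsub hj)
    exact Primrec.nat_add.comp (Primrec.const 3)
      (Primrec.nat_mul.comp (Primrec.const 3) (Primrec.list_length.comp hw))

theorem nv_primrec (R : Finset (FreeGroup (Fin s0))) : Primrec (nv R) := by
  unfold nv
  refine Primrec.nat_add.comp (Primrec.const _) (Primrec.nat_mul.comp ?_ (Primrec.const _))
  exact Primrec.nat_add.comp (Primrec.const 3)
    (Primrec.nat_mul.comp (Primrec.const 3) Primrec.list_length)

end Concrete

end CodeQ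

/-- Task Q: the graph `H_w` is computable from `w`. -/
theorem code : S_code := by
  intro s0 R
  refine ⟨CodeQ.codeOf (CodeQ.nv R) (CodeQ.PP R),
    (CodeQ.codeOf_primrec (CodeQ.nv_primrec R) (CodeQ.PP_primrec R)).to_comp, ?_⟩
  intro w
  refine CodeQ.iso_codeOf (HG (dat s0 R w)) ((CodeQ.sep R w).trans (CodeQ.numS R w)) ?_
  intro x y
  rw [← CodeQ.adjS_iff, ← CodeQ.PP_iff]
  rfl

end Pool.Agent.H533HB
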