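import Pool.Agent.H533HB.Core1

/-!
# Task VC: relator cycles, voltages, connectedness
-/

set_option autoImplicit false

namespace Pool.Agent.H533HB

open Finset
open scoped Classical

namespace VCaux

section Lists

variable {T : Type}

/-- first element of `l ++ [z]` -/
def hd : List T → T → T
  | [], z => z
  | a :: _, _ => a

/-- consecutive pairs of `l ++ [z]` -/
def pairs : List T → T → List (T × T)
  | [], _ => []
  | a :: l, z => (a, hd l z) :: pairs l z

theorem hd_append (l1 l2 : List T) (z : T) : hd (l1 ++ l2) z = hd l1 (hd l2 z) := by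
  cases l1 <;> rfl

theorem pairs_append (l1 l2 : List T) (z : T) :
    pairs (l1 ++ l2) z = pairs l1 (hd l2 z) ++ pairs l2 z := by
  induction l1 with
  | nil => rfl
  | cons a l ih =>
    show (a, hd (l ++ l2) z) :: pairs (l ++ l2) z = (a, hd l (hd l2 z)) :: _
    rw [ih, hd_append]
    rfl

theorem pairs_aux (l : List T) (d z : T) :
    (List.range l.length).map (fun j => (l.getD j d, if j + 1 < l.length then l.getD (j + 1) d
      else z)) = pairs l z := by
  induction l with
  | nil => rfl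
  | cons a l ih =>
    rw [List.length_cons, List.range_succ_eq_map, List.map_cons, List.map_map]
    show _ :: _ = (a, hd l z) :: pairs l z
    congr 1
    · cases l with
      | nil => simp [hd]
      | cons b l => simp [hd]
    · rw [← ih]
      apply List.map_congr_left
      intro j hj
      simp

theorem pairs_eq (l : List T) (d : T) :
    (List.range l.length).map (fun j => (l.getD j d, l.getD ((j + 1) % l.length) d)) =
      pairs l (l.getD 0 d) := by
  rw [← pairs_aux l d]
  apply List.map_congr_left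
  intro j hj
  rw [List.mem_range] at hj
  congr 1
  split_ifs with h
  · rw [Nat.mod_eq_of_lt h]
  · have : j + 1 = l.length := by omega
    rw [this, Nat.mod_self]

theorem pairs_adj (P : T → T → Prop) (l : List T) (d : T) (h : ∀ x ∈ pairs l (l.getD 0 d), P x.1 x.2) :
    ∀ j < l.length, P (l.getD j d) (l.getD ((j + 1) % l.length) d) := by
  intro j hj
  rw [← pairs_eq l d] at h
  exact h _ (List.mem_map.mpr ⟨j, List.mem_range.mpr hj, rfl⟩)

theorem pairs_prod {A : Type} [Group A] (f : T → T → A) (l : List T) (d : T) :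
    ((List.range l.length).map (fun j => f (l.getD j d) (l.getD ((j + 1) % l.length) d))).prod =
      ((pairs l (l.getD 0 d)).map (fun x => f x.1 x.2)).prod := by
  rw [← pairs_eq l d, List.map_map]
  rfl

end Lists

variable {s0 : ℕ} {R : Finset (FreeGroup (Fin s0))}

theorem loop_hd (e : Fin 51 × Fin 51) (u : List (Fin s0 × Bool)) :
    hd (loops e u) (.hub : Ty s0) = .hub := by
  cases u with
  | nil => rfl
  | cons a u =>
    rcases a with ⟨s, _ | _⟩ <;> rfl

theorem loops_cons (e : Fin 51 × Fin 51) (a : Fin s0 × Bool) (u : List (Fin s0 × Bool)) :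
    loops e (a :: u) = loop e a ++ loops e u := by
  simp [loops]

theorem loops_adj (e : Fin 51 × Fin 51) (u : List (Fin s0 × Bool)) :
    ∀ x ∈ pairs (loops e u) (.hub : Ty s0), (TAg s0).Adj x.1 x.2 := by
  induction u with
  | nil => intro x hx; simp [loops, pairs] at hx
  | cons a u ih =>
    intro x hx
    rw [loops_cons, pairs_append, loop_hd, List.mem_append] at hx
    rcases hx with hx | hx
    · rcases a with ⟨s, _ | _⟩
      · simp only [loop, pairs, hd, List.mem_cons, List.not_mem_nil, or_false] at hx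
        rcases hx with rfl | rfl | rfl
        · exact trivial
        · exact ⟨rfl, rfl⟩
        · exact trivial
      · simp only [loop, pairs, hd, List.mem_cons, List.not_mem_nil, or_false] at hx
        rcases hx with rfl | rfl | rfl
        · exact trivial
        · exact ⟨rfl, rfl⟩
        · exact trivial
    · exact ih x hx

theorem loops_length (e : Fin 51 × Fin 51) (u : List (Fin s0 × Bool)) :
    (loops e u).length = 3 * u.length := by
  induction u with
  | nil => rfl
  | cons a u ih =>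
    rw [loops_cons, List.length_append, ih, List.length_cons]
    rcases a with ⟨s, _ | _⟩ <;> simp [loop] <;> ring

theorem cls_append (u v : List (Fin s0 × Bool)) : cls R (u ++ v) = cls R u * cls R v := by
  unfold cls
  rw [← QuotientGroup.mk_mul, FreeGroup.mul_mk]

theorem cls_nil : cls R ([] : List (Fin s0 × Bool)) = 1 := by
  unfold cls
  rw [← FreeGroup.one_eq_mk, QuotientGroup.mk_one]

theorem cls_false (s : Fin s0) : cls R [(s, false)] = (cls R [(s, true)])⁻¹ := by
  unfold cls
  rw [← QuotientGroup.mk_inv, FreeGroup.inv_mk]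
  rfl

theorem cls_invRev (u : List (Fin s0 × Bool)) : cls R (FreeGroup.invRev u) = (cls R u)⁻¹ := by
  unfold cls
  rw [← QuotientGroup.mk_inv, FreeGroup.inv_mk]

theorem loops_prod (w : List (Fin s0 × Bool)) (e : Fin 51 × Fin 51) (u : List (Fin s0 × Bool)) :
    ((pairs (loops e u) (.hub : Ty s0)).map (fun x => volt R w x.1 x.2)).prod =
      Pi.mulSingle e (cls R u) := by
  induction u with
  | nil =>
    rw [cls_nil, Pi.mulSingle_one]
    rfl
  | cons a u ih =>
    rw [loops_cons, pairs_append, loop_hd, List.map_append, List.prod_append, ih]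
    have h1 : cls R (a :: u) = cls R [a] * cls R u := by
      rw [← cls_append]; rfl
    rw [h1, Pi.mulSingle_mul]
    congr 1
    rcases a with ⟨s, _ | _⟩
    · rw [cls_false, Pi.mulSingle_inv]
      simp [loop, pairs, hd, volt]
    · simp [loop, pairs, hd, volt]

theorem cyc_length (w : List (Fin s0 × Bool)) (i : Idx s0 R) : 3 ≤ (cyc w i).length := by
  rcases i with x | ⟨e, r⟩ | e
  · simp [cyc]
  · show 3 ≤ (loops e r.1.toWord).length
    rw [loops_length]
    have : r.1.toWord ≠ [] := by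
      rw [Ne, FreeGroup.toWord_eq_nil_iff]
      exact r.2.2
    have := List.length_pos_iff.mpr this
    omega
  · show 3 ≤ ([.hub, .b e.1.1, .b e.1.2] ++ loops e.1 (FreeGroup.invRev w) : List (Ty s0)).length
    simp

theorem cyc_adj (w : List (Fin s0 × Bool)) (i : Idx s0 R) :
    ∀ x ∈ pairs (cyc w i) ((cyc w i).getD 0 .hub), (TAg s0).Adj x.1 x.2 := by
  rcases i with x | ⟨e, r⟩ | e
  · intro y hy
    simp only [cyc, pairs, hd, List.getD_cons_zero, List.mem_cons, List.not_mem_nil,
      or_false] at hy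
    rcases hy with rfl | rfl | rfl | rfl
    · exact x.2.1
    · exact x.2.1.symm
    · exact x.2.2
    · exact x.2.2.symm
  · have h : (cyc w (Sum.inr (Sum.inl (e, r)) : Idx s0 R)).getD 0 .hub = .hub := by
      show (loops e r.1.toWord).getD 0 .hub = .hub
      rcases r.1.toWord with _ | ⟨⟨s, _ | _⟩, u⟩ <;> rfl
    rw [h]
    exact loops_adj e _
  · have h : (cyc w (Sum.inr (Sum.inr e) : Idx s0 R)).getD 0 .hub = .hub := rfl
    rw [h]
    show ∀ x ∈ pairs ([.hub, .b e.1.1, .b e.1.2] ++ loops e.1 (FreeGroup.invRev w)) .hub, _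
    intro y hy
    rw [pairs_append, loop_hd, List.mem_append] at hy
    rcases hy with hy | hy
    · simp only [pairs, hd, List.mem_cons, List.not_mem_nil, or_false] at hy
      rcases hy with rfl | rfl | rfl
      · exact trivial
      · exact ne_of_lt e.2
      · exact trivial
    · exact loops_adj e.1 _ y hy

end VCaux

theorem cycOK : S_cycOK := by
  intro s0 R w
  refine ⟨fun i => VCaux.cyc_length w i, fun i => ?_⟩
  exact VCaux.pairs_adj (TAg s0).Adj (cyc w i) .hub (VCaux.cyc_adj w i)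

namespace VCaux

variable {s0 : ℕ} {R : Finset (FreeGroup (Fin s0))}

theorem volt_inv (w : List (Fin s0 × Bool)) (s t : Ty s0) (h : (TAg s0).Adj s t) :
    volt R w t s = (volt R w s t)⁻¹ := by
  rcases s with _ | a | ⟨e, s⟩ | ⟨e, s⟩ <;> rcases t with _ | a' | ⟨e', s'⟩ | ⟨e', s'⟩ <;>
    simp only [volt, inv_one, inv_inv]
  have hne : a ≠ a' := h
  rcases lt_or_gt_of_ne hne with h1 | h1
  · rw [if_pos h1, if_neg (not_lt.mpr h1.le), if_pos h1]
  · rw [if_pos h1, if_neg (not_lt.mpr h1.le), if_pos h1, inv_inv]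

theorem volt_hol (w : List (Fin s0 × Bool)) (i : Idx s0 R) :
    ((pairs (cyc w i) ((cyc w i).getD 0 .hub)).map (fun x => volt R w x.1 x.2)).prod = 1 := by
  rcases i with x | ⟨e, r⟩ | e
  · simp only [cyc, pairs, hd, List.getD_cons_zero, List.map_cons, List.map_nil,
      List.prod_cons, List.prod_nil]
    rw [volt_inv w _ _ x.2.1, volt_inv w _ _ x.2.2]
    group
  · have h : (cyc w (Sum.inr (Sum.inl (e, r)) : Idx s0 R)).getD 0 .hub = .hub := by
      show (loops e r.1.toWord).getD 0 .hub = .hub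
      rcases r.1.toWord with _ | ⟨⟨s, _ | _⟩, u⟩ <;> rfl
    rw [h]
    show ((pairs (loops e r.1.toWord) .hub).map (fun x => volt R w x.1 x.2)).prod = 1
    rw [loops_prod]
    have h1 : cls R r.1.toWord = 1 := by
      unfold cls
      rw [FreeGroup.mk_toWord, QuotientGroup.eq_one_iff]
      exact Subgroup.subset_normalClosure (by exact_mod_cast r.2.1)
    rw [h1, Pi.mulSingle_one]
  · have h : (cyc w (Sum.inr (Sum.inr e) : Idx s0 R)).getD 0 .hub = .hub := rfl
    rw [h]
    show ((pairs ([.hub, .b e.1.1, .b e.1.2] ++ loops e.1 (FreeGroup.invRev w)) .hub).map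
      (fun x => volt R w x.1 x.2)).prod = 1
    rw [pairs_append, loop_hd, List.map_append, List.prod_append, loops_prod, cls_invRev,
      Pi.mulSingle_inv]
    simp only [pairs, hd, List.map_cons, List.map_nil, List.prod_cons, List.prod_nil, volt]
    rw [if_pos e.2]
    simp

theorem kill {Γ : Type} [Group Γ] (a b g h w : Γ) (n n' : ℤ) (h1 : a ^ n = g * w * g⁻¹)
    (h2 : a ^ n' = 1) (h3 : b ^ n = 1) (h4 : b ^ n' = h * w * h⁻¹) : w = 1 := by
  rcases Nat.eq_zero_or_pos (Int.gcd n n') with hd | hd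
  · rw [Int.gcd_eq_zero_iff] at hd
    rw [hd.1, zpow_zero] at h1
    have : w = g⁻¹ * (g * w * g⁻¹) * g := by group
    rw [this, ← h1]
    group
  · obtain ⟨k, l, hkl, hk, hl⟩ := Int.exists_gcd_one hd
    set d : ℤ := (Int.gcd n n' : ℤ)
    have e1 : w ^ l = 1 := by
      have : (g * w * g⁻¹) ^ l = 1 := by
        rw [← h1, ← zpow_mul, hk, show k * d * l = (l * d) * k by ring, zpow_mul, ← hl, h2,
          one_zpow]
      rw [conj_zpow] at this
      have h5 : w ^ l = g⁻¹ * (g * w ^ l * g⁻¹) * g := by group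
      rw [h5, this]; group
    have e2 : w ^ k = 1 := by
      have : (h * w * h⁻¹) ^ k = 1 := by
        rw [← h4, ← zpow_mul, hl, show l * d * k = (k * d) * l by ring, zpow_mul, ← hk, h3,
          one_zpow]
      rw [conj_zpow] at this
      have h5 : w ^ k = h⁻¹ * (h * w ^ k * h⁻¹) * h := by group
      rw [h5, this]; group
    have h6 := Int.gcd_eq_gcd_ab k l
    rw [hkl] at h6
    calc w = w ^ (1 : ℤ) := (zpow_one w).symm
      _ = w ^ (k * Int.gcdA k l + l * Int.gcdB k l) := by rw [← h6]; rfl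
      _ = 1 := by rw [zpow_add, zpow_mul, zpow_mul, e1, e2, one_zpow, one_zpow, one_mul]

/-- the key used for sorting -/
def key {s0 : ℕ} : Ty s0 → ℕ
  | .hub => 0
  | .b a => a + 1
  | .p _ _ => 0
  | .q _ _ => 0

theorem four_types (t : Fin 4 → Ty s0) (ht : ∀ i j, i ≠ j → (TAg s0).Adj (t i) (t j)) (i : Fin 4) :
    t i = .hub ∨ ∃ a, t i = .b a := by
  have q : ∀ i : Fin 4, i ≠ i + 1 ∧ i ≠ i + 2 ∧ i ≠ i + 3 ∧ i + 1 ≠ i + 2 ∧ i + 1 ≠ i + 3 ∧
      i + 2 ≠ i + 3 := by decide
  obtain ⟨q1, q2, q3, q4, q5, q6⟩ := q i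
  have h1 := ht i (i + 1) q1
  have h2 := ht i (i + 2) q2
  have h3 := ht i (i + 3) q3
  have h4 := ht (i + 1) (i + 2) q4
  have h5 := ht (i + 1) (i + 3) q5
  have h6 := ht (i + 2) (i + 3) q6
  rcases hi : t i with _ | a | ⟨e, s⟩ | ⟨e, s⟩
  · exact Or.inl rfl
  · exact Or.inr ⟨a, rfl⟩
  · exfalso
    rw [hi] at h1 h2 h3
    rcases ha : t (i + 1) with _ | a | ⟨e1, s1⟩ | ⟨e1, s1⟩ <;> rw [ha] at h1 h4 h5 <;>
      try (exact h1)
    all_goals
      rcases hb : t (i + 2) with _ | b | ⟨e2, s2⟩ | ⟨e2, s2⟩ <;> rw [hb] at h2 h4 h6 <;>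
        try (first | exact h2 | exact h4)
    all_goals
      rcases hc : t (i + 3) with _ | c | ⟨e3, s3⟩ | ⟨e3, s3⟩ <;> rw [hc] at h3 h5 h6 <;>
        (first | exact h3 | exact h5 | exact h6)
  · exfalso
    rw [hi] at h1 h2 h3
    rcases ha : t (i + 1) with _ | a | ⟨e1, s1⟩ | ⟨e1, s1⟩ <;> rw [ha] at h1 h4 h5 <;>
      try (exact h1)
    all_goals
      rcases hb : t (i + 2) with _ | b | ⟨e2, s2⟩ | ⟨e2, s2⟩ <;> rw [hb] at h2 h4 h6 <;>
        try (first | exact h2 | exact h4)
    all_goals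
      rcases hc : t (i + 3) with _ | c | ⟨e3, s3⟩ | ⟨e3, s3⟩ <;> rw [hc] at h3 h5 h6 <;>
        (first | exact h3 | exact h5 | exact h6)

/-- the sorted case -/
theorem nok4_sorted (w : List (Fin s0 × Bool))
    (hw : cls R w ≠ 1) (u : GG R) (t : Fin 4 → Ty s0) (g : Fin 4 → GG R) (a1 a2 a3 : Fin 51)
    (h12 : a1 < a2) (h23 : a2 < a3) (ht1 : t 1 = .b a1) (ht2 : t 2 = .b a2) (ht3 : t 3 = .b a3)
    (ht0 : t 0 = .hub ∨ ∃ a0, a0 < a1 ∧ t 0 = .b a0)
    (h : ∀ i j, i ≠ j → g i * volt R w (t i) (t j) * (g j)⁻¹ ∈ Subgroup.zpowers u) : False := by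
  have walk : ∀ i j l : Fin 4, i ≠ j → j ≠ l → l ≠ i →
      g i * (volt R w (t i) (t j) * volt R w (t j) (t l) * volt R w (t l) (t i)) * (g i)⁻¹ ∈
        Subgroup.zpowers u := by
    intro i j l hij hjl hli
    have := mul_mem (mul_mem (h i j hij) (h j l hjl)) (h l i hli)
    convert this using 1
    group
  obtain ⟨n, hn⟩ := walk 0 1 2 (by decide) (by decide) (by decide)
  obtain ⟨n', hn'⟩ := walk 0 1 3 (by decide) (by decide) (by decide)
  have h13 : a1 < a3 := h12.trans h23
  apply hw
  have hx : ∀ c : Fin 51, a1 < c →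
      (volt R w (t 0) (.b a1) * volt R w (.b a1) (.b c) * volt R w (.b c) (t 0)) (a1, c) =
        cls R w ∧ ∀ c' : Fin 51, c' ≠ c →
      (volt R w (t 0) (.b a1) * volt R w (.b a1) (.b c) * volt R w (.b c) (t 0)) (a1, c') = 1 := by
    intro c hc
    rcases ht0 with ht0 | ⟨a0, ha0, ht0⟩
    · rw [ht0]
      simp only [volt, if_pos hc, one_mul, mul_one]
      refine ⟨Pi.mulSingle_eq_same _ _, fun c' hc' => ?_⟩
      exact Pi.mulSingle_eq_of_ne (by simpa using hc') _
    · rw [ht0]
      have h0c : a0 < c := ha0.trans hc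
      simp only [volt, if_pos hc, if_pos ha0, if_neg (not_lt.mpr h0c.le), if_pos h0c]
      have hne : ∀ c c' : Fin 51, ((a1, c) : Fin 51 × Fin 51) ≠ (a0, c') := by
        intro c c' h
        exact (ne_of_gt ha0) (Prod.mk.inj h).1
      refine ⟨?_, fun c' hc' => ?_⟩
      · rw [Pi.mul_apply, Pi.mul_apply, Pi.inv_apply, Pi.mulSingle_eq_same,
          Pi.mulSingle_eq_of_ne (hne _ _), Pi.mulSingle_eq_of_ne (hne _ _)]
        group
      · rw [Pi.mul_apply, Pi.mul_apply, Pi.inv_apply, Pi.mulSingle_eq_of_ne (i := (a1, c)),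
          Pi.mulSingle_eq_of_ne (hne _ _), Pi.mulSingle_eq_of_ne (hne _ _)]
        · group
        · simpa using hc'
  rw [ht1, ht2] at hn
  rw [ht1, ht3] at hn'
  have e1 := congrFun hn (a1, a2)
  have e2 := congrFun hn (a1, a3)
  have e3 := congrFun hn' (a1, a2)
  have e4 := congrFun hn' (a1, a3)
  obtain ⟨x1, x2⟩ := hx a2 h12
  obtain ⟨x3, x4⟩ := hx a3 h13
  have f1 : (u (a1, a2)) ^ n = g 0 (a1, a2) * cls R w * (g 0 (a1, a2))⁻¹ := by
    rw [← x1]; exact e1
  have f2 : (u (a1, a3)) ^ n = 1 := by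
    have : (u (a1, a3)) ^ n = g 0 (a1, a3) * 1 * (g 0 (a1, a3))⁻¹ := by
      rw [← x2 a3 (ne_of_gt h23)]; exact e2
    rw [this]; group
  have f3 : (u (a1, a2)) ^ n' = 1 := by
    have : (u (a1, a2)) ^ n' = g 0 (a1, a2) * 1 * (g 0 (a1, a2))⁻¹ := by
      rw [← x4 a2 (ne_of_lt h23)]; exact e3
    rw [this]; group
  have f4 : (u (a1, a3)) ^ n' = g 0 (a1, a3) * cls R w * (g 0 (a1, a3))⁻¹ := by
    rw [← x3]; exact e4
  exact kill _ _ _ _ _ n n' f1 f3 f2 f4

theorem nok4 (w : List (Fin s0 × Bool)) (hw : cls R w ≠ 1) (u : GG R) (t : Fin 4 → Ty s0)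
    (g : Fin 4 → GG R) (ht : ∀ i j, i ≠ j → (TAg s0).Adj (t i) (t j))
    (h : ∀ i j, i ≠ j → g i * volt R w (t i) (t j) * (g j)⁻¹ ∈ Subgroup.zpowers u) : False := by
  have hkinj : ∀ i j, i ≠ j → key (t i) ≠ key (t j) := by
    intro i j hij
    have h1 := ht i j hij
    rcases four_types t ht i with hi | ⟨a, hi⟩ <;> rcases four_types t ht j with hj | ⟨b, hj⟩ <;>
      rw [hi, hj] at h1 ⊢
    · exact absurd h1 (by intro h; exact h)
    · simp [key]
    · simp [key]
    · have h2 : a ≠ b := h1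
      simp only [key]
      intro h3
      exact h2 (Fin.ext (by omega))
  let σ := Tuple.sort (fun i => key (t i))
  have hmono : StrictMono (fun i => key (t (σ i))) := by
    have h1 : Monotone (fun i => key (t (σ i))) := Tuple.monotone_sort (fun i => key (t i))
    refine h1.strictMono_of_injective ?_
    intro i j hij
    by_contra hne
    exact hkinj (σ i) (σ j) (fun h => hne (σ.injective h)) hij
  have hk01 : key (t (σ 0)) < key (t (σ 1)) := hmono (by decide)
  have hk12 : key (t (σ 1)) < key (t (σ 2)) := hmono (by decide)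
  have hk23 : key (t (σ 2)) < key (t (σ 3)) := hmono (by decide)
  have hb : ∀ i, 0 < key (t (σ i)) → ∃ a : Fin 51, t (σ i) = .b a := by
    intro i hi
    rcases four_types t ht (σ i) with h1 | ⟨a, h1⟩
    · rw [h1] at hi
      exact absurd hi (by simp [key])
    · exact ⟨a, h1⟩
  obtain ⟨a1, h1⟩ := hb 1 (by omega)
  obtain ⟨a2, h2⟩ := hb 2 (by omega)
  obtain ⟨a3, h3⟩ := hb 3 (by omega)
  rw [h1] at hk01 hk12
  rw [h2] at hk12 hk23
  rw [h3] at hk23
  refine nok4_sorted w hw u (fun i => t (σ i)) (fun i => g (σ i)) a1 a2 a3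
    (by simpa [key] using hk12) (by simpa [key] using hk23) h1 h2 h3 ?_
    (fun i j hij => h _ _ (fun h => hij (σ.injective h)))
  rcases four_types t ht (σ 0) with h0 | ⟨a0, h0⟩
  · exact Or.inl h0
  · right
    rw [h0] at hk01
    exact ⟨a0, by simpa [key] using hk01, h0⟩

end VCaux

theorem voltOK : S_voltOK := by
  intro s0 R w hw
  have hw' : cls R w ≠ 1 := by
    unfold cls
    rw [Ne, QuotientGroup.eq_one_iff]
    exact hw
  refine ⟨fun s t h => VCaux.volt_inv w s t h, fun i => ?_, fun u t g ht h => ?_⟩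
  · have := VCaux.pairs_prod (volt R w) (cyc w i) .hub
    rw [VCaux.volt_hol] at this
    exact this
  · exact VCaux.nok4 w hw' u t g ht h

theorem conn : S_conn := by
  intro s0 R w
  have hlab := core_labels (Fintype.card (Ty s0))
  obtain ⟨hL, -, -, hD, -⟩ := hlab
  have htn : ∀ t : Ty s0, tnum t < Fintype.card (Ty s0) := fun t =>
    (Fintype.equivFin (Ty s0) t).2
  have hLc : ∀ t : Ty s0, #((dat s0 R w).L t) = 15 := fun t => hL _ (htn t)
  have hDc : #((dat s0 R w).D) = 3 := hD
  have hcore : ∀ k : ℕ, (HG (dat s0 R w)).Reachable (.inl ((k : ℕ) : VC (Fintype.card (Ty s0))))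
      (.inl 0) := by
    intro k
    induction k with
    | zero => rw [Nat.cast_zero]
    | succ k ih =>
      refine SimpleGraph.Reachable.trans (SimpleGraph.Adj.reachable ?_) ih
      show (coreC _).Adj _ _
      have := CoreOne.adj_step (M := Fintype.card (Ty s0)) ((k : ℕ) : VC _) (k := 0) (l := 1)
        (by omega) (by omega) (by omega) (by omega)
      rw [Nat.cast_zero, add_zero] at this
      rw [Nat.cast_succ]
      rw [Nat.cast_one] at this
      exact this.symm
  have hcore' : ∀ x : VC (Fintype.card (Ty s0)), (HG (dat s0 R w)).Reachable (.inl x) (.inl 0) := by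
    intro x
    have := hcore x.val
    rwa [ZMod.natCast_zmod_val] at this
  have hall : ∀ x : HV (dat s0 R w), (HG (dat s0 R w)).Reachable x (.inl 0) := by
    rintro (a | ⟨⟩ | ⟨i, j⟩)
    · exact hcore' a
    · obtain ⟨d, hd⟩ : (dat s0 R w).D.Nonempty := card_pos.mp (by omega)
      have hadj : (HG (dat s0 R w)).Adj (.inr (.inl ())) (.inl d) := hd
      exact hadj.reachable.trans (hcore' d)
    · obtain ⟨d, hd⟩ : ((dat s0 R w).L ((dat s0 R w).ty i j)).Nonempty :=
        card_pos.mp (by rw [hLc]; omega)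
      have hadj : (HG (dat s0 R w)).Adj (.inr (.inr ⟨i, j⟩)) (.inl d) := hd
      exact hadj.reachable.trans (hcore' d)
  have : Nonempty (HV (dat s0 R w)) := ⟨.inl 0⟩
  refine ⟨SimpleGraph.Connected.mk fun x y => (hall x).trans (hall y).symm, ?_⟩
  have key : ∀ (x : HV (dat s0 R w)) (S : Finset (VC (Fintype.card (Ty s0)))), 3 ≤ #S →
      (∀ a ∈ S, (HG (dat s0 R w)).Adj x (.inl a)) →
      3 ≤ ((HG (dat s0 R w)).neighborSet x).ncard := by
    intro x S hS h
    have : Finite (HV (dat s0 R w)) := by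
      have : Finite (Σ i : Idx s0 R, Fin ((dat s0 R w).len i)) := inferInstance
      infer_instance
    have h1 : (Sum.inl '' (S : Set (VC (Fintype.card (Ty s0)))) : Set (HV (dat s0 R w))).ncard =
        #S := by
      rw [Set.ncard_image_of_injective _ Sum.inl_injective, Set.ncard_coe_finset]
    have h2 : (Sum.inl '' (S : Set (VC (Fintype.card (Ty s0)))) : Set (HV (dat s0 R w))) ⊆
        (HG (dat s0 R w)).neighborSet x := by
      rintro _ ⟨a, ha, rfl⟩
      exact h a ha
    have h3 := Set.ncard_le_ncard h2 (Set.toFinite _)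
    omega
  rintro (a | ⟨⟩ | ⟨i, j⟩)
  · refine key _ (univ.filter fun y => (coreC (Fintype.card (Ty s0))).Adj a y) ?_ ?_
    · rw [CoreOne.card_nbr]; omega
    · intro y hy
      exact (mem_filter.mp hy).2
  · exact key _ _ (by omega) fun d hd => hd
  · exact key _ _ (by rw [hLc ((dat s0 R w).ty i j)]; omega) fun d hd => hd

end Pool.Agent.H533HB
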