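import Pool.Agent.H533HB.A2
import Pool.Agent.H533HB.A5
import Pool.Agent.H533HB.B1
import Pool.Agent.H533HB.B2
import Pool.Agent.H533HB.B3
import Pool.Agent.H533HB.B3T
import Pool.Agent.H533HB.B4
import Pool.Agent.H533HB.B5
import Pool.Agent.H533HB.CLO
import Pool.Agent.H533HB.CoreOK
import Pool.Agent.H533HB.P1
import Pool.Agent.H533HB.P2
import Pool.Agent.H533HB.P3
import Pool.Agent.H533HB.PCP
import Pool.Agent.H533HB.Q
import Pool.Agent.H533HB.VC
import Pool.Agent.R980.Gnp
import Pool.Agent.Helper270.WPB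

/-!
# Final assembly
-/

set_option autoImplicit false

namespace Pool.Agent.H533HB

open Finset Filter Topology
open scoped Classical

theorem prob_eq_gnp (n : ℕ) (p : ℝ) (A : SimpleGraph (Fin n) → Prop) :
    prob n p A = R980.gnp n p A := rfl

theorem prob_mono {n : ℕ} {p : ℝ} (h0 : 0 ≤ p) (h1 : p ≤ 1) {A B : SimpleGraph (Fin n) → Prop}
    (h : ∀ G, A G → B G) : prob n p A ≤ prob n p B := R980.gnp_mono h0 h1 h

theorem prob_add_not (n : ℕ) (p : ℝ) (A : SimpleGraph (Fin n) → Prop) :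
    prob n p A + prob n p (fun G => ¬ A G) = 1 := R980.gnp_add_not A

theorem prob_and {n : ℕ} {p : ℝ} (h0 : 0 ≤ p) (h1 : p ≤ 1) (A B : SimpleGraph (Fin n) → Prop) :
    prob n p A + prob n p B - 1 ≤ prob n p (fun G => A G ∧ B G) := by
  have h2 := prob_add_not n p A
  have h3 := prob_add_not n p B
  have h4 := prob_add_not n p (fun G => A G ∧ B G)
  have h5 : prob n p (fun G => ¬ (A G ∧ B G)) ≤ prob n p (fun G => ¬ A G) +
      prob n p (fun G => ¬ B G) := by
    refine le_trans (prob_mono h0 h1 (B := fun G => ¬ A G ∨ ¬ B G) ?_)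
      (R980.gnp_or_le h0 h1 _ _)
    intro G hG
    by_contra h6
    push Not at h6
    exact hG h6
  linarith

theorem pc_iso {V V' : Type} {H : SimpleGraph V} {H' : SimpleGraph V'} (e : H ≃g H') (n : ℕ) :
    pc H n = pc H' n := by
  have : (Percolates H : SimpleGraph (Fin n) → Prop) = Percolates H' := by
    funext G
    exact propext (perc_iso e G)
  unfold pc
  rw [this]

/-- the set in the definition of `pc` -/
theorem pc_le {V : Type} (H : SimpleGraph V) (n : ℕ) (p : ℝ) (h0 : 0 ≤ p) (h1 : p ≤ 1)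
    (h : 1 / 2 ≤ prob n p (Percolates H)) : pc H n ≤ p :=
  csInf_le ⟨0, fun _ hq => hq.1⟩ ⟨h0, h1, h⟩

theorem le_pc {V : Type} (H : SimpleGraph V) (n : ℕ) (q : ℝ) (hpos : 0 < pc H n)
    (h : ∀ p, 0 ≤ p → p ≤ 1 → p < q → prob n p (Percolates H) < 1 / 2) : q ≤ pc H n := by
  unfold pc at hpos ⊢
  refine le_csInf ?_ ?_
  · by_contra hne
    rw [Set.not_nonempty_iff_eq_empty] at hne
    rw [hne, Real.sInf_empty] at hpos
    exact lt_irrefl _ hpos
  · rintro p ⟨h0, h1, h2⟩
    by_contra hlt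
    push Not at hlt
    have := h p h0 h1 hlt
    linarith

section Main

variable (s0 : ℕ) (R : Finset (FreeGroup (Fin s0)))

theorem exists_path (w : List (Fin s0 × Bool)) : ∃ a b c : HV (dat s0 R w), b ≠ c ∧
    (HG (dat s0 R w)).Adj a b ∧ (HG (dat s0 R w)).Adj a c := by
  have h := (conn s0 R w).2 (.inr (.inl ()))
  have h2 : 1 < ((HG (dat s0 R w)).neighborSet (.inr (.inl ()))).ncard := by omega
  rw [Set.one_lt_ncard_iff (Set.finite_of_ncard_pos (by omega))] at h2
  obtain ⟨b, c, hb, hc, hne⟩ := h2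
  exact ⟨_, b, c, hne, hb, hc⟩

theorem upper (w : List (Fin s0 × Bool))
    (hw : FreeGroup.mk w ∈ Subgroup.normalClosure (R : Set (FreeGroup (Fin s0)))) :
    ∃ β : ℝ, 1 / 16 < β ∧ ∀ᶠ n : ℕ in atTop, pc (HG (dat s0 R w)) n ≤ (n : ℝ) ^ (-β) := by
  have hI : Nonempty (Idx s0 R) := ⟨.inr (.inr ⟨(0, 1), by decide⟩)⟩
  have hN : (3 * mm (Fintype.card (Ty s0))) = 720 * Fintype.card (Ty s0) + 480 := by
    unfold mm; ring
  have h01 : (coreC (Fintype.card (Ty s0))).Adj 0 1 := by
    refine ⟨?_, Or.inl ⟨1, le_rfl, by norm_num, Or.inl (by simp)⟩⟩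
    intro h
    have h2 := congrArg ZMod.val h
    rw [ZMod.val_zero, ZMod.val_one_eq_one_mod, Nat.mod_eq_of_lt (by omega)] at h2
    omega
  obtain ⟨a, A, hA, hperc⟩ := partA (dat s0 R w) (coreOK s0 R w) (cycOK s0 R w) .hub
    (fun α => .b α) (fun α β h => by injection h) 0 1 h01
    (fun α β hne i j => multi s0 R w hw 0 1 h01 α β hne i j)
  obtain ⟨β, hβ, hβ3, hlim⟩ := contains A hA
  have hcn := cn β (by linarith) hβ3
  refine ⟨β, hβ, ?_⟩
  have h1 := hlim.eventually (lt_mem_nhds (show (3 / 4 : ℝ) < 1 by norm_num))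
  have h2 := hcn.eventually (lt_mem_nhds (show (3 / 4 : ℝ) < 1 by norm_num))
  filter_upwards [h1, h2, eventually_ge_atTop 1] with n h1 h2 hn
  have hn' : (1 : ℝ) ≤ n := by exact_mod_cast hn
  have hp0 : 0 ≤ (n : ℝ) ^ (-β) := Real.rpow_nonneg (by linarith) _
  have hp1 : (n : ℝ) ^ (-β) ≤ 1 := Real.rpow_le_one_of_one_le_of_nonpos hn' (by linarith)
  refine pc_le _ _ _ hp0 hp1 ?_
  have h3 := prob_and (n := n) hp0 hp1 (Contains A) CN
  have h4 := prob_mono (n := n) hp0 hp1 (A := fun G => Contains A G ∧ CN G)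
    (B := Percolates (HG (dat s0 R w))) (fun G hG => hperc n G hG.1 hG.2)
  linarith

theorem lower (w : List (Fin s0 × Bool))
    (hw : FreeGroup.mk w ∉ Subgroup.normalClosure (R : Set (FreeGroup (Fin s0)))) :
    ∀ β : ℝ, 1 / 16 < β → ∀ᶠ n : ℕ in atTop, (n : ℝ) ^ (-β) ≤ pc (HG (dat s0 R w)) n := by
  intro β hβ
  obtain ⟨B, hB⟩ := sp β hβ
  have : Nonempty (Ty s0) := ⟨.hub⟩
  obtain ⟨K, hK⟩ := partB B1 B2 B2c (B3 B3T) B4 perc_iff (dat s0 R w) (coreOK s0 R w)
    (cycOK s0 R w) (volt R w) (voltOK s0 R w hw) B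
  filter_upwards [hB K, eventually_ge_atTop (Fintype.card (VC (Fintype.card (Ty s0)))),
    eventually_ge_atTop 2] with n h1 h2 h3
  refine le_pc _ _ _ (pc_pos _ (exists_path s0 R w) n h3).1 ?_
  intro p hp0 hp1 hp
  have h4 := h1 p hp0 hp.le
  have h5 := prob_mono (n := n) hp0 hp1 (A := Sp B K)
    (B := fun G => ¬ Percolates (HG (dat s0 R w)) G) (fun G hG => hK n G h2 hG)
  have h6 := prob_add_not n p (Percolates (HG (dat s0 R w)))
  linarith

end Main

/-- The graphs considered: connected, of minimum degree at least three. -/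
def Good (c : ℕ × List (ℕ × ℕ)) : Prop :=
  (graphOf c).Connected ∧ ∀ x, 3 ≤ ((graphOf c).neighborSet x).ncard

theorem good_iso {V : Type} {c : ℕ × List (ℕ × ℕ)} {H : SimpleGraph V} (e : graphOf c ≃g H)
    (h1 : H.Connected) (h2 : ∀ x, 3 ≤ (H.neighborSet x).ncard) : Good c := by
  refine ⟨e.connected_iff.2 h1, fun x => ?_⟩
  refine (h2 (e x)).trans_eq ?_
  rw [← Set.ncard_image_of_injective _ e.injective]
  congr 1
  ext y
  constructor
  · intro hy
    refine ⟨e.symm y, ?_, by simp⟩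
    have : H.Adj (e x) (e (e.symm y)) := by simpa using hy
    exact e.map_rel_iff.1 this
  · rintro ⟨z, hz, rfl⟩
    exact e.map_rel_iff.2 hz

theorem pc_pos_of_good (c : ℕ × List (ℕ × ℕ)) (h : Good c) (n : ℕ) (hn : 2 ≤ n) :
    0 < pc (graphOf c) n ∧ pc (graphOf c) n ≤ 1 := by
  have hne : Nonempty (Fin c.1) := h.1.nonempty
  obtain ⟨a⟩ := hne
  have h2 := h.2 a
  have h3 : 1 < ((graphOf c).neighborSet a).ncard := by omega
  rw [Set.one_lt_ncard_iff (Set.finite_of_ncard_pos (by omega))] at h3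
  obtain ⟨b, d, hb, hd, hne⟩ := h3
  exact pc_pos _ ⟨a, b, d, hne, hb, hd⟩ n hn

/-- the sequence `log p_c / log n` -/
noncomputable def expo (c : ℕ × List (ℕ × ℕ)) (n : ℕ) : EReal :=
  ((Real.log (pc (graphOf c) n) / Real.log n : ℝ) : EReal)

theorem limsup_lt {c : ℕ × List (ℕ × ℕ)} (hc : Good c)
    (h : ∃ β : ℝ, 1 / 16 < β ∧ ∀ᶠ n : ℕ in atTop, pc (graphOf c) n ≤ (n : ℝ) ^ (-β)) :
    limsup (expo c) atTop < ((-1 / 16 : ℝ) : EReal) := by
  obtain ⟨β, hβ, hev⟩ := h
  have h1 : limsup (expo c) atTop ≤ ((-β : ℝ) : EReal) := by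
    refine limsup_le_of_le (by isBoundedDefault) ?_
    filter_upwards [hev, eventually_ge_atTop 2] with n h1 h2
    have h3 : (0 : ℝ) < Real.log n := Real.log_pos (by exact_mod_cast h2)
    have h4 := Real.log_le_log (pc_pos_of_good c hc n h2).1 h1
    rw [Real.log_rpow (by positivity)] at h4
    unfold expo
    exact_mod_cast (div_le_iff₀ h3).2 h4
  refine h1.trans_lt ?_
  have : -β < -1 / 16 := by linarith
  exact_mod_cast this

theorem le_liminf {c : ℕ × List (ℕ × ℕ)}
    (h : ∀ β : ℝ, 1 / 16 < β → ∀ᶠ n : ℕ in atTop, (n : ℝ) ^ (-β) ≤ pc (graphOf c) n) :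
    ((-1 / 16 : ℝ) : EReal) ≤ liminf (expo c) atTop := by
  have h1 : ∀ β : ℝ, 1 / 16 < β → ((-β : ℝ) : EReal) ≤ liminf (expo c) atTop := by
    intro β hβ
    refine le_liminf_of_le (by isBoundedDefault) ?_
    filter_upwards [h β hβ, eventually_ge_atTop 2] with n h1 h2
    have h3 : (0 : ℝ) < Real.log n := Real.log_pos (by exact_mod_cast h2)
    have h4 := Real.log_le_log (by positivity) h1
    rw [Real.log_rpow (by positivity)] at h4
    unfold expo
    exact_mod_cast (le_div_iff₀ h3).2 h4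
  refine le_of_forall_lt fun x hx => ?_
  obtain ⟨y, hxy, hy⟩ := EReal.lt_iff_exists_real_btwn.1 hx
  have hy' : y < -1 / 16 := by exact_mod_cast hy
  have h2 := h1 (-y) (by linarith)
  rw [neg_neg] at h2
  exact hxy.trans_le h2

theorem family :
    ∃ c : ℕ → ℕ × List (ℕ × ℕ), Computable c ∧ (∀ k, Good (c k)) ∧
      (∀ k, limsup (expo (c k)) atTop < ((-1 / 16 : ℝ) : EReal) ∨
        ((-1 / 16 : ℝ) : EReal) ≤ liminf (expo (c k)) atTop) ∧
      ¬ ComputablePred fun k => limsup (expo (c k)) atTop < ((-1 / 16 : ℝ) : EReal) := by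
  obtain ⟨m, R, W, hW, hun⟩ := Helper270.WP.word_problem
  obtain ⟨code, hcode, hiso⟩ := code m R
  have hgood : ∀ k, Good (code (W k)) := fun k => by
    obtain ⟨e⟩ := hiso (W k)
    exact good_iso e (conn m R (W k)).1 (conn m R (W k)).2
  have hup : ∀ k, FreeGroup.mk (W k) ∈ Subgroup.normalClosure (R : Set (FreeGroup (Fin m))) →
      limsup (expo (code (W k))) atTop < ((-1 / 16 : ℝ) : EReal) := by
    intro k hk
    obtain ⟨e⟩ := hiso (W k)
    refine limsup_lt (hgood k) ?_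
    simp only [pc_iso e]
    exact upper m R (W k) hk
  have hlo : ∀ k, FreeGroup.mk (W k) ∉ Subgroup.normalClosure (R : Set (FreeGroup (Fin m))) →
      ((-1 / 16 : ℝ) : EReal) ≤ liminf (expo (code (W k))) atTop := by
    intro k hk
    obtain ⟨e⟩ := hiso (W k)
    refine le_liminf ?_
    simp only [pc_iso e]
    exact lower m R (W k) hk
  refine ⟨fun k => code (W k), hcode.comp hW, hgood, ?_, ?_⟩
  · intro k
    by_cases hk : FreeGroup.mk (W k) ∈ Subgroup.normalClosure (R : Set (FreeGroup (Fin m)))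
    · exact Or.inl (hup k hk)
    · exact Or.inr (hlo k hk)
  · intro hc
    apply hun
    have : (fun k => limsup (expo (code (W k))) atTop < ((-1 / 16 : ℝ) : EReal)) =
        fun k => FreeGroup.mk (W k) ∈
          Subgroup.normalClosure (R : Set (FreeGroup (Fin m))) := by
      funext k
      apply propext
      constructor
      · intro h
        by_contra hk
        have h1 := hlo k hk
        have h2 : liminf (expo (code (W k))) atTop ≤ limsup (expo (code (W k))) atTop :=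
          liminf_le_limsup
        exact absurd h (not_lt.2 (h1.trans h2))
      · exact hup k
    rw [this] at hc
    exact hc

theorem no_function {c : ℕ → ℕ × List (ℕ × ℕ)} (hc : Computable c)
    (h2 : ∀ k, limsup (expo (c k)) atTop < ((-1 / 16 : ℝ) : EReal) ∨
        ((-1 / 16 : ℝ) : EReal) ≤ liminf (expo (c k)) atTop)
    (h3 : ¬ ComputablePred fun k => limsup (expo (c k)) atTop < ((-1 / 16 : ℝ) : EReal))
    (f : ℕ × List (ℕ × ℕ) → ℕ × ℕ) (hf : Computable f)
    (hfs : ∀ k, liminf (expo (c k)) atTop ≤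
        ((-((f (c k)).1 / ((f (c k)).2 + 1) : ℝ) : ℝ) : EReal) ∧
      ((-((f (c k)).1 / ((f (c k)).2 + 1) : ℝ) : ℝ) : EReal) ≤
        limsup (expo (c k)) atTop) : False := by
  apply h3
  have key : ∀ k, limsup (expo (c k)) atTop < ((-1 / 16 : ℝ) : EReal) ↔
      (f (c k)).2 + 1 < 16 * (f (c k)).1 := by
    intro k
    have hq : (0 : ℝ) < (f (c k)).2 + 1 := by positivity
    constructor
    · intro h
      have h4 := (hfs k).2.trans_lt h
      have h5 : -((f (c k)).1 / ((f (c k)).2 + 1) : ℝ) < -1 / 16 := by exact_mod_cast h4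
      have h6 : (1 / 16 : ℝ) < (f (c k)).1 / ((f (c k)).2 + 1) := by linarith
      rw [div_lt_div_iff₀ (by norm_num) hq] at h6
      have h7 : (((f (c k)).2 + 1 : ℕ) : ℝ) < ((16 * (f (c k)).1 : ℕ) : ℝ) := by
        push_cast; linarith
      exact_mod_cast h7
    · intro h
      rcases h2 k with h4 | h4
      · exact h4
      · exfalso
        have h5 := h4.trans (hfs k).1
        have h6 : (-1 / 16 : ℝ) ≤ -((f (c k)).1 / ((f (c k)).2 + 1) : ℝ) := by exact_mod_cast h5
        have h7 : ((f (c k)).1 / ((f (c k)).2 + 1) : ℝ) ≤ 1 / 16 := by linarith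
        rw [div_le_div_iff₀ hq (by norm_num)] at h7
        have h8 : (((f (c k)).2 + 1 : ℕ) : ℝ) < ((16 * (f (c k)).1 : ℕ) : ℝ) := by
          exact_mod_cast h
        push_cast at h8
        linarith
  have h1 : Computable (fun k => ((f (c k)).2 + 1, 16 * (f (c k)).1)) := by
    have hf' := hf.comp hc
    refine Computable.pair (Computable.succ.comp (Computable.snd.comp hf')) ?_
    exact ((Primrec.nat_mul.comp (Primrec.const 16) Primrec.id).to_comp).comp
      (Computable.fst.comp hf')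
  have h2 : Primrec (fun x : ℕ × ℕ => decide (x.1 < x.2)) := Primrec.nat_lt.decide
  refine ComputablePred.computable_iff.2
    ⟨fun k => decide ((f (c k)).2 + 1 < 16 * (f (c k)).1), h2.to_comp.comp h1, ?_⟩
  funext k
  rw [eq_iff_iff, key k]
  simp

end Pool.Agent.H533HB
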