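import Mathlib

/-!
# H-bootstrap percolation: the definitions used in the final statement
-/

set_option autoImplicit false

namespace Pool.Agent.H533HB

open scoped Classical

/-- One round of the `H`-bootstrap process: join two distinct vertices `u v` whenever `G + uv`
contains a copy of `H` that uses `uv`. -/
def step {V W : Type} (H : SimpleGraph V) (G : SimpleGraph W) : SimpleGraph W where
  Adj u v := G.Adj u v ∨ (u ≠ v ∧ ∃ f : V → W, Function.Injective f ∧
    (∀ a b, H.Adj a b → G.Adj (f a) (f b) ∨ s(f a, f b) = s(u, v)) ∧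
    ∃ a b, H.Adj a b ∧ s(f a, f b) = s(u, v))
  symm := ⟨by
    rintro u v (h | ⟨hne, f, hf, h1, h2⟩)
    · exact Or.inl h.symm
    · refine Or.inr ⟨hne.symm, f, hf, ?_, ?_⟩
      · simpa only [Sym2.eq_swap (a := v) (b := u)] using h1
      · simpa only [Sym2.eq_swap (a := v) (b := u)] using h2⟩
  loopless := ⟨by
    rintro u (h | ⟨hne, _⟩)
    · exact G.loopless.irrefl u h
    · exact hne rfl⟩

/-- `G` percolates: some round of the `H`-process started from `G` is the complete graph. -/
def Percolates {V W : Type} (H : SimpleGraph V) (G : SimpleGraph W) : Prop :=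
  ∃ t : ℕ, (step H)^[t] G = ⊤

/-- The probability that `G(n,p)` has the property `A`. -/
noncomputable def prob (n : ℕ) (p : ℝ) (A : SimpleGraph (Fin n) → Prop) : ℝ :=
  ∑ G : SimpleGraph (Fin n),
    if A G then p ^ G.edgeSet.ncard * (1 - p) ^ (n.choose 2 - G.edgeSet.ncard) else 0

/-- The critical probability. -/
noncomputable def pc {V : Type} (H : SimpleGraph V) (n : ℕ) : ℝ :=
  sInf {p : ℝ | 0 ≤ p ∧ p ≤ 1 ∧ 1 / 2 ≤ prob n p (Percolates H)}

/-- The graph coded by a number of vertices and a list of edges. -/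
def graphOf (c : ℕ × List (ℕ × ℕ)) : SimpleGraph (Fin c.1) where
  Adj a b := a ≠ b ∧ ((a.val, b.val) ∈ c.2 ∨ (b.val, a.val) ∈ c.2)
  symm := ⟨fun _ _ h => ⟨h.1.symm, h.2.symm⟩⟩
  loopless := ⟨fun _ h => h.1 rfl⟩

end Pool.Agent.H533HB
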