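import Pool.Agent.H533HB.BDefs

/-!
# Statements of the tasks, as propositions
-/

set_option autoImplicit false

namespace Pool.Agent.H533HB

open Finset Filter Topology
open scoped Classical

/-! ### Task CLO -/

def S_perc_iff : Prop :=
  ∀ {V W : Type} [Finite V] [Finite W] (H : SimpleGraph V) (G : SimpleGraph W),
    Percolates H G ↔ ∀ G' : SimpleGraph W, G ≤ G' → HClosed H G' → G' = ⊤

def S_perc_iso : Prop :=
  ∀ {V V' W : Type} {H : SimpleGraph V} {H' : SimpleGraph V'}, (H ≃g H') →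
    ∀ (G : SimpleGraph W), Percolates H G ↔ Percolates H' G

/-! ### Task CORE -/

def S_core_edges : Prop := ∀ M : ℕ, ee (coreC M) univ univ = 32 * Fintype.card (VC M)

def S_core_c1 : Prop := ∀ (M : ℕ) (F : Finset (VC M)), F.Nonempty → F ≠ univ →
  ee (coreC M) F F + 29 ≤ 32 * #F

def S_core_c1' : Prop := ∀ (M : ℕ) (F : Finset (VC M)), F ≠ univ →
  ∀ E : Finset (VC M), E ⊆ F → #E = 3 →
    ee (coreC M) F F + 4 + 2 * #{y : VC M | y ∉ F ∧ ∀ d ∈ E, (coreC M).Adj y d} ≤ 32 * #F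

def S_core_c2 : Prop := ∀ (M : ℕ) (F : Finset (VC M)),
  (∀ K ⊆ F, #K = 6 → ¬ (coreC M).IsClique (K : Set (VC M))) → ee (coreC M) F F ≤ 10 * #F

def S_core_c3 : Prop := ∀ (M : ℕ) (a : VC M) (J : Finset (VC M)),
  (∀ x ∈ J, (coreC M).Adj a x) → ee (coreC M) J J ≤ 2 → #J ≤ 4

def S_core_rigid : Prop := ∀ (M : ℕ) (ψ : VC M → VC M), Function.Injective ψ →
  ∀ f0 : Sym2 (VC M),
    (∀ a b, (coreC M).Adj a b → s(a, b) ≠ f0 → (coreC M).Adj (ψ a) (ψ b)) → ψ = id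

def S_core_labels : Prop := ∀ M : ℕ,
  (∀ t < M, #(coreL M t) = 15) ∧
  (∀ s < M, ∀ t < M, s ≠ t → Disjoint (coreL M s) (coreL M t)) ∧
  (∀ t < M, ∀ a ∈ coreL M t, ∀ b ∈ coreL M t, ¬ (coreC M).Adj a b) ∧
  #(coreD M) = 3 ∧ (∀ t < M, Disjoint (coreD M) (coreL M t))

def S_core_col : Prop := ∀ M : ℕ,
  ∃ c : VC M → Fin 48, ∀ a b, (coreC M).Adj a b → c a ≠ c b

def S_coreOK : Prop := ∀ (s0 : ℕ) (R : Finset (FreeGroup (Fin s0)))
  (w : List (Fin s0 × Bool)), CoreOK (dat s0 R w)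

/-! ### Tasks CYC, VOLT, CONN -/

def S_cycOK : Prop := ∀ (s0 : ℕ) (R : Finset (FreeGroup (Fin s0)))
  (w : List (Fin s0 × Bool)), CycOK (dat s0 R w)

def S_voltOK : Prop := ∀ (s0 : ℕ) (R : Finset (FreeGroup (Fin s0)))
  (w : List (Fin s0 × Bool)),
  FreeGroup.mk w ∉ Subgroup.normalClosure (R : Set (FreeGroup (Fin s0))) →
  Volt (dat s0 R w) (volt R w)

def S_conn : Prop := ∀ (s0 : ℕ) (R : Finset (FreeGroup (Fin s0)))
  (w : List (Fin s0 × Bool)),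
  (HG (dat s0 R w)).Connected ∧ ∀ x, 3 ≤ ((HG (dat s0 R w)).neighborSet x).ncard

/-! ### Task B -/

def S_B1 : Prop := ∀ {T I V W : Type} [Fintype V] [Fintype W] (X : Data T I V)
  (G : SimpleGraph W) (B K : ℕ), CoreOK X → 3 * Fintype.card V + 1 ≤ K → Sp B K G →
  NucFacts X G

def S_B2 : Prop := ∀ {T I V W GG : Type} [Fintype V] [Fintype W] [Group GG] (X : Data T I V)
  (G : SimpleGraph W) (v : T → T → GG) (B K : ℕ), CoreOK X →
  (∀ s t, X.TA.Adj s t → v t s = (v s t)⁻¹) →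
  NucFacts X G → 1 ≤ B → Fintype.card V + 2 * B + 1 ≤ K → Sp B K G →
  ∃ FF : Finset (Cl T V W GG), GoodFam X G v B FF

def S_B2c : Prop := ∀ {T I V W GG : Type} [Fintype V] [Fintype W] [Group GG] (X : Data T I V)
  (G : SimpleGraph W) (v : T → T → GG) (B K : ℕ), CoreOK X → NucFacts X G →
  Fintype.card V + 2 * B + 1 ≤ K → Sp B K G → ∀ c : Cl T V W GG, ClOK X G v B c →
  ClFacts X G c

/-- the (T)-part of Lemma CORE -/
def S_B3T : Prop := ∀ {T I V W GG : Type} [Fintype V] [Fintype W] [Group GG]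
  (X : Data T I V) (G : SimpleGraph W) (v : T → T → GG) (B : ℕ)
  (FF : Finset (Cl T V W GG)), CoreOK X → Volt X v → NucFacts X G → GoodFam X G v B FF →
  (∀ c ∈ FF, ClFacts X G c) → ∀ ψ : V → W, Function.Injective ψ → ∀ f0 : Sym2 V,
  (∀ a b, X.C.Adj a b → s(a, b) ≠ f0 → (Gh X G v FF).Adj (ψ a) (ψ b)) →
  ∀ c ∈ FF, ee X.C {a | ψ a ∈ c.S} {a | ψ a ∈ c.S} +
    2 * ee X.C {a | ψ a ∈ c.S} {a | ψ a ∈ Z c.φ} ≤ 22 * #{a | ψ a ∈ c.S}

/-- Lemma CORE -/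
def S_B3 : Prop := ∀ {T I V W GG : Type} [Fintype V] [Fintype W] [Group GG]
  (X : Data T I V) (G : SimpleGraph W) (v : T → T → GG) (B K : ℕ)
  (FF : Finset (Cl T V W GG)), CoreOK X → Volt X v → NucFacts X G → GoodFam X G v B FF →
  (∀ c ∈ FF, ClFacts X G c) →
  10 * (Fintype.card V + 1) * (Fintype.card V + B + 1) ≤ K → Sp B K G →
  ∀ ψ : V → W, Function.Injective ψ → ∀ f0 : Sym2 V,
  (∀ a b, X.C.Adj a b → s(a, b) ≠ f0 → (Gh X G v FF).Adj (ψ a) (ψ b)) → IsNuc X G ψ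

/-- the hat graph is closed -/
def S_B4 : Prop := ∀ {T I V W GG : Type} [Fintype V] [Fintype W] [Group GG]
  (X : Data T I V) (G : SimpleGraph W) (v : T → T → GG) (B : ℕ)
  (FF : Finset (Cl T V W GG)), CoreOK X → CycOK X → Volt X v → NucFacts X G →
  GoodFam X G v B FF → (∀ c ∈ FF, ClFacts X G c) →
  (∀ ψ : V → W, Function.Injective ψ → ∀ f0 : Sym2 V,
    (∀ a b, X.C.Adj a b → s(a, b) ≠ f0 → (Gh X G v FF).Adj (ψ a) (ψ b)) → IsNuc X G ψ) →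
  HClosed (HG X) (Gh X G v FF)

def S_partB : Prop := ∀ {T I V : Type} [Fintype T] [Fintype I] [Fintype V] [Nonempty T]
  (X : Data T I V), CoreOK X → CycOK X → ∀ {GG : Type} [Group GG] (v : T → T → GG),
  Volt X v → ∀ B : ℕ, ∃ K : ℕ, ∀ (n : ℕ) (G : SimpleGraph (Fin n)),
    Fintype.card V ≤ n → Sp B K G → ¬ Percolates (HG X) G

/-! ### Task A -/

/-- the infinite graph is sparse -/
def S_A_sparse : Prop := ∀ {T I V : Type} [Fintype V] (X : Data T I V),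
  CoreOK X → CycOK X → ∀ (hub : T) (a0 b0 : V), X.C.Adj a0 b0 →
  Sparse (AA X hub s(a0, b0))

/-- finite character: finitely many edges of the hull come from a finite part of `G` -/
def S_A_finite : Prop := ∀ {V W : Type} [Finite V] (H : SimpleGraph V) (G : SimpleGraph W)
  (K : Finset W), (∀ x ∈ K, ∀ y ∈ K, x ≠ y → (hull H G).Adj x y) →
  ∃ U : Finset W, K ⊆ U ∧ ∀ x ∈ K, ∀ y ∈ K, x ≠ y →
    (hull H (SimpleGraph.fromRel fun x y => x ∈ U ∧ y ∈ U ∧ G.Adj x y)).Adj x y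

/-- the fiftieth class of the children of the root is a clique -/
def S_A_clique : Prop := ∀ {T I V : Type} [Fintype I] [Nonempty I] [Fintype V]
  (X : Data T I V), CoreOK X → CycOK X → ∀ (hub : T) (b : Fin 51 → T),
  Function.Injective b → ∀ (e0 : Sym2 V),
  (∀ α β : Fin 51, α ≠ β → ∀ i j : ℕ,
    (hull (HG X) (AA X hub e0)).Adj (.inr [(b α, i)]) (.inr [(b β, j)])) →
  ∀ i j : ℕ, i ≠ j → (hull (HG X) (AA X hub e0)).Adj (.inr [(b 48, i)]) (.inr [(b 48, j)])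

/-- growth -/
def S_A_grow : Prop := ∀ {T I V : Type} [Fintype I] [Fintype V] (X : Data T I V),
  CoreOK X → ∀ (n : ℕ) (G G' : SimpleGraph (Fin n)), G ≤ G' → HClosed (HG X) G' → CN G →
  ∀ Q : Finset (Fin n), Fintype.card (HV X) + 3 ≤ #Q →
  (∀ x ∈ Q, ∀ y ∈ Q, x ≠ y → G'.Adj x y) → G' = ⊤

def S_partA : Prop := ∀ {T I V : Type} [Fintype T] [Fintype I] [Nonempty I] [Fintype V]
  (X : Data T I V), CoreOK X → CycOK X → ∀ (hub : T) (b : Fin 51 → T),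
  Function.Injective b → ∀ (a0 b0 : V), X.C.Adj a0 b0 →
  (∀ α β : Fin 51, α ≠ β → ∀ i j : ℕ,
    (hull (HG X) (AA X hub s(a0, b0))).Adj (.inr [(b α, i)]) (.inr [(b β, j)])) →
  ∃ (a : ℕ) (A : SimpleGraph (Fin a)), Sparse A ∧
    ∀ (n : ℕ) (G : SimpleGraph (Fin n)), Contains A G → CN G → Percolates (HG X) G

/-- the group action: children of the root of different types `b` are joined -/
def S_multi : Prop := ∀ (s0 : ℕ) (R : Finset (FreeGroup (Fin s0)))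
  (w : List (Fin s0 × Bool)),
  FreeGroup.mk w ∈ Subgroup.normalClosure (R : Set (FreeGroup (Fin s0))) →
  ∀ (a0 b0 : VC (Fintype.card (Ty s0))), (coreC _).Adj a0 b0 →
  ∀ α β : Fin 51, α ≠ β → ∀ i j : ℕ,
    (hull (HG (dat s0 R w)) (AA (dat s0 R w) .hub s(a0, b0))).Adj
      (.inr [(.b α, i)]) (.inr [(.b β, j)])

/-! ### Tasks P -/

def S_contains : Prop := ∀ {a : ℕ} (A : SimpleGraph (Fin a)), Sparse A →
  ∃ β : ℝ, 1 / 16 < β ∧ β < 1 / 3 ∧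
    Tendsto (fun n : ℕ => prob n ((n : ℝ) ^ (-β)) (Contains A)) atTop (𝓝 1)

def S_cn : Prop := ∀ β : ℝ, 0 < β → β < 1 / 3 →
  Tendsto (fun n : ℕ => prob n ((n : ℝ) ^ (-β)) CN) atTop (𝓝 1)

def S_sp : Prop := ∀ β : ℝ, 1 / 16 < β → ∃ B : ℕ, ∀ K : ℕ, ∀ᶠ n : ℕ in atTop,
  ∀ p : ℝ, 0 ≤ p → p ≤ (n : ℝ) ^ (-β) → 1 / 2 < prob n p (Sp B K)

def S_pc_pos : Prop := ∀ {V : Type} [Finite V] (H : SimpleGraph V),
  (∃ a b c : V, b ≠ c ∧ H.Adj a b ∧ H.Adj a c) → ∀ n : ℕ, 2 ≤ n → 0 < pc H n ∧ pc H n ≤ 1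

/-! ### Task Q -/

def S_code : Prop := ∀ (s0 : ℕ) (R : Finset (FreeGroup (Fin s0))),
  ∃ code : List (Fin s0 × Bool) → ℕ × List (ℕ × ℕ), Computable code ∧
    ∀ w, Nonempty (graphOf (code w) ≃g HG (dat s0 R w))

end Pool.Agent.H533HB
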